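import Pool.Agent.Helper95.SP.Crude.CovDefs

/-! Box computations, part 10. -/

set_option autoImplicit false

namespace Pool.Agent.Helper95.SP.Crude

def tr_A102_1 : Tr :=
    (.x (.u .l (.x .l .l)) (.u .l (.x .l .l)))

theorem run_A102_1 :
    cov 1 0 (t02 ^ 2) 1 (fun b => decide (9 * t02 < b.X0 + b.U0)) (rbA t02 (lineQ 0 9 (952 /
    1000) 0 0)) tr_A102_1 (mk t02 (478 / 1000) (66 / 100) 0 (66 / 100) 0 0).ul = true := by
  decide +kernel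

def tr_A102_2 : Tr :=
    (.x .l (.u .l .l))

theorem run_A102_2 :
    cov 1 0 (t02 ^ 2) 1 (fun b => decide (9 * t02 < b.X0 + b.U0)) (rbA t02 (lineQ 0 9 (952 /
    1000) 0 0)) tr_A102_2 (mk t02 (478 / 1000) (66 / 100) 0 (66 / 100) 0 0).ur.ul.xl.ul = true := by
  decide +kernel

def tr_A102_3 : Tr :=
    (.x (.u .l .l) .l)

theorem run_A102_3 :
    cov 1 0 (t02 ^ 2) 1 (fun b => decide (9 * t02 < b.X0 + b.U0)) (rbA t02 (lineQ 0 9 (952 /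
    1000) 0 0)) tr_A102_3 (mk t02 (478 / 1000) (66 / 100) 0 (66 / 100) 0 0).ur.ul.xl.ur.xl.ul = true := by
  decide +kernel

def tr_A102_4 : Tr :=
    (.u (.x (.u .l .l) (.u .l .l)) (.x (.u (.x .l .l) .l) (.u (.x .l .l) .l)))

theorem run_A102_4 :
    cov 1 0 (t02 ^ 2) 1 (fun b => decide (9 * t02 < b.X0 + b.U0)) (rbA t02 (lineQ 0 9 (952 /
    1000) 0 0)) tr_A102_4 (mk t02 (478 / 1000) (66 / 100) 0 (66 / 100) 0
    0).ur.ul.xl.ur.xl.ur.xl = true := by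
  decide +kernel

def tr_A102_5 : Tr :=
    (.u (.x (.u .l .l) (.u .l .l)) (.x (.u (.x .l (.u .l .l)) .l) (.u (.x (.u .l .l) (.u .l .l))
    .l)))

theorem run_A102_5 :
    cov 1 0 (t02 ^ 2) 1 (fun b => decide (9 * t02 < b.X0 + b.U0)) (rbA t02 (lineQ 0 9 (952 /
    1000) 0 0)) tr_A102_5 (mk t02 (478 / 1000) (66 / 100) 0 (66 / 100) 0
    0).ur.ul.xl.ur.xl.ur.xr = true := by
  decide +kernel

def tr_A102_6 : Tr :=
    (.x .l .l)

theorem run_A102_6 :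
    cov 1 0 (t02 ^ 2) 1 (fun b => decide (9 * t02 < b.X0 + b.U0)) (rbA t02 (lineQ 0 9 (952 /
    1000) 0 0)) tr_A102_6 (mk t02 (478 / 1000) (66 / 100) 0 (66 / 100) 0 0).ur.ul.xl.ur.xr.ul = true := by
  decide +kernel

def tr_A102_7 : Tr :=
    (.u (.x (.u .l .l) (.u .l .l)) (.x (.u (.x (.u .l .l) (.u .l .l)) .l) (.u (.x (.u .l .l) (.u
    .l .l)) .l)))

theorem run_A102_7 :
    cov 1 0 (t02 ^ 2) 1 (fun b => decide (9 * t02 < b.X0 + b.U0)) (rbA t02 (lineQ 0 9 (952 /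
    1000) 0 0)) tr_A102_7 (mk t02 (478 / 1000) (66 / 100) 0 (66 / 100) 0
    0).ur.ul.xl.ur.xr.ur.xl = true := by
  decide +kernel

def tr_A102_8 : Tr :=
    (.u (.x (.u .l .l) (.u .l .l)) (.x (.u (.x .l .l) .l) (.u .l .l)))

theorem run_A102_8 :
    cov 1 0 (t02 ^ 2) 1 (fun b => decide (9 * t02 < b.X0 + b.U0)) (rbA t02 (lineQ 0 9 (952 /
    1000) 0 0)) tr_A102_8 (mk t02 (478 / 1000) (66 / 100) 0 (66 / 100) 0
    0).ur.ul.xl.ur.xr.ur.xr = true := by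
  decide +kernel

def tr_A102_9 : Tr :=
    (.x .l .l)

theorem run_A102_9 :
    cov 1 0 (t02 ^ 2) 1 (fun b => decide (9 * t02 < b.X0 + b.U0)) (rbA t02 (lineQ 0 9 (952 /
    1000) 0 0)) tr_A102_9 (mk t02 (478 / 1000) (66 / 100) 0 (66 / 100) 0 0).ur.ul.xr.ul = true := by
  decide +kernel

def tr_A102_10 : Tr :=
    (.u (.x .l .l) (.x (.u (.x .l .l) (.x (.u .l .l) (.u .l .l))) (.u (.x .l .l) (.x .l .l))))

theorem run_A102_10 :
    cov 1 0 (t02 ^ 2) 1 (fun b => decide (9 * t02 < b.X0 + b.U0)) (rbA t02 (lineQ 0 9 (952 /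
    1000) 0 0)) tr_A102_10 (mk t02 (478 / 1000) (66 / 100) 0 (66 / 100) 0 0).ur.ul.xr.ur.xl = true := by
  decide +kernel

def tr_A102_11 : Tr :=
    (.u (.x .l .l) (.x (.u .l (.x .l .l)) (.u .l .l)))

theorem run_A102_11 :
    cov 1 0 (t02 ^ 2) 1 (fun b => decide (9 * t02 < b.X0 + b.U0)) (rbA t02 (lineQ 0 9 (952 /
    1000) 0 0)) tr_A102_11 (mk t02 (478 / 1000) (66 / 100) 0 (66 / 100) 0 0).ur.ul.xr.ur.xr = true := by
  decide +kernel

def tr_A102_12 : Tr :=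
    (.u (.x (.u (.x .l (.u .l .l)) .l) (.u (.x (.u .l .l) (.u .l .l)) .l)) .l)

theorem run_A102_12 :
    cov 1 0 (t02 ^ 2) 1 (fun b => decide (9 * t02 < b.X0 + b.U0)) (rbA t02 (lineQ 0 9 (952 /
    1000) 0 0)) tr_A102_12 (mk t02 (478 / 1000) (66 / 100) 0 (66 / 100) 0 0).ur.ur.xl = true := by
  decide +kernel

def tr_A102_13 : Tr :=
    (.x (.u (.x (.u .l .l) (.u .l .l)) (.x .l .l)) (.u (.x (.u .l .l) (.u .l .l)) (.x .l (.u .l
    .l))))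

theorem run_A102_13 :
    cov 1 0 (t02 ^ 2) 1 (fun b => decide (9 * t02 < b.X0 + b.U0)) (rbA t02 (lineQ 0 9 (952 /
    1000) 0 0)) tr_A102_13 (mk t02 (478 / 1000) (66 / 100) 0 (66 / 100) 0 0).ur.ur.xr.ul = true := by
  decide +kernel

def tr_A102_14 : Tr :=
    (.x (.u .l .l) (.u (.x .l (.u .l .l)) (.x .l (.u .l .l))))

theorem run_A102_14 :
    cov 1 0 (t02 ^ 2) 1 (fun b => decide (9 * t02 < b.X0 + b.U0)) (rbA t02 (lineQ 0 9 (952 /
    1000) 0 0)) tr_A102_14 (mk t02 (478 / 1000) (66 / 100) 0 (66 / 100) 0 0).ur.ur.xr.ur = true := by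
  decide +kernel

def tr_A102 : Tr :=
    (.u tr_A102_1 (.u (.x (.u tr_A102_2 (.x (.u tr_A102_3 (.x tr_A102_4 tr_A102_5)) (.u
    tr_A102_6 (.x tr_A102_7 tr_A102_8)))) (.u tr_A102_9 (.x tr_A102_10 tr_A102_11))) (.x
    tr_A102_12 (.u tr_A102_13 tr_A102_14))))

theorem run_A102 :
    covA t02 1 9 (lineQ 0 9 (952 / 1000) 0 0) tr_A102 (478 / 1000) (66 / 100) 0 (66 / 100) = true :=
  cov_u run_A102_1 (cov_u (cov_x (cov_u run_A102_2 (cov_x (cov_u run_A102_3 (cov_x run_A102_4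
    run_A102_5)) (cov_u run_A102_6 (cov_x run_A102_7 run_A102_8)))) (cov_u run_A102_9 (cov_x
    run_A102_10 run_A102_11))) (cov_x run_A102_12 (cov_u run_A102_13 run_A102_14)))

end Pool.Agent.Helper95.SP.Crude
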