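import Pool.Agent.Helper95.SP.Crude.CovDefs

/-! Box computations, part 11. -/

set_option autoImplicit false

namespace Pool.Agent.Helper95.SP.Crude

def tr_A104_1 : Tr :=
    .l

theorem run_A104_1 :
    cov 1 0 (t04 ^ 2) 1 (fun b => decide (9 * t04 < b.X0 + b.U0)) (rbA t04 (lineQ (49 / 100) 9
    (975 / 1000) (2 / 10) (4875 / 10000))) tr_A104_1 (mk t04 (478 / 1000) (54 / 100) (475 /
    1000) (54 / 100) 0 0).ul.xl.ul.xl.ul = true := by
  decide +kernel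

def tr_A104_2 : Tr :=
    (.u .l .l)

theorem run_A104_2 :
    cov 1 0 (t04 ^ 2) 1 (fun b => decide (9 * t04 < b.X0 + b.U0)) (rbA t04 (lineQ (49 / 100) 9
    (975 / 1000) (2 / 10) (4875 / 10000))) tr_A104_2 (mk t04 (478 / 1000) (54 / 100) (475 /
    1000) (54 / 100) 0 0).ul.xl.ul.xl.ur.xl = true := by
  decide +kernel

def tr_A104_3 : Tr :=
    .l

theorem run_A104_3 :
    cov 1 0 (t04 ^ 2) 1 (fun b => decide (9 * t04 < b.X0 + b.U0)) (rbA t04 (lineQ (49 / 100) 9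
    (975 / 1000) (2 / 10) (4875 / 10000))) tr_A104_3 (mk t04 (478 / 1000) (54 / 100) (475 /
    1000) (54 / 100) 0 0).ul.xl.ul.xl.ur.xr.ul = true := by
  decide +kernel

def tr_A104_4 : Tr :=
    (.u (.x .l .l) (.x .l (.u (.x .l (.u .l .l)) .l)))

theorem run_A104_4 :
    cov 1 0 (t04 ^ 2) 1 (fun b => decide (9 * t04 < b.X0 + b.U0)) (rbA t04 (lineQ (49 / 100) 9
    (975 / 1000) (2 / 10) (4875 / 10000))) tr_A104_4 (mk t04 (478 / 1000) (54 / 100) (475 /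
    1000) (54 / 100) 0 0).ul.xl.ul.xl.ur.xr.ur.xl = true := by
  decide +kernel

def tr_A104_5 : Tr :=
    (.u (.x .l .l) (.x (.u (.x (.u .l (.x (.u .l .l) .l)) .l) (.x (.u (.x .l .l) .l) .l)) .l))

theorem run_A104_5 :
    cov 1 0 (t04 ^ 2) 1 (fun b => decide (9 * t04 < b.X0 + b.U0)) (rbA t04 (lineQ (49 / 100) 9
    (975 / 1000) (2 / 10) (4875 / 10000))) tr_A104_5 (mk t04 (478 / 1000) (54 / 100) (475 /
    1000) (54 / 100) 0 0).ul.xl.ul.xl.ur.xr.ur.xr = true := by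
  decide +kernel

def tr_A104_6 : Tr :=
    (.u (.x .l .l) (.x (.u (.x .l .l) (.x .l .l)) (.u (.x .l .l) .l)))

theorem run_A104_6 :
    cov 1 0 (t04 ^ 2) 1 (fun b => decide (9 * t04 < b.X0 + b.U0)) (rbA t04 (lineQ (49 / 100) 9
    (975 / 1000) (2 / 10) (4875 / 10000))) tr_A104_6 (mk t04 (478 / 1000) (54 / 100) (475 /
    1000) (54 / 100) 0 0).ul.xl.ul.xr = true := by
  decide +kernel

def tr_A104_7 : Tr :=
    (.x (.u (.x .l (.u (.x .l (.u (.x (.u (.x .l .l) .l) .l) (.x .l .l))) .l)) .l) (.u (.x .l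
    .l) .l))

theorem run_A104_7 :
    cov 1 0 (t04 ^ 2) 1 (fun b => decide (9 * t04 < b.X0 + b.U0)) (rbA t04 (lineQ (49 / 100) 9
    (975 / 1000) (2 / 10) (4875 / 10000))) tr_A104_7 (mk t04 (478 / 1000) (54 / 100) (475 /
    1000) (54 / 100) 0 0).ul.xl.ur = true := by
  decide +kernel

def tr_A104_8 : Tr :=
    (.u (.x (.u (.x .l .l) (.x (.u (.x .l .l) .l) (.u .l .l))) (.x (.u .l .l) (.u .l .l))) (.x
    (.u .l .l) .l))

theorem run_A104_8 :
    cov 1 0 (t04 ^ 2) 1 (fun b => decide (9 * t04 < b.X0 + b.U0)) (rbA t04 (lineQ (49 / 100) 9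
    (975 / 1000) (2 / 10) (4875 / 10000))) tr_A104_8 (mk t04 (478 / 1000) (54 / 100) (475 /
    1000) (54 / 100) 0 0).ul.xr = true := by
  decide +kernel

def tr_A104_9 : Tr :=
    (.x (.u (.x .l .l) .l) (.u .l .l))

theorem run_A104_9 :
    cov 1 0 (t04 ^ 2) 1 (fun b => decide (9 * t04 < b.X0 + b.U0)) (rbA t04 (lineQ (49 / 100) 9
    (975 / 1000) (2 / 10) (4875 / 10000))) tr_A104_9 (mk t04 (478 / 1000) (54 / 100) (475 /
    1000) (54 / 100) 0 0).ur = true := by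
  decide +kernel

def tr_A104 : Tr :=
    (.u (.x (.u (.x (.u tr_A104_1 (.x tr_A104_2 (.u tr_A104_3 (.x tr_A104_4 tr_A104_5))))
    tr_A104_6) tr_A104_7) tr_A104_8) tr_A104_9)

theorem run_A104 :
    covA t04 1 9 (lineQ (49 / 100) 9 (975 / 1000) (2 / 10) (4875 / 10000)) tr_A104 (478 /
    1000) (54 / 100) (475 / 1000) (54 / 100) = true :=
  cov_u (cov_x (cov_u (cov_x (cov_u run_A104_1 (cov_x run_A104_2 (cov_u run_A104_3 (cov_x
    run_A104_4 run_A104_5)))) run_A104_6) run_A104_7) run_A104_8) run_A104_9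

end Pool.Agent.Helper95.SP.Crude
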