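import Pool.Agent.Helper95.SP.Crude.CovDefs

/-! Box computations, part 12. -/

set_option autoImplicit false

namespace Pool.Agent.Helper95.SP.Crude

def tr_A106_1 : Tr :=
    (.x (.u .l (.x .l .l)) (.u .l (.x .l .l)))

theorem run_A106_1 :
    cov 1 0 (t06 ^ 2) 1 (fun b => decide (9 * t06 < b.X0 + b.U0)) (rbA t06 (lineQ (4975 /
    10000) 9 (993 / 1000) (6 / 10) (4975 / 10000))) tr_A106_1 (mk t06 (49 / 100) (54 / 100)
    (475 / 1000) (54 / 100) 0 0).ul.xl.ul = true := by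
  decide +kernel

def tr_A106_2 : Tr :=
    (.u (.x .l .l) (.x .l (.u (.x .l (.u .l .l)) .l)))

theorem run_A106_2 :
    cov 1 0 (t06 ^ 2) 1 (fun b => decide (9 * t06 < b.X0 + b.U0)) (rbA t06 (lineQ (4975 /
    10000) 9 (993 / 1000) (6 / 10) (4975 / 10000))) tr_A106_2 (mk t06 (49 / 100) (54 / 100)
    (475 / 1000) (54 / 100) 0 0).ul.xl.ur.xl.ul.xl = true := by
  decide +kernel

def tr_A106_3 : Tr :=
    (.x .l .l)

theorem run_A106_3 :
    cov 1 0 (t06 ^ 2) 1 (fun b => decide (9 * t06 < b.X0 + b.U0)) (rbA t06 (lineQ (4975 /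
    10000) 9 (993 / 1000) (6 / 10) (4975 / 10000))) tr_A106_3 (mk t06 (49 / 100) (54 / 100)
    (475 / 1000) (54 / 100) 0 0).ul.xl.ur.xl.ul.xr.ul = true := by
  decide +kernel

def tr_A106_4 : Tr :=
    (.x (.u (.x (.u .l (.x .l .l)) (.u .l .l)) (.x (.u (.x .l (.u (.x .l .l) .l)) .l) .l)) (.u
    (.x .l .l) .l))

theorem run_A106_4 :
    cov 1 0 (t06 ^ 2) 1 (fun b => decide (9 * t06 < b.X0 + b.U0)) (rbA t06 (lineQ (4975 /
    10000) 9 (993 / 1000) (6 / 10) (4975 / 10000))) tr_A106_4 (mk t06 (49 / 100) (54 / 100)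
    (475 / 1000) (54 / 100) 0 0).ul.xl.ur.xl.ul.xr.ur = true := by
  decide +kernel

def tr_A106_5 : Tr :=
    (.x .l (.u (.x .l .l) .l))

theorem run_A106_5 :
    cov 1 0 (t06 ^ 2) 1 (fun b => decide (9 * t06 < b.X0 + b.U0)) (rbA t06 (lineQ (4975 /
    10000) 9 (993 / 1000) (6 / 10) (4975 / 10000))) tr_A106_5 (mk t06 (49 / 100) (54 / 100)
    (475 / 1000) (54 / 100) 0 0).ul.xl.ur.xl.ur = true := by
  decide +kernel

def tr_A106_6 : Tr :=
    (.u (.x (.u (.x .l .l) (.x .l .l)) (.u (.x .l .l) .l)) (.x .l .l))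

theorem run_A106_6 :
    cov 1 0 (t06 ^ 2) 1 (fun b => decide (9 * t06 < b.X0 + b.U0)) (rbA t06 (lineQ (4975 /
    10000) 9 (993 / 1000) (6 / 10) (4975 / 10000))) tr_A106_6 (mk t06 (49 / 100) (54 / 100)
    (475 / 1000) (54 / 100) 0 0).ul.xl.ur.xr = true := by
  decide +kernel

def tr_A106_7 : Tr :=
    (.u (.x (.u .l (.x .l .l)) (.u .l .l)) (.x (.u (.x .l .l) .l) .l))

theorem run_A106_7 :
    cov 1 0 (t06 ^ 2) 1 (fun b => decide (9 * t06 < b.X0 + b.U0)) (rbA t06 (lineQ (4975 /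
    10000) 9 (993 / 1000) (6 / 10) (4975 / 10000))) tr_A106_7 (mk t06 (49 / 100) (54 / 100)
    (475 / 1000) (54 / 100) 0 0).ul.xr = true := by
  decide +kernel

def tr_A106_8 : Tr :=
    (.x (.u (.x .l .l) .l) (.u (.x .l .l) .l))

theorem run_A106_8 :
    cov 1 0 (t06 ^ 2) 1 (fun b => decide (9 * t06 < b.X0 + b.U0)) (rbA t06 (lineQ (4975 /
    10000) 9 (993 / 1000) (6 / 10) (4975 / 10000))) tr_A106_8 (mk t06 (49 / 100) (54 / 100)
    (475 / 1000) (54 / 100) 0 0).ur = true := by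
  decide +kernel

def tr_A106 : Tr :=
    (.u (.x (.u tr_A106_1 (.x (.u (.x tr_A106_2 (.u tr_A106_3 tr_A106_4)) tr_A106_5) tr_A106_6))
    tr_A106_7) tr_A106_8)

theorem run_A106 :
    covA t06 1 9 (lineQ (4975 / 10000) 9 (993 / 1000) (6 / 10) (4975 / 10000)) tr_A106 (49 /
    100) (54 / 100) (475 / 1000) (54 / 100) = true :=
  cov_u (cov_x (cov_u run_A106_1 (cov_x (cov_u (cov_x run_A106_2 (cov_u run_A106_3
    run_A106_4)) run_A106_5) run_A106_6)) run_A106_7) run_A106_8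

end Pool.Agent.Helper95.SP.Crude
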