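import Pool.Agent.Helper95.SP.Crude.CovDefs

/-! Box computations, part 13. -/

set_option autoImplicit false

namespace Pool.Agent.Helper95.SP.Crude

def tr_A108_1 : Tr :=
    (.x .l .l)

theorem run_A108_1 :
    cov 1 0 (t08 ^ 2) 1 (fun b => decide (9 * t08 < b.X0 + b.U0)) (rbA t08 (lineQ (5065 /
    10000) 9 (1008 / 1000) (15 / 10) (5065 / 10000))) tr_A108_1 (mk t08 (4975 / 10000) (54 /
    100) (475 / 1000) (54 / 100) 0 0).ul.xl.ul = true := by
  decide +kernel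

def tr_A108_2 : Tr :=
    (.u (.x .l .l) (.x (.u (.x .l .l) .l) (.u (.x .l .l) (.x (.u .l .l) (.u .l (.x (.u .l (.x .l
    .l)) .l))))))

theorem run_A108_2 :
    cov 1 0 (t08 ^ 2) 1 (fun b => decide (9 * t08 < b.X0 + b.U0)) (rbA t08 (lineQ (5065 /
    10000) 9 (1008 / 1000) (15 / 10) (5065 / 10000))) tr_A108_2 (mk t08 (4975 / 10000) (54 /
    100) (475 / 1000) (54 / 100) 0 0).ul.xl.ur.xl = true := by
  decide +kernel

def tr_A108_3 : Tr :=
    (.u (.x .l .l) (.x (.u .l .l) .l))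

theorem run_A108_3 :
    cov 1 0 (t08 ^ 2) 1 (fun b => decide (9 * t08 < b.X0 + b.U0)) (rbA t08 (lineQ (5065 /
    10000) 9 (1008 / 1000) (15 / 10) (5065 / 10000))) tr_A108_3 (mk t08 (4975 / 10000) (54 /
    100) (475 / 1000) (54 / 100) 0 0).ul.xl.ur.xr = true := by
  decide +kernel

def tr_A108_4 : Tr :=
    (.u (.x .l .l) (.x (.u (.x .l .l) .l) .l))

theorem run_A108_4 :
    cov 1 0 (t08 ^ 2) 1 (fun b => decide (9 * t08 < b.X0 + b.U0)) (rbA t08 (lineQ (5065 /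
    10000) 9 (1008 / 1000) (15 / 10) (5065 / 10000))) tr_A108_4 (mk t08 (4975 / 10000) (54 /
    100) (475 / 1000) (54 / 100) 0 0).ul.xr = true := by
  decide +kernel

def tr_A108_5 : Tr :=
    (.x (.u (.x (.u (.x .l (.u (.x .l (.u (.x .l .l) .l)) .l)) .l) (.u (.x .l .l) .l)) .l) (.u
    .l .l))

theorem run_A108_5 :
    cov 1 0 (t08 ^ 2) 1 (fun b => decide (9 * t08 < b.X0 + b.U0)) (rbA t08 (lineQ (5065 /
    10000) 9 (1008 / 1000) (15 / 10) (5065 / 10000))) tr_A108_5 (mk t08 (4975 / 10000) (54 /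
    100) (475 / 1000) (54 / 100) 0 0).ur = true := by
  decide +kernel

def tr_A108 : Tr :=
    (.u (.x (.u tr_A108_1 (.x tr_A108_2 tr_A108_3)) tr_A108_4) tr_A108_5)

theorem run_A108 :
    covA t08 1 9 (lineQ (5065 / 10000) 9 (1008 / 1000) (15 / 10) (5065 / 10000)) tr_A108 (4975
    / 10000) (54 / 100) (475 / 1000) (54 / 100) = true :=
  cov_u (cov_x (cov_u run_A108_1 (cov_x run_A108_2 run_A108_3)) run_A108_4) run_A108_5

def tr_A110_1 : Tr :=
    (.u .l (.x (.u .l (.x (.u .l .l) (.u .l .l))) (.u .l (.x (.u .l .l) (.u .l .l)))))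

theorem run_A110_1 :
    cov 1 0 (t10 ^ 2) 1 (fun b => decide (9 * t10 < b.X0 + b.U0)) (rbA t10 (lineQ (5125 /
    10000) 9 (1016 / 1000) (14 / 10) (5125 / 10000))) tr_A110_1 (mk t10 (5065 / 10000) (54 /
    100) (475 / 1000) (54 / 100) 0 0).ul.xl = true := by
  decide +kernel

def tr_A110_2 : Tr :=
    (.u .l (.x (.u .l .l) .l))

theorem run_A110_2 :
    cov 1 0 (t10 ^ 2) 1 (fun b => decide (9 * t10 < b.X0 + b.U0)) (rbA t10 (lineQ (5125 /
    10000) 9 (1016 / 1000) (14 / 10) (5125 / 10000))) tr_A110_2 (mk t10 (5065 / 10000) (54 /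
    100) (475 / 1000) (54 / 100) 0 0).ul.xr = true := by
  decide +kernel

def tr_A110_3 : Tr :=
    (.x (.u .l (.x .l (.u .l (.x .l .l)))) (.x (.u .l (.u .l (.x .l .l))) .l))

theorem run_A110_3 :
    cov 1 0 (t10 ^ 2) 1 (fun b => decide (9 * t10 < b.X0 + b.U0)) (rbA t10 (lineQ (5125 /
    10000) 9 (1016 / 1000) (14 / 10) (5125 / 10000))) tr_A110_3 (mk t10 (5065 / 10000) (54 /
    100) (475 / 1000) (54 / 100) 0 0).ur.ul.xl.ul.xl.ul = true := by
  decide +kernel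

def tr_A110_4 : Tr :=
    (.x .l (.u (.x (.u (.x (.u .l .l) (.u .l (.x .l .l))) (.x .l (.u (.x .l (.u .l .l)) .l)))
    .l) (.x .l .l)))

theorem run_A110_4 :
    cov 1 0 (t10 ^ 2) 1 (fun b => decide (9 * t10 < b.X0 + b.U0)) (rbA t10 (lineQ (5125 /
    10000) 9 (1016 / 1000) (14 / 10) (5125 / 10000))) tr_A110_4 (mk t10 (5065 / 10000) (54 /
    100) (475 / 1000) (54 / 100) 0 0).ur.ul.xl.ul.xl.ur = true := by
  decide +kernel

def tr_A110_5 : Tr :=
    (.x .l .l)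

theorem run_A110_5 :
    cov 1 0 (t10 ^ 2) 1 (fun b => decide (9 * t10 < b.X0 + b.U0)) (rbA t10 (lineQ (5125 /
    10000) 9 (1016 / 1000) (14 / 10) (5125 / 10000))) tr_A110_5 (mk t10 (5065 / 10000) (54 /
    100) (475 / 1000) (54 / 100) 0 0).ur.ul.xl.ul.xr = true := by
  decide +kernel

def tr_A110_6 : Tr :=
    (.x .l .l)

theorem run_A110_6 :
    cov 1 0 (t10 ^ 2) 1 (fun b => decide (9 * t10 < b.X0 + b.U0)) (rbA t10 (lineQ (5125 /
    10000) 9 (1016 / 1000) (14 / 10) (5125 / 10000))) tr_A110_6 (mk t10 (5065 / 10000) (54 /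
    100) (475 / 1000) (54 / 100) 0 0).ur.ul.xl.ur = true := by
  decide +kernel

def tr_A110_7 : Tr :=
    (.x .l .l)

theorem run_A110_7 :
    cov 1 0 (t10 ^ 2) 1 (fun b => decide (9 * t10 < b.X0 + b.U0)) (rbA t10 (lineQ (5125 /
    10000) 9 (1016 / 1000) (14 / 10) (5125 / 10000))) tr_A110_7 (mk t10 (5065 / 10000) (54 /
    100) (475 / 1000) (54 / 100) 0 0).ur.ul.xr = true := by
  decide +kernel

def tr_A110_8 : Tr :=
    (.x .l .l)

theorem run_A110_8 :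
    cov 1 0 (t10 ^ 2) 1 (fun b => decide (9 * t10 < b.X0 + b.U0)) (rbA t10 (lineQ (5125 /
    10000) 9 (1016 / 1000) (14 / 10) (5125 / 10000))) tr_A110_8 (mk t10 (5065 / 10000) (54 /
    100) (475 / 1000) (54 / 100) 0 0).ur.ur = true := by
  decide +kernel

def tr_A110 : Tr :=
    (.u (.x tr_A110_1 tr_A110_2) (.u (.x (.u (.x (.u tr_A110_3 tr_A110_4) tr_A110_5) tr_A110_6)
    tr_A110_7) tr_A110_8))

theorem run_A110 :
    covA t10 1 9 (lineQ (5125 / 10000) 9 (1016 / 1000) (14 / 10) (5125 / 10000)) tr_A110 (5065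
    / 10000) (54 / 100) (475 / 1000) (54 / 100) = true :=
  cov_u (cov_x run_A110_1 run_A110_2) (cov_u (cov_x (cov_u (cov_x (cov_u run_A110_3
    run_A110_4) run_A110_5) run_A110_6) run_A110_7) run_A110_8)

end Pool.Agent.Helper95.SP.Crude
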