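import Pool.Agent.Helper95.SP.Crude.CovDefs

/-! Box computations, part 9. -/

set_option autoImplicit false

namespace Pool.Agent.Helper95.SP.Crude

def tr_A102b_1 : Tr :=
    .l

theorem run_A102b_1 :
    cov 1 0 (t02 ^ 2) 1 (fun b => decide ((126 / 100) * t02 < b.X0 + b.U0)) (rbA t02 (lineQ 0
    9 (95 / 100) 0 0)) tr_A102b_1 (mk t02 (66 / 100) (72 / 100) 0 (6 / 10) 0 0).ul = true := by
  decide +kernel

def tr_A102b_2 : Tr :=
    (.u .l (.x (.u .l .l) .l))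

theorem run_A102b_2 :
    cov 1 0 (t02 ^ 2) 1 (fun b => decide ((126 / 100) * t02 < b.X0 + b.U0)) (rbA t02 (lineQ 0
    9 (95 / 100) 0 0)) tr_A102b_2 (mk t02 (66 / 100) (72 / 100) 0 (6 / 10) 0 0).ur.ul = true := by
  decide +kernel

def tr_A102b_3 : Tr :=
    (.u (.x (.u .l .l) (.u .l .l)) (.x .l (.u .l .l)))

theorem run_A102b_3 :
    cov 1 0 (t02 ^ 2) 1 (fun b => decide ((126 / 100) * t02 < b.X0 + b.U0)) (rbA t02 (lineQ 0
    9 (95 / 100) 0 0)) tr_A102b_3 (mk t02 (66 / 100) (72 / 100) 0 (6 / 10) 0 0).ur.ur.ul.xl = true := by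
  decide +kernel

def tr_A102b_4 : Tr :=
    (.u (.x (.u .l .l) (.u .l (.x .l .l))) (.x (.u .l .l) (.u .l .l)))

theorem run_A102b_4 :
    cov 1 0 (t02 ^ 2) 1 (fun b => decide ((126 / 100) * t02 < b.X0 + b.U0)) (rbA t02 (lineQ 0
    9 (95 / 100) 0 0)) tr_A102b_4 (mk t02 (66 / 100) (72 / 100) 0 (6 / 10) 0 0).ur.ur.ul.xr = true := by
  decide +kernel

def tr_A102b_5 : Tr :=
    (.u (.x (.u .l .l) (.x (.u .l .l) (.u (.x .l .l) (.x .l .l)))) (.x (.u .l (.x .l .l)) (.u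
    (.x .l .l) .l)))

theorem run_A102b_5 :
    cov 1 0 (t02 ^ 2) 1 (fun b => decide ((126 / 100) * t02 < b.X0 + b.U0)) (rbA t02 (lineQ 0
    9 (95 / 100) 0 0)) tr_A102b_5 (mk t02 (66 / 100) (72 / 100) 0 (6 / 10) 0 0).ur.ur.ur = true := by
  decide +kernel

def tr_A102b : Tr :=
    (.u tr_A102b_1 (.u tr_A102b_2 (.u (.x tr_A102b_3 tr_A102b_4) tr_A102b_5)))

theorem run_A102b :
    covA t02 1 (126 / 100) (lineQ 0 9 (95 / 100) 0 0) tr_A102b (66 / 100) (72 / 100) 0 (6 /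
    10) = true :=
  cov_u run_A102b_1 (cov_u run_A102b_2 (cov_u (cov_x run_A102b_3 run_A102b_4) run_A102b_5))

def tr_A120_1 : Tr :=
    (.u (.u .l (.x .l .l)) (.u .l .l))

theorem run_A120_1 :
    cov 1 0 (t20 ^ 2) 1 (fun b => decide (9 * t20 < b.X0 + b.U0)) (rbA t20 (lineQ 0 9 1 0 0))
    tr_A120_1 (mk t20 (5125 / 10000) (5275 / 10000) (475 / 1000) (5275 / 10000) 0 0) = true := by
  decide +kernel

def tr_A120 : Tr :=
    tr_A120_1

theorem run_A120 :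
    covA t20 1 9 (lineQ 0 9 1 0 0) tr_A120 (5125 / 10000) (5275 / 10000) (475 / 1000) (5275 /
    10000) = true :=
  run_A120_1

def tr_A120b_1 : Tr :=
    (.u (.x (.u .l .l) (.u .l .l)) (.x (.u (.x (.u .l .l) (.u .l .l)) (.u .l .l)) (.u (.x .l .l)
    .l)))

theorem run_A120b_1 :
    cov 1 0 (t20 ^ 2) 1 (fun b => decide (9 * t20 < b.X0 + b.U0)) (rbA t20 (lineQ 0 9 (102 /
    100) 1 (5275 / 10000))) tr_A120b_1 (mk t20 (5275 / 10000) (58 / 100) (475 / 1000) (58 /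
    100) 0 0).ul.xl = true := by
  decide +kernel

def tr_A120b_2 : Tr :=
    (.u (.x (.u .l .l) (.u .l .l)) (.x (.u .l .l) (.u .l .l)))

theorem run_A120b_2 :
    cov 1 0 (t20 ^ 2) 1 (fun b => decide (9 * t20 < b.X0 + b.U0)) (rbA t20 (lineQ 0 9 (102 /
    100) 1 (5275 / 10000))) tr_A120b_2 (mk t20 (5275 / 10000) (58 / 100) (475 / 1000) (58 /
    100) 0 0).ul.xr = true := by
  decide +kernel

def tr_A120b_3 : Tr :=
    (.u (.x (.u (.x .l .l) (.x .l .l)) (.x .l .l)) (.x .l .l))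

theorem run_A120b_3 :
    cov 1 0 (t20 ^ 2) 1 (fun b => decide (9 * t20 < b.X0 + b.U0)) (rbA t20 (lineQ 0 9 (102 /
    100) 1 (5275 / 10000))) tr_A120b_3 (mk t20 (5275 / 10000) (58 / 100) (475 / 1000) (58 /
    100) 0 0).ur = true := by
  decide +kernel

def tr_A120b : Tr :=
    (.u (.x tr_A120b_1 tr_A120b_2) tr_A120b_3)

theorem run_A120b :
    covA t20 1 9 (lineQ 0 9 (102 / 100) 1 (5275 / 10000)) tr_A120b (5275 / 10000) (58 / 100)
    (475 / 1000) (58 / 100) = true :=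
  cov_u (cov_x run_A120b_1 run_A120b_2) run_A120b_3

end Pool.Agent.Helper95.SP.Crude
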