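import Pool.Agent.Helper95.SP.Crude.Tab
import Mathlib

/-!
Soundness of the rounding functions and of the rational evaluators `eUp`, `eLo` of `exp (-E)`.
-/

set_option autoImplicit false

namespace Pool.Agent.Helper95.SP.Crude

open Real Finset

theorem dn_le (x : ℚ) : dn x ≤ x := by
  unfold dn
  rw [div_le_iff₀ (by norm_num)]
  exact Int.floor_le _

theorem le_up (x : ℚ) : x ≤ up x := by
  unfold up
  rw [le_div_iff₀ (by norm_num)]
  exact Int.le_ceil _

theorem dnn_le (x : ℚ) : dnn x ≤ x := by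
  unfold dnn
  rw [div_le_iff₀ (by norm_num)]
  exact Int.floor_le _

theorem le_upp (x : ℚ) : x ≤ upp x := by
  unfold upp
  rw [le_div_iff₀ (by norm_num)]
  exact Int.le_ceil _

theorem dn_nonneg {x : ℚ} (h : 0 ≤ x) : 0 ≤ dn x := by
  unfold dn
  have : (0 : ℤ) ≤ ⌊x * 10000⌋ := Int.floor_nonneg.mpr (by positivity)
  have h2 : (0 : ℚ) ≤ ((⌊x * 10000⌋ : ℤ) : ℚ) := by exact_mod_cast this
  positivity

theorem dnn_nonneg {x : ℚ} (h : 0 ≤ x) : 0 ≤ dnn x := by
  unfold dnn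
  have : (0 : ℤ) ≤ ⌊x * 100000000⌋ := Int.floor_nonneg.mpr (by positivity)
  have h2 : (0 : ℚ) ≤ ((⌊x * 100000000⌋ : ℤ) : ℚ) := by exact_mod_cast this
  positivity

theorem ExpQ.expAux_eq (y : ℚ) :
    (expAux y : ℝ) = ∑ i ∈ range 8, (y : ℝ) ^ i / (i.factorial : ℝ) := by
  unfold expAux
  simp only [Finset.sum_range_succ, Finset.sum_range_zero, Nat.factorial]
  push_cast
  ring

theorem ExpQ.expAux_pos {y : ℚ} (h : 0 ≤ y) : 0 < expAux y := by
  unfold expAux
  positivity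

theorem ExpQ.exp_eq (E : ℚ) : exp (-(E : ℝ)) = 1 / exp ((E : ℝ) / 16) ^ 16 := by
  rw [← Real.exp_nat_mul, Real.exp_neg, one_div]
  congr 2
  push_cast
  ring

theorem eUp_sound {E : ℚ} (h : 0 ≤ E) : exp (-(E : ℝ)) ≤ (eUp E : ℝ) := by
  have h0 : (0 : ℝ) ≤ E := by exact_mod_cast h
  have h2 : ((1 / expAux (E / 16) ^ 16 : ℚ) : ℝ) ≤ (eUp E : ℝ) := by
    unfold eUp
    exact Rat.cast_le.mpr (le_upp _)
  refine le_trans ?_ h2
  rw [ExpQ.exp_eq]
  have hp : 0 < expAux (E / 16) := ExpQ.expAux_pos (by positivity)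
  have hp' : (0 : ℝ) < (expAux (E / 16) : ℝ) := by exact_mod_cast hp
  have h3 : (expAux (E / 16) : ℝ) ≤ exp ((E : ℝ) / 16) := by
    rw [ExpQ.expAux_eq]
    have := Real.sum_le_exp_of_nonneg (x := (E : ℝ) / 16) (by positivity) 8
    push_cast
    exact this
  push_cast
  exact one_div_le_one_div_of_le (by positivity) (pow_le_pow_left₀ hp'.le h3 16)

theorem eLo_sound {E : ℚ} (h : 0 ≤ E) : (eLo E : ℝ) ≤ exp (-(E : ℝ)) := by
  have h0 : (0 : ℝ) ≤ E := by exact_mod_cast h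
  unfold eLo
  split_ifs with hE
  · have hE' : (E : ℝ) ≤ 16 := by exact_mod_cast hE
    refine le_trans (Rat.cast_le.mpr (dnn_le _)) ?_
    rw [ExpQ.exp_eq]
    have h3 : exp ((E : ℝ) / 16) ≤ ((expAux (E / 16) + (E / 16) ^ 8 * 9 / 322560 : ℚ) : ℝ) := by
      have := Real.exp_bound' (x := (E : ℝ) / 16) (by positivity) (by linarith) (n := 8)
        (by norm_num)
      push_cast
      rw [ExpQ.expAux_eq]
      push_cast
      refine this.trans (le_of_eq ?_)
      congr 1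
      norm_num [Nat.factorial]
    push_cast at h3 ⊢
    exact one_div_le_one_div_of_le (by positivity) (pow_le_pow_left₀ (exp_pos _).le h3 16)
  · simpa using (exp_pos _).le

theorem eLo_nonneg {E : ℚ} (h : 0 ≤ E) : 0 ≤ eLo E := by
  unfold eLo
  split_ifs with hE
  · refine dnn_nonneg ?_
    have hp : 0 < expAux (E / 16) := ExpQ.expAux_pos (by positivity)
    positivity
  · exact le_rfl

end Pool.Agent.Helper95.SP.Crude
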