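import Pool.Agent.Helper95.SP.Prod

/-!
SP-wave, module IdB: the bracket sinc C ^ 2 - sinc P * sinc Q away from the origin.
-/

set_option autoImplicit false

namespace Pool.Agent.Helper95.SP.Crude

open Real Finset Filter Topology

private theorem idb_abs_le_one (x : ℝ) : |sinc x| ≤ 1 := by
  by_cases hx : x = 0
  · subst hx; simp
  · rw [sinc_of_ne_zero hx, abs_div]
    exact div_le_one_of_le₀ (abs_sin_le_abs) (abs_nonneg _)

private theorem idb_abs_le_inv {y : ℝ} (h : 0 < y) : |sinc y| ≤ 1 / y := by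
  rw [sinc_of_ne_zero h.ne', abs_div, abs_of_pos h]
  exact div_le_div_of_nonneg_right (abs_sin_le_one y) h.le

private theorem idb_sinc_le_exp {y : ℝ} (hy : y ^ 2 ≤ π ^ 2) : sinc y ≤ exp (-(y ^ 2 / 6)) := by
  have h1 : HasSum (fun n : ℕ => (1 : ℝ) / ((n : ℝ) + 1) ^ 2) (π ^ 2 / 6) := by
    have := (hasSum_nat_add_iff' (f := fun n : ℕ => (1 : ℝ) / (n : ℝ) ^ 2) 1).mpr hasSum_zeta_two
    simpa using this
  have h2 := h1.mul_left (-(y ^ 2) / π ^ 2)
  have e : -(y ^ 2) / π ^ 2 * (π ^ 2 / 6) = -(y ^ 2 / 6) := by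
    have := pi_ne_zero
    field_simp
  rw [e] at h2
  have h3 := h2.tendsto_sum_nat
  have h4 := (continuous_exp.tendsto _).comp h3
  refine le_of_tendsto_of_tendsto' (tendsto_sinc y) h4 fun n => ?_
  rw [Function.comp_apply, Real.exp_sum]
  unfold pr
  refine Finset.prod_le_prod (fun j _ => ?_) fun j _ => ?_
  · have h5 : (1:ℝ) ≤ ((j : ℝ) + 1) ^ 2 := by
      have : (1:ℝ) ≤ (j : ℝ) + 1 := by linarith [Nat.cast_nonneg (α := ℝ) j]
      nlinarith
    have hπ : 0 < π ^ 2 := by positivity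
    have h6 : y ^ 2 / (π ^ 2 * ((j : ℝ) + 1) ^ 2) ≤ 1 := by
      rw [div_le_one (by positivity)]
      nlinarith
    rw [neg_div]
    linarith
  · have h7 : -y ^ 2 / (π ^ 2 * ((j : ℝ) + 1) ^ 2) = -(y ^ 2) / π ^ 2 * (1 / ((j : ℝ) + 1) ^ 2) := by
      rw [div_mul_div_comm, mul_one]
    rw [h7]
    have := add_one_le_exp (-(y ^ 2) / π ^ 2 * (1 / ((j : ℝ) + 1) ^ 2))
    linarith

private theorem idb_sinc_nonneg {y : ℝ} (h0 : 0 ≤ y) (h : y ≤ π) : 0 ≤ sinc y := by
  by_cases hy : y = 0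
  · subst hy; simp
  · rw [sinc_of_ne_zero hy]
    exact div_nonneg (sin_nonneg_of_nonneg_of_le_pi h0 h) h0

private theorem idb_sq_le {y : ℝ} (h0 : 0 ≤ y) : sinc y ^ 2 ≤ 1 / (1 + y ^ 2 / 3) := by
  rcases le_total y π with h | h
  · have h1 : y ^ 2 ≤ π ^ 2 := pow_le_pow_left₀ h0 h 2
    have h2 := idb_sinc_le_exp h1
    have h3 := idb_sinc_nonneg h0 h
    have h4 : sinc y ^ 2 ≤ exp (-(y ^ 2 / 6)) ^ 2 := pow_le_pow_left₀ h3 h2 2
    have h5 : exp (-(y ^ 2 / 6)) ^ 2 = 1 / exp (y ^ 2 / 3) := by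
      rw [← Real.exp_nat_mul, one_div, ← Real.exp_neg]
      congr 1
      push_cast
      ring
    rw [h5] at h4
    refine h4.trans ?_
    have h6 := add_one_le_exp (y ^ 2 / 3)
    exact one_div_le_one_div_of_le (by positivity) (by linarith)
  · have hy : 0 < y := lt_of_lt_of_le pi_pos h
    have h1 := idb_abs_le_inv hy
    have h2 : sinc y ^ 2 ≤ (1 / y) ^ 2 := by
      rw [← sq_abs]
      exact pow_le_pow_left₀ (abs_nonneg _) h1 2
    refine h2.trans ?_
    rw [one_div_pow]
    refine one_div_le_one_div_of_le (by positivity) ?_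
    have h3 : (3:ℝ) ≤ y := le_trans pi_gt_three.le h
    nlinarith

theorem abs_sub_le_id {P Q C : ℝ} (hQ : 0 < Q) (hQP : Q ≤ P) (hC : 0 ≤ C)
    (hCC : 2 * C ^ 2 = P ^ 2 + Q ^ 2) (h3 : 3 ≤ C ^ 2) :
    |sinc C ^ 2 - sinc P * sinc Q| ≤ ((P ^ 2 - Q ^ 2) / 2) ^ 2 *
      ((1 / (1 + (P - Q) ^ 2 / 12) + 1 / (P + Q)) / (P * Q * (P + Q) ^ 2)) := by
  have hP : 0 < P := lt_of_lt_of_le hQ hQP
  have hC0 : 0 < C := by
    rcases hC.eq_or_lt with h | h
    · rw [← h] at h3; norm_num at h3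
    · exact h
  rcases hQP.eq_or_lt with hPQ | hPQ
  · subst hPQ
    have h1 : C ^ 2 = Q ^ 2 := by linarith
    have h2 : C = Q := by
      have := (sq_eq_sq₀ hC hQ.le).mp h1
      exact this
    subst h2
    have h4 : sinc C ^ 2 - sinc C * sinc C = 0 := by ring
    rw [h4, abs_zero]
    positivity
  · set D := P - Q with hD
    set S := P + Q with hS
    have hD0 : 0 < D := by rw [hD]; linarith
    have hS0 : 0 < S := by rw [hS]; linarith
    have h4C : 4 * C ^ 2 = S ^ 2 + D ^ 2 := by rw [hS, hD]; linarith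
    set sg := (2 * C + S) / 2 with hsg
    set ep := (2 * C - S) / 2 with hep
    have hprod : sg * ep = D ^ 2 / 4 := by
      rw [hsg, hep]
      have : (2 * C + S) / 2 * ((2 * C - S) / 2) = (4 * C ^ 2 - S ^ 2) / 4 := by ring
      rw [this, h4C]
      ring
    have hsg0 : 0 < sg := by rw [hsg]; positivity
    have hep0 : 0 < ep := by
      have : 0 < sg * ep := by rw [hprod]; positivity
      exact (pos_iff_pos_of_mul_pos this).mp hsg0
    have hsgS : S ≤ sg := by
      have : 0 < 2 * C - S := by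
        have := hep0
        rw [hep] at this
        linarith
      rw [hsg]
      linarith
    have hPQ0 : 0 < P * Q := by positivity
    -- the identity
    have hid : sinc C ^ 2 - sinc P * sinc Q =
        D ^ 2 / (4 * (P * Q)) * (sinc (D / 2) ^ 2 + sinc sg * sinc ep - 2 * sinc C ^ 2) := by
      have hD2 : D / 2 ≠ 0 := by positivity
      rw [sinc_of_ne_zero hC0.ne', sinc_of_ne_zero hP.ne', sinc_of_ne_zero hQ.ne',
        sinc_of_ne_zero hD2, sinc_of_ne_zero hsg0.ne', sinc_of_ne_zero hep0.ne']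
      have e1 : sin C ^ 2 = (1 - cos (2 * C)) / 2 := by
        rw [cos_two_mul, cos_sq']; ring
      have e2 : sin P * sin Q = (cos D - cos S) / 2 := by
        rw [hD, hS, cos_sub, cos_add]; ring
      have e3 : sin (D / 2) ^ 2 = (1 - cos D) / 2 := by
        have : cos D = cos (2 * (D / 2)) := by congr 1; ring
        rw [this, cos_two_mul, cos_sq']; ring
      have e4 : sin sg * sin ep = (cos S - cos (2 * C)) / 2 := by
        have h1 : S = sg - ep := by rw [hsg, hep]; ring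
        have h2 : 2 * C = sg + ep := by rw [hsg, hep]; ring
        rw [h2, h1, cos_sub, cos_add]; ring
      have e5 : sin sg / sg * (sin ep / ep) = (cos S - cos (2 * C)) / 2 / (D ^ 2 / 4) := by
        rw [div_mul_div_comm, hprod, e4]
      have e6 : sin P / P * (sin Q / Q) = (cos D - cos S) / 2 / (P * Q) := by
        rw [div_mul_div_comm, e2]
      rw [e5, e6, div_pow, div_pow, e1, e3]
      have hC2 : C ^ 2 = (P ^ 2 + Q ^ 2) / 2 := by linarith
      have hDne : D ≠ 0 := hD0.ne'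
      have hPne : P ≠ 0 := hP.ne'
      have hQne : Q ≠ 0 := hQ.ne'
      have hDD : D ^ 2 = 2 * C ^ 2 - 2 * (P * Q) := by rw [hD]; linarith
      have hCne : C ≠ 0 := hC0.ne'
      have e7 : D ^ 2 / (4 * (P * Q)) * ((1 - cos D) / 2 / (D / 2) ^ 2 +
          (cos S - cos (2 * C)) / 2 / (D ^ 2 / 4) - 2 * ((1 - cos (2 * C)) / 2 / C ^ 2)) =
          (1 - cos D + cos S - cos (2 * C)) / (2 * (P * Q)) -
            D ^ 2 * ((1 - cos (2 * C)) / (4 * (P * Q) * C ^ 2)) := by
        field_simp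
        ring
      rw [e7, hDD]
      field_simp
      ring
    rw [hid, abs_mul, abs_of_pos (by positivity : 0 < D ^ 2 / (4 * (P * Q)))]
    have hR : ((P ^ 2 - Q ^ 2) / 2) ^ 2 *
        ((1 / (1 + D ^ 2 / 12) + 1 / S) / (P * Q * S ^ 2)) =
        D ^ 2 / (4 * (P * Q)) * (1 / (1 + D ^ 2 / 12) + 1 / S) := by
      have : P ^ 2 - Q ^ 2 = D * S := by rw [hD, hS]; ring
      rw [this]
      have hPne : P ≠ 0 := hP.ne'
      have hQne : Q ≠ 0 := hQ.ne'
      have hSne : S ≠ 0 := hS0.ne'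
      field_simp
      norm_num
    rw [hR]
    refine mul_le_mul_of_nonneg_left ?_ (by positivity)
    have k1 : sinc (D / 2) ^ 2 ≤ 1 / (1 + D ^ 2 / 12) := by
      have := idb_sq_le (y := D / 2) (by positivity)
      have e : (D / 2) ^ 2 / 3 = D ^ 2 / 12 := by ring
      rwa [e] at this
    have k2 : |sinc sg * sinc ep| ≤ 1 / S := by
      rw [abs_mul]
      have h1 := idb_abs_le_inv hsg0
      have h2 := idb_abs_le_one ep
      have h4 : 1 / sg ≤ 1 / S := one_div_le_one_div_of_le hS0 hsgS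
      calc |sinc sg| * |sinc ep| ≤ |sinc sg| * 1 := mul_le_mul_of_nonneg_left h2 (abs_nonneg _)
        _ ≤ 1 / S := by linarith
    have k3 : 2 * sinc C ^ 2 ≤ 1 / (1 + D ^ 2 / 12) := by
      have h1 := idb_abs_le_inv hC0
      have h2 : sinc C ^ 2 ≤ (1 / C) ^ 2 := by
        rw [← sq_abs]
        exact pow_le_pow_left₀ (abs_nonneg _) h1 2
      have h4 : 2 * (1 / C) ^ 2 ≤ 1 / (1 + D ^ 2 / 12) := by
        rw [one_div_pow, mul_one_div, div_le_div_iff₀ (by positivity) (by positivity)]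
        have hDD : D ^ 2 = 2 * C ^ 2 - 2 * (P * Q) := by rw [hD]; linarith
        nlinarith
      linarith
    rw [abs_le] at k2 ⊢
    have k4 : 0 ≤ sinc (D / 2) ^ 2 := sq_nonneg _
    have k5 : 0 ≤ sinc C ^ 2 := sq_nonneg _
    constructor <;> linarith [k2.1, k2.2]

theorem abs_sub_le_dir {P Q C : ℝ} (hQ : 0 ≤ Q) (hP : 0 < P) (hC : 0 < C) :
    |sinc C ^ 2 - sinc P * sinc Q| ≤
      1 / C ^ 2 + 1 / P * (if Q = 0 then 1 else min 1 (1 / Q)) := by
  have h1 := idb_abs_le_inv hC
  have h2 := idb_abs_le_inv hP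
  have h3 : |sinc Q| ≤ (if Q = 0 then 1 else min 1 (1 / Q)) := by
    split_ifs with h
    · exact idb_abs_le_one Q
    · exact le_min (idb_abs_le_one Q) (idb_abs_le_inv (lt_of_le_of_ne hQ (Ne.symm h)))
  have h4 : |sinc C ^ 2| ≤ 1 / C ^ 2 := by
    rw [abs_pow, ← one_div_pow]
    exact pow_le_pow_left₀ (abs_nonneg _) h1 2
  have h5 : |sinc P * sinc Q| ≤ 1 / P * (if Q = 0 then 1 else min 1 (1 / Q)) := by
    rw [abs_mul]
    exact mul_le_mul h2 h3 (abs_nonneg _) (by positivity)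
  exact (abs_sub _ _).trans (add_le_add h4 h5)

/-- maximum of `|sin|` on a short interval -/
theorem abs_sin_le_max {a b y : ℝ} (h1 : a ≤ y) (h2 : y ≤ b) (h : b - a ≤ 1) :
    |sin y| ≤ max |sin a| |sin b| * (1 + (b - a) ^ 2 / 6) := by
  rcases (h1.trans h2).eq_or_lt with hab | hab
  · have : y = a := le_antisymm (by rw [hab]; exact h2) h1
    subst this
    have h3 : |sin y| ≤ max |sin y| |sin b| := le_max_left _ _
    have h4 : 0 ≤ max |sin y| |sin b| := le_trans (abs_nonneg _) h3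
    nlinarith [sq_nonneg (b - y)]
  · set m := max |sin a| |sin b| with hm
    have hm0 : 0 ≤ m := le_trans (abs_nonneg _) (le_max_left _ _)
    set g := b - a with hg
    have hg0 : 0 < g := by rw [hg]; linarith
    have hpi := pi_gt_three
    have s1 : 0 ≤ sin (b - y) := sin_nonneg_of_nonneg_of_le_pi (by linarith) (by linarith)
    have s2 : 0 ≤ sin (y - a) := sin_nonneg_of_nonneg_of_le_pi (by linarith) (by linarith)
    have s3 : 0 < sin (g / 2) := sin_pos_of_pos_of_lt_pi (by linarith) (by linarith)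
    have c1 : 1 - (g / 2) ^ 2 / 2 ≤ cos (g / 2) := one_sub_sq_div_two_le_cos
    have hid : sin y * sin g = sin (b - y) * sin a + sin (y - a) * sin b := by
      rw [hg, sin_sub, sin_sub, sin_sub]
      have := sin_sq_add_cos_sq y
      ring_nf
    have h3 : |sin y| * sin g ≤ m * (sin (b - y) + sin (y - a)) := by
      have hsg : 0 ≤ sin g := sin_nonneg_of_nonneg_of_le_pi hg0.le (by linarith)
      have e : |sin y| * sin g = |sin y * sin g| := by rw [abs_mul, abs_of_nonneg hsg]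
      rw [e, hid]
      refine (abs_add_le _ _).trans ?_
      rw [abs_mul, abs_mul, abs_of_nonneg s1, abs_of_nonneg s2]
      have i1 := mul_le_mul_of_nonneg_left (le_max_left |sin a| |sin b|) s1
      have i2 := mul_le_mul_of_nonneg_left (le_max_right |sin a| |sin b|) s2
      rw [← hm] at i1 i2
      linarith
    have h4 : sin (b - y) + sin (y - a) ≤ 2 * sin (g / 2) := by
      have e : sin (b - y) + sin (y - a) = 2 * sin (g / 2) * cos ((b + a) / 2 - y) := by
        have e1 : b - y = g / 2 + ((b + a) / 2 - y) := by rw [hg]; ring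
        have e2 : y - a = g / 2 - ((b + a) / 2 - y) := by rw [hg]; ring
        rw [e1, e2, sin_add (g / 2) ((b + a) / 2 - y), sin_sub (g / 2) ((b + a) / 2 - y)]
        ring
      rw [e]
      have := cos_le_one ((b + a) / 2 - y)
      nlinarith
    have h5 : sin g = 2 * sin (g / 2) * cos (g / 2) := by
      have : g = 2 * (g / 2) := by ring
      conv_lhs => rw [this]
      exact sin_two_mul _
    have h6 : |sin y| * cos (g / 2) ≤ m := by
      have h7 : |sin y| * sin g ≤ m * (2 * sin (g / 2)) :=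
        h3.trans (mul_le_mul_of_nonneg_left h4 hm0)
      rw [h5] at h7
      have h8 : (|sin y| * cos (g / 2)) * (2 * sin (g / 2)) ≤ m * (2 * sin (g / 2)) := by
        calc _ = |sin y| * (2 * sin (g / 2) * cos (g / 2)) := by ring
          _ ≤ _ := h7
      exact le_of_mul_le_mul_right h8 (by positivity)
    have h9 : 1 ≤ cos (g / 2) * (1 + g ^ 2 / 6) := by
      have hg2 : g ^ 2 ≤ 1 := by nlinarith
      have : 1 ≤ (1 - (g / 2) ^ 2 / 2) * (1 + g ^ 2 / 6) := by nlinarith [sq_nonneg g]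
      exact this.trans (mul_le_mul_of_nonneg_right c1 (by positivity))
    calc |sin y| = |sin y| * 1 := by ring
      _ ≤ |sin y| * (cos (g / 2) * (1 + g ^ 2 / 6)) := mul_le_mul_of_nonneg_left h9 (abs_nonneg _)
      _ = (|sin y| * cos (g / 2)) * (1 + g ^ 2 / 6) := by ring
      _ ≤ m * (1 + g ^ 2 / 6) := mul_le_mul_of_nonneg_right h6 (by positivity)

end Pool.Agent.Helper95.SP.Crude
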