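import Pool.Agent.Helper95.SP.Crude.Tab
import Mathlib

/-!
Taylor bounds for `sin` and soundness of the rational evaluators `sinQ`, `asinUp`, `sinLo`.
-/

set_option autoImplicit false

namespace Pool.Agent.Helper95.SP.Crude

open Real Finset

namespace SinT

noncomputable def sS (n : ℕ) (y : ℝ) : ℝ :=
  ∑ j ∈ range n, (-1) ^ j * y ^ (2 * j + 1) / ((2 * j + 1).factorial : ℝ)

noncomputable def sC (n : ℕ) (y : ℝ) : ℝ :=
  ∑ j ∈ range n, (-1) ^ j * y ^ (2 * j) / ((2 * j).factorial : ℝ)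

theorem hasDerivAt_sS (n : ℕ) (y : ℝ) : HasDerivAt (sS n) (sC n y) y := by
  unfold sS sC
  have : ∀ j ∈ range n, HasDerivAt (fun y : ℝ => (-1) ^ j * y ^ (2 * j + 1) / ((2 * j + 1).factorial : ℝ))
      ((-1) ^ j * y ^ (2 * j) / ((2 * j).factorial : ℝ)) y := by
    intro j _
    have h := ((hasDerivAt_pow (2 * j + 1) y).const_mul ((-1 : ℝ) ^ j)).div_const
      ((2 * j + 1).factorial : ℝ)
    refine h.congr_deriv ?_
    rw [Nat.factorial_succ]
    push_cast
    have h1 : ((2 : ℝ) * j + 1) ≠ 0 := by positivity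
    have h2 : ((2 * j).factorial : ℝ) ≠ 0 := by positivity
    field_simp
  exact HasDerivAt.fun_sum this

theorem hasDerivAt_sC (n : ℕ) (y : ℝ) : HasDerivAt (sC (n + 1)) (-sS n y) y := by
  have e : sC (n + 1) = fun y => 1 + ∑ j ∈ range n, (-1) ^ (j + 1) * y ^ (2 * j + 2) /
      ((2 * j + 2).factorial : ℝ) := by
    funext y
    unfold sC
    rw [Finset.sum_range_succ']
    simp only [mul_add, mul_one, Nat.factorial_zero, Nat.cast_one, pow_zero, mul_zero, div_one]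
    ring
  rw [e]
  have : ∀ j ∈ range n, HasDerivAt (fun y : ℝ => (-1) ^ (j + 1) * y ^ (2 * j + 2) /
      ((2 * j + 2).factorial : ℝ)) (-((-1) ^ j * y ^ (2 * j + 1) / ((2 * j + 1).factorial : ℝ))) y := by
    intro j _
    have h := ((hasDerivAt_pow (2 * j + 2) y).const_mul ((-1 : ℝ) ^ (j + 1))).div_const
      ((2 * j + 2).factorial : ℝ)
    refine h.congr_deriv ?_
    rw [Nat.factorial_succ (2 * j + 1)]
    push_cast
    have h1 : ((2 : ℝ) * j + 1 + 1) ≠ 0 := by positivity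
    have h2 : ((2 * j + 1).factorial : ℝ) ≠ 0 := by positivity
    field_simp
    ring
  have h := (HasDerivAt.fun_sum this).const_add 1
  refine h.congr_deriv ?_
  unfold sS
  rw [Finset.sum_neg_distrib]

theorem mono_bd {f g f' g' : ℝ → ℝ} (hf : ∀ y, HasDerivAt f (f' y) y)
    (hg : ∀ y, HasDerivAt g (g' y) y) (f0 : f 0 = 0) (g0 : g 0 = 0)
    (h : ∀ y, 0 ≤ y → 0 ≤ f' y ∧ f' y ≤ g' y) (y : ℝ) (hy : 0 ≤ y) : 0 ≤ f y ∧ f y ≤ g y := by
  constructor
  · have hm : MonotoneOn f (Set.Ici 0) := by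
      refine monotoneOn_of_deriv_nonneg (convex_Ici 0)
        (fun x _ => (hf x).continuousAt.continuousWithinAt)
        (fun x _ => (hf x).differentiableAt.differentiableWithinAt) fun x hx => ?_
      rw [(hf x).deriv]
      rw [interior_Ici] at hx
      exact (h x (le_of_lt hx)).1
    have := hm (Set.mem_Ici.mpr le_rfl) (Set.mem_Ici.mpr hy) hy
    rwa [f0] at this
  · have hd : ∀ x, HasDerivAt (fun x => g x - f x) (g' x - f' x) x := fun x => (hg x).sub (hf x)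
    have hm : MonotoneOn (fun x => g x - f x) (Set.Ici 0) := by
      refine monotoneOn_of_deriv_nonneg (convex_Ici 0)
        (fun x _ => (hd x).continuousAt.continuousWithinAt)
        (fun x _ => (hd x).differentiableAt.differentiableWithinAt) fun x hx => ?_
      rw [(hd x).deriv]
      rw [interior_Ici] at hx
      linarith [(h x (le_of_lt hx)).2]
    have := hm (Set.mem_Ici.mpr le_rfl) (Set.mem_Ici.mpr hy) hy
    simp only [f0, g0] at this
    linarith

theorem hasDerivAt_mono (n : ℕ) (y : ℝ) :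
    HasDerivAt (fun y : ℝ => y ^ (n + 1) / ((n + 1).factorial : ℝ)) (y ^ n / (n.factorial : ℝ)) y := by
  have h := (hasDerivAt_pow (n + 1) y).div_const ((n + 1).factorial : ℝ)
  refine h.congr_deriv ?_
  rw [Nat.factorial_succ]
  push_cast
  have h1 : ((n : ℝ) + 1) ≠ 0 := by positivity
  have h2 : (n.factorial : ℝ) ≠ 0 := by positivity
  field_simp

theorem sin_of_cos (n : ℕ)
    (h : ∀ y : ℝ, 0 ≤ y → 0 ≤ (-1) ^ (n + 1) * (cos y - sC (n + 1) y) ∧
      (-1) ^ (n + 1) * (cos y - sC (n + 1) y) ≤ y ^ (2 * n + 2) / ((2 * n + 2).factorial : ℝ)) :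
    ∀ y : ℝ, 0 ≤ y → 0 ≤ (-1) ^ (n + 1) * (sin y - sS (n + 1) y) ∧
      (-1) ^ (n + 1) * (sin y - sS (n + 1) y) ≤ y ^ (2 * n + 3) / ((2 * n + 3).factorial : ℝ) := by
  refine mono_bd (fun y => ((hasDerivAt_sin y).sub (hasDerivAt_sS (n + 1) y)).const_mul _)
    (fun y => hasDerivAt_mono (2 * n + 2) y) ?_ ?_ h
  · simp [sS]
  · simp

theorem cos_of_sin (n : ℕ)
    (h : ∀ y : ℝ, 0 ≤ y → 0 ≤ (-1) ^ (n + 1) * (sin y - sS (n + 1) y) ∧
      (-1) ^ (n + 1) * (sin y - sS (n + 1) y) ≤ y ^ (2 * n + 3) / ((2 * n + 3).factorial : ℝ)) :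
    ∀ y : ℝ, 0 ≤ y → 0 ≤ (-1) ^ (n + 2) * (cos y - sC (n + 2) y) ∧
      (-1) ^ (n + 2) * (cos y - sC (n + 2) y) ≤ y ^ (2 * n + 4) / ((2 * n + 4).factorial : ℝ) := by
  refine mono_bd (f' := fun y => (-1) ^ (n + 1) * (sin y - sS (n + 1) y))
    (fun y => ?_) (fun y => hasDerivAt_mono (2 * n + 3) y) ?_ ?_ h
  · have := ((hasDerivAt_cos y).sub (hasDerivAt_sC (n + 1) y)).const_mul ((-1 : ℝ) ^ (n + 2))
    refine this.congr_deriv ?_
    rw [pow_succ (-1 : ℝ) (n + 1)]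
    ring
  · have : sC (n + 2) 0 = 1 := by
      unfold sC
      rw [Finset.sum_range_succ']
      simp
    rw [this]; simp
  · simp

theorem cos_bd (n : ℕ) : ∀ y : ℝ, 0 ≤ y → 0 ≤ (-1) ^ (n + 1) * (cos y - sC (n + 1) y) ∧
      (-1) ^ (n + 1) * (cos y - sC (n + 1) y) ≤ y ^ (2 * n + 2) / ((2 * n + 2).factorial : ℝ) := by
  induction n with
  | zero =>
    intro y hy
    have h1 := cos_le_one y
    have h2 := one_sub_sq_div_two_le_cos (x := y)
    have e : sC (0 + 1) y = 1 := by unfold sC; simp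
    rw [e]
    have e2 : ((2 * 0 + 2).factorial : ℝ) = 2 := by norm_num [Nat.factorial]
    rw [e2]
    constructor
    · norm_num; linarith
    · norm_num; linarith
  | succ n ih => exact cos_of_sin n (sin_of_cos n ih)

end SinT

theorem abs_sin_sub_le (n : ℕ) {y : ℝ} (hy : 0 ≤ y) :
    |sin y - ∑ j ∈ range n, (-1) ^ j * y ^ (2 * j + 1) / ((2 * j + 1).factorial : ℝ)| ≤
      y ^ (2 * n + 1) / ((2 * n + 1).factorial : ℝ) := by
  rcases n with _ | n
  · simp only [Finset.range_zero, Finset.sum_empty, sub_zero, mul_zero, zero_add, pow_one,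
      Nat.factorial_one, Nat.cast_one, div_one]
    exact abs_sin_le_abs.trans_eq (abs_of_nonneg hy)
  · obtain ⟨h1, h2⟩ := SinT.sin_of_cos n (SinT.cos_bd n) y hy
    have e : |sin y - SinT.sS (n + 1) y| = (-1) ^ (n + 1) * (sin y - SinT.sS (n + 1) y) := by
      rw [← abs_of_nonneg h1, abs_mul, abs_pow, abs_neg, abs_one, one_pow, one_mul]
    change |sin y - SinT.sS (n + 1) y| ≤ _
    rw [e]
    exact h2

/-- Horner form: general remainder identity -/
theorem SinT.sinAux_eq (z : ℚ) (n i : ℕ) (hi : 0 < i) :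
    sinAux z n i = ∑ j ∈ range (n + 1), (-1) ^ j * z ^ j *
      (((2 * i - 1).factorial : ℚ) / ((2 * (i + j) - 1).factorial : ℚ)) := by
  induction n generalizing i with
  | zero =>
    unfold sinAux
    have : ((2 * i - 1).factorial : ℚ) ≠ 0 := by positivity
    simp [this]
  | succ n ih =>
    unfold sinAux
    rw [ih (i + 1) (by omega), Finset.sum_range_succ' _ (n + 1)]
    have h0 : ((2 * i - 1).factorial : ℚ) ≠ 0 := by positivity
    simp only [pow_zero, mul_one, add_zero, div_self h0]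
    rw [Finset.mul_sum, sub_eq_add_neg, add_comm, ← Finset.sum_neg_distrib]
    congr 1
    refine Finset.sum_congr rfl fun j _ => ?_
    have e1 : 2 * (i + 1) - 1 = 2 * i + 1 := by omega
    have e2 : 2 * (i + 1 + j) - 1 = 2 * (i + (j + 1)) - 1 := by omega
    have e3 : ((2 * i + 1).factorial : ℚ) = (2 * i + 1) * (2 * i) * ((2 * i - 1).factorial : ℚ) := by
      obtain ⟨k, rfl⟩ : ∃ k, i = k + 1 := ⟨i - 1, by omega⟩
      have e4 : 2 * (k + 1) - 1 = 2 * k + 1 := by omega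
      rw [e4, show 2 * (k + 1) + 1 = (2 * k + 1) + 1 + 1 by ring, Nat.factorial_succ,
        Nat.factorial_succ]
      push_cast
      ring
    rw [e1, e2, e3]
    have h1 : ((2 * (i + (j + 1)) - 1).factorial : ℚ) ≠ 0 := by positivity
    have h2 : (i : ℚ) ≠ 0 := by positivity
    have h3 : (2 * (i : ℚ) + 1) ≠ 0 := by positivity
    field_simp
    ring

theorem SinT.sinQ_eq (y : ℚ) : (sinQ y : ℝ) =
    ∑ j ∈ range 18, (-1) ^ j * (y : ℝ) ^ (2 * j + 1) / ((2 * j + 1).factorial : ℝ) := by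
  unfold sinQ
  rw [SinT.sinAux_eq (y ^ 2) 17 1 (by norm_num), Finset.mul_sum]
  push_cast
  refine Finset.sum_congr rfl fun j _ => ?_
  have e : 2 * (1 + j) - 1 = 2 * j + 1 := by omega
  rw [e]
  simp only [Nat.factorial_one, Nat.cast_one]
  rw [pow_succ (y : ℝ) (2 * j), pow_mul (y : ℝ) 2 j]
  ring

theorem sinQ_sound {y : ℚ} (h0 : 0 ≤ y) (h1 : y ≤ 10) :
    |sin (y : ℝ) - (sinQ y : ℝ)| ≤ 1 / 10 ^ 6 := by
  have h0' : (0 : ℝ) ≤ y := by exact_mod_cast h0
  have h1' : (y : ℝ) ≤ 10 := by exact_mod_cast h1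
  rw [SinT.sinQ_eq]
  refine (abs_sin_sub_le 18 h0').trans ?_
  have h2 : (y : ℝ) ^ (2 * 18 + 1) ≤ 10 ^ (2 * 18 + 1) := pow_le_pow_left₀ h0' h1' _
  rw [div_le_div_iff₀ (by positivity) (by positivity)]
  refine (mul_le_mul_of_nonneg_right h2 (by positivity)).trans ?_
  norm_num [Nat.factorial]

theorem SinT.le_upp' (x : ℚ) : x ≤ upp x := by
  unfold upp
  rw [le_div_iff₀ (by norm_num)]
  exact Int.le_ceil _

theorem SinT.dnn_le' (x : ℚ) : dnn x ≤ x := by
  unfold dnn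
  rw [div_le_iff₀ (by norm_num)]
  exact Int.floor_le _

theorem asinUp_sound {y : ℚ} (h0 : 0 ≤ y) (h1 : y ≤ 10) : |sin (y : ℝ)| ≤ (asinUp y : ℝ) := by
  have h := sinQ_sound h0 h1
  have h2 : ((|sinQ y| + 1 / 10 ^ 6 : ℚ) : ℝ) ≤ (asinUp y : ℝ) := by
    unfold asinUp
    exact Rat.cast_le.mpr (SinT.le_upp' _)
  push_cast at h2
  have h3 : |sin (y : ℝ)| ≤ |sin (y : ℝ) - (sinQ y : ℝ)| + |(sinQ y : ℝ)| := by
    have := abs_add_le (sin (y : ℝ) - (sinQ y : ℝ)) (sinQ y : ℝ)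
    simpa using this
  linarith

theorem sinLo_sound {y : ℚ} (h0 : 0 ≤ y) (h1 : y ≤ 10) : (sinLo y : ℝ) ≤ sin (y : ℝ) := by
  have h := (abs_le.mp (sinQ_sound h0 h1)).1
  have h2 : (sinLo y : ℝ) ≤ ((sinQ y - 1 / 10 ^ 6 : ℚ) : ℝ) := by
    unfold sinLo
    exact Rat.cast_le.mpr (SinT.dnn_le' _)
  push_cast at h2
  linarith

end Pool.Agent.Helper95.SP.Crude
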