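import Pool.Agent.Helper95.SP.Prod

/-!
# SP-wave, module SincB: bounds for `sinc`
-/

set_option autoImplicit false

namespace Pool.Agent.Helper95.SP.Crude

open Real Finset Filter Topology

/-! ### Taylor bounds -/

theorem nonneg_of_deriv_nonneg' {f f' : ℝ → ℝ} (hd : ∀ x, HasDerivAt f (f' x) x) (h0 : f 0 = 0)
    (hf : ∀ x, 0 ≤ x → 0 ≤ f' x) {x : ℝ} (hx : 0 ≤ x) : 0 ≤ f x := by
  have hmono : MonotoneOn f (Set.Ici 0) := by
    apply monotoneOn_of_deriv_nonneg (convex_Ici 0)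
    · exact fun y _ => (hd y).continuousAt.continuousWithinAt
    · exact fun y _ => (hd y).differentiableAt.differentiableWithinAt
    · intro y hy
      rw [interior_Ici] at hy
      rw [(hd y).deriv]
      exact hf y (le_of_lt hy)
  have := hmono (Set.mem_Ici.mpr le_rfl) (Set.mem_Ici.mpr hx) hx
  rw [h0] at this
  exact this

theorem sincB_cos_le_four {x : ℝ} (hx : 0 ≤ x) : cos x ≤ 1 - x ^ 2 / 2 + x ^ 4 / 24 := by
  have h := nonneg_of_deriv_nonneg' (f := fun x => 1 - x ^ 2 / 2 + x ^ 4 / 24 - cos x)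
    (f' := fun x => -x + x ^ 3 / 6 + sin x) (fun y => by
      have h1 : HasDerivAt (fun x : ℝ => 1 - x ^ 2 / 2 + x ^ 4 / 24 - cos x)
          (0 - (2 * y) / 2 + (4 * y ^ 3) / 24 - (-sin y)) y := by
        refine ((((hasDerivAt_const y (1 : ℝ)).sub ?_).add ?_).sub (hasDerivAt_cos y))
        · simpa using (hasDerivAt_pow 2 y).div_const 2
        · simpa using (hasDerivAt_pow 4 y).div_const 24
      convert h1 using 1
      ring) (by norm_num) (fun y hy => by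
      have := sin_ge_sub_cube hy
      linarith) hx
  linarith

theorem sincB_sin_le_five {x : ℝ} (hx : 0 ≤ x) : sin x ≤ x - x ^ 3 / 6 + x ^ 5 / 120 := by
  have h := nonneg_of_deriv_nonneg' (f := fun x => x - x ^ 3 / 6 + x ^ 5 / 120 - sin x)
    (f' := fun x => 1 - x ^ 2 / 2 + x ^ 4 / 24 - cos x) (fun y => by
      have h1 : HasDerivAt (fun x : ℝ => x - x ^ 3 / 6 + x ^ 5 / 120 - sin x)
          (1 - (3 * y ^ 2) / 6 + (5 * y ^ 4) / 120 - cos y) y := by
        refine ((((hasDerivAt_id y).sub ?_).add ?_).sub (hasDerivAt_sin y))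
        · simpa using (hasDerivAt_pow 3 y).div_const 6
        · simpa using (hasDerivAt_pow 5 y).div_const 120
      convert h1 using 1
      ring) (by norm_num) (fun y hy => by
      have := sincB_cos_le_four hy
      linarith) hx
  linarith

theorem sincB_six_le_cos {x : ℝ} (hx : 0 ≤ x) :
    1 - x ^ 2 / 2 + x ^ 4 / 24 - x ^ 6 / 720 ≤ cos x := by
  have h := nonneg_of_deriv_nonneg' (f := fun x => cos x - (1 - x ^ 2 / 2 + x ^ 4 / 24 - x ^ 6 / 720))
    (f' := fun x => -sin x + x - x ^ 3 / 6 + x ^ 5 / 120) (fun y => by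
      have h1 : HasDerivAt (fun x : ℝ => cos x - (1 - x ^ 2 / 2 + x ^ 4 / 24 - x ^ 6 / 720))
          (-sin y - (0 - (2 * y) / 2 + (4 * y ^ 3) / 24 - (6 * y ^ 5) / 720)) y := by
        refine (hasDerivAt_cos y).sub ((((hasDerivAt_const y (1 : ℝ)).sub ?_).add ?_).sub ?_)
        · simpa using (hasDerivAt_pow 2 y).div_const 2
        · simpa using (hasDerivAt_pow 4 y).div_const 24
        · simpa using (hasDerivAt_pow 6 y).div_const 720
      convert h1 using 1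
      ring) (by norm_num) (fun y hy => by
      have := sincB_sin_le_five hy
      linarith) hx
  linarith

theorem sincB_seven_le_sin {x : ℝ} (hx : 0 ≤ x) :
    x - x ^ 3 / 6 + x ^ 5 / 120 - x ^ 7 / 5040 ≤ sin x := by
  have h := nonneg_of_deriv_nonneg' (f := fun x => sin x - (x - x ^ 3 / 6 + x ^ 5 / 120 - x ^ 7 / 5040))
    (f' := fun x => cos x - (1 - x ^ 2 / 2 + x ^ 4 / 24 - x ^ 6 / 720)) (fun y => by
      have h1 : HasDerivAt (fun x : ℝ => sin x - (x - x ^ 3 / 6 + x ^ 5 / 120 - x ^ 7 / 5040))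
          (cos y - (1 - (3 * y ^ 2) / 6 + (5 * y ^ 4) / 120 - (7 * y ^ 6) / 5040)) y := by
        refine (hasDerivAt_sin y).sub ((((hasDerivAt_id y).sub ?_).add ?_).sub ?_)
        · simpa using (hasDerivAt_pow 3 y).div_const 6
        · simpa using (hasDerivAt_pow 5 y).div_const 120
        · simpa using (hasDerivAt_pow 7 y).div_const 5040
      convert h1 using 1
      ring) (by norm_num) (fun y hy => by
      have := sincB_six_le_cos hy
      linarith) hx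
  linarith

/-- `exp (-t) ≤ 1 - t + t^2/2` for `t ≥ 0` -/
theorem sincB_exp_neg_le_two {t : ℝ} (ht : 0 ≤ t) : exp (-t) ≤ 1 - t + t ^ 2 / 2 := by
  have h := nonneg_of_deriv_nonneg' (f := fun x => 1 - x + x ^ 2 / 2 - exp (-x))
    (f' := fun x => -1 + x + exp (-x)) (fun y => by
      have h0 : HasDerivAt (fun x : ℝ => exp (-x)) (exp (-y) * (-1)) y :=
        (hasDerivAt_neg y).exp
      have h1 : HasDerivAt (fun x : ℝ => 1 - x + x ^ 2 / 2 - exp (-x))
          (0 - 1 + (2 * y) / 2 - exp (-y) * (-1)) y := by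
        refine ((((hasDerivAt_const y (1 : ℝ)).sub (hasDerivAt_id y)).add ?_).sub h0)
        simpa using (hasDerivAt_pow 2 y).div_const 2
      convert h1 using 1
      ring) (by norm_num) (fun y hy => by
      have := add_one_le_exp (-y)
      linarith) ht
  linarith

/-- `1 - t + t^2/2 - t^3/6 ≤ exp (-t)` for `t ≥ 0` -/
theorem sincB_three_le_exp_neg {t : ℝ} (ht : 0 ≤ t) : 1 - t + t ^ 2 / 2 - t ^ 3 / 6 ≤ exp (-t) := by
  have h := nonneg_of_deriv_nonneg' (f := fun x => exp (-x) - (1 - x + x ^ 2 / 2 - x ^ 3 / 6))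
    (f' := fun x => 1 - x + x ^ 2 / 2 - exp (-x)) (fun y => by
      have h0 : HasDerivAt (fun x : ℝ => exp (-x)) (exp (-y) * (-1)) y :=
        (hasDerivAt_neg y).exp
      have h1 : HasDerivAt (fun x : ℝ => exp (-x) - (1 - x + x ^ 2 / 2 - x ^ 3 / 6))
          (exp (-y) * (-1) - (0 - 1 + (2 * y) / 2 - (3 * y ^ 2) / 6)) y := by
        refine h0.sub ((((hasDerivAt_const y (1 : ℝ)).sub (hasDerivAt_id y)).add ?_).sub ?_)
        · simpa using (hasDerivAt_pow 2 y).div_const 2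
        · simpa using (hasDerivAt_pow 3 y).div_const 6
      convert h1 using 1
      ring) (by norm_num) (fun y hy => by
      have := sincB_exp_neg_le_two hy
      linarith) ht
  linarith

/-- `exp (-t) ≤ 1 - t + t^2/2 - t^3/6 + t^4/24` for `t ≥ 0` -/
theorem sincB_exp_neg_le_four {t : ℝ} (ht : 0 ≤ t) :
    exp (-t) ≤ 1 - t + t ^ 2 / 2 - t ^ 3 / 6 + t ^ 4 / 24 := by
  have h := nonneg_of_deriv_nonneg' (f := fun x => 1 - x + x ^ 2 / 2 - x ^ 3 / 6 + x ^ 4 / 24 - exp (-x))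
    (f' := fun x => exp (-x) - (1 - x + x ^ 2 / 2 - x ^ 3 / 6)) (fun y => by
      have h0 : HasDerivAt (fun x : ℝ => exp (-x)) (exp (-y) * (-1)) y :=
        (hasDerivAt_neg y).exp
      have h1 : HasDerivAt (fun x : ℝ => 1 - x + x ^ 2 / 2 - x ^ 3 / 6 + x ^ 4 / 24 - exp (-x))
          (0 - 1 + (2 * y) / 2 - (3 * y ^ 2) / 6 + (4 * y ^ 3) / 24 - exp (-y) * (-1)) y := by
        refine ((((((hasDerivAt_const y (1 : ℝ)).sub (hasDerivAt_id y)).add ?_).sub ?_).add ?_).sub h0)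
        · simpa using (hasDerivAt_pow 2 y).div_const 2
        · simpa using (hasDerivAt_pow 3 y).div_const 6
        · simpa using (hasDerivAt_pow 4 y).div_const 24
      convert h1 using 1
      ring) (by norm_num) (fun y hy => by
      have := sincB_three_le_exp_neg hy
      linarith) ht
  linarith

theorem le_sinc_poly' {x : ℝ} (hx : 0 ≤ x) :
    1 - x ^ 2 / 6 + x ^ 4 / 120 - x ^ 6 / 5040 ≤ sinc x := by
  rcases hx.eq_or_lt with h0 | hpos
  · rw [← h0]; simp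
  · rw [sinc_of_ne_zero hpos.ne', le_div_iff₀ hpos]
    have := sincB_seven_le_sin hx
    nlinarith

theorem le_sinc_poly {x : ℝ} (hx : 0 ≤ x) (_h : x ≤ 2) :
    1 - x ^ 2 / 6 + x ^ 4 / 120 - x ^ 6 / 5040 ≤ sinc x := le_sinc_poly' hx

/-! ### the product -/

theorem tendsto_sum_sq : Tendsto (fun n => ∑ j ∈ range n, 1 / (π ^ 2 * ((j : ℝ) + 1) ^ 2)) atTop
    (𝓝 (1 / 6)) := by
  have h := hasSum_zeta_two
  have h1 : HasSum (fun n : ℕ => (1 : ℝ) / ((n : ℝ) + 1) ^ 2) (π ^ 2 / 6) := by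
    have := (hasSum_nat_add_iff' (f := fun n : ℕ => (1 : ℝ) / (n : ℝ) ^ 2) 1).mpr h
    simpa using this
  have h2 := h1.mul_left (1 / π ^ 2)
  have e : 1 / π ^ 2 * (π ^ 2 / 6) = 1 / 6 := by field_simp
  rw [e] at h2
  refine h2.tendsto_sum_nat.congr fun n => ?_
  refine Finset.sum_congr rfl fun j _ => ?_
  field_simp

/-- one factor of the product for `sinc (k x)` -/
theorem pr_mul_le {k x : ℝ} (hk : 1 ≤ k) (hx : 0 ≤ x) (h : k * x ≤ π) (n : ℕ) :
    0 ≤ pr (-(k * x) ^ 2) n ∧ pr (-(k * x) ^ 2) n ≤ pr (-x ^ 2) n *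
      exp (-((k ^ 2 - 1) * x ^ 2 * ∑ j ∈ range n, 1 / (π ^ 2 * ((j : ℝ) + 1) ^ 2))) := by
  have hkx : (k * x) ^ 2 ≤ π ^ 2 := pow_le_pow_left₀ (by positivity) h 2
  have hk2 : 0 ≤ k ^ 2 - 1 := by nlinarith
  have hA : ∀ j : ℕ, 0 < π ^ 2 * ((j : ℝ) + 1) ^ 2 := fun j => by positivity
  have hAj : ∀ j : ℕ, (k * x) ^ 2 / (π ^ 2 * ((j : ℝ) + 1) ^ 2) ≤ 1 := by
    intro j
    rw [div_le_one (hA j)]
    have h1 : (1:ℝ) ≤ ((j : ℝ) + 1) ^ 2 := by
      have : (0:ℝ) ≤ (j : ℝ) := Nat.cast_nonneg j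
      nlinarith
    have hπ : 0 < π ^ 2 := by positivity
    nlinarith
  have hf0 : ∀ j ∈ range n, 0 ≤ 1 + -(k * x) ^ 2 / (π ^ 2 * ((j : ℝ) + 1) ^ 2) := by
    intro j _
    rw [neg_div]
    linarith [hAj j]
  constructor
  · exact Finset.prod_nonneg hf0
  · unfold pr
    rw [Finset.mul_sum, ← Finset.sum_neg_distrib, Real.exp_sum, ← Finset.prod_mul_distrib]
    refine Finset.prod_le_prod hf0 fun j _ => ?_
    set y : ℝ := x ^ 2 / (π ^ 2 * ((j : ℝ) + 1) ^ 2) with hy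
    have hy0 : 0 ≤ y := by positivity
    have e1 : -(k * x) ^ 2 / (π ^ 2 * ((j : ℝ) + 1) ^ 2) = -(k ^ 2 * y) := by rw [hy]; ring
    have e2 : -x ^ 2 / (π ^ 2 * ((j : ℝ) + 1) ^ 2) = -y := by rw [hy]; ring
    have e3 : (k ^ 2 - 1) * x ^ 2 * (1 / (π ^ 2 * ((j : ℝ) + 1) ^ 2)) = (k ^ 2 - 1) * y := by
      rw [hy]; ring
    have hky : k ^ 2 * y ≤ 1 := by
      have := hAj j
      have e4 : (k * x) ^ 2 / (π ^ 2 * ((j : ℝ) + 1) ^ 2) = k ^ 2 * y := by rw [hy]; ring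
      rwa [e4] at this
    rw [e1, e2, e3]
    have h5 := add_one_le_exp (-((k ^ 2 - 1) * y))
    have hy1 : y ≤ 1 := by nlinarith
    have h6 : (1 + -y) * (1 + -((k ^ 2 - 1) * y)) ≤ (1 + -y) * exp (-((k ^ 2 - 1) * y)) := by
      apply mul_le_mul_of_nonneg_left _ (by linarith)
      linarith
    refine le_trans ?_ h6
    have : 0 ≤ (k ^ 2 - 1) * y ^ 2 := by positivity
    nlinarith

theorem abs_sinc_mul_le {k x : ℝ} (hk : 1 ≤ k) (hx : 0 ≤ x) (h : k * x ≤ π) :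
    |sinc (k * x)| ≤ sinc x * exp (-((k ^ 2 - 1) / 6 * x ^ 2)) := by
  have h0 : 0 ≤ sinc (k * x) := ge_of_tendsto' (tendsto_sinc (k * x)) fun n => (pr_mul_le hk hx h n).1
  rw [abs_of_nonneg h0]
  have h1 := (tendsto_sum_sq.const_mul ((k ^ 2 - 1) * x ^ 2)).neg.rexp
  have h2 := (tendsto_sinc x).mul h1
  have e : (k ^ 2 - 1) * x ^ 2 * (1 / 6) = (k ^ 2 - 1) / 6 * x ^ 2 := by ring
  rw [e] at h2
  exact le_of_tendsto_of_tendsto' (tendsto_sinc (k * x)) h2 fun n => (pr_mul_le hk hx h n).2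

theorem abs_sinc_le_exp {y : ℝ} (hy : 0 ≤ y) (h : y ≤ π) : |sinc y| ≤ exp (-(y ^ 2 / 6)) := by
  have hpr : ∀ n, 0 ≤ pr (-y ^ 2) n ∧ pr (-y ^ 2) n ≤
      exp (-(y ^ 2 * ∑ j ∈ range n, 1 / (π ^ 2 * ((j : ℝ) + 1) ^ 2))) := by
    intro n
    have hy2 : y ^ 2 ≤ π ^ 2 := pow_le_pow_left₀ hy h 2
    have hf0 : ∀ j ∈ range n, 0 ≤ 1 + -y ^ 2 / (π ^ 2 * ((j : ℝ) + 1) ^ 2) := by
      intro j _
      rw [neg_div, ← sub_eq_add_neg, sub_nonneg, div_le_one (by positivity)]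
      have h1 : (1:ℝ) ≤ ((j : ℝ) + 1) ^ 2 := by
        have : (0:ℝ) ≤ (j : ℝ) := Nat.cast_nonneg j
        nlinarith
      have hπ : 0 < π ^ 2 := by positivity
      nlinarith
    constructor
    · exact Finset.prod_nonneg hf0
    · unfold pr
      rw [Finset.mul_sum, ← Finset.sum_neg_distrib, Real.exp_sum]
      refine Finset.prod_le_prod hf0 fun j _ => ?_
      have h5 := add_one_le_exp (-(y ^ 2 * (1 / (π ^ 2 * ((j : ℝ) + 1) ^ 2))))
      have e1 : -y ^ 2 / (π ^ 2 * ((j : ℝ) + 1) ^ 2) = -(y ^ 2 * (1 / (π ^ 2 * ((j : ℝ) + 1) ^ 2))) := by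
        ring
      rw [e1]
      linarith
  have h0 : 0 ≤ sinc y := ge_of_tendsto' (tendsto_sinc y) fun n => (hpr n).1
  rw [abs_of_nonneg h0]
  have h1 := (tendsto_sum_sq.const_mul (y ^ 2)).neg.rexp
  have e : y ^ 2 * (1 / 6) = y ^ 2 / 6 := by ring
  rw [e] at h1
  exact le_of_tendsto_of_tendsto' (tendsto_sinc y) h1 fun n => (hpr n).2

theorem abs_sinc_le_inv {y : ℝ} (h : 0 < y) : |sinc y| ≤ 1 / y := by
  rw [sinc_of_ne_zero h.ne', abs_div, abs_of_pos h]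
  exact div_le_div_of_nonneg_right (abs_sin_le_one y) h.le

theorem abs_sinc_le_of_pi_le {y : ℝ} (h : π ≤ y) : |sinc y| ≤ 100 / 449 := by
  have hpi := pi_gt_d6
  have hpi' := pi_lt_d6
  have hy : 0 < y := by linarith
  rcases le_or_gt (449 / 100) y with h1 | h1
  · refine (abs_sinc_le_inv hy).trans ?_
    rw [div_le_div_iff₀ hy (by norm_num)]
    linarith
  · rw [sinc_of_ne_zero hy.ne', abs_div, abs_of_pos hy, div_le_div_iff₀ hy (by norm_num)]
    -- `|sin y| = cos t`, `t = 3π/2 - y`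
    set t : ℝ := 3 * π / 2 - y with ht
    have ht0 : 0 ≤ t := by rw [ht]; linarith
    have ht1 : t ≤ π / 2 := by rw [ht]; linarith
    have hs : sin y = -cos t := by
      have : y = (π / 2 - t) + π := by rw [ht]; ring
      rw [this, sin_add_pi, sin_pi_div_two_sub]
    have hc0 : 0 ≤ cos t := cos_nonneg_of_mem_Icc ⟨by linarith, ht1⟩
    rw [hs, abs_neg, abs_of_nonneg hc0]
    have hc := sincB_cos_le_four ht0
    have hyt : y = 3 * π / 2 - t := by rw [ht]; ring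
    rw [hyt]
    have ht2 : t ^ 2 ≤ 2.4675 := by
      have : t ≤ 1.5708 := by linarith
      nlinarith
    nlinarith [sq_nonneg (t - 0.29), sq_nonneg (t ^ 2)]

theorem inv_le_exp_neg : (100 / 449 : ℝ) ≤ exp (-(3 / 2)) := by
  have h3 : exp (3 / 2) ≤ 449 / 100 := by
    have h1 := exp_one_lt_d9
    have h2 : exp (3 / 2) ^ 2 = exp 1 ^ 3 := by
      rw [← exp_nat_mul, ← exp_nat_mul]
      norm_num
    have h4 : exp 1 ^ 3 ≤ (2.7182818286 : ℝ) ^ 3 :=
      pow_le_pow_left₀ (exp_pos 1).le h1.le 3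
    have h5 : exp (3 / 2) ^ 2 ≤ (449 / 100 : ℝ) ^ 2 := by
      rw [h2]
      refine h4.trans ?_
      norm_num
    exact le_of_sq_le_sq h5 (by norm_num)
  rw [exp_neg]
  rw [show (100 / 449 : ℝ) = (449 / 100)⁻¹ by norm_num]
  exact inv_anti₀ (exp_pos _) h3

theorem le_sinc_two_mul {x : ℝ} (hx : 0 ≤ x) (h : x ≤ 3 / 4) :
    exp (-(727 / 1000 * x ^ 2)) ≤ sinc (2 * x) := by
  have h1 := le_sinc_poly' (x := 2 * x) (by positivity)
  refine le_trans ?_ h1
  set v : ℝ := x ^ 2 with hv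
  have hv0 : 0 ≤ v := sq_nonneg x
  have hv1 : v ≤ 9 / 16 := by rw [hv]; nlinarith
  have h2 := sincB_exp_neg_le_four (t := 727 / 1000 * v) (by positivity)
  refine h2.trans ?_
  have e1 : (2 * x) ^ 2 = 4 * v := by rw [hv]; ring
  have e2 : (2 * x) ^ 4 = 16 * v ^ 2 := by rw [hv]; ring
  have e3 : (2 * x) ^ 6 = 64 * v ^ 3 := by rw [hv]; ring
  rw [e1, e2, e3]
  have h3 : 0 ≤ v * (0.060333 - 0.130932 * v + 0.0513419 * v ^ 2 - 0.0116395 * v ^ 3) := by
    apply mul_nonneg hv0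
    have h4 : v ^ 3 ≤ 9 / 16 * v ^ 2 := by nlinarith [sq_nonneg v]
    nlinarith
  nlinarith [h3, sq_nonneg v, mul_nonneg hv0 (sq_nonneg v), mul_nonneg hv0 hv0, sq_nonneg (v ^ 2)]

theorem abs_sinc_mul_le_four {k x : ℝ} (hk : 4 ≤ k) (hx : 0 ≤ x) (h : x ≤ 3 / 4) :
    |sinc (k * x)| ≤ exp (-(8 / 3 * x ^ 2)) := by
  have hkx : 0 ≤ k * x := by positivity
  rcases le_or_gt (k * x) π with h1 | h1
  · refine (abs_sinc_le_exp hkx h1).trans (exp_le_exp.mpr ?_)
    have : 16 * x ^ 2 ≤ (k * x) ^ 2 := by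
      rw [mul_pow]
      apply mul_le_mul_of_nonneg_right _ (sq_nonneg x)
      nlinarith
    linarith
  · refine (abs_sinc_le_of_pi_le h1.le).trans (inv_le_exp_neg.trans (exp_le_exp.mpr ?_))
    nlinarith

theorem abs_sinc_mul_le_six {k x r : ℝ} (hk : 6 ≤ k) (hx : 0 ≤ x) (h : x ≤ r) (hr : 0 < r) :
    |sinc (k * x)| ≤ exp (-(min 6 (3 / 2 / r ^ 2) * x ^ 2)) := by
  have hkx : 0 ≤ k * x := by positivity
  rcases le_or_gt (k * x) π with h1 | h1
  · refine (abs_sinc_le_exp hkx h1).trans (exp_le_exp.mpr ?_)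
    have h2 : min 6 (3 / 2 / r ^ 2) * x ^ 2 ≤ 6 * x ^ 2 :=
      mul_le_mul_of_nonneg_right (min_le_left _ _) (sq_nonneg x)
    have : 36 * x ^ 2 ≤ (k * x) ^ 2 := by
      rw [mul_pow]
      apply mul_le_mul_of_nonneg_right _ (sq_nonneg x)
      nlinarith
    linarith
  · refine (abs_sinc_le_of_pi_le h1.le).trans (inv_le_exp_neg.trans (exp_le_exp.mpr ?_))
    have h2 : min 6 (3 / 2 / r ^ 2) * x ^ 2 ≤ 3 / 2 / r ^ 2 * x ^ 2 :=
      mul_le_mul_of_nonneg_right (min_le_right _ _) (sq_nonneg x)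
    have h3 : 3 / 2 / r ^ 2 * x ^ 2 ≤ 3 / 2 := by
      rw [div_mul_eq_mul_div, div_le_iff₀ (by positivity)]
      have : x ^ 2 ≤ r ^ 2 := pow_le_pow_left₀ hx h 2
      linarith
    linarith

theorem le_sinc {x : ℝ} (hx : 0 ≤ x) (h : x ≤ 12 / 10) : exp (-(x ^ 2 / 5)) ≤ sinc x := by
  have h1 := le_sinc_poly' hx
  refine le_trans ?_ h1
  set v : ℝ := x ^ 2 with hv
  have hv0 : 0 ≤ v := sq_nonneg x
  have hv1 : v ≤ 144 / 100 := by rw [hv]; nlinarith
  have h2 := sincB_exp_neg_le_two (t := v / 5) (by positivity)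
  refine h2.trans ?_
  have e2 : x ^ 4 = v ^ 2 := by rw [hv]; ring
  have e3 : x ^ 6 = v ^ 3 := by rw [hv]; ring
  rw [e2, e3]
  have h3 : 0 ≤ v * (1 / 30 - 7 / 600 * v - v ^ 2 / 5040) := by
    apply mul_nonneg hv0
    nlinarith
  nlinarith [h3]

theorem abs_sin_nat_mul_le (k : ℕ) {x : ℝ} (hx : 0 ≤ x) (h : x ≤ π / 2) :
    |sin (k * x)| ≤ k * sin x := by
  have hs : 0 ≤ sin x := sin_nonneg_of_nonneg_of_le_pi hx (by linarith [pi_pos])
  induction k with
  | zero => simp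
  | succ k ih =>
    push_cast
    have e : ((k : ℝ) + 1) * x = k * x + x := by ring
    rw [e, sin_add]
    calc |sin (k * x) * cos x + cos (k * x) * sin x|
        ≤ |sin (k * x) * cos x| + |cos (k * x) * sin x| := abs_add_le _ _
      _ = |sin (k * x)| * |cos x| + |cos (k * x)| * |sin x| := by rw [abs_mul, abs_mul]
      _ ≤ k * sin x * 1 + 1 * sin x := by
          rw [abs_of_nonneg hs]
          gcongr
          · exact abs_cos_le_one x
          · exact abs_cos_le_one _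
      _ = ((k : ℝ) + 1) * sin x := by ring

end Pool.Agent.Helper95.SP.Crude
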