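import Pool.Agent.Helper95.SP.Crude.Tab
import Pool.Agent.Helper95.SP.Crude.SinT
import Pool.Agent.Helper95.SP.Crude.ExpQ
import Pool.Agent.Helper95.SP.Crude.IdB
import Pool.Agent.Helper95.SP.Crude.SincB

/-!
Module `Adm` (MP_66ebcc): verification of the tables `cTab`, `fTab`.
-/

set_option autoImplicit false

namespace Pool.Agent.Helper95.SP.Crude

open Real Finset

/-- the grid cell of the subinterval `[i / 1000, (i + 1) / 1000]` -/
def cell (i : ℕ) : ℕ := (i + 1 - 300 + 9) / 10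

def sub1 (k i : ℕ) : Bool :=
  let S := max (asinUp (k * i / 1000)) (asinUp (k * (i + 1) / 1000)) * (1 + (k / 1000) ^ 2 / 6)
  let s := k * sinLo (i / 1000)
  let b : ℚ := (i + 1) / 1000
  decide (S ≤ s * eLo (cc k (cell i) * b ^ 2)) && decide (S ≤ s * eLo (ff k (cell i)))

theorem sub1_five : ∀ i < 122, sub1 5 (628 + i) = true := by decide +kernel
theorem sub1_seven : ∀ i < 302, sub1 7 (448 + i) = true := by decide +kernel
theorem sub1_nine : ∀ i < 401, sub1 9 (349 + i) = true := by decide +kernel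
theorem sub1_eleven : ∀ i < 465, sub1 11 (285 + i) = true := by decide +kernel

theorem sub1_all {k i : ℕ} (hk : k = 5 ∨ k = 7 ∨ k = 9 ∨ k = 11) (hi : i < 750)
    (h : 3142 ≤ k * (i + 1)) : sub1 k i = true := by
  rcases hk with rfl | rfl | rfl | rfl
  · have := sub1_five (i - 628) (by omega)
    rwa [Nat.add_sub_cancel' (by omega)] at this
  · have := sub1_seven (i - 448) (by omega)
    rwa [Nat.add_sub_cancel' (by omega)] at this
  · have := sub1_nine (i - 349) (by omega)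
    rwa [Nat.add_sub_cancel' (by omega)] at this
  · have := sub1_eleven (i - 285) (by omega)
    rwa [Nat.add_sub_cancel' (by omega)] at this

/-- monotonicity of the tables -/
theorem cc_anti : ∀ k ∈ [5, 7, 9, 11], ∀ j < 46, ∀ i ≤ j, cc k j ≤ cc k i := by decide +kernel
theorem ff_anti : ∀ k ∈ [5, 7, 9, 11], ∀ j < 46, ∀ i ≤ j, ff k j ≤ ff k i := by decide +kernel
theorem cc_le : ∀ k ∈ [5, 7, 9, 11], ∀ j < 46, cc k j ≤ ((k : ℚ) ^ 2 - 1) / 6 := by decide +kernel
theorem cc_nonneg (k j : ℕ) : 0 ≤ cc k j := by unfold cc; positivity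
theorem ff_nonneg (k j : ℕ) : 0 ≤ ff k j := by unfold ff; positivity

/-- the bound on one subinterval -/
theorem abs_sin_le_of_sub1 {k i : ℕ} (hk : k ≤ 11) (hi : i < 750) (h : sub1 k i = true) {x : ℝ}
    (h1 : (i : ℝ) / 1000 ≤ x) (h2 : x ≤ ((i : ℝ) + 1) / 1000) :
    |sin (k * x)| ≤ k * sin x * exp (-(((cc k (cell i) : ℚ) : ℝ) * x ^ 2)) ∧
    |sin (k * x)| ≤ k * sin x * exp (-((ff k (cell i) : ℚ) : ℝ)) := by
  unfold sub1 at h
  simp only [Bool.and_eq_true, decide_eq_true_eq] at h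
  obtain ⟨hc, hf⟩ := h
  have hkR : (k : ℝ) ≤ 11 := by exact_mod_cast hk
  have hkQ : (k : ℚ) ≤ 11 := by exact_mod_cast hk
  have hk0 : (0 : ℝ) ≤ k := Nat.cast_nonneg k
  have hk0Q : (0 : ℚ) ≤ k := Nat.cast_nonneg k
  have hiR : (i : ℝ) + 1 ≤ 750 := by exact_mod_cast hi
  have hiQ : (i : ℚ) + 1 ≤ 750 := by exact_mod_cast hi
  have hi0 : (0 : ℝ) ≤ i := Nat.cast_nonneg i
  have hi0Q : (0 : ℚ) ≤ i := Nat.cast_nonneg i
  have hx0 : 0 ≤ x := le_trans (by positivity) h1
  have hx1 : x ≤ 3 / 4 := by linarith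
  have hpi : (3 : ℝ) < π := pi_gt_three
  -- sine bounds
  have hA := asinUp_sound (y := k * i / 1000) (by positivity) (by
    rw [div_le_iff₀ (by norm_num)]; nlinarith)
  have hB := asinUp_sound (y := k * (i + 1) / 1000) (by positivity) (by
    rw [div_le_iff₀ (by norm_num)]; nlinarith)
  have hS := sinLo_sound (y := (i : ℚ) / 1000) (by positivity) (by
    rw [div_le_iff₀ (by norm_num)]; linarith)
  push_cast at hA hB hS
  have hmax := abs_sin_le_max (a := k * i / 1000) (b := k * (i + 1) / 1000) (y := k * x)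
    (by rw [mul_div_assoc]; exact mul_le_mul_of_nonneg_left h1 hk0)
    (by rw [mul_div_assoc]; exact mul_le_mul_of_nonneg_left h2 hk0)
    (by
      have : (k : ℝ) * (i + 1) / 1000 - k * i / 1000 = k / 1000 := by ring
      rw [this, div_le_one (by norm_num)]; linarith)
  have e1 : (k : ℝ) * (i + 1) / 1000 - k * i / 1000 = k / 1000 := by ring
  rw [e1] at hmax
  have hmax2 : |sin (k * x)| ≤ max ((asinUp (k * i / 1000) : ℚ) : ℝ)
      ((asinUp (k * (i + 1) / 1000) : ℚ) : ℝ) * (1 + ((k : ℝ) / 1000) ^ 2 / 6) := by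
    refine hmax.trans (mul_le_mul_of_nonneg_right (max_le_max hA hB) (by positivity))
  have hsx : sin ((i : ℝ) / 1000) ≤ sin x :=
    sin_le_sin_of_le_of_le_pi_div_two (by linarith [show (0 : ℝ) ≤ (i : ℝ) / 1000 by positivity])
      (by linarith) h1
  have hsi : 0 ≤ sin ((i : ℝ) / 1000) := sin_nonneg_of_nonneg_of_le_pi (by positivity)
    (by rw [div_le_iff₀ (by norm_num)]; linarith)
  have key : ∀ {E : ℚ} {E' : ℝ}, 0 ≤ E → E' ≤ (E : ℝ) →
      max (asinUp (k * i / 1000)) (asinUp (k * (i + 1) / 1000)) * (1 + ((k : ℚ) / 1000) ^ 2 / 6) ≤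
        k * sinLo (i / 1000) * eLo E → |sin (k * x)| ≤ k * sin x * exp (-E') := by
    intro E E' hE hEE' hh
    have hh' : max ((asinUp (k * i / 1000) : ℚ) : ℝ)
      ((asinUp (k * (i + 1) / 1000) : ℚ) : ℝ) * (1 + ((k : ℝ) / 1000) ^ 2 / 6) ≤
        k * ((sinLo (i / 1000) : ℚ) : ℝ) * ((eLo E : ℚ) : ℝ) := by
      have := (Rat.cast_le (K := ℝ)).mpr hh
      push_cast at this
      exact this
    have he0 : (0 : ℝ) ≤ ((eLo E : ℚ) : ℝ) := by exact_mod_cast eLo_nonneg hE
    have he1 := eLo_sound hE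
    have he2 : exp (-(E : ℝ)) ≤ exp (-E') := exp_le_exp.mpr (by linarith)
    calc |sin (k * x)| ≤ _ := hmax2
      _ ≤ _ := hh'
      _ ≤ k * sin x * ((eLo E : ℚ) : ℝ) := by
          refine mul_le_mul_of_nonneg_right (mul_le_mul_of_nonneg_left ?_ hk0) he0
          exact hS.trans hsx
      _ ≤ k * sin x * exp (-E') := by
          refine mul_le_mul_of_nonneg_left (he1.trans he2) (mul_nonneg hk0 (hsi.trans hsx))
  refine ⟨key (mul_nonneg (cc_nonneg _ _) (sq_nonneg _)) ?_ hc, key (ff_nonneg _ _) le_rfl hf⟩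
  push_cast
  refine mul_le_mul_of_nonneg_left ?_ (by exact_mod_cast cc_nonneg _ _)
  exact pow_le_pow_left₀ hx0 h2 2

theorem adm_aux {k j : ℕ} (hk : k = 5 ∨ k = 7 ∨ k = 9 ∨ k = 11) (hj : j < 46) {x : ℝ}
    (hxj : x ≤ ((gr j : ℚ) : ℝ)) (hkx : π < k * x) :
    |sin (k * x)| ≤ k * sin x * exp (-(((cc k j : ℚ) : ℝ) * x ^ 2)) ∧
    |sin (k * x)| ≤ k * sin x * exp (-((ff k j : ℚ) : ℝ)) := by
  have hpi : (3.14159 : ℝ) < π := by linarith [pi_gt_d6]
  have hk11 : k ≤ 11 := by omega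
  have hk5 : 5 ≤ k := by omega
  have hkR : (k : ℝ) ≤ 11 := by exact_mod_cast hk11
  have hk5R : (5 : ℝ) ≤ k := by exact_mod_cast hk5
  have hx0 : 0 < x := by
    by_contra h
    push Not at h
    nlinarith
  have hx28 : 0.28 < x := by nlinarith
  have hgr : ((gr j : ℚ) : ℝ) = 3 / 10 + (j : ℝ) / 100 := by unfold gr; push_cast; ring
  rw [hgr] at hxj
  have hjR : (j : ℝ) ≤ 45 := by exact_mod_cast (show j ≤ 45 by omega)
  have hx75 : x ≤ 0.75 := by norm_num; linarith
  -- the subinterval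
  obtain ⟨i, hi1, hi2⟩ : ∃ i : ℕ, (i : ℝ) / 1000 < x ∧ x ≤ ((i : ℝ) + 1) / 1000 := by
    refine ⟨⌈1000 * x⌉₊ - 1, ?_, ?_⟩
    · have h1 := Nat.ceil_lt_add_one (show 0 ≤ 1000 * x by positivity)
      have h2 : 1 ≤ ⌈1000 * x⌉₊ := Nat.one_le_ceil_iff.mpr (by positivity)
      rw [Nat.cast_sub h2, div_lt_iff₀ (by norm_num)]
      push_cast; linarith
    · have h1 := Nat.le_ceil (1000 * x)
      have h2 : 1 ≤ ⌈1000 * x⌉₊ := Nat.one_le_ceil_iff.mpr (by positivity)
      rw [Nat.cast_sub h2, le_div_iff₀ (by norm_num)]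
      push_cast; linarith
  have hi750 : i < 750 := by
    by_contra h
    push Not at h
    have : (750 : ℝ) ≤ i := by exact_mod_cast h
    rw [div_lt_iff₀ (by norm_num)] at hi1
    linarith
  have hk3142 : 3142 ≤ k * (i + 1) := by
    have h1 : (3141 : ℝ) < k * (i + 1) := by
      rw [le_div_iff₀ (by norm_num)] at hi2
      have : (k : ℝ) * (x * 1000) ≤ k * (i + 1) := mul_le_mul_of_nonneg_left hi2 (by linarith)
      linarith
    have h2 : 3141 < k * (i + 1) := by exact_mod_cast h1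
    omega
  have hcell : cell i ≤ j := by
    have h1 : (i : ℝ) < 300 + 10 * j := by
      rw [div_lt_iff₀ (by norm_num)] at hi1
      linarith
    have h2 : i < 300 + 10 * j := by exact_mod_cast h1
    unfold cell
    omega
  have hmem : k ∈ [5, 7, 9, 11] := by
    rcases hk with rfl | rfl | rfl | rfl <;> simp
  have hc := cc_anti k hmem j hj (cell i) hcell
  have hf := ff_anti k hmem j hj (cell i) hcell
  have hcR : ((cc k j : ℚ) : ℝ) ≤ ((cc k (cell i) : ℚ) : ℝ) := by exact_mod_cast hc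
  have hfR : ((ff k j : ℚ) : ℝ) ≤ ((ff k (cell i) : ℚ) : ℝ) := by exact_mod_cast hf
  obtain ⟨hA, hB⟩ := abs_sin_le_of_sub1 hk11 hi750 (sub1_all hk hi750 hk3142) hi1.le hi2
  have hs : 0 ≤ (k : ℝ) * sin x := mul_nonneg (by linarith)
    (sin_nonneg_of_nonneg_of_le_pi hx0.le (by linarith))
  constructor
  · refine hA.trans (mul_le_mul_of_nonneg_left (exp_le_exp.mpr ?_) hs)
    nlinarith [sq_nonneg x]
  · refine hB.trans (mul_le_mul_of_nonneg_left (exp_le_exp.mpr ?_) hs)
    linarith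

theorem sinc_of_sin {k x E : ℝ} (hk : 0 < k) (hx : 0 < x)
    (h : |sin (k * x)| ≤ k * sin x * exp E) : |sinc (k * x)| ≤ sinc x * exp E := by
  rw [sinc_of_ne_zero (by positivity), sinc_of_ne_zero hx.ne', abs_div,
    abs_of_pos (show 0 < k * x by positivity), div_le_iff₀ (by positivity)]
  have : sin x / x * exp E * (k * x) = k * sin x * exp E := by field_simp
  rw [this]; exact h

theorem adm {k j : ℕ} (hk : k = 5 ∨ k = 7 ∨ k = 9 ∨ k = 11) (hj : j < 46) {x : ℝ} (hx : 0 ≤ x)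
    (hxj : x ≤ ((gr j : ℚ) : ℝ)) :
    |sinc (k * x)| ≤ sinc x * exp (-(((cc k j : ℚ) : ℝ) * x ^ 2)) := by
  have hk5 : 5 ≤ k := by omega
  have hk5R : (5 : ℝ) ≤ k := by exact_mod_cast hk5
  rcases le_or_gt (k * x) π with h | h
  · have hmem : k ∈ [5, 7, 9, 11] := by
      rcases hk with rfl | rfl | rfl | rfl <;> simp
    have hc := cc_le k hmem j hj
    have hcR : ((cc k j : ℚ) : ℝ) ≤ ((k : ℝ) ^ 2 - 1) / 6 := by
      have := (Rat.cast_le (K := ℝ)).mpr hc
      push_cast at this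
      exact this
    have hsx : 0 ≤ sinc x := by
      by_cases h0 : x = 0
      · simp [h0]
      · rw [sinc_of_ne_zero h0]
        refine div_nonneg (sin_nonneg_of_nonneg_of_le_pi hx ?_) hx
        nlinarith
    refine (abs_sinc_mul_le (by linarith) hx h).trans (mul_le_mul_of_nonneg_left
      (exp_le_exp.mpr ?_) hsx)
    nlinarith [sq_nonneg x]
  · have hx0 : 0 < x := by
      by_contra h'
      have : x = 0 := le_antisymm (not_lt.mp h') hx
      rw [this, mul_zero] at h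
      linarith [pi_pos]
    exact sinc_of_sin (by linarith) hx0 (adm_aux hk hj hxj h).1

theorem admJ {k j : ℕ} (hk : k = 5 ∨ k = 7 ∨ k = 9 ∨ k = 11) (hj : j < 46) {x : ℝ} (hx : 0 ≤ x)
    (hxj : x ≤ ((gr j : ℚ) : ℝ)) :
    |sinc (k * x)| ≤ sinc x *
      max (exp (-(((k : ℝ) ^ 2 - 1) / 6 * x ^ 2))) (exp (-((ff k j : ℚ) : ℝ))) := by
  have hk5 : 5 ≤ k := by omega
  have hk5R : (5 : ℝ) ≤ k := by exact_mod_cast hk5
  rcases le_or_gt (k * x) π with h | h
  · have hsx : 0 ≤ sinc x := by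
      by_cases h0 : x = 0
      · simp [h0]
      · rw [sinc_of_ne_zero h0]
        refine div_nonneg (sin_nonneg_of_nonneg_of_le_pi hx ?_) hx
        nlinarith
    exact (abs_sinc_mul_le (by linarith) hx h).trans (mul_le_mul_of_nonneg_left
      (le_max_left _ _) hsx)
  · have hx0 : 0 < x := by
      by_contra h'
      have : x = 0 := le_antisymm (not_lt.mp h') hx
      rw [this, mul_zero] at h
      linarith [pi_pos]
    have hsx : 0 ≤ sinc x := by
      rw [sinc_of_ne_zero hx0.ne']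
      have hpi : (3 : ℝ) < π := pi_gt_three
      have hgr : ((gr j : ℚ) : ℝ) = 3 / 10 + (j : ℝ) / 100 := by unfold gr; push_cast; ring
      have hjR : (j : ℝ) ≤ 45 := by exact_mod_cast (show j ≤ 45 by omega)
      rw [hgr] at hxj
      exact div_nonneg (sin_nonneg_of_nonneg_of_le_pi hx (by linarith)) hx
    exact (sinc_of_sin (by linarith) hx0 (adm_aux hk hj hxj h).2).trans
      (mul_le_mul_of_nonneg_left (le_max_right _ _) hsx)

end Pool.Agent.Helper95.SP.Crude
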