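import Pool.Agent.Helper95.SP.Crude.Tab2
import Pool.Agent.Helper95.SP.Crude.ExpQ
import Mathlib

/-!
Soundness of the fast rational evaluators `eUpF`, `eLoF` of `exp (-E)`.
-/

set_option autoImplicit false

namespace Pool.Agent.Helper95.SP.Crude

open Real Finset

theorem ExpF.eDen_pos {D : ℕ} (hD : 0 < D) : (0 : ℝ) < (eDen D : ℝ) := by
  unfold eDen
  push_cast
  positivity

theorem ExpF.eNum_eq (n : ℕ) {D : ℕ} (hD : 0 < D) :
    (eNum n D : ℝ) / (eDen D : ℝ) = ∑ i ∈ range 8, ((n : ℝ) / D) ^ i / (i.factorial : ℝ) := by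
  have hD' : (0 : ℝ) < D := by exact_mod_cast hD
  unfold eNum eDen
  simp only [Finset.sum_range_succ, Finset.sum_range_zero, Nat.factorial]
  push_cast
  field_simp
  ring

theorem ExpF.eNum_pos (n : ℕ) {D : ℕ} (hD : 0 < D) : (0 : ℝ) < (eNum n D : ℝ) := by
  have hD' : (0 : ℝ) < D := by exact_mod_cast hD
  unfold eNum
  push_cast
  positivity

theorem ExpF.div_eq {E : ℚ} (h : 0 ≤ E) :
    ((E.num.toNat : ℕ) : ℝ) / ((16 * E.den : ℕ) : ℝ) = (E : ℝ) / 16 := by
  have h1 : ((E.num.toNat : ℕ) : ℤ) = E.num := Int.toNat_of_nonneg (Rat.num_nonneg.mpr h)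
  have h2 : ((E.num.toNat : ℕ) : ℝ) = (E.num : ℝ) := by exact_mod_cast h1
  have h3 : (E : ℝ) = (E.num : ℝ) / (E.den : ℝ) := by
    exact_mod_cast (Rat.num_div_den E).symm
  have h4 : (0 : ℝ) < (E.den : ℝ) := by exact_mod_cast E.den_pos
  rw [h2, h3]
  push_cast
  field_simp

theorem ExpF.le_exp {E : ℚ} (h : 0 ≤ E) :
    (eNum E.num.toNat (16 * E.den) : ℝ) / (eDen (16 * E.den) : ℝ) ≤ exp ((E : ℝ) / 16) := by
  have h0 : (0 : ℝ) ≤ E := by exact_mod_cast h
  have hD : 0 < 16 * E.den := by have := E.den_pos; omega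
  rw [ExpF.eNum_eq _ hD, ExpF.div_eq h]
  exact Real.sum_le_exp_of_nonneg (x := (E : ℝ) / 16) (by positivity) 8

theorem eUpF_sound {E : ℚ} (h : 0 ≤ E) : exp (-(E : ℝ)) ≤ ((eUpF E : ℚ) : ℝ) := by
  have hD : 0 < 16 * E.den := by have := E.den_pos; omega
  have hd := ExpF.eDen_pos hD
  have hn := ExpF.eNum_pos E.num.toNat hD
  have h1 := ExpF.le_exp h
  unfold eUpF
  set d := eDen (16 * E.den) with hdd
  set n := eNum E.num.toNat (16 * E.den) with hnn
  have hn' : 0 < n ^ 16 := pow_pos (by exact_mod_cast hn) 16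
  have h2 := Nat.lt_mul_div_succ (d ^ 16 * 100000000) hn'
  have h3 : ((d : ℝ) ^ 16 * 100000000) < (n : ℝ) ^ 16 *
      (((d ^ 16 * 100000000 / n ^ 16 : ℕ) : ℝ) + 1) := by
    exact_mod_cast h2
  rw [ExpQ.exp_eq]
  have h4 : (1 : ℝ) / exp ((E : ℝ) / 16) ^ 16 ≤ 1 / ((n : ℝ) / d) ^ 16 :=
    one_div_le_one_div_of_le (by positivity) (pow_le_pow_left₀ (by positivity) h1 16)
  refine h4.trans ?_
  push_cast
  rw [div_pow, one_div_div, le_div_iff₀ (by norm_num), div_mul_eq_mul_div,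
    div_le_iff₀ (by positivity)]
  push_cast at h3
  linarith

theorem eUpF_nonneg (E : ℚ) : 0 ≤ eUpF E := by
  unfold eUpF
  positivity

theorem eLoF_sound {E : ℚ} (h : 0 ≤ E) : ((eLoF E : ℚ) : ℝ) ≤ exp (-(E : ℝ)) := by
  unfold eLoF
  split_ifs with hE
  · have hE' : (E : ℝ) ≤ 16 := by exact_mod_cast hE
    have h0 : (0 : ℝ) ≤ E := by exact_mod_cast h
    have hD : 0 < 16 * E.den := by have := E.den_pos; omega
    have hd := ExpF.eDen_pos hD
    have hn := ExpF.eNum_pos E.num.toNat hD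
    have hx := ExpF.div_eq h
    have hs := ExpF.eNum_eq E.num.toNat hD
    have hDR : (0 : ℝ) < ((16 * E.den : ℕ) : ℝ) := by exact_mod_cast hD
    have h8 : (eDen (16 * E.den) : ℝ) = 5040 * ((16 * E.den : ℕ) : ℝ) ^ 7 := by
      unfold eDen
      push_cast
      ring
    have h1 := Real.exp_bound' (x := (E : ℝ) / 16) (by positivity) (by linarith) (n := 8)
        (by norm_num)
    rw [← hx, ← hs] at h1
    rw [hx] at h1
    set D := 16 * E.den with hDD
    set d := eDen D with hdd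
    set n := eNum E.num.toNat D with hnn
    set a := E.num.toNat with ha
    set num := 64 * D * d with hnum
    set den := 64 * D * n + 9 * a ^ 8 with hden
    have hnumR : (num : ℝ) = 64 * (D : ℝ) * d := by rw [hnum]; push_cast; ring
    have hdenR : (den : ℝ) = 64 * (D : ℝ) * n + 9 * (a : ℝ) ^ 8 := by rw [hden]; push_cast; ring
    have p1 : (0 : ℝ) < num := by rw [hnumR]; positivity
    have p2 : (0 : ℝ) < den := by rw [hdenR]; positivity
    have h2 : exp ((E : ℝ) / 16) ≤ (den : ℝ) / num := by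
      refine h1.trans (le_of_eq ?_)
      rw [hnumR, hdenR, ← hx, h8]
      norm_num [Nat.factorial]
      field_simp
      ring
    have h3 : (((num ^ 16 * 100000000 / den ^ 16 : ℕ) : ℕ) : ℝ) ≤
        (num : ℝ) ^ 16 * 100000000 / (den : ℝ) ^ 16 := by
      have := @Nat.cast_div_le ℝ _ _ _ (num ^ 16 * 100000000) (den ^ 16)
      refine this.trans (le_of_eq ?_)
      push_cast
      ring
    rw [ExpQ.exp_eq]
    have h4 : (1 : ℝ) / ((den : ℝ) / num) ^ 16 ≤ 1 / exp ((E : ℝ) / 16) ^ 16 :=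
      one_div_le_one_div_of_le (by positivity) (pow_le_pow_left₀ (exp_pos _).le h2 16)
    refine le_trans ?_ h4
    rw [div_pow, one_div_div, Rat.cast_div, Rat.cast_natCast]
    rw [div_le_iff₀ (by norm_num)]
    refine h3.trans (le_of_eq ?_)
    push_cast
    ring
  · simpa using (exp_pos _).le

theorem eLoF_nonneg (E : ℚ) : 0 ≤ eLoF E := by
  unfold eLoF
  split_ifs with hE
  · positivity
  · exact le_rfl

end Pool.Agent.Helper95.SP.Crude
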