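import Pool.Agent.Helper95.SP.Crude.Tab2
import Pool.Agent.Helper95.SP.Crude.SinT

/-!
Soundness of the fast integer evaluator `sinR` and of `aSin`, `sinL`, `sinU`.
-/

set_option autoImplicit false

namespace Pool.Agent.Helper95.SP.Crude

open Real Finset

namespace SinR

theorem sDen_pos {q : ℕ} (hq : 0 < q) (n i : ℕ) (hi : 0 < i) : 0 < sDen q n i := by
  induction n generalizing i with
  | zero => simp [sDen]
  | succ n ih =>
    have := ih (i + 1) (by omega)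
    unfold sDen
    positivity

theorem sNum_div {p q : ℕ} (hq : 0 < q) (n i : ℕ) (hi : 0 < i) :
    (sNum p q n i : ℚ) / (sDen q n i : ℚ) = sinAux (((p : ℚ) / q) ^ 2) n i := by
  induction n generalizing i with
  | zero => simp [sNum, sDen, sinAux]
  | succ n ih =>
    have h1 := sDen_pos hq n (i + 1) (by omega)
    have h2 := ih (i + 1) (by omega)
    have h3 : (sDen q n (i + 1) : ℚ) ≠ 0 := by positivity
    have h4 : (q : ℚ) ≠ 0 := by positivity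
    have h5 : (i : ℚ) ≠ 0 := by positivity
    have h6 : (2 * (i : ℚ) + 1) ≠ 0 := by positivity
    have e1 : sNum p q (n + 1) i = (sDen q (n + 1) i : ℤ) - (p * p : ℕ) * sNum p q n (i + 1) := rfl
    have e2 : sDen q (n + 1) i = q * q * ((2 * i) * (2 * i + 1)) * sDen q n (i + 1) := rfl
    have e3 : sinAux (((p : ℚ) / q) ^ 2) (n + 1) i =
        1 - ((p : ℚ) / q) ^ 2 / ((2 * i) * (2 * i + 1)) * sinAux (((p : ℚ) / q) ^ 2) n (i + 1) := rfl
    rw [e3, ← h2, e1, e2]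
    push_cast
    field_simp

theorem sinZ_eq (z : ℚ) : sinZ z = ⌊(10 ^ 8 * (z * sinAux (z ^ 2) 6 1) : ℚ)⌋ := by
  have hq : 0 < z.den := z.den_pos
  have h := sNum_div (p := z.num.natAbs) hq 6 1 (by norm_num)
  have h2 : (((z.num.natAbs : ℕ) : ℚ) / (z.den : ℚ)) ^ 2 = z ^ 2 := by
    rw [div_pow, Nat.cast_natAbs, Int.cast_abs, sq_abs, ← div_pow, Rat.num_div_den]
  rw [h2] at h
  rw [← h]
  unfold sinZ
  rw [← Rat.floor_intCast_div_natCast]
  congr 1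
  have h3 : (sDen z.den 6 1 : ℚ) ≠ 0 := by
    have := sDen_pos hq 6 1 (by norm_num)
    positivity
  have h4 : (z.den : ℚ) ≠ 0 := by positivity
  nth_rewrite 6 [← Rat.num_div_den z]
  push_cast
  field_simp
  ring

/-- the Taylor polynomial -/
theorem taylor (z : ℚ) : ((z * sinAux (z ^ 2) 6 1 : ℚ) : ℝ) =
    ∑ j ∈ range 7, (-1) ^ j * (z : ℝ) ^ (2 * j + 1) / ((2 * j + 1).factorial : ℝ) := by
  rw [SinT.sinAux_eq (z ^ 2) 6 1 (by norm_num), Finset.mul_sum]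
  push_cast
  refine Finset.sum_congr rfl fun j _ => ?_
  have e : 2 * (1 + j) - 1 = 2 * j + 1 := by omega
  rw [e]
  simp only [Nat.factorial_one, Nat.cast_one]
  rw [pow_succ (z : ℝ) (2 * j), pow_mul (z : ℝ) 2 j]
  ring

theorem taylor_err {x : ℝ} (hx : |x| ≤ 15708 / 10000) :
    |sin x - ∑ j ∈ range 7, (-1) ^ j * x ^ (2 * j + 1) / ((2 * j + 1).factorial : ℝ)| * 10 ^ 8 ≤
      1 / 10 := by
  have key : ∀ y : ℝ, 0 ≤ y → y ≤ 15708 / 10000 →
      |sin y - ∑ j ∈ range 7, (-1) ^ j * y ^ (2 * j + 1) / ((2 * j + 1).factorial : ℝ)| * 10 ^ 8 ≤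
      1 / 10 := by
    intro y h0 h1
    have h := abs_sin_sub_le 7 h0
    have h2 : y ^ (2 * 7 + 1) ≤ (15708 / 10000) ^ (2 * 7 + 1) := pow_le_pow_left₀ h0 h1 _
    have h3 : y ^ (2 * 7 + 1) / ((2 * 7 + 1).factorial : ℝ) ≤
        (15708 / 10000) ^ (2 * 7 + 1) / ((2 * 7 + 1).factorial : ℝ) := by gcongr
    have h4 : (15708 / 10000 : ℝ) ^ (2 * 7 + 1) / ((2 * 7 + 1).factorial : ℝ) * 10 ^ 8 ≤ 1 / 10 := by
      norm_num [Nat.factorial]
    nlinarith [h, h3, h4]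
  rcases le_total 0 x with h0 | h0
  · rw [abs_of_nonneg h0] at hx
    exact key x h0 hx
  · rw [abs_of_nonpos h0] at hx
    have h := key (-x) (by linarith) hx
    have e : sin (-x) - ∑ j ∈ range 7, (-1) ^ j * (-x) ^ (2 * j + 1) / ((2 * j + 1).factorial : ℝ) =
        -(sin x - ∑ j ∈ range 7, (-1) ^ j * x ^ (2 * j + 1) / ((2 * j + 1).factorial : ℝ)) := by
      rw [sin_neg, neg_sub, Finset.sum_congr rfl (g := fun j =>
        -((-1) ^ j * x ^ (2 * j + 1) / ((2 * j + 1).factorial : ℝ)))]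
      · rw [Finset.sum_neg_distrib]; ring
      · intro j _
        rw [Odd.neg_pow (⟨j, rfl⟩ : Odd (2 * j + 1))]
        ring
    rw [e, abs_neg] at h
    exact h

theorem sinZ_sound {z : ℚ} (hz : |(z : ℝ)| ≤ 15708 / 10000) :
    |sin (z : ℝ) * 10 ^ 8 - ((sinZ z : ℤ) : ℝ)| ≤ 11 / 10 := by
  rw [sinZ_eq]
  set v : ℚ := 10 ^ 8 * (z * sinAux (z ^ 2) 6 1) with hv
  have h1 : ((⌊v⌋ : ℤ) : ℝ) ≤ (v : ℝ) := by exact_mod_cast Int.floor_le v
  have h2 : (v : ℝ) < ((⌊v⌋ : ℤ) : ℝ) + 1 := by exact_mod_cast Int.lt_floor_add_one v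
  have h3 : (v : ℝ) = 10 ^ 8 * ((z * sinAux (z ^ 2) 6 1 : ℚ) : ℝ) := by rw [hv]; push_cast; ring
  rw [taylor] at h3
  have h4 := taylor_err hz
  have h5 : |(sin (z : ℝ) - ∑ j ∈ range 7, (-1) ^ j * (z : ℝ) ^ (2 * j + 1) /
      ((2 * j + 1).factorial : ℝ)) * 10 ^ 8| ≤ 1 / 10 := by
    rw [abs_mul, abs_of_pos (by norm_num : (0 : ℝ) < 10 ^ 8)]
    exact h4
  rw [abs_le] at h5 ⊢
  constructor <;> linarith [h5.1, h5.2]

theorem sin_sub_int_mul_pi (x : ℝ) (j : ℤ) :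
    sin x = (if j % 2 = 0 then 1 else -1) * sin (x - j * π) := by
  rw [Real.sin_sub_int_mul_pi]
  rcases Int.emod_two_eq_zero_or_one j with h | h
  · rw [if_pos h, Even.neg_one_zpow (Int.even_iff.mpr h)]; ring
  · rw [if_neg (by omega), Odd.neg_one_zpow (Int.odd_iff.mpr h)]; ring

end SinR

theorem sinR_sound {y : ℚ} (h0 : 0 ≤ y) (h1 : y ≤ 60) :
    |sin (y : ℝ) * 10 ^ 8 - ((sinR y : ℤ) : ℝ)| ≤ 3 := by
  set j : ℤ := ⌊y / PIQ + 1 / 2⌋ with hj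
  set z : ℚ := y - j * PIQ with hz
  have hP : (0 : ℚ) < PIQ := by unfold PIQ; norm_num
  have hPr : ((PIQ : ℚ) : ℝ) = 3141592654 / 1000000000 := by unfold PIQ; norm_num
  have hj1 : (j : ℚ) ≤ y / PIQ + 1 / 2 := Int.floor_le _
  have hj2 : y / PIQ + 1 / 2 < (j : ℚ) + 1 := Int.lt_floor_add_one _
  have hyP : y / PIQ * PIQ = y := div_mul_cancel₀ _ hP.ne'
  have hz1 : z ≤ PIQ / 2 := by
    rw [hz]; nlinarith
  have hz2 : -(PIQ / 2) ≤ z := by
    rw [hz]; nlinarith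
  have hj0 : 0 ≤ j := by
    rw [hj]
    apply Int.floor_nonneg.mpr
    positivity
  have hj20 : j ≤ 20 := by
    have h2 : y / PIQ ≤ 195 / 10 := by
      rw [div_le_iff₀ hP]
      unfold PIQ
      linarith
    have h3 : (j : ℚ) ≤ 20 := by linarith
    exact_mod_cast h3
  have hzr : |(z : ℝ)| ≤ 15708 / 10000 := by
    have h3 : (z : ℝ) ≤ ((PIQ / 2 : ℚ) : ℝ) := Rat.cast_le.mpr hz1
    have h4 : ((-(PIQ / 2) : ℚ) : ℝ) ≤ (z : ℝ) := Rat.cast_le.mpr hz2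
    push_cast at h3 h4
    rw [hPr] at h3 h4
    rw [abs_le]
    constructor <;> linarith
  have hs := SinR.sinZ_sound hzr
  have hd : |((y : ℝ) - j * π) - (z : ℝ)| ≤ 20 * (5 / 10 ^ 10) := by
    have e : ((y : ℝ) - j * π) - (z : ℝ) = j * (((PIQ : ℚ) : ℝ) - π) := by
      rw [hz]; push_cast; ring
    rw [e, abs_mul]
    have h5 : |((j : ℤ) : ℝ)| ≤ 20 := by
      rw [abs_of_nonneg (by exact_mod_cast hj0)]
      exact_mod_cast hj20
    have h6 : |((PIQ : ℚ) : ℝ) - π| ≤ 5 / 10 ^ 10 := by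
      rw [hPr, abs_le]
      have := Real.pi_gt_d20
      have := Real.pi_lt_d20
      constructor <;> linarith
    exact mul_le_mul h5 h6 (abs_nonneg _) (by norm_num)
  have hsd : |sin ((y : ℝ) - j * π) - sin (z : ℝ)| ≤ 20 * (5 / 10 ^ 10) :=
    (Real.abs_sin_sub_sin_le _ _).trans hd
  have hmain : |sin ((y : ℝ) - j * π) * 10 ^ 8 - ((sinZ z : ℤ) : ℝ)| ≤ 3 := by
    rw [abs_le] at hsd hs ⊢
    constructor <;> linarith [hsd.1, hsd.2, hs.1, hs.2]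
  have hR : sinR y = if j % 2 = 0 then sinZ z else -sinZ z := rfl
  rw [hR, SinR.sin_sub_int_mul_pi (y : ℝ) j]
  split_ifs with hc
  · rw [one_mul]; exact hmain
  · push_cast
    rw [← abs_neg]
    convert hmain using 2
    ring

theorem aSin_sound {y : ℚ} (h0 : 0 ≤ y) (h1 : y ≤ 60) : |sin (y : ℝ)| ≤ ((aSin y : ℚ) : ℝ) := by
  have h := sinR_sound h0 h1
  unfold aSin
  push_cast
  rw [le_div_iff₀ (by norm_num)]
  have e : ((sinR y).natAbs : ℝ) = |((sinR y : ℤ) : ℝ)| := by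
    rw [Nat.cast_natAbs, Int.cast_abs]
  rw [e]
  have h2 : |sin (y : ℝ)| * 100000000 = |sin (y : ℝ) * 10 ^ 8| := by
    rw [abs_mul]; norm_num
  rw [h2]
  have h3 := abs_add_le (sin (y : ℝ) * 10 ^ 8 - ((sinR y : ℤ) : ℝ)) ((sinR y : ℤ) : ℝ)
  rw [sub_add_cancel] at h3
  linarith

theorem sinL_sound {y : ℚ} (h0 : 0 ≤ y) (h1 : y ≤ 60) : ((sinL y : ℚ) : ℝ) ≤ sin (y : ℝ) := by
  have h := abs_le.mp (sinR_sound h0 h1)
  unfold sinL
  push_cast
  rw [div_le_iff₀ (by norm_num)]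
  linarith [h.1, h.2]

theorem sinU_sound {y : ℚ} (h0 : 0 ≤ y) (h1 : y ≤ 60) : sin (y : ℝ) ≤ ((sinU y : ℚ) : ℝ) := by
  have h := abs_le.mp (sinR_sound h0 h1)
  unfold sinU
  push_cast
  rw [le_div_iff₀ (by norm_num)]
  linarith [h.1, h.2]

theorem le_sinL {y : ℚ} (h0 : 0 ≤ y) (h1 : y ≤ 60) :
    sin (y : ℝ) - 6 / 10 ^ 8 ≤ ((sinL y : ℚ) : ℝ) := by
  have h := abs_le.mp (sinR_sound h0 h1)
  unfold sinL
  push_cast
  rw [le_div_iff₀ (by norm_num)]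
  linarith [h.1, h.2]

theorem aSin_nonneg (y : ℚ) : 0 ≤ aSin y := by
  unfold aSin
  positivity

end Pool.Agent.Helper95.SP.Crude
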