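import Pool.Agent.Helper95.SP.Crude.Adm2b
import Pool.Agent.Helper95.SP.Crude.SinR
import Pool.Agent.Helper95.SP.Crude.ExpF
import Pool.Agent.Helper95.SP.Crude.IdB
import Pool.Agent.Helper95.SP.Crude.SincB

/-!
Module `Adm2` (MP_66ebcc): verification of the tables `cT`, `fT` on the fine grid.
-/

set_option autoImplicit false

namespace Pool.Agent.Helper95.SP.Crude

open Real Finset

theorem cc2_nonneg (k j : ℕ) : 0 ≤ cc2 k j := by unfold cc2; positivity
theorem ff2_nonneg (k j : ℕ) : 0 ≤ ff2 k j := by unfold ff2; positivity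
theorem gr2_pos (j : ℕ) : 0 < gr2 j := by unfold gr2; split_ifs <;> positivity
theorem gr2_le {j : ℕ} (hj : j < 181) : gr2 j ≤ 3 / 4 := by
  unfold gr2
  split_ifs with h
  · have : (j : ℚ) ≤ 30 := by exact_mod_cast h
    linarith
  · have : ((j - 30 : ℕ) : ℚ) ≤ 150 := by exact_mod_cast (show j - 30 ≤ 150 by omega)
    linarith

/-- monotonicity of the tables, one step -/
theorem cc2_step : ∀ k ∈ [5, 7, 9, 11, 13, 15, 17, 19, 21, 23, 25], ∀ j < 180,
    cT k / 2 ^ (16 * (j + 1)) % 65536 ≤ cT k / 2 ^ (16 * j) % 65536 := by decide +kernel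
theorem ff2_step : ∀ k ∈ [5, 7, 9, 11, 13, 15, 17, 19, 21, 23, 25], ∀ j < 180,
    fT k / 2 ^ (16 * (j + 1)) % 65536 ≤ fT k / 2 ^ (16 * j) % 65536 := by decide +kernel
theorem cc2_zero : ∀ k ∈ [5, 7, 9, 11, 13, 15, 17, 19, 21, 23, 25],
    cc2 k 0 ≤ ((k : ℚ) ^ 2 - 1) / 6 := by decide +kernel

theorem cc2_anti {k : ℕ} (hk : k ∈ [5, 7, 9, 11, 13, 15, 17, 19, 21, 23, 25]) {i j : ℕ}
    (hij : i ≤ j) (hj : j < 181) : cc2 k j ≤ cc2 k i := by
  induction j, hij using Nat.le_induction with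
  | base => exact le_rfl
  | succ j hij ih =>
    refine le_trans ?_ (ih (by omega))
    unfold cc2
    refine div_le_div_of_nonneg_right ?_ (by norm_num)
    exact_mod_cast cc2_step k hk j (by omega)

theorem ff2_anti {k : ℕ} (hk : k ∈ [5, 7, 9, 11, 13, 15, 17, 19, 21, 23, 25]) {i j : ℕ}
    (hij : i ≤ j) (hj : j < 181) : ff2 k j ≤ ff2 k i := by
  induction j, hij using Nat.le_induction with
  | base => exact le_rfl
  | succ j hij ih =>
    refine le_trans ?_ (ih (by omega))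
    unfold ff2
    refine div_le_div_of_nonneg_right ?_ (by norm_num)
    exact_mod_cast ff2_step k hk j (by omega)

theorem cc2_le {k : ℕ} (hk : k ∈ [5, 7, 9, 11, 13, 15, 17, 19, 21, 23, 25]) {j : ℕ}
    (hj : j < 181) : cc2 k j ≤ ((k : ℚ) ^ 2 - 1) / 6 :=
  (cc2_anti hk (Nat.zero_le j) hj).trans (cc2_zero k hk)

/-- the bound on one subinterval -/
theorem abs_sin_le_of_sub2 {k : ℕ} {a b c F : ℚ} (hk : k ≤ 25) (ha : 0 ≤ a) (hab : a ≤ b)
    (hb : b ≤ 3 / 4) (hw : b - a ≤ 1 / 1000) (hc : 0 ≤ c) (hF : 0 ≤ F)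
    (h : sub2 k a b c F = true) {x : ℝ} (h1 : ((a : ℚ) : ℝ) ≤ x) (h2 : x ≤ ((b : ℚ) : ℝ)) :
    |sin (k * x)| ≤ k * sin x * exp (-((c : ℝ) * x ^ 2)) ∧
    |sin (k * x)| ≤ k * sin x * exp (-(F : ℝ)) := by
  unfold sub2 at h
  simp only [Bool.and_eq_true, decide_eq_true_eq] at h
  obtain ⟨hcc, hff⟩ := h
  have hkR : (k : ℝ) ≤ 25 := by exact_mod_cast hk
  have hkQ : (k : ℚ) ≤ 25 := by exact_mod_cast hk
  have hk0 : (0 : ℝ) ≤ k := Nat.cast_nonneg k
  have hk0Q : (0 : ℚ) ≤ k := Nat.cast_nonneg k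
  have haR : (0 : ℝ) ≤ a := by exact_mod_cast ha
  have hbR : (b : ℝ) ≤ 3 / 4 := by
    have := (Rat.cast_le (K := ℝ)).mpr hb
    push_cast at this
    exact this
  have hwR : (b : ℝ) - a ≤ 1 / 1000 := by
    have := (Rat.cast_le (K := ℝ)).mpr hw
    push_cast at this
    exact this
  have habR : (a : ℝ) ≤ b := by exact_mod_cast hab
  have hb0 : 0 ≤ b := ha.trans hab
  have hx0 : 0 ≤ x := haR.trans h1
  have hx1 : x ≤ 3 / 4 := h2.trans hbR
  have hpi : (3 : ℝ) < π := pi_gt_three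
  -- sine bounds
  have hA := aSin_sound (y := k * a) (mul_nonneg hk0Q ha) (by nlinarith)
  have hB := aSin_sound (y := k * b) (mul_nonneg hk0Q hb0) (by nlinarith)
  have hS := sinL_sound (y := a) ha (by linarith)
  push_cast at hA hB hS
  have hmax := abs_sin_le_max (a := k * a) (b := k * b) (y := k * x)
    (mul_le_mul_of_nonneg_left h1 hk0) (mul_le_mul_of_nonneg_left h2 hk0)
    (by rw [← mul_sub]; nlinarith)
  rw [← mul_sub] at hmax
  have hmax2 : |sin (k * x)| ≤ max ((aSin (k * a) : ℚ) : ℝ) ((aSin (k * b) : ℚ) : ℝ) *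
      (1 + ((k : ℝ) * (b - a)) ^ 2 / 6) :=
    hmax.trans (mul_le_mul_of_nonneg_right (max_le_max hA hB) (by positivity))
  have hsx : sin (a : ℝ) ≤ sin x :=
    sin_le_sin_of_le_of_le_pi_div_two (by linarith) (by linarith) h1
  have hsi : 0 ≤ sin (a : ℝ) := sin_nonneg_of_nonneg_of_le_pi haR (by linarith)
  have key : ∀ {E : ℚ} {E' : ℝ}, 0 ≤ E → E' ≤ (E : ℝ) →
      max (aSin (k * a)) (aSin (k * b)) * (1 + ((k : ℚ) * (b - a)) ^ 2 / 6) ≤
        k * sinL a * eLoF E → |sin (k * x)| ≤ k * sin x * exp (-E') := by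
    intro E E' hE hEE' hh
    have hh' : max ((aSin (k * a) : ℚ) : ℝ) ((aSin (k * b) : ℚ) : ℝ) *
        (1 + ((k : ℝ) * (b - a)) ^ 2 / 6) ≤ k * ((sinL a : ℚ) : ℝ) * ((eLoF E : ℚ) : ℝ) := by
      have := (Rat.cast_le (K := ℝ)).mpr hh
      push_cast at this
      exact this
    have he0 : (0 : ℝ) ≤ ((eLoF E : ℚ) : ℝ) := by exact_mod_cast eLoF_nonneg E
    have he1 := eLoF_sound hE
    have he2 : exp (-(E : ℝ)) ≤ exp (-E') := exp_le_exp.mpr (by linarith)
    calc |sin (k * x)| ≤ _ := hmax2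
      _ ≤ _ := hh'
      _ ≤ k * sin x * ((eLoF E : ℚ) : ℝ) := by
          refine mul_le_mul_of_nonneg_right (mul_le_mul_of_nonneg_left ?_ hk0) he0
          exact hS.trans hsx
      _ ≤ k * sin x * exp (-E') := by
          refine mul_le_mul_of_nonneg_left (he1.trans he2) (mul_nonneg hk0 (hsi.trans hsx))
  refine ⟨key (mul_nonneg hc (sq_nonneg b)) ?_ hcc, key hF le_rfl hff⟩
  push_cast
  refine mul_le_mul_of_nonneg_left ?_ (by exact_mod_cast hc)
  exact pow_le_pow_left₀ hx0 h2 2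

theorem gr2_cast_le {j : ℕ} (hj : j < 181) : ((gr2 j : ℚ) : ℝ) ≤ 3 / 4 := by
  have := (Rat.cast_le (K := ℝ)).mpr (gr2_le hj)
  push_cast at this
  exact this

theorem adm2_aux {k j : ℕ} (hk : k ∈ [5, 7, 9, 11, 13, 15, 17, 19, 21, 23, 25]) (hj : j < 181)
    {x : ℝ} (hxj : x ≤ ((gr2 j : ℚ) : ℝ)) (hkx : π < k * x) :
    |sin (k * x)| ≤ k * sin x * exp (-(((cc2 k j : ℚ) : ℝ) * x ^ 2)) ∧
    |sin (k * x)| ≤ k * sin x * exp (-((ff2 k j : ℚ) : ℝ)) := by
  have hpi : (3.14159 : ℝ) < π := by linarith [pi_gt_d6]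
  have hk25 : k ≤ 25 ∧ 5 ≤ k := by
    simp only [List.mem_cons, List.not_mem_nil, or_false] at hk
    omega
  have hkR : (k : ℝ) ≤ 25 := by exact_mod_cast hk25.1
  have hk5R : (5 : ℝ) ≤ k := by exact_mod_cast hk25.2
  have hx0 : 0 < x := by
    by_contra h
    push Not at h
    nlinarith
  have hx75 : x ≤ 3 / 4 := hxj.trans (gr2_cast_le hj)
  have hs : 0 ≤ (k : ℝ) * sin x := mul_nonneg (by linarith)
    (sin_nonneg_of_nonneg_of_le_pi hx0.le (by linarith))
  -- reduction to a subinterval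
  suffices hsuff : ∃ (i : ℕ) (a b : ℚ), i ≤ j ∧ 0 ≤ a ∧ a ≤ b ∧ b ≤ 3 / 4 ∧ b - a ≤ 1 / 1000 ∧
      (a : ℝ) ≤ x ∧ x ≤ (b : ℝ) ∧ sub2 k a b (cc2 k i) (ff2 k i) = true by
    obtain ⟨i, a, b, hij, ha, hab, hb, hw, h1, h2, h⟩ := hsuff
    obtain ⟨hA, hB⟩ := abs_sin_le_of_sub2 hk25.1 ha hab hb hw (cc2_nonneg _ _) (ff2_nonneg _ _) h
      h1 h2
    have hc := cc2_anti hk hij hj
    have hf := ff2_anti hk hij hj
    have hcR : ((cc2 k j : ℚ) : ℝ) ≤ ((cc2 k i : ℚ) : ℝ) := by exact_mod_cast hc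
    have hfR : ((ff2 k j : ℚ) : ℝ) ≤ ((ff2 k i : ℚ) : ℝ) := by exact_mod_cast hf
    constructor
    · refine hA.trans (mul_le_mul_of_nonneg_left (exp_le_exp.mpr ?_) hs)
      nlinarith [sq_nonneg x]
    · refine hB.trans (mul_le_mul_of_nonneg_left (exp_le_exp.mpr ?_) hs)
      linarith
  rcases le_or_gt x (6 / 10) with hx6 | hx6
  · -- coarse part
    obtain ⟨i, hi1, hi2⟩ : ∃ i : ℕ, (i : ℝ) / 1000 < x ∧ x ≤ ((i : ℝ) + 1) / 1000 := by
      refine ⟨⌈1000 * x⌉₊ - 1, ?_, ?_⟩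
      · have h1 := Nat.ceil_lt_add_one (show 0 ≤ 1000 * x by positivity)
        have h2 : 1 ≤ ⌈1000 * x⌉₊ := Nat.one_le_ceil_iff.mpr (by positivity)
        rw [Nat.cast_sub h2, div_lt_iff₀ (by norm_num)]
        push_cast; linarith
      · have h1 := Nat.le_ceil (1000 * x)
        have h2 : 1 ≤ ⌈1000 * x⌉₊ := Nat.one_le_ceil_iff.mpr (by positivity)
        rw [Nat.cast_sub h2, le_div_iff₀ (by norm_num)]
        push_cast; linarith
    have hi600 : i < 600 := by
      have h1 : (i : ℝ) < 600 := by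
        rw [div_lt_iff₀ (by norm_num)] at hi1
        linarith
      exact_mod_cast h1
    have hk3142 : 3142 ≤ k * (i + 1) := by
      have h1 : (3141 : ℝ) < k * (i + 1) := by
        rw [le_div_iff₀ (by norm_num)] at hi2
        have : (k : ℝ) * (x * 1000) ≤ k * (i + 1) := mul_le_mul_of_nonneg_left hi2 (by linarith)
        linarith
      have h2 : 3141 < k * (i + 1) := by exact_mod_cast h1
      omega
    have hcell : cellA i ≤ j := by
      unfold cellA
      by_cases hj30 : j ≤ 30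
      · have hgr : ((gr2 j : ℚ) : ℝ) = 3 / 10 + (j : ℝ) / 100 := by
          unfold gr2; rw [if_pos hj30]; push_cast; ring
        rw [hgr] at hxj
        have h1 : (i : ℝ) < 300 + 10 * j := by
          rw [div_lt_iff₀ (by norm_num)] at hi1
          linarith
        have h2 : i < 300 + 10 * j := by exact_mod_cast h1
        omega
      · omega
    have hiQ : (i : ℚ) + 1 ≤ 600 := by exact_mod_cast hi600
    refine ⟨cellA i, i / 1000, (i + 1) / 1000, hcell, by positivity, by linarith, by linarith,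
      by linarith, ?_, ?_, subA_all hk hi600 hk3142⟩
    · push_cast; exact hi1.le
    · push_cast; exact hi2
  · -- fine part
    have hj30 : ¬ j ≤ 30 := by
      intro hj30
      have hgr : ((gr2 j : ℚ) : ℝ) = 3 / 10 + (j : ℝ) / 100 := by
        unfold gr2; rw [if_pos hj30]; push_cast; ring
      have hjR : (j : ℝ) ≤ 30 := by exact_mod_cast hj30
      rw [hgr] at hxj
      linarith
    have hgr : ((gr2 j : ℚ) : ℝ) = 6 / 10 + ((j : ℝ) - 30) / 1000 := by
      unfold gr2; rw [if_neg hj30, Nat.cast_sub (by omega)]; push_cast; ring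
    rw [hgr] at hxj
    obtain ⟨i, hi1, hi2⟩ : ∃ i : ℕ, (i : ℝ) / 2000 < x ∧ x ≤ ((i : ℝ) + 1) / 2000 := by
      refine ⟨⌈2000 * x⌉₊ - 1, ?_, ?_⟩
      · have h1 := Nat.ceil_lt_add_one (show 0 ≤ 2000 * x by positivity)
        have h2 : 1 ≤ ⌈2000 * x⌉₊ := Nat.one_le_ceil_iff.mpr (by positivity)
        rw [Nat.cast_sub h2, div_lt_iff₀ (by norm_num)]
        push_cast; linarith
      · have h1 := Nat.le_ceil (2000 * x)
        have h2 : 1 ≤ ⌈2000 * x⌉₊ := Nat.one_le_ceil_iff.mpr (by positivity)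
        rw [Nat.cast_sub h2, le_div_iff₀ (by norm_num)]
        push_cast; linarith
    have hi1200 : 1200 ≤ i := by
      have h1 : (1200 : ℝ) < i + 1 := by
        rw [le_div_iff₀ (by norm_num)] at hi2
        linarith
      have h2 : 1200 < i + 1 := by exact_mod_cast h1
      omega
    have hcell0 : i < 1200 + 2 * (j - 30) := by
      have h1 : (i : ℝ) < 1200 + 2 * ((j - 30 : ℕ) : ℝ) := by
        rw [div_lt_iff₀ (by norm_num)] at hi1
        rw [Nat.cast_sub (by omega)]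
        push_cast
        linarith
      exact_mod_cast h1
    have hi1500 : i < 1500 := by omega
    have hk6284 : 6284 ≤ k * (i + 1) := by
      have h1 : (6283 : ℝ) < k * (i + 1) := by
        rw [le_div_iff₀ (by norm_num)] at hi2
        have : (k : ℝ) * (x * 2000) ≤ k * (i + 1) := mul_le_mul_of_nonneg_left hi2 (by linarith)
        linarith
      have h2 : 6283 < k * (i + 1) := by exact_mod_cast h1
      omega
    have hcell : cellB i ≤ j := by
      unfold cellB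
      omega
    have hiQ : (i : ℚ) + 1 ≤ 1500 := by exact_mod_cast hi1500
    refine ⟨cellB i, i / 2000, (i + 1) / 2000, hcell, by positivity, by linarith, by linarith,
      by linarith, ?_, ?_, subB_all hk hi1200 hi1500 hk6284⟩
    · push_cast; exact hi1.le
    · push_cast; exact hi2

theorem sinc_of_sin2 {k x E : ℝ} (hk : 0 < k) (hx : 0 < x)
    (h : |sin (k * x)| ≤ k * sin x * exp E) : |sinc (k * x)| ≤ sinc x * exp E := by
  rw [sinc_of_ne_zero (by positivity), sinc_of_ne_zero hx.ne', abs_div,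
    abs_of_pos (show 0 < k * x by positivity), div_le_iff₀ (by positivity)]
  have : sin x / x * exp E * (k * x) = k * sin x * exp E := by field_simp
  rw [this]; exact h

theorem sinc_nonneg_of_le2 {x : ℝ} (hx : 0 ≤ x) (h : x ≤ 3 / 4) : 0 ≤ sinc x := by
  by_cases h0 : x = 0
  · simp [h0]
  · rw [sinc_of_ne_zero h0]
    exact div_nonneg (sin_nonneg_of_nonneg_of_le_pi hx (by linarith [pi_gt_three])) hx

theorem five_le_of_mem2 {k : ℕ} (hk : k ∈ [5, 7, 9, 11, 13, 15, 17, 19, 21, 23, 25]) : 5 ≤ k := by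
  simp only [List.mem_cons, List.not_mem_nil, or_false] at hk
  omega

theorem adm2 {k j : ℕ} (hk : k ∈ [5, 7, 9, 11, 13, 15, 17, 19, 21, 23, 25]) (hj : j < 181) {x : ℝ}
    (hx : 0 ≤ x) (hxj : x ≤ ((gr2 j : ℚ) : ℝ)) :
    |sinc (k * x)| ≤ sinc x * exp (-(((cc2 k j : ℚ) : ℝ) * x ^ 2)) := by
  have hk5 : 5 ≤ k := five_le_of_mem2 hk
  have hk5R : (5 : ℝ) ≤ k := by exact_mod_cast hk5
  rcases le_or_gt (k * x) π with h | h
  · have hcR : ((cc2 k j : ℚ) : ℝ) ≤ ((k : ℝ) ^ 2 - 1) / 6 := by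
      have := (Rat.cast_le (K := ℝ)).mpr (cc2_le hk hj)
      push_cast at this
      exact this
    have hsx : 0 ≤ sinc x := sinc_nonneg_of_le2 hx (hxj.trans (gr2_cast_le hj))
    refine (abs_sinc_mul_le (by linarith) hx h).trans (mul_le_mul_of_nonneg_left
      (exp_le_exp.mpr ?_) hsx)
    nlinarith [sq_nonneg x]
  · have hx0 : 0 < x := by
      by_contra h'
      have : x = 0 := le_antisymm (not_lt.mp h') hx
      rw [this, mul_zero] at h
      linarith [pi_pos]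
    exact sinc_of_sin2 (by linarith) hx0 (adm2_aux hk hj hxj h).1

theorem admJ2 {k j : ℕ} (hk : k ∈ [5, 7, 9, 11, 13, 15, 17, 19, 21, 23, 25]) (hj : j < 181) {x : ℝ}
    (hx : 0 ≤ x) (hxj : x ≤ ((gr2 j : ℚ) : ℝ)) :
    |sinc (k * x)| ≤ sinc x *
      max (exp (-(((k : ℝ) ^ 2 - 1) / 6 * x ^ 2))) (exp (-((ff2 k j : ℚ) : ℝ))) := by
  have hk5 : 5 ≤ k := five_le_of_mem2 hk
  have hk5R : (5 : ℝ) ≤ k := by exact_mod_cast hk5
  have hsx : 0 ≤ sinc x := sinc_nonneg_of_le2 hx (hxj.trans (gr2_cast_le hj))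
  rcases le_or_gt (k * x) π with h | h
  · exact (abs_sinc_mul_le (by linarith) hx h).trans (mul_le_mul_of_nonneg_left
      (le_max_left _ _) hsx)
  · have hx0 : 0 < x := by
      by_contra h'
      have : x = 0 := le_antisymm (not_lt.mp h') hx
      rw [this, mul_zero] at h
      linarith [pi_pos]
    exact (sinc_of_sin2 (by linarith) hx0 (adm2_aux hk hj hxj h).2).trans
      (mul_le_mul_of_nonneg_left (le_max_right _ _) hsx)

end Pool.Agent.Helper95.SP.Crude
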