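import Pool.Agent.Helper95.SP.Crude.Tab2

/-!
Module `Adm2` (MP_66ebcc), first part: the test of one subinterval and the kernel computations for
the fine grid.
-/

set_option autoImplicit false

namespace Pool.Agent.Helper95.SP.Crude

/-- the check on the subinterval `[a, b]` -/
def sub2 (k : ℕ) (a b c F : ℚ) : Bool :=
  let S := max (aSin (k * a)) (aSin (k * b)) * (1 + (k * (b - a)) ^ 2 / 6)
  let s := k * sinL a
  decide (S ≤ s * eLoF (c * b ^ 2)) && decide (S ≤ s * eLoF F)

/-- grid cell of `[i / 1000, (i + 1) / 1000]`, `i < 600` -/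
def cellA (i : ℕ) : ℕ := (i + 1 - 300 + 9) / 10
/-- grid cell of `[i / 2000, (i + 1) / 2000]`, `1200 ≤ i < 1500` -/
def cellB (i : ℕ) : ℕ := 30 + (i + 1 - 1200 + 1) / 2

/-- the check for `[i / 1000, (i + 1) / 1000]` -/
def subA (k i : ℕ) : Bool :=
  sub2 k (i / 1000) ((i + 1) / 1000) (cc2 k (cellA i)) (ff2 k (cellA i))
/-- the check for `[i / 2000, (i + 1) / 2000]` -/
def subB (k i : ℕ) : Bool :=
  sub2 k (i / 2000) ((i + 1) / 2000) (cc2 k (cellB i)) (ff2 k (cellB i))

theorem subB5 : ∀ i < 244, subB 5 (1256 + i) = true := by decide +kernel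
theorem subB7 : ∀ i < 300, subB 7 (1200 + i) = true := by decide +kernel
theorem subB9 : ∀ i < 300, subB 9 (1200 + i) = true := by decide +kernel
theorem subB11 : ∀ i < 300, subB 11 (1200 + i) = true := by decide +kernel
theorem subB13 : ∀ i < 300, subB 13 (1200 + i) = true := by decide +kernel
theorem subB15 : ∀ i < 300, subB 15 (1200 + i) = true := by decide +kernel
theorem subB17 : ∀ i < 300, subB 17 (1200 + i) = true := by decide +kernel
theorem subB19 : ∀ i < 300, subB 19 (1200 + i) = true := by decide +kernel
theorem subB21 : ∀ i < 300, subB 21 (1200 + i) = true := by decide +kernel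
theorem subB23 : ∀ i < 300, subB 23 (1200 + i) = true := by decide +kernel
theorem subB25 : ∀ i < 300, subB 25 (1200 + i) = true := by decide +kernel

theorem subB_all {k i : ℕ} (hk : k ∈ [5, 7, 9, 11, 13, 15, 17, 19, 21, 23, 25]) (h0 : 1200 ≤ i)
    (hi : i < 1500) (h : 6284 ≤ k * (i + 1)) : subB k i = true := by
  simp only [List.mem_cons, List.not_mem_nil, or_false] at hk
  rcases hk with rfl | rfl | rfl | rfl | rfl | rfl | rfl | rfl | rfl | rfl | rfl
  · have := subB5 (i - 1256) (by omega)
    rwa [Nat.add_sub_cancel' (by omega)] at this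
  · have := subB7 (i - 1200) (by omega)
    rwa [Nat.add_sub_cancel' (by omega)] at this
  · have := subB9 (i - 1200) (by omega)
    rwa [Nat.add_sub_cancel' (by omega)] at this
  · have := subB11 (i - 1200) (by omega)
    rwa [Nat.add_sub_cancel' (by omega)] at this
  · have := subB13 (i - 1200) (by omega)
    rwa [Nat.add_sub_cancel' (by omega)] at this
  · have := subB15 (i - 1200) (by omega)
    rwa [Nat.add_sub_cancel' (by omega)] at this
  · have := subB17 (i - 1200) (by omega)
    rwa [Nat.add_sub_cancel' (by omega)] at this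
  · have := subB19 (i - 1200) (by omega)
    rwa [Nat.add_sub_cancel' (by omega)] at this
  · have := subB21 (i - 1200) (by omega)
    rwa [Nat.add_sub_cancel' (by omega)] at this
  · have := subB23 (i - 1200) (by omega)
    rwa [Nat.add_sub_cancel' (by omega)] at this
  · have := subB25 (i - 1200) (by omega)
    rwa [Nat.add_sub_cancel' (by omega)] at this

end Pool.Agent.Helper95.SP.Crude
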