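import Pool.Agent.Helper95.SP.Crude.Adm2a

/-!
Module `Adm2` (MP_66ebcc), second part: the kernel computations for the coarse grid.
-/

set_option autoImplicit false

namespace Pool.Agent.Helper95.SP.Crude

theorem subA7 : ∀ i < 152, subA 7 (448 + i) = true := by decide +kernel
theorem subA9 : ∀ i < 251, subA 9 (349 + i) = true := by decide +kernel
theorem subA11 : ∀ i < 315, subA 11 (285 + i) = true := by decide +kernel
theorem subA13 : ∀ i < 359, subA 13 (241 + i) = true := by decide +kernel
theorem subA15 : ∀ i < 391, subA 15 (209 + i) = true := by decide +kernel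
theorem subA17 : ∀ i < 416, subA 17 (184 + i) = true := by decide +kernel
theorem subA19 : ∀ i < 435, subA 19 (165 + i) = true := by decide +kernel
theorem subA21 : ∀ i < 451, subA 21 (149 + i) = true := by decide +kernel
theorem subA23 : ∀ i < 464, subA 23 (136 + i) = true := by decide +kernel
theorem subA25 : ∀ i < 475, subA 25 (125 + i) = true := by decide +kernel

theorem subA_all {k i : ℕ} (hk : k ∈ [5, 7, 9, 11, 13, 15, 17, 19, 21, 23, 25])
    (hi : i < 600) (h : 3142 ≤ k * (i + 1)) : subA k i = true := by
  simp only [List.mem_cons, List.not_mem_nil, or_false] at hk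
  rcases hk with rfl | rfl | rfl | rfl | rfl | rfl | rfl | rfl | rfl | rfl | rfl
  · omega
  · have := subA7 (i - 448) (by omega)
    rwa [Nat.add_sub_cancel' (by omega)] at this
  · have := subA9 (i - 349) (by omega)
    rwa [Nat.add_sub_cancel' (by omega)] at this
  · have := subA11 (i - 285) (by omega)
    rwa [Nat.add_sub_cancel' (by omega)] at this
  · have := subA13 (i - 241) (by omega)
    rwa [Nat.add_sub_cancel' (by omega)] at this
  · have := subA15 (i - 209) (by omega)
    rwa [Nat.add_sub_cancel' (by omega)] at this
  · have := subA17 (i - 184) (by omega)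
    rwa [Nat.add_sub_cancel' (by omega)] at this
  · have := subA19 (i - 165) (by omega)
    rwa [Nat.add_sub_cancel' (by omega)] at this
  · have := subA21 (i - 149) (by omega)
    rwa [Nat.add_sub_cancel' (by omega)] at this
  · have := subA23 (i - 136) (by omega)
    rwa [Nat.add_sub_cancel' (by omega)] at this
  · have := subA25 (i - 125) (by omega)
    rwa [Nat.add_sub_cancel' (by omega)] at this

end Pool.Agent.Helper95.SP.Crude
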