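import Pool.Agent.Helper95.SP.CombNat
import Pool.Agent.Helper95.SP.Prod

/-!
Bounds of the bracket `BB X U C 1 = sinc C ^ 2 - sinc X * sinc U` from the product formula (helper18).
-/

set_option autoImplicit false

namespace Pool.Agent.Helper95.SP.Crude

open Real Finset Filter Topology

namespace BBaux

/-- `A_j = π² (j+1)²` -/
noncomputable def AJ (j : ℕ) : ℝ := π ^ 2 * ((j : ℝ) + 1) ^ 2

theorem AJ_zero : AJ 0 = π ^ 2 := by unfold AJ; simp

theorem AJ_one : AJ 1 = 4 * π ^ 2 := by unfold AJ; push_cast; ring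

theorem pi_sq_le_AJ (j : ℕ) : π ^ 2 ≤ AJ j := by
  unfold AJ
  have h1 : (1:ℝ) ≤ ((j : ℝ) + 1) ^ 2 := by
    have : (1:ℝ) ≤ (j : ℝ) + 1 := by linarith [Nat.cast_nonneg (α := ℝ) j]
    nlinarith
  have hπ : 0 < π ^ 2 := by positivity
  nlinarith

theorem four_pi_sq_le_AJ {j : ℕ} (hj : 1 ≤ j) : 4 * π ^ 2 ≤ AJ j := by
  unfold AJ
  have h0 : (1:ℝ) ≤ (j : ℝ) := by exact_mod_cast hj
  have h1 : (4:ℝ) ≤ ((j : ℝ) + 1) ^ 2 := by nlinarith
  have hπ : 0 < π ^ 2 := by positivity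
  nlinarith

theorem AJ_pos (j : ℕ) : 0 < AJ j := lt_of_lt_of_le (by positivity) (pi_sq_le_AJ j)

theorem pr_eq (v : ℝ) (n : ℕ) : pr v n = ∏ j ∈ range n, (1 + v / AJ j) := rfl

/-- the finite identity of the bracket -/
theorem bracket_eq {s d : ℝ} (hs : s < π ^ 2) (n : ℕ) :
    pr (-s) n ^ 2 - pr (-(s + d)) n * pr (-(s - d)) n =
      pr (-s) n ^ 2 * (1 - ∏ j ∈ range n, (1 - (d / (AJ j - s)) ^ 2)) := by
  have e1 : pr (-(s + d)) n * pr (-(s - d)) n =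
      pr (-s) n ^ 2 * ∏ j ∈ range n, (1 - (d / (AJ j - s)) ^ 2) := by
    rw [pr_eq, pr_eq, pr_eq, ← prod_mul_distrib, ← prod_pow, ← prod_mul_distrib]
    refine prod_congr rfl fun j _ => ?_
    have h1 : AJ j ≠ 0 := (AJ_pos j).ne'
    have h2 : AJ j - s ≠ 0 := by
      have := pi_sq_le_AJ j
      exact (by linarith : 0 < AJ j - s).ne'
    field_simp
    ring
  rw [e1]; ring

theorem ratio_mem {s d : ℝ} (hd : 0 ≤ d) (hsd : s + d ≤ π ^ 2) (hs : s < π ^ 2) (j : ℕ) :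
    0 ≤ d / (AJ j - s) ∧ d / (AJ j - s) ≤ 1 := by
  have h1 := pi_sq_le_AJ j
  have h2 : 0 < AJ j - s := by linarith
  exact ⟨by positivity, by rw [div_le_one h2]; linarith⟩

theorem sq_mem {e : ℝ} (h : 0 ≤ e ∧ e ≤ 1) : 0 ≤ e ^ 2 ∧ e ^ 2 ≤ 1 :=
  ⟨by positivity, pow_le_one₀ h.1 h.2⟩

/-- convergence of the bracket -/
theorem tendsto_bracket {X U C w : ℝ} (hCC : 2 * C ^ 2 = X ^ 2 + U ^ 2)
    (hs : w ^ 2 * C ^ 2 < π ^ 2) :
    Tendsto (fun n => pr (-(w ^ 2 * C ^ 2)) n ^ 2 *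
      (1 - ∏ j ∈ range n, (1 - (w ^ 2 * ((X ^ 2 - U ^ 2) / 2) / (AJ j - w ^ 2 * C ^ 2)) ^ 2))) atTop
      (𝓝 (BB X U C w)) := by
  have t1 := tendsto_sinc (w * C)
  have t2 := tendsto_sinc (w * X)
  have t3 := tendsto_sinc (w * U)
  have h1 := (t1.pow 2).sub (t2.mul t3)
  unfold BB
  refine h1.congr fun n => ?_
  rw [← bracket_eq hs]
  have e1 : -(w * C) ^ 2 = -(w ^ 2 * C ^ 2) := by ring
  have e2 : -(w * X) ^ 2 = -(w ^ 2 * C ^ 2 + w ^ 2 * ((X ^ 2 - U ^ 2) / 2)) := by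
    have : w ^ 2 * (2 * C ^ 2) = w ^ 2 * (X ^ 2 + U ^ 2) := by rw [hCC]
    linarith
  have e3 : -(w * U) ^ 2 = -(w ^ 2 * C ^ 2 - w ^ 2 * ((X ^ 2 - U ^ 2) / 2)) := by
    have : w ^ 2 * (2 * C ^ 2) = w ^ 2 * (X ^ 2 + U ^ 2) := by rw [hCC]
    linarith
  rw [e1, e2, e3]

theorem sum_tail_four (n : ℕ) : ∑ j ∈ range n, 1 / AJ (j + 1) ^ 2 ≤ 85 / 100000 := by
  have h := sum_four_le (n + 1)
  have h' : ∑ j ∈ range (n + 1), 1 / AJ j ^ 2 ≤ 1 / 90 := h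
  rw [sum_range_succ', AJ_zero] at h'
  have h1 : (1:ℝ) / (π ^ 2) ^ 2 ≥ 1 / 9742 * 100 := by
    have := pi_lt_d6
    have h3 : π ^ 2 ≤ 3.141593 ^ 2 := pow_le_pow_left₀ pi_pos.le (by linarith) 2
    have h4 : (π ^ 2) ^ 2 ≤ (3.141593 ^ 2) ^ 2 := pow_le_pow_left₀ (by positivity) h3 2
    rw [ge_iff_le, le_div_iff₀ (by positivity)]
    norm_num at h4 ⊢
    nlinarith
  norm_num at h1 h' ⊢
  linarith

end BBaux

open BBaux

theorem BB1_le {X U C : ℝ} (hU : 0 ≤ U) (hUX : U < X) (hC : 0 ≤ C) (hCC : 2 * C ^ 2 = X ^ 2 + U ^ 2)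
    (hX : 9 * X ^ 2 ≤ π ^ 2) :
    BB X U C 1 ≤ sinc C ^ 2 * (((X ^ 2 - U ^ 2) / 2) ^ 2 / (π ^ 2 - C ^ 2) ^ 2) *
      (1 + 85 / 100000 * (1 + 55 / 1000 * C ^ 2) * (π ^ 2 - C ^ 2) ^ 2) := by
  set s := C ^ 2 with hs
  set d := (X ^ 2 - U ^ 2) / 2 with hd
  have hX0 : 0 < X := lt_of_le_of_lt hU hUX
  have hUX2 : U ^ 2 < X ^ 2 := pow_lt_pow_left₀ hUX hU (by norm_num)
  have hd0 : 0 ≤ d := by rw [hd]; linarith
  have hs0 : 0 ≤ s := by positivity
  have hsd : s + d = X ^ 2 := by rw [hd]; linarith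
  have hs9 : 9 * s ≤ π ^ 2 := by linarith
  have hπ : 0 < π ^ 2 := by positivity
  have hsπ : s < π ^ 2 := by linarith
  have tb := tendsto_bracket (X := X) (U := U) (C := C) (w := 1) hCC (by rw [← hs]; linarith)
  rw [← hs, ← hd] at tb
  simp only [one_pow, one_mul] at tb
  have tC := tendsto_sinc C
  have tR := (tC.pow 2).mul_const ((d ^ 2 / (π ^ 2 - s) ^ 2) *
      (1 + 85 / 100000 * (1 + 55 / 1000 * s) * (π ^ 2 - s) ^ 2))
  rw [← mul_assoc] at tR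
  refine le_of_tendsto_of_tendsto' tb tR fun n => ?_
  rw [← hs]
  refine mul_le_mul_of_nonneg_left ?_ (sq_nonneg _)
  have hr : ∀ j, 0 ≤ (d / (AJ j - s)) ^ 2 ∧ (d / (AJ j - s)) ^ 2 ≤ 1 := fun j =>
    sq_mem (ratio_mem hd0 (by nlinarith [sq_nonneg X]) hsπ j)
  have hw := one_sub_sum_le (range n) (fun j => (d / (AJ j - s)) ^ 2) (fun j _ => (hr j).1)
    (fun j _ => (hr j).2)
  have hsum : ∑ j ∈ range n, (d / (AJ j - s)) ^ 2 ≤ d ^ 2 / (π ^ 2 - s) ^ 2 *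
      (1 + 85 / 100000 * (1 + 55 / 1000 * s) * (π ^ 2 - s) ^ 2) := by
    have h1 : ∑ j ∈ range n, (d / (AJ j - s)) ^ 2 ≤ ∑ j ∈ range (n + 1), (d / (AJ j - s)) ^ 2 :=
      sum_le_sum_of_subset_of_nonneg (range_mono (Nat.le_succ n)) fun j _ _ => (hr j).1
    refine h1.trans ?_
    rw [sum_range_succ', AJ_zero]
    have h2 : ∀ j ∈ range n, (d / (AJ (j + 1) - s)) ^ 2 ≤
        d ^ 2 * (1 + 55 / 1000 * s) * (1 / AJ (j + 1) ^ 2) := by
      intro j _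
      have h3 := four_pi_sq_le_AJ (j := j + 1) (by omega)
      have h4 := AJ_pos (j + 1)
      set A := AJ (j + 1) with hA
      have h5 : 0 < A - s := by linarith
      -- `A² ≤ (1 + .055 s) (A - s)²`
      have hpi := pi_gt_d6
      have hp2 : (39.47 : ℝ) ≤ A := by nlinarith
      have h36 : 36 * s ≤ A := by linarith
      have hs1 : s ≤ 1.1 := by
        have hpi2 := pi_lt_d6
        have : π ^ 2 ≤ 3.141593 ^ 2 := pow_le_pow_left₀ pi_pos.le hpi2.le 2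
        norm_num at this ⊢
        linarith
      have key : A ^ 2 ≤ (1 + 55 / 1000 * s) * (A - s) ^ 2 := by
        have h6 : 0 ≤ A * s := by positivity
        -- `(1+cs)(A-s)^2 - A^2 = s (c A^2 - 2 A + s + c s^2 - 2 c A s)`
        have h7 : 0 ≤ 55 / 1000 * A ^ 2 - 2 * A - 2 * (55 / 1000) * A * s := by
          have : 0 ≤ A * (55 / 1000 * A - 2 - 2 * (55 / 1000) * s) := by
            refine mul_nonneg h4.le ?_
            nlinarith
          nlinarith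
        nlinarith [mul_nonneg hs0 h7, mul_nonneg hs0 hs0, mul_nonneg hs0 (mul_nonneg hs0 hs0)]
      rw [div_pow, mul_one_div, div_le_div_iff₀ (by positivity) (by positivity)]
      nlinarith [mul_le_mul_of_nonneg_left key (sq_nonneg d)]
    have h3 := sum_le_sum h2
    rw [← mul_sum] at h3
    have h4 := mul_le_mul_of_nonneg_left (sum_tail_four n)
      (by positivity : 0 ≤ d ^ 2 * (1 + 55 / 1000 * s))
    have h5 : 0 < π ^ 2 - s := by linarith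
    have e : d ^ 2 / (π ^ 2 - s) ^ 2 * (1 + 85 / 100000 * (1 + 55 / 1000 * s) * (π ^ 2 - s) ^ 2) =
        (d / (π ^ 2 - s)) ^ 2 + d ^ 2 * (1 + 55 / 1000 * s) * (85 / 100000) := by
      field_simp
    rw [e]
    linarith
  linarith

namespace BBaux

theorem tendsto_sum_four : Tendsto (fun n => ∑ j ∈ range n, 1 / AJ j ^ 2) atTop (𝓝 (1 / 90)) := by
  have h := hasSum_zeta_four
  have h1 : HasSum (fun n : ℕ => (1 : ℝ) / ((n : ℝ) + 1) ^ 4) (π ^ 4 / 90) := by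
    have := (hasSum_nat_add_iff' (f := fun n : ℕ => (1 : ℝ) / (n : ℝ) ^ 4) 1).mpr h
    simpa using this
  have h2 := h1.mul_left (1 / π ^ 4)
  have e : 1 / π ^ 4 * (π ^ 4 / 90) = 1 / 90 := by field_simp
  rw [e] at h2
  refine h2.tendsto_sum_nat.congr fun n => ?_
  refine sum_congr rfl fun j _ => ?_
  unfold AJ
  field_simp

theorem nonneg_of_deriv {f f' : ℝ → ℝ} (h0 : 0 ≤ f 0) (hd : ∀ x, HasDerivAt f (f' x) x)
    (hf : ∀ x, 0 ≤ x → 0 ≤ f' x) {x : ℝ} (hx : 0 ≤ x) : 0 ≤ f x := by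
  have hm : MonotoneOn f (Set.Ici 0) := by
    refine monotoneOn_of_deriv_nonneg (convex_Ici 0)
      (fun y _ => (hd y).continuousAt.continuousWithinAt)
      (fun y _ => (hd y).differentiableAt.differentiableWithinAt) fun y hy => ?_
    rw [interior_Ici] at hy
    rw [(hd y).deriv]
    exact hf y (le_of_lt hy)
  exact h0.trans (hm (Set.mem_Ici.mpr le_rfl) (Set.mem_Ici.mpr hx) hx)

theorem cos_poly2 {x : ℝ} (_hx : 0 ≤ x) : 0 ≤ cos x - (1 - x ^ 2 / 2) := by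
  have := one_sub_sq_div_two_le_cos (x := x); linarith

theorem sin_poly3 {x : ℝ} (hx : 0 ≤ x) : 0 ≤ sin x - (x - x ^ 3 / 6) := by
  refine nonneg_of_deriv (f := fun x => sin x - (x - x ^ 3 / 6))
    (f' := fun x => cos x - (1 - x ^ 2 / 2)) (by simp) (fun y => ?_) (fun y hy => cos_poly2 hy) hx
  have := (hasDerivAt_sin y).sub ((hasDerivAt_id y).sub (((hasDerivAt_id y).pow 3).div_const 6))
  refine this.congr_deriv ?_
  simp only [id]
  norm_num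
  ring

theorem cos_poly4 {x : ℝ} (hx : 0 ≤ x) : 0 ≤ (1 - x ^ 2 / 2 + x ^ 4 / 24) - cos x := by
  refine nonneg_of_deriv (f := fun x => (1 - x ^ 2 / 2 + x ^ 4 / 24) - cos x)
    (f' := fun x => sin x - (x - x ^ 3 / 6)) (by simp) (fun y => ?_) (fun y hy => sin_poly3 hy) hx
  have := (((hasDerivAt_const y (1:ℝ)).sub (((hasDerivAt_id y).pow 2).div_const 2)).add
    (((hasDerivAt_id y).pow 4).div_const 24)).sub (hasDerivAt_cos y)
  refine this.congr_deriv ?_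
  simp only [id]
  norm_num
  ring

theorem sin_poly5 {x : ℝ} (hx : 0 ≤ x) : 0 ≤ (x - x ^ 3 / 6 + x ^ 5 / 120) - sin x := by
  refine nonneg_of_deriv (f := fun x => (x - x ^ 3 / 6 + x ^ 5 / 120) - sin x)
    (f' := fun x => (1 - x ^ 2 / 2 + x ^ 4 / 24) - cos x) (by simp) (fun y => ?_)
    (fun y hy => cos_poly4 hy) hx
  have := (((hasDerivAt_id y).sub (((hasDerivAt_id y).pow 3).div_const 6)).add
    (((hasDerivAt_id y).pow 5).div_const 120)).sub (hasDerivAt_sin y)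
  refine this.congr_deriv ?_
  simp only [id]
  norm_num
  ring

theorem cos_poly6 {x : ℝ} (hx : 0 ≤ x) :
    0 ≤ cos x - (1 - x ^ 2 / 2 + x ^ 4 / 24 - x ^ 6 / 720) := by
  refine nonneg_of_deriv (f := fun x => cos x - (1 - x ^ 2 / 2 + x ^ 4 / 24 - x ^ 6 / 720))
    (f' := fun x => (x - x ^ 3 / 6 + x ^ 5 / 120) - sin x) (by simp) (fun y => ?_)
    (fun y hy => sin_poly5 hy) hx
  have := (hasDerivAt_cos y).sub ((((hasDerivAt_const y (1:ℝ)).sub
    (((hasDerivAt_id y).pow 2).div_const 2)).add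
    (((hasDerivAt_id y).pow 4).div_const 24)).sub (((hasDerivAt_id y).pow 6).div_const 720))
  refine this.congr_deriv ?_
  simp only [id]
  norm_num
  ring

theorem sin_poly7 {x : ℝ} (hx : 0 ≤ x) :
    0 ≤ sin x - (x - x ^ 3 / 6 + x ^ 5 / 120 - x ^ 7 / 5040) := by
  refine nonneg_of_deriv (f := fun x => sin x - (x - x ^ 3 / 6 + x ^ 5 / 120 - x ^ 7 / 5040))
    (f' := fun x => cos x - (1 - x ^ 2 / 2 + x ^ 4 / 24 - x ^ 6 / 720)) (by simp) (fun y => ?_)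
    (fun y hy => cos_poly6 hy) hx
  have := (hasDerivAt_sin y).sub ((((hasDerivAt_id y).sub
    (((hasDerivAt_id y).pow 3).div_const 6)).add
    (((hasDerivAt_id y).pow 5).div_const 120)).sub (((hasDerivAt_id y).pow 7).div_const 5040))
  refine this.congr_deriv ?_
  simp only [id]
  norm_num
  ring

theorem sinc_poly6 {x : ℝ} (hx : 0 ≤ x) :
    1 - x ^ 2 / 6 + x ^ 4 / 120 - x ^ 6 / 5040 ≤ sinc x := by
  rcases eq_or_lt_of_le hx with h | h
  · rw [← h]; simp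
  · rw [sinc_of_ne_zero h.ne', le_div_iff₀ h]
    have := sin_poly7 hx
    nlinarith

end BBaux

theorem le_BB1 {X U C : ℝ} (hU : 0 ≤ U) (hUX : U < X) (hC : 0 ≤ C) (hCC : 2 * C ^ 2 = X ^ 2 + U ^ 2)
    (hX : 9 * X ^ 2 ≤ π ^ 2) :
    ((X ^ 2 - U ^ 2) / 2) ^ 2 * ((1 - C ^ 2 / 6 + C ^ 4 / 120 - C ^ 6 / 5040) ^ 2 *
      (1 / (π ^ 2 - C ^ 2) ^ 2 + 844 / 10 ^ 6) * (997 / 1000)) ≤ BB X U C 1 := by
  have hpoly := sinc_poly6 hC
  have hC4 : C ^ 4 = (C ^ 2) ^ 2 := by ring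
  have hC6 : C ^ 6 = (C ^ 2) ^ 3 := by ring
  rw [hC4, hC6] at hpoly ⊢
  set s := C ^ 2 with hs
  set d := (X ^ 2 - U ^ 2) / 2 with hd
  have hX0 : 0 < X := lt_of_le_of_lt hU hUX
  have hUX2 : U ^ 2 < X ^ 2 := pow_lt_pow_left₀ hUX hU (by norm_num)
  have hd0 : 0 ≤ d := by rw [hd]; linarith
  have hs0 : 0 ≤ s := by positivity
  have hsd : s + d = X ^ 2 := by rw [hd]; linarith
  have hs9 : 9 * s ≤ π ^ 2 := by linarith
  have hπ : 0 < π ^ 2 := by positivity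
  have hsπ : s < π ^ 2 := by linarith
  have hpi1 := pi_gt_d6
  have hpi2 := pi_lt_d6
  have hp1 : 3.141592 ^ 2 ≤ π ^ 2 := pow_le_pow_left₀ (by norm_num) hpi1.le 2
  have hp2 : π ^ 2 ≤ 3.141593 ^ 2 := pow_le_pow_left₀ pi_pos.le hpi2.le 2
  norm_num at hp1 hp2
  have hs1 : s ≤ 1.1 := by norm_num; linarith
  have hd1 : d ≤ 0.55 := by
    have : 2 * d ≤ X ^ 2 := by rw [hd]; nlinarith [sq_nonneg U]
    norm_num
    linarith
  set T := d ^ 2 * (1 / (π ^ 2 - s) ^ 2 + 844 / 10 ^ 6) with hT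
  have h5 : 8.7 ≤ π ^ 2 - s := by norm_num; linarith
  have hT0 : 0 ≤ T := by positivity
  have hT1 : T ≤ 6 / 1000 := by
    have h6 : 1 / (π ^ 2 - s) ^ 2 ≤ 1 / 75 := by
      apply one_div_le_one_div_of_le (by norm_num)
      nlinarith
    have h7 : d ^ 2 ≤ 0.3025 := by nlinarith
    have h8 : (1 / (π ^ 2 - s) ^ 2 + 844 / 10 ^ 6 : ℝ) ≤ 0.0142 := by norm_num at h6 ⊢; linarith
    calc T ≤ 0.3025 * 0.0142 := by
          rw [hT]
          exact mul_le_mul h7 h8 (by positivity) (by norm_num)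
      _ ≤ 6 / 1000 := by norm_num
  -- the partial sums
  have tb := tendsto_bracket (X := X) (U := U) (C := C) (w := 1) hCC (by rw [← hs]; linarith)
  rw [← hs, ← hd] at tb
  simp only [one_pow, one_mul] at tb
  have tC := tendsto_sinc C
  have tR := (tC.pow 2).mul_const (997 / 1000 * T)
  have hlow : sinc C ^ 2 * (997 / 1000 * T) ≤ BB X U C 1 := by
    refine le_of_tendsto_of_tendsto tR tb ?_
    have hev : ∀ᶠ n in atTop, 1 / (π ^ 2) ^ 2 + 844 / 10 ^ 6 ≤ ∑ j ∈ range n, 1 / AJ j ^ 2 := by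
      have hlt : 1 / (π ^ 2) ^ 2 + 844 / 10 ^ 6 < (1 / 90 : ℝ) := by
        have h1 : (1:ℝ) / (π ^ 2) ^ 2 ≤ 1 / 97.40 := by
          apply one_div_le_one_div_of_le (by norm_num)
          norm_num
          nlinarith
        norm_num at h1 ⊢
        linarith
      filter_upwards [(tendsto_order.1 tendsto_sum_four).1 _ hlt] with n hn
      exact hn.le
    filter_upwards [hev, eventually_ge_atTop 1] with n hn hn1
    rw [← hs]
    refine mul_le_mul_of_nonneg_left ?_ (sq_nonneg _)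
    have hr : ∀ j, 0 ≤ (d / (AJ j - s)) ^ 2 ∧ (d / (AJ j - s)) ^ 2 ≤ 1 := fun j =>
      sq_mem (ratio_mem hd0 (by nlinarith [sq_nonneg X]) hsπ j)
    have h1 : ∏ j ∈ range n, (1 - (d / (AJ j - s)) ^ 2) ≤
        exp (-(∑ j ∈ range n, (d / (AJ j - s)) ^ 2)) := by
      rw [← sum_neg_distrib, exp_sum]
      refine prod_le_prod (fun j _ => by linarith [(hr j).2]) fun j _ => ?_
      have := add_one_le_exp (-(d / (AJ j - s)) ^ 2)
      linarith
    have h2 : T ≤ ∑ j ∈ range n, (d / (AJ j - s)) ^ 2 := by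
      obtain ⟨m, rfl⟩ : ∃ m, n = m + 1 := ⟨n - 1, by omega⟩
      rw [sum_range_succ', AJ_zero] at hn ⊢
      have h3 : ∀ j ∈ range m, d ^ 2 * (1 / AJ (j + 1) ^ 2) ≤ (d / (AJ (j + 1) - s)) ^ 2 := by
        intro j _
        have h4 := pi_sq_le_AJ (j + 1)
        have h6 : 0 < AJ (j + 1) - s := by linarith
        rw [mul_one_div, div_pow d]
        apply div_le_div_of_nonneg_left (by positivity) (by positivity)
        exact pow_le_pow_left₀ h6.le (by linarith) 2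
      have h4 := sum_le_sum h3
      rw [← mul_sum] at h4
      have h6 : d ^ 2 * (844 / 10 ^ 6) ≤ d ^ 2 * ∑ j ∈ range m, 1 / AJ (j + 1) ^ 2 :=
        mul_le_mul_of_nonneg_left (by linarith) (sq_nonneg d)
      rw [hT, mul_add, mul_one_div, ← div_pow]
      linarith
    have h3 : exp (-(∑ j ∈ range n, (d / (AJ j - s)) ^ 2)) ≤ exp (-T) :=
      exp_le_exp.mpr (by linarith)
    have h4 : exp (-T) ≤ 1 - T + T ^ 2 / 2 := by
      have h7 := Real.quadratic_le_exp_of_nonneg hT0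
      have h8 : exp (-T) * exp T = 1 := by rw [← exp_add]; simp
      have h9 : 0 < exp (-T) := exp_pos _
      have h10 : 1 ≤ (1 - T + T ^ 2 / 2) * (1 + T + T ^ 2 / 2) := by nlinarith [sq_nonneg (T ^ 2)]
      have h11 : 0 < 1 - T + T ^ 2 / 2 := by nlinarith
      have h12 : exp (-T) * (1 + T + T ^ 2 / 2) ≤ 1 := by
        calc exp (-T) * (1 + T + T ^ 2 / 2) ≤ exp (-T) * exp T :=
              mul_le_mul_of_nonneg_left h7 h9.le
          _ = 1 := h8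
      have h13 : 0 < 1 + T + T ^ 2 / 2 := by positivity
      nlinarith
    nlinarith
  refine le_trans ?_ hlow
  have hp0 : 0 ≤ 1 - s / 6 + s ^ 2 / 120 - s ^ 3 / 5040 := by
    have : s ^ 3 ≤ 1.331 := by
      calc s ^ 3 ≤ 1.1 ^ 3 := pow_le_pow_left₀ hs0 hs1 3
        _ = 1.331 := by norm_num
    nlinarith [sq_nonneg s]
  have hsq : (1 - s / 6 + s ^ 2 / 120 - s ^ 3 / 5040) ^ 2 ≤ sinc C ^ 2 :=
    pow_le_pow_left₀ hp0 hpoly 2
  calc d ^ 2 * ((1 - s / 6 + s ^ 2 / 120 - s ^ 3 / 5040) ^ 2 *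
      (1 / (π ^ 2 - s) ^ 2 + 844 / 10 ^ 6) * (997 / 1000))
      = (1 - s / 6 + s ^ 2 / 120 - s ^ 3 / 5040) ^ 2 * (997 / 1000 * T) := by rw [hT]; ring
    _ ≤ sinc C ^ 2 * (997 / 1000 * T) := mul_le_mul_of_nonneg_right hsq (by positivity)

end Pool.Agent.Helper95.SP.Crude
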