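import Pool.Agent.Helper95.SP.Crude.BB1

/-!
Lower bounds of the brackets `BB X U C 3` and `BB X U C 2` (helper18).
-/

set_option autoImplicit false

namespace Pool.Agent.Helper95.SP.Crude

open Real Finset Filter Topology

open BBaux

namespace BBaux

theorem prod_le_two {e : ℕ → ℝ} (h : ∀ j, 0 ≤ e j ∧ e j ≤ 1) {n : ℕ} (hn : 2 ≤ n) :
    ∏ j ∈ range n, (1 - e j) ≤ (1 - e 0) * (1 - e 1) := by
  obtain ⟨m, rfl⟩ : ∃ m, n = m + 2 := ⟨n - 2, by omega⟩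
  induction m with
  | zero => simp [prod_range_succ]
  | succ m ih =>
    have ih' := ih (by omega)
    rw [show m + 1 + 2 = (m + 2) + 1 from rfl, prod_range_succ]
    have h0 : 0 ≤ ∏ j ∈ range (m + 2), (1 - e j) := prod_nonneg fun j _ => by linarith [(h j).2]
    have h1 := h (m + 2)
    nlinarith

theorem prod_le_one' {e : ℕ → ℝ} (h : ∀ j, 0 ≤ e j ∧ e j ≤ 1) {n : ℕ} (hn : 1 ≤ n) :
    ∏ j ∈ range n, (1 - e j) ≤ 1 - e 0 := by
  obtain ⟨m, rfl⟩ : ∃ m, n = m + 1 := ⟨n - 1, by omega⟩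
  induction m with
  | zero => simp
  | succ m ih =>
    have ih' := ih (by omega)
    rw [prod_range_succ]
    have h0 : 0 ≤ ∏ j ∈ range (m + 1), (1 - e j) := prod_nonneg fun j _ => by linarith [(h j).2]
    have h1 := h (m + 1)
    nlinarith

theorem sum_tail_two (n : ℕ) : ∑ j ∈ range n, 1 / AJ (j + 1) ≤ 1 / 6 - 1 / π ^ 2 := by
  have h := sum_sq_le (n + 1)
  have h' : ∑ j ∈ range (n + 1), 1 / AJ j ≤ 1 / 6 := h
  rw [sum_range_succ', AJ_zero] at h'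
  linarith

end BBaux

theorem le_BB3 {X U C : ℝ} (hU : 0 ≤ U) (hUX : U < X) (hC : 0 ≤ C) (hCC : 2 * C ^ 2 = X ^ 2 + U ^ 2)
    (hX : 9 * X ^ 2 ≤ π ^ 2) :
    sinc (3 * C) ^ 2 * (81 * ((X ^ 2 - U ^ 2) / 2) ^ 2 / (π ^ 2 - 9 * C ^ 2) ^ 2) *
      (1 + (π ^ 2 - 9 * X ^ 2) * (π ^ 2 - 9 * U ^ 2) / (4 * π ^ 2 - 9 * C ^ 2) ^ 2) ≤
      BB X U C 3 := by
  have _ := hC
  set s := C ^ 2 with hs
  set d := (X ^ 2 - U ^ 2) / 2 with hd
  have hX0 : 0 < X := lt_of_le_of_lt hU hUX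
  have hUX2 : U ^ 2 < X ^ 2 := pow_lt_pow_left₀ hUX hU (by norm_num)
  have hd0 : 0 < d := by rw [hd]; linarith
  have hs0 : 0 ≤ s := by positivity
  have hXe : X ^ 2 = s + d := by rw [hd]; linarith
  have hUe : U ^ 2 = s - d := by rw [hd]; linarith
  have hπ : 0 < π ^ 2 := by positivity
  have hsπ : 9 * s < π ^ 2 := by linarith
  have tb := tendsto_bracket (X := X) (U := U) (C := C) (w := 3) hCC (by rw [← hs]; linarith)
  rw [← hs, ← hd] at tb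
  norm_num at tb
  have tC := tendsto_sinc (3 * C)
  have eC : -(3 * C) ^ 2 = -(9 * s) := by rw [hs]; ring
  rw [eC] at tC
  rw [hXe, hUe]
  have tR := (tC.pow 2).mul_const (81 * d ^ 2 / (π ^ 2 - 9 * s) ^ 2 *
      (1 + (π ^ 2 - 9 * (s + d)) * (π ^ 2 - 9 * (s - d)) / (4 * π ^ 2 - 9 * s) ^ 2))
  rw [← mul_assoc] at tR
  refine le_of_tendsto_of_tendsto tR tb ?_
  filter_upwards [eventually_ge_atTop 2] with n hn
  refine mul_le_mul_of_nonneg_left ?_ (sq_nonneg _)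
  have hr : ∀ j, 0 ≤ (9 * d / (AJ j - 9 * s)) ^ 2 ∧ (9 * d / (AJ j - 9 * s)) ^ 2 ≤ 1 := fun j =>
    sq_mem (ratio_mem (by positivity) (by linarith) hsπ j)
  have h1 := prod_le_two hr hn
  simp only [AJ_zero, AJ_one] at h1
  have h2 : 0 < π ^ 2 - 9 * s := by linarith
  have h3 : 0 < 4 * π ^ 2 - 9 * s := by linarith
  have e : 1 - (1 - (9 * d / (π ^ 2 - 9 * s)) ^ 2) * (1 - (9 * d / (4 * π ^ 2 - 9 * s)) ^ 2) =
      81 * d ^ 2 / (π ^ 2 - 9 * s) ^ 2 *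
      (1 + (π ^ 2 - 9 * (s + d)) * (π ^ 2 - 9 * (s - d)) / (4 * π ^ 2 - 9 * s) ^ 2) := by
    field_simp
    ring
  rw [← e]
  linarith

theorem le_BB2 {X U C : ℝ} (hU : 0 ≤ U) (hUX : U < X) (hC : 0 ≤ C) (hCC : 2 * C ^ 2 = X ^ 2 + U ^ 2)
    (hX : 9 * X ^ 2 ≤ π ^ 2) :
    ((X ^ 2 - U ^ 2) / 2) ^ 2 * (16 / π ^ 4 * (1 - 2614 / 10000 * C ^ 2) ^ 2) ≤ BB X U C 2 := by
  have _ := hC
  set s := C ^ 2 with hs
  set d := (X ^ 2 - U ^ 2) / 2 with hd
  have hX0 : 0 < X := lt_of_le_of_lt hU hUX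
  have hUX2 : U ^ 2 < X ^ 2 := pow_lt_pow_left₀ hUX hU (by norm_num)
  have hd0 : 0 < d := by rw [hd]; linarith
  have hs0 : 0 ≤ s := by positivity
  have hXe : X ^ 2 = s + d := by rw [hd]; linarith
  have hπ : 0 < π ^ 2 := by positivity
  have hsπ : 4 * s < π ^ 2 := by linarith
  have hp2 : π ^ 2 ≤ 3.141593 ^ 2 := pow_le_pow_left₀ pi_pos.le pi_lt_d6.le 2
  norm_num at hp2
  have hs1 : s ≤ 1.1 := by norm_num; linarith
  have tb := tendsto_bracket (X := X) (U := U) (C := C) (w := 2) hCC (by rw [← hs]; linarith)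
  rw [← hs, ← hd] at tb
  norm_num at tb
  have tC := tendsto_sinc (2 * C)
  have eC : -(2 * C) ^ 2 = -(4 * s) := by rw [hs]; ring
  rw [eC] at tC
  have h2 : 0 < π ^ 2 - 4 * s := by linarith
  have hlow : sinc (2 * C) ^ 2 * (4 * d / (π ^ 2 - 4 * s)) ^ 2 ≤ BB X U C 2 := by
    have tR := (tC.pow 2).mul_const ((4 * d / (π ^ 2 - 4 * s)) ^ 2)
    refine le_of_tendsto_of_tendsto tR tb ?_
    filter_upwards [eventually_ge_atTop 1] with n hn
    refine mul_le_mul_of_nonneg_left ?_ (sq_nonneg _)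
    have hr : ∀ j, 0 ≤ (4 * d / (AJ j - 4 * s)) ^ 2 ∧ (4 * d / (AJ j - 4 * s)) ^ 2 ≤ 1 := fun j =>
      sq_mem (ratio_mem (by positivity) (by linarith) hsπ j)
    have h1 := prod_le_one' hr hn
    simp only [AJ_zero] at h1
    linarith
  have hsinc : (π ^ 2 - 4 * s) / π ^ 2 * (1 - 2614 / 10000 * s) ≤ sinc (2 * C) := by
    refine ge_of_tendsto tC ?_
    filter_upwards [eventually_ge_atTop 1] with n hn
    obtain ⟨m, rfl⟩ : ∃ m, n = m + 1 := ⟨n - 1, by omega⟩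
    rw [pr_eq, prod_range_succ', AJ_zero]
    have h3 : 1 - ∑ j ∈ range m, 4 * s / AJ (j + 1) ≤ ∏ j ∈ range m, (1 - 4 * s / AJ (j + 1)) := by
      refine one_sub_sum_le (range m) (fun j => 4 * s / AJ (j + 1)) (fun j _ => ?_) (fun j _ => ?_)
      · have := AJ_pos (j + 1); positivity
      · rw [div_le_one (AJ_pos _)]
        have := pi_sq_le_AJ (j + 1)
        linarith
    have h4 : ∑ j ∈ range m, 4 * s / AJ (j + 1) ≤ 2614 / 10000 * s := by
      have e1 : ∑ j ∈ range m, 4 * s / AJ (j + 1) = 4 * s * ∑ j ∈ range m, 1 / AJ (j + 1) := by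
        rw [mul_sum]
        exact sum_congr rfl fun j _ => by ring
      rw [e1]
      have h5 := mul_le_mul_of_nonneg_left (sum_tail_two m) (by positivity : 0 ≤ 4 * s)
      have h6 : 1 / 6 - 1 / π ^ 2 ≤ 2614 / 40000 := by
        have : (1:ℝ) / 9.87 ≤ 1 / π ^ 2 := by
          apply one_div_le_one_div_of_le hπ
          norm_num
          linarith
        norm_num at this ⊢
        linarith
      have h7 := mul_le_mul_of_nonneg_left h6 (by positivity : 0 ≤ 4 * s)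
      linarith
    have e2 : ∏ j ∈ range m, (1 + -(4 * s) / AJ (j + 1)) = ∏ j ∈ range m, (1 - 4 * s / AJ (j + 1)) :=
      prod_congr rfl fun j _ => by rw [neg_div]; ring
    rw [e2]
    have e3 : 1 + -(4 * s) / π ^ 2 = (π ^ 2 - 4 * s) / π ^ 2 := by field_simp; ring
    rw [e3, mul_comm]
    exact mul_le_mul_of_nonneg_right (by linarith) (by positivity)
  refine le_trans ?_ hlow
  have h0 : 0 ≤ (π ^ 2 - 4 * s) / π ^ 2 * (1 - 2614 / 10000 * s) := by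
    have : 0 ≤ 1 - 2614 / 10000 * s := by nlinarith
    positivity
  have hsq := pow_le_pow_left₀ h0 hsinc 2
  calc d ^ 2 * (16 / π ^ 4 * (1 - 2614 / 10000 * s) ^ 2)
      = ((π ^ 2 - 4 * s) / π ^ 2 * (1 - 2614 / 10000 * s)) ^ 2 *
        (4 * d / (π ^ 2 - 4 * s)) ^ 2 := by
        have h2' := h2.ne'
        generalize hB : π ^ 2 - 4 * s = B at h2' ⊢
        field_simp
        ring
    _ ≤ sinc (2 * C) ^ 2 * (4 * d / (π ^ 2 - 4 * s)) ^ 2 :=
        mul_le_mul_of_nonneg_right hsq (sq_nonneg _)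

end Pool.Agent.Helper95.SP.Crude
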