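import Pool.Agent.Helper95.SP.Crude.BB1
import Pool.Agent.Helper95.SP.Crude.BB3

/-!
Bounds of the brackets `BB X U C 1, 2, 3` in the range `X ^ 2 ≤ 5 / 4`, `9 C ^ 2 < π ^ 2`
(variants of the lemmas of `BB1`, `BB3`, helper18).
-/

set_option autoImplicit false

namespace Pool.Agent.Helper95.SP.Crude

open Real Finset Filter Topology

open BBaux

theorem BB1_le' {X U C : ℝ} (hU : 0 ≤ U) (hUX : U < X) (hC : 0 ≤ C) (hCC : 2 * C ^ 2 = X ^ 2 + U ^ 2)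
    (hX : X ^ 2 ≤ 5 / 4) (h9 : 9 * C ^ 2 < π ^ 2) :
    BB X U C 1 ≤ sinc C ^ 2 * (((X ^ 2 - U ^ 2) / 2) ^ 2 / (π ^ 2 - C ^ 2) ^ 2) *
      (1 + 85 / 100000 * (1 + 55 / 1000 * C ^ 2) * (π ^ 2 - C ^ 2) ^ 2) := by
  have _ := hC
  have _ := hX
  set s := C ^ 2 with hs
  set d := (X ^ 2 - U ^ 2) / 2 with hd
  have hX0 : 0 < X := lt_of_le_of_lt hU hUX
  have hUX2 : U ^ 2 < X ^ 2 := pow_lt_pow_left₀ hUX hU (by norm_num)
  have hd0 : 0 ≤ d := by rw [hd]; linarith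
  have hs0 : 0 ≤ s := by positivity
  have hsd : s + d = X ^ 2 := by rw [hd]; linarith
  have hs9 : 9 * s ≤ π ^ 2 := by linarith
  have hπ : 0 < π ^ 2 := by positivity
  have hsπ : s < π ^ 2 := by linarith
  have tb := tendsto_bracket (X := X) (U := U) (C := C) (w := 1) hCC (by rw [← hs]; linarith)
  rw [← hs, ← hd] at tb
  simp only [one_pow, one_mul] at tb
  have tC := tendsto_sinc C
  have tR := (tC.pow 2).mul_const ((d ^ 2 / (π ^ 2 - s) ^ 2) *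
      (1 + 85 / 100000 * (1 + 55 / 1000 * s) * (π ^ 2 - s) ^ 2))
  rw [← mul_assoc] at tR
  refine le_of_tendsto_of_tendsto' tb tR fun n => ?_
  rw [← hs]
  refine mul_le_mul_of_nonneg_left ?_ (sq_nonneg _)
  have hr : ∀ j, 0 ≤ (d / (AJ j - s)) ^ 2 ∧ (d / (AJ j - s)) ^ 2 ≤ 1 := fun j =>
    sq_mem (ratio_mem hd0 (by nlinarith [sq_nonneg X]) hsπ j)
  have hw := one_sub_sum_le (range n) (fun j => (d / (AJ j - s)) ^ 2) (fun j _ => (hr j).1)
    (fun j _ => (hr j).2)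
  have hsum : ∑ j ∈ range n, (d / (AJ j - s)) ^ 2 ≤ d ^ 2 / (π ^ 2 - s) ^ 2 *
      (1 + 85 / 100000 * (1 + 55 / 1000 * s) * (π ^ 2 - s) ^ 2) := by
    have h1 : ∑ j ∈ range n, (d / (AJ j - s)) ^ 2 ≤ ∑ j ∈ range (n + 1), (d / (AJ j - s)) ^ 2 :=
      sum_le_sum_of_subset_of_nonneg (range_mono (Nat.le_succ n)) fun j _ _ => (hr j).1
    refine h1.trans ?_
    rw [sum_range_succ', AJ_zero]
    have h2 : ∀ j ∈ range n, (d / (AJ (j + 1) - s)) ^ 2 ≤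
        d ^ 2 * (1 + 55 / 1000 * s) * (1 / AJ (j + 1) ^ 2) := by
      intro j _
      have h3 := four_pi_sq_le_AJ (j := j + 1) (by omega)
      have h4 := AJ_pos (j + 1)
      set A := AJ (j + 1) with hA
      have h5 : 0 < A - s := by linarith
      -- `A² ≤ (1 + .055 s) (A - s)²`
      have hpi := pi_gt_d6
      have hp2 : (39.47 : ℝ) ≤ A := by nlinarith
      have h36 : 36 * s ≤ A := by linarith
      have hs1 : s ≤ 1.1 := by
        have hpi2 := pi_lt_d6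
        have : π ^ 2 ≤ 3.141593 ^ 2 := pow_le_pow_left₀ pi_pos.le hpi2.le 2
        norm_num at this ⊢
        linarith
      have key : A ^ 2 ≤ (1 + 55 / 1000 * s) * (A - s) ^ 2 := by
        have h6 : 0 ≤ A * s := by positivity
        -- `(1+cs)(A-s)^2 - A^2 = s (c A^2 - 2 A + s + c s^2 - 2 c A s)`
        have h7 : 0 ≤ 55 / 1000 * A ^ 2 - 2 * A - 2 * (55 / 1000) * A * s := by
          have : 0 ≤ A * (55 / 1000 * A - 2 - 2 * (55 / 1000) * s) := by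
            refine mul_nonneg h4.le ?_
            nlinarith
          nlinarith
        nlinarith [mul_nonneg hs0 h7, mul_nonneg hs0 hs0, mul_nonneg hs0 (mul_nonneg hs0 hs0)]
      rw [div_pow, mul_one_div, div_le_div_iff₀ (by positivity) (by positivity)]
      nlinarith [mul_le_mul_of_nonneg_left key (sq_nonneg d)]
    have h3 := sum_le_sum h2
    rw [← mul_sum] at h3
    have h4 := mul_le_mul_of_nonneg_left (sum_tail_four n)
      (by positivity : 0 ≤ d ^ 2 * (1 + 55 / 1000 * s))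
    have h5 : 0 < π ^ 2 - s := by linarith
    have e : d ^ 2 / (π ^ 2 - s) ^ 2 * (1 + 85 / 100000 * (1 + 55 / 1000 * s) * (π ^ 2 - s) ^ 2) =
        (d / (π ^ 2 - s)) ^ 2 + d ^ 2 * (1 + 55 / 1000 * s) * (85 / 100000) := by
      field_simp
    rw [e]
    linarith
  linarith

theorem le_BB1' {X U C : ℝ} (hU : 0 ≤ U) (hUX : U < X) (hC : 0 ≤ C) (hCC : 2 * C ^ 2 = X ^ 2 + U ^ 2)
    (hX : X ^ 2 ≤ 5 / 4) (h9 : 9 * C ^ 2 < π ^ 2) :
    ((X ^ 2 - U ^ 2) / 2) ^ 2 * ((1 - C ^ 2 / 6 + C ^ 4 / 120 - C ^ 6 / 5040) ^ 2 *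
      (1 / (π ^ 2 - C ^ 2) ^ 2 + 844 / 10 ^ 6) * (997 / 1000)) ≤ BB X U C 1 := by
  have hpoly := sinc_poly6 hC
  have hC4 : C ^ 4 = (C ^ 2) ^ 2 := by ring
  have hC6 : C ^ 6 = (C ^ 2) ^ 3 := by ring
  rw [hC4, hC6] at hpoly ⊢
  set s := C ^ 2 with hs
  set d := (X ^ 2 - U ^ 2) / 2 with hd
  have hX0 : 0 < X := lt_of_le_of_lt hU hUX
  have hUX2 : U ^ 2 < X ^ 2 := pow_lt_pow_left₀ hUX hU (by norm_num)
  have hd0 : 0 ≤ d := by rw [hd]; linarith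
  have hs0 : 0 ≤ s := by positivity
  have hsd : s + d = X ^ 2 := by rw [hd]; linarith
  have hs9 : 9 * s ≤ π ^ 2 := by linarith
  have hπ : 0 < π ^ 2 := by positivity
  have hsπ : s < π ^ 2 := by linarith
  have hpi1 := pi_gt_d6
  have hpi2 := pi_lt_d6
  have hp1 : 3.141592 ^ 2 ≤ π ^ 2 := pow_le_pow_left₀ (by norm_num) hpi1.le 2
  have hp2 : π ^ 2 ≤ 3.141593 ^ 2 := pow_le_pow_left₀ pi_pos.le hpi2.le 2
  norm_num at hp1 hp2
  have hs1 : s ≤ 1.1 := by norm_num; linarith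
  have hd1 : d ≤ 0.625 := by
    have : 2 * d ≤ X ^ 2 := by rw [hd]; nlinarith [sq_nonneg U]
    norm_num
    linarith
  set T := d ^ 2 * (1 / (π ^ 2 - s) ^ 2 + 844 / 10 ^ 6) with hT
  have h5 : 8.7 ≤ π ^ 2 - s := by norm_num; linarith
  have hT0 : 0 ≤ T := by positivity
  have hT1 : T ≤ 6 / 1000 := by
    have h6 : 1 / (π ^ 2 - s) ^ 2 ≤ 1 / 75 := by
      apply one_div_le_one_div_of_le (by norm_num)
      nlinarith
    have h7 : d ^ 2 ≤ 0.390625 := by nlinarith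
    have h8 : (1 / (π ^ 2 - s) ^ 2 + 844 / 10 ^ 6 : ℝ) ≤ 0.0142 := by norm_num at h6 ⊢; linarith
    calc T ≤ 0.390625 * 0.0142 := by
          rw [hT]
          exact mul_le_mul h7 h8 (by positivity) (by norm_num)
      _ ≤ 6 / 1000 := by norm_num
  -- the partial sums
  have tb := tendsto_bracket (X := X) (U := U) (C := C) (w := 1) hCC (by rw [← hs]; linarith)
  rw [← hs, ← hd] at tb
  simp only [one_pow, one_mul] at tb
  have tC := tendsto_sinc C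
  have tR := (tC.pow 2).mul_const (997 / 1000 * T)
  have hlow : sinc C ^ 2 * (997 / 1000 * T) ≤ BB X U C 1 := by
    refine le_of_tendsto_of_tendsto tR tb ?_
    have hev : ∀ᶠ n in atTop, 1 / (π ^ 2) ^ 2 + 844 / 10 ^ 6 ≤ ∑ j ∈ range n, 1 / AJ j ^ 2 := by
      have hlt : 1 / (π ^ 2) ^ 2 + 844 / 10 ^ 6 < (1 / 90 : ℝ) := by
        have h1 : (1:ℝ) / (π ^ 2) ^ 2 ≤ 1 / 97.40 := by
          apply one_div_le_one_div_of_le (by norm_num)
          norm_num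
          nlinarith
        norm_num at h1 ⊢
        linarith
      filter_upwards [(tendsto_order.1 tendsto_sum_four).1 _ hlt] with n hn
      exact hn.le
    filter_upwards [hev, eventually_ge_atTop 1] with n hn hn1
    rw [← hs]
    refine mul_le_mul_of_nonneg_left ?_ (sq_nonneg _)
    have hr : ∀ j, 0 ≤ (d / (AJ j - s)) ^ 2 ∧ (d / (AJ j - s)) ^ 2 ≤ 1 := fun j =>
      sq_mem (ratio_mem hd0 (by nlinarith [sq_nonneg X]) hsπ j)
    have h1 : ∏ j ∈ range n, (1 - (d / (AJ j - s)) ^ 2) ≤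
        exp (-(∑ j ∈ range n, (d / (AJ j - s)) ^ 2)) := by
      rw [← sum_neg_distrib, exp_sum]
      refine prod_le_prod (fun j _ => by linarith [(hr j).2]) fun j _ => ?_
      have := add_one_le_exp (-(d / (AJ j - s)) ^ 2)
      linarith
    have h2 : T ≤ ∑ j ∈ range n, (d / (AJ j - s)) ^ 2 := by
      obtain ⟨m, rfl⟩ : ∃ m, n = m + 1 := ⟨n - 1, by omega⟩
      rw [sum_range_succ', AJ_zero] at hn ⊢
      have h3 : ∀ j ∈ range m, d ^ 2 * (1 / AJ (j + 1) ^ 2) ≤ (d / (AJ (j + 1) - s)) ^ 2 := by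
        intro j _
        have h4 := pi_sq_le_AJ (j + 1)
        have h6 : 0 < AJ (j + 1) - s := by linarith
        rw [mul_one_div, div_pow d]
        apply div_le_div_of_nonneg_left (by positivity) (by positivity)
        exact pow_le_pow_left₀ h6.le (by linarith) 2
      have h4 := sum_le_sum h3
      rw [← mul_sum] at h4
      have h6 : d ^ 2 * (844 / 10 ^ 6) ≤ d ^ 2 * ∑ j ∈ range m, 1 / AJ (j + 1) ^ 2 :=
        mul_le_mul_of_nonneg_left (by linarith) (sq_nonneg d)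
      rw [hT, mul_add, mul_one_div, ← div_pow]
      linarith
    have h3 : exp (-(∑ j ∈ range n, (d / (AJ j - s)) ^ 2)) ≤ exp (-T) :=
      exp_le_exp.mpr (by linarith)
    have h4 : exp (-T) ≤ 1 - T + T ^ 2 / 2 := by
      have h7 := Real.quadratic_le_exp_of_nonneg hT0
      have h8 : exp (-T) * exp T = 1 := by rw [← exp_add]; simp
      have h9 : 0 < exp (-T) := exp_pos _
      have h10 : 1 ≤ (1 - T + T ^ 2 / 2) * (1 + T + T ^ 2 / 2) := by nlinarith [sq_nonneg (T ^ 2)]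
      have h11 : 0 < 1 - T + T ^ 2 / 2 := by nlinarith
      have h12 : exp (-T) * (1 + T + T ^ 2 / 2) ≤ 1 := by
        calc exp (-T) * (1 + T + T ^ 2 / 2) ≤ exp (-T) * exp T :=
              mul_le_mul_of_nonneg_left h7 h9.le
          _ = 1 := h8
      have h13 : 0 < 1 + T + T ^ 2 / 2 := by positivity
      nlinarith
    nlinarith
  refine le_trans ?_ hlow
  have hp0 : 0 ≤ 1 - s / 6 + s ^ 2 / 120 - s ^ 3 / 5040 := by
    have : s ^ 3 ≤ 1.331 := by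
      calc s ^ 3 ≤ 1.1 ^ 3 := pow_le_pow_left₀ hs0 hs1 3
        _ = 1.331 := by norm_num
    nlinarith [sq_nonneg s]
  have hsq : (1 - s / 6 + s ^ 2 / 120 - s ^ 3 / 5040) ^ 2 ≤ sinc C ^ 2 :=
    pow_le_pow_left₀ hp0 hpoly 2
  calc d ^ 2 * ((1 - s / 6 + s ^ 2 / 120 - s ^ 3 / 5040) ^ 2 *
      (1 / (π ^ 2 - s) ^ 2 + 844 / 10 ^ 6) * (997 / 1000))
      = (1 - s / 6 + s ^ 2 / 120 - s ^ 3 / 5040) ^ 2 * (997 / 1000 * T) := by rw [hT]; ring
    _ ≤ sinc C ^ 2 * (997 / 1000 * T) := mul_le_mul_of_nonneg_right hsq (by positivity)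

theorem le_BB2' {X U C : ℝ} (hU : 0 ≤ U) (hUX : U < X) (hC : 0 ≤ C) (hCC : 2 * C ^ 2 = X ^ 2 + U ^ 2)
    (hX : X ^ 2 ≤ 5 / 4) (h9 : 9 * C ^ 2 < π ^ 2) :
    ((X ^ 2 - U ^ 2) / 2) ^ 2 * (16 / π ^ 4 * (1 - 2614 / 10000 * C ^ 2) ^ 2) ≤ BB X U C 2 := by
  have _ := hC
  set s := C ^ 2 with hs
  set d := (X ^ 2 - U ^ 2) / 2 with hd
  have hX0 : 0 < X := lt_of_le_of_lt hU hUX
  have hUX2 : U ^ 2 < X ^ 2 := pow_lt_pow_left₀ hUX hU (by norm_num)
  have hd0 : 0 < d := by rw [hd]; linarith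
  have hs0 : 0 ≤ s := by positivity
  have hXe : X ^ 2 = s + d := by rw [hd]; linarith
  have hπ : 0 < π ^ 2 := by positivity
  have hsπ : 4 * s < π ^ 2 := by linarith
  have hp2 : π ^ 2 ≤ 3.141593 ^ 2 := pow_le_pow_left₀ pi_pos.le pi_lt_d6.le 2
  norm_num at hp2
  have hp1 : 3.141592 ^ 2 ≤ π ^ 2 := pow_le_pow_left₀ (by norm_num) pi_gt_d6.le 2
  norm_num at hp1
  have hs1 : s ≤ 1.1 := by norm_num; linarith
  have tb := tendsto_bracket (X := X) (U := U) (C := C) (w := 2) hCC (by rw [← hs]; linarith)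
  rw [← hs, ← hd] at tb
  norm_num at tb
  have tC := tendsto_sinc (2 * C)
  have eC : -(2 * C) ^ 2 = -(4 * s) := by rw [hs]; ring
  rw [eC] at tC
  have h2 : 0 < π ^ 2 - 4 * s := by linarith
  have hlow : sinc (2 * C) ^ 2 * (4 * d / (π ^ 2 - 4 * s)) ^ 2 ≤ BB X U C 2 := by
    have tR := (tC.pow 2).mul_const ((4 * d / (π ^ 2 - 4 * s)) ^ 2)
    refine le_of_tendsto_of_tendsto tR tb ?_
    filter_upwards [eventually_ge_atTop 1] with n hn
    refine mul_le_mul_of_nonneg_left ?_ (sq_nonneg _)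
    have hr : ∀ j, 0 ≤ (4 * d / (AJ j - 4 * s)) ^ 2 ∧ (4 * d / (AJ j - 4 * s)) ^ 2 ≤ 1 := fun j =>
      sq_mem (ratio_mem (by positivity) (by linarith) hsπ j)
    have h1 := prod_le_one' hr hn
    simp only [AJ_zero] at h1
    linarith
  have hsinc : (π ^ 2 - 4 * s) / π ^ 2 * (1 - 2614 / 10000 * s) ≤ sinc (2 * C) := by
    refine ge_of_tendsto tC ?_
    filter_upwards [eventually_ge_atTop 1] with n hn
    obtain ⟨m, rfl⟩ : ∃ m, n = m + 1 := ⟨n - 1, by omega⟩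
    rw [pr_eq, prod_range_succ', AJ_zero]
    have h3 : 1 - ∑ j ∈ range m, 4 * s / AJ (j + 1) ≤ ∏ j ∈ range m, (1 - 4 * s / AJ (j + 1)) := by
      refine one_sub_sum_le (range m) (fun j => 4 * s / AJ (j + 1)) (fun j _ => ?_) (fun j _ => ?_)
      · have := AJ_pos (j + 1); positivity
      · rw [div_le_one (AJ_pos _)]
        have := pi_sq_le_AJ (j + 1)
        linarith
    have h4 : ∑ j ∈ range m, 4 * s / AJ (j + 1) ≤ 2614 / 10000 * s := by
      have e1 : ∑ j ∈ range m, 4 * s / AJ (j + 1) = 4 * s * ∑ j ∈ range m, 1 / AJ (j + 1) := by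
        rw [mul_sum]
        exact sum_congr rfl fun j _ => by ring
      rw [e1]
      have h5 := mul_le_mul_of_nonneg_left (sum_tail_two m) (by positivity : 0 ≤ 4 * s)
      have h6 : 1 / 6 - 1 / π ^ 2 ≤ 2614 / 40000 := by
        have : (1:ℝ) / 9.87 ≤ 1 / π ^ 2 := by
          apply one_div_le_one_div_of_le hπ
          norm_num
          linarith
        norm_num at this ⊢
        linarith
      have h7 := mul_le_mul_of_nonneg_left h6 (by positivity : 0 ≤ 4 * s)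
      linarith
    have e2 : ∏ j ∈ range m, (1 + -(4 * s) / AJ (j + 1)) = ∏ j ∈ range m, (1 - 4 * s / AJ (j + 1)) :=
      prod_congr rfl fun j _ => by rw [neg_div]; ring
    rw [e2]
    have e3 : 1 + -(4 * s) / π ^ 2 = (π ^ 2 - 4 * s) / π ^ 2 := by field_simp; ring
    rw [e3, mul_comm]
    exact mul_le_mul_of_nonneg_right (by linarith) (by positivity)
  refine le_trans ?_ hlow
  have h0 : 0 ≤ (π ^ 2 - 4 * s) / π ^ 2 * (1 - 2614 / 10000 * s) := by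
    have : 0 ≤ 1 - 2614 / 10000 * s := by nlinarith
    positivity
  have hsq := pow_le_pow_left₀ h0 hsinc 2
  calc d ^ 2 * (16 / π ^ 4 * (1 - 2614 / 10000 * s) ^ 2)
      = ((π ^ 2 - 4 * s) / π ^ 2 * (1 - 2614 / 10000 * s)) ^ 2 *
        (4 * d / (π ^ 2 - 4 * s)) ^ 2 := by
        have h2' := h2.ne'
        generalize hB : π ^ 2 - 4 * s = B at h2' ⊢
        field_simp
        ring
    _ ≤ sinc (2 * C) ^ 2 * (4 * d / (π ^ 2 - 4 * s)) ^ 2 :=
        mul_le_mul_of_nonneg_right hsq (sq_nonneg _)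

/-- case `π ^ 2 < 9 X ^ 2` (compare `le_BB3`) -/
theorem le_BB3' {X U C : ℝ} (hU : 0 ≤ U) (hUX : U < X) (hC : 0 ≤ C) (hCC : 2 * C ^ 2 = X ^ 2 + U ^ 2)
    (hX : X ^ 2 ≤ 5 / 4) (h9 : 9 * C ^ 2 < π ^ 2) (hX9 : π ^ 2 ≤ 9 * X ^ 2) :
    sinc (3 * C) ^ 2 * (81 * ((X ^ 2 - U ^ 2) / 2) ^ 2 / (π ^ 2 - 9 * C ^ 2) ^ 2) *
      (1 - 4 / 3 * ((9 * X ^ 2 - π ^ 2) * (π ^ 2 - 9 * U ^ 2)) / (4 * π ^ 2 - 9 * C ^ 2) ^ 2) ≤
      BB X U C 3 := by
  have _ := hC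
  set s := C ^ 2 with hs
  set d := (X ^ 2 - U ^ 2) / 2 with hd
  have hX0 : 0 < X := lt_of_le_of_lt hU hUX
  have hUX2 : U ^ 2 < X ^ 2 := pow_lt_pow_left₀ hUX hU (by norm_num)
  have hd0 : 0 < d := by rw [hd]; linarith
  have hs0 : 0 ≤ s := by positivity
  have hXe : X ^ 2 = s + d := by rw [hd]; linarith
  have hUe : U ^ 2 = s - d := by rw [hd]; linarith
  have hπ : 0 < π ^ 2 := by positivity
  have hp1 : 3.141592 ^ 2 ≤ π ^ 2 := pow_le_pow_left₀ (by norm_num) pi_gt_d6.le 2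
  have hp2 : π ^ 2 ≤ 3.141593 ^ 2 := pow_le_pow_left₀ pi_pos.le pi_lt_d6.le 2
  norm_num at hp1 hp2
  have tb := tendsto_bracket (X := X) (U := U) (C := C) (w := 3) hCC (by rw [← hs]; linarith)
  rw [← hs, ← hd] at tb
  norm_num at tb
  have tC := tendsto_sinc (3 * C)
  have eC : -(3 * C) ^ 2 = -(9 * s) := by rw [hs]; ring
  rw [eC] at tC
  rw [hXe] at hX9 hX ⊢
  rw [hUe]
  have tR := (tC.pow 2).mul_const (81 * d ^ 2 / (π ^ 2 - 9 * s) ^ 2 *
      (1 - 4 / 3 * ((9 * (s + d) - π ^ 2) * (π ^ 2 - 9 * (s - d))) / (4 * π ^ 2 - 9 * s) ^ 2))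
  rw [mul_assoc]
  refine le_of_tendsto_of_tendsto tR tb ?_
  filter_upwards [eventually_ge_atTop 1] with n hn
  refine mul_le_mul_of_nonneg_left ?_ (sq_nonneg _)
  have h2 : 0 < π ^ 2 - 9 * s := by linarith
  have h3 : 0 < 4 * π ^ 2 - 9 * s := by linarith
  obtain ⟨m, rfl⟩ : ∃ m, n = m + 1 := ⟨n - 1, by omega⟩
  rw [prod_range_succ', AJ_zero]
  -- the terms with `j ≥ 1`
  have hr : ∀ j, 0 ≤ (9 * d / (AJ (j + 1) - 9 * s)) ^ 2 ∧ (9 * d / (AJ (j + 1) - 9 * s)) ^ 2 ≤ 1 := by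
    intro j
    have h4 := four_pi_sq_le_AJ (j := j + 1) (by omega)
    have h5 : 0 < AJ (j + 1) - 9 * s := by linarith
    exact sq_mem ⟨by positivity, by rw [div_le_one h5]; linarith⟩
  have hw := one_sub_sum_le (range m) (fun j => (9 * d / (AJ (j + 1) - 9 * s)) ^ 2)
    (fun j _ => (hr j).1) (fun j _ => (hr j).2)
  have hsum : ∑ j ∈ range m, (9 * d / (AJ (j + 1) - 9 * s)) ^ 2 ≤
      4 / 3 * (9 * d / (4 * π ^ 2 - 9 * s)) ^ 2 := by
    have h4 : ∀ j ∈ range m, (9 * d / (AJ (j + 1) - 9 * s)) ^ 2 ≤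
        (9 * d / (4 * π ^ 2 - 9 * s)) ^ 2 * (16 * (π ^ 2) ^ 2) * (1 / AJ (j + 1) ^ 2) := by
      intro j _
      have h4 := four_pi_sq_le_AJ (j := j + 1) (by omega)
      have h6 := AJ_pos (j + 1)
      set A := AJ (j + 1) with hA
      have h5 : 0 < A - 9 * s := by linarith
      have h7 : 9 * d / (A - 9 * s) ≤ 9 * d / (4 * π ^ 2 - 9 * s) * (4 * π ^ 2 / A) := by
        rw [div_mul_div_comm, div_le_div_iff₀ h5 (by positivity)]
        have h8 : (4 * π ^ 2 - 9 * s) * A ≤ 4 * π ^ 2 * (A - 9 * s) := by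
          nlinarith [mul_nonneg hs0 (sub_nonneg.mpr h4)]
        nlinarith [mul_le_mul_of_nonneg_left h8 (by positivity : 0 ≤ 9 * d)]
      have h8 := pow_le_pow_left₀ (by positivity : 0 ≤ 9 * d / (A - 9 * s)) h7 2
      refine h8.trans (le_of_eq ?_)
      rw [mul_pow, div_pow (4 * π ^ 2)]
      ring
    have h5 := sum_le_sum h4
    rw [← mul_sum] at h5
    have h6 : ∑ j ∈ range m, 1 / AJ (j + 1) ^ 2 ≤ 1 / 90 - 1 / (π ^ 2) ^ 2 := by
      have h := sum_four_le (m + 1)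
      have h' : ∑ j ∈ range (m + 1), 1 / AJ j ^ 2 ≤ 1 / 90 := h
      rw [sum_range_succ', AJ_zero] at h'
      linarith
    have h7 := mul_le_mul_of_nonneg_left h6
      (by positivity : 0 ≤ (9 * d / (4 * π ^ 2 - 9 * s)) ^ 2 * (16 * (π ^ 2) ^ 2))
    have h8 : (16 * (π ^ 2) ^ 2) * (1 / 90 - 1 / (π ^ 2) ^ 2) ≤ 4 / 3 := by
      have h9 : (16 * (π ^ 2) ^ 2) * (1 / 90 - 1 / (π ^ 2) ^ 2) = 16 * ((π ^ 2) ^ 2 / 90 - 1) := by
        field_simp
      rw [h9]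
      nlinarith
    have h9 := mul_le_mul_of_nonneg_left h8 (sq_nonneg (9 * d / (4 * π ^ 2 - 9 * s)))
    linarith
  have e0 : 0 ≤ (9 * d / (π ^ 2 - 9 * s)) ^ 2 - 1 := by
    have h4 : 1 ≤ 9 * d / (π ^ 2 - 9 * s) := by
      rw [le_div_iff₀ h2]; linarith
    have := pow_le_pow_left₀ (by norm_num) h4 2
    linarith
  have h4 : 1 - 4 / 3 * (9 * d / (4 * π ^ 2 - 9 * s)) ^ 2 ≤
      ∏ j ∈ range m, (1 - (9 * d / (AJ (j + 1) - 9 * s)) ^ 2) := by linarith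
  have h5 := mul_le_mul_of_nonneg_left h4 e0
  have e : 81 * d ^ 2 / (π ^ 2 - 9 * s) ^ 2 *
      (1 - 4 / 3 * ((9 * (s + d) - π ^ 2) * (π ^ 2 - 9 * (s - d))) / (4 * π ^ 2 - 9 * s) ^ 2) =
      1 + ((9 * d / (π ^ 2 - 9 * s)) ^ 2 - 1) * (1 - 4 / 3 * (9 * d / (4 * π ^ 2 - 9 * s)) ^ 2) := by
    field_simp
    ring
  rw [e]
  linarith

end Pool.Agent.Helper95.SP.Crude
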