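import Pool.Agent.Helper95.SP.Crude.IdB

/-!
SP-wave, module IdP: precise form of the identity bound for the bracket
sinc C ^ 2 - sinc P * sinc Q.
-/

set_option autoImplicit false

namespace Pool.Agent.Helper95.SP.Crude

open Real Finset

private theorem idp_abs_le_one (x : ℝ) : |sinc x| ≤ 1 := by
  by_cases hx : x = 0
  · subst hx; simp
  · rw [sinc_of_ne_zero hx, abs_div]
    exact div_le_one_of_le₀ (abs_sin_le_abs) (abs_nonneg _)

private theorem idp_abs_le_inv {y : ℝ} (h : 0 < y) : |sinc y| ≤ 1 / y := by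
  rw [sinc_of_ne_zero h.ne', abs_div, abs_of_pos h]
  exact div_le_div_of_nonneg_right (abs_sin_le_one y) h.le

private theorem idp_sinc_le_exp {y : ℝ} (hy : y ^ 2 ≤ π ^ 2) : sinc y ≤ exp (-(y ^ 2 / 6)) := by
  have h1 : HasSum (fun n : ℕ => (1 : ℝ) / ((n : ℝ) + 1) ^ 2) (π ^ 2 / 6) := by
    have := (hasSum_nat_add_iff' (f := fun n : ℕ => (1 : ℝ) / (n : ℝ) ^ 2) 1).mpr hasSum_zeta_two
    simpa using this
  have h2 := h1.mul_left (-(y ^ 2) / π ^ 2)
  have e : -(y ^ 2) / π ^ 2 * (π ^ 2 / 6) = -(y ^ 2 / 6) := by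
    have := pi_ne_zero
    field_simp
  rw [e] at h2
  have h3 := h2.tendsto_sum_nat
  have h4 := (continuous_exp.tendsto _).comp h3
  refine le_of_tendsto_of_tendsto' (tendsto_sinc y) h4 fun n => ?_
  rw [Function.comp_apply, Real.exp_sum]
  unfold pr
  refine Finset.prod_le_prod (fun j _ => ?_) fun j _ => ?_
  · have h5 : (1:ℝ) ≤ ((j : ℝ) + 1) ^ 2 := by
      have : (1:ℝ) ≤ (j : ℝ) + 1 := by linarith [Nat.cast_nonneg (α := ℝ) j]
      nlinarith
    have hπ : 0 < π ^ 2 := by positivity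
    have h6 : y ^ 2 / (π ^ 2 * ((j : ℝ) + 1) ^ 2) ≤ 1 := by
      rw [div_le_one (by positivity)]
      nlinarith
    rw [neg_div]
    linarith
  · have h7 : -y ^ 2 / (π ^ 2 * ((j : ℝ) + 1) ^ 2) = -(y ^ 2) / π ^ 2 * (1 / ((j : ℝ) + 1) ^ 2) := by
      rw [div_mul_div_comm, mul_one]
    rw [h7]
    have := add_one_le_exp (-(y ^ 2) / π ^ 2 * (1 / ((j : ℝ) + 1) ^ 2))
    linarith

private theorem idp_sinc_nonneg {y : ℝ} (h0 : 0 ≤ y) (h : y ≤ π) : 0 ≤ sinc y := by
  by_cases hy : y = 0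
  · subst hy; simp
  · rw [sinc_of_ne_zero hy]
    exact div_nonneg (sin_nonneg_of_nonneg_of_le_pi h0 h) h0

private theorem idp_sq_le {y : ℝ} (h0 : 0 ≤ y) : sinc y ^ 2 ≤ 1 / (1 + y ^ 2 / 3) := by
  rcases le_total y π with h | h
  · have h1 : y ^ 2 ≤ π ^ 2 := pow_le_pow_left₀ h0 h 2
    have h2 := idp_sinc_le_exp h1
    have h3 := idp_sinc_nonneg h0 h
    have h4 : sinc y ^ 2 ≤ exp (-(y ^ 2 / 6)) ^ 2 := pow_le_pow_left₀ h3 h2 2
    have h5 : exp (-(y ^ 2 / 6)) ^ 2 = 1 / exp (y ^ 2 / 3) := by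
      rw [← Real.exp_nat_mul, one_div, ← Real.exp_neg]
      congr 1
      push_cast
      ring
    rw [h5] at h4
    refine h4.trans ?_
    have h6 := add_one_le_exp (y ^ 2 / 3)
    exact one_div_le_one_div_of_le (by positivity) (by linarith)
  · have hy : 0 < y := lt_of_lt_of_le pi_pos h
    have h1 := idp_abs_le_inv hy
    have h2 : sinc y ^ 2 ≤ (1 / y) ^ 2 := by
      rw [← sq_abs]
      exact pow_le_pow_left₀ (abs_nonneg _) h1 2
    refine h2.trans ?_
    rw [one_div_pow]
    refine one_div_le_one_div_of_le (by positivity) ?_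
    have h3 : (3:ℝ) ≤ y := le_trans pi_gt_three.le h
    nlinarith

/-- precise identity bound -/
theorem abs_sub_le_idP {P Q C A B κ : ℝ} (hQ : 0 < Q) (hQP : Q ≤ P) (hC : 0 ≤ C)
    (hCC : 2 * C ^ 2 = P ^ 2 + Q ^ 2) (h3 : 3 ≤ C ^ 2)
    (hA : sinc ((2 * C + P + Q) / 2) ≤ A) (hA0 : 0 ≤ A)
    (hκ : κ ≤ sinc C ^ 2) (hB : 1 / ((2 * C + P + Q) / 2) ≤ B) :
    |sinc C ^ 2 - sinc P * sinc Q| ≤ ((P ^ 2 - Q ^ 2) / 2) ^ 2 *
      (max (1 / (1 + (P - Q) ^ 2 / 12) + A - 2 * κ) (B + 2 / C ^ 2) / (P * Q * (P + Q) ^ 2)) := by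
  have hP : 0 < P := lt_of_lt_of_le hQ hQP
  have hC0 : 0 < C := by
    rcases hC.eq_or_lt with h | h
    · rw [← h] at h3; norm_num at h3
    · exact h
  rcases hQP.eq_or_lt with hPQ | hPQ
  · subst hPQ
    have h1 : C ^ 2 = Q ^ 2 := by linarith
    have h2 : C = Q := by
      have := (sq_eq_sq₀ hC hQ.le).mp h1
      exact this
    subst h2
    have h4 : sinc C ^ 2 - sinc C * sinc C = 0 := by ring
    have h5 : ((C ^ 2 - C ^ 2) / 2) ^ 2 = 0 := by ring
    rw [h4, abs_zero, h5, zero_mul]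
  · have hassoc : 2 * C + P + Q = 2 * C + (P + Q) := by ring
    rw [hassoc] at hA hB
    set D := P - Q with hD
    set S := P + Q with hS
    have hD0 : 0 < D := by rw [hD]; linarith
    have hS0 : 0 < S := by rw [hS]; linarith
    have h4C : 4 * C ^ 2 = S ^ 2 + D ^ 2 := by rw [hS, hD]; linarith
    set sg := (2 * C + S) / 2 with hsg
    set ep := (2 * C - S) / 2 with hep
    have hprod : sg * ep = D ^ 2 / 4 := by
      rw [hsg, hep]
      have : (2 * C + S) / 2 * ((2 * C - S) / 2) = (4 * C ^ 2 - S ^ 2) / 4 := by ring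
      rw [this, h4C]
      ring
    have hsg0 : 0 < sg := by rw [hsg]; positivity
    have hep0 : 0 < ep := by
      have : 0 < sg * ep := by rw [hprod]; positivity
      exact (pos_iff_pos_of_mul_pos this).mp hsg0
    have hepsg : ep ≤ sg := by rw [hsg, hep]; linarith
    have hPQ0 : 0 < P * Q := by positivity
    -- the identity
    have hid : sinc C ^ 2 - sinc P * sinc Q =
        D ^ 2 / (4 * (P * Q)) * (sinc (D / 2) ^ 2 + sinc sg * sinc ep - 2 * sinc C ^ 2) := by
      have hD2 : D / 2 ≠ 0 := by positivity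
      rw [sinc_of_ne_zero hC0.ne', sinc_of_ne_zero hP.ne', sinc_of_ne_zero hQ.ne',
        sinc_of_ne_zero hD2, sinc_of_ne_zero hsg0.ne', sinc_of_ne_zero hep0.ne']
      have e1 : sin C ^ 2 = (1 - cos (2 * C)) / 2 := by
        rw [cos_two_mul, cos_sq']; ring
      have e2 : sin P * sin Q = (cos D - cos S) / 2 := by
        rw [hD, hS, cos_sub, cos_add]; ring
      have e3 : sin (D / 2) ^ 2 = (1 - cos D) / 2 := by
        have : cos D = cos (2 * (D / 2)) := by congr 1; ring
        rw [this, cos_two_mul, cos_sq']; ring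
      have e4 : sin sg * sin ep = (cos S - cos (2 * C)) / 2 := by
        have h1 : S = sg - ep := by rw [hsg, hep]; ring
        have h2 : 2 * C = sg + ep := by rw [hsg, hep]; ring
        rw [h2, h1, cos_sub, cos_add]; ring
      have e5 : sin sg / sg * (sin ep / ep) = (cos S - cos (2 * C)) / 2 / (D ^ 2 / 4) := by
        rw [div_mul_div_comm, hprod, e4]
      have e6 : sin P / P * (sin Q / Q) = (cos D - cos S) / 2 / (P * Q) := by
        rw [div_mul_div_comm, e2]
      rw [e5, e6, div_pow, div_pow, e1, e3]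
      have hC2 : C ^ 2 = (P ^ 2 + Q ^ 2) / 2 := by linarith
      have hDne : D ≠ 0 := hD0.ne'
      have hPne : P ≠ 0 := hP.ne'
      have hQne : Q ≠ 0 := hQ.ne'
      have hDD : D ^ 2 = 2 * C ^ 2 - 2 * (P * Q) := by rw [hD]; linarith
      have hCne : C ≠ 0 := hC0.ne'
      have e7 : D ^ 2 / (4 * (P * Q)) * ((1 - cos D) / 2 / (D / 2) ^ 2 +
          (cos S - cos (2 * C)) / 2 / (D ^ 2 / 4) - 2 * ((1 - cos (2 * C)) / 2 / C ^ 2)) =
          (1 - cos D + cos S - cos (2 * C)) / (2 * (P * Q)) -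
            D ^ 2 * ((1 - cos (2 * C)) / (4 * (P * Q) * C ^ 2)) := by
        field_simp
        ring
      rw [e7, hDD]
      field_simp
      ring
    rw [hid, abs_mul, abs_of_pos (by positivity : 0 < D ^ 2 / (4 * (P * Q)))]
    have hR : ∀ M : ℝ, ((P ^ 2 - Q ^ 2) / 2) ^ 2 * (M / (P * Q * S ^ 2)) =
        D ^ 2 / (4 * (P * Q)) * M := by
      intro M
      have : P ^ 2 - Q ^ 2 = D * S := by rw [hD, hS]; ring
      rw [this]
      have hPne : P ≠ 0 := hP.ne'
      have hQne : Q ≠ 0 := hQ.ne'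
      have hSne : S ≠ 0 := hS0.ne'
      field_simp
      ring
    rw [hR]
    refine mul_le_mul_of_nonneg_left ?_ (by positivity)
    have k1 : sinc (D / 2) ^ 2 ≤ 1 / (1 + D ^ 2 / 12) := by
      have := idp_sq_le (y := D / 2) (by positivity)
      have e : (D / 2) ^ 2 / 3 = D ^ 2 / 12 := by ring
      rwa [e] at this
    have ku : sinc (D / 2) ^ 2 + sinc sg * sinc ep ≤ 1 / (1 + D ^ 2 / 12) + A := by
      rcases le_total ep π with he | he
      · have n0 := idp_sinc_nonneg hep0.le he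
        have n1 : sinc ep ≤ 1 := (le_abs_self _).trans (idp_abs_le_one ep)
        have n2 : sinc sg * sinc ep ≤ A * sinc ep := mul_le_mul_of_nonneg_right hA n0
        have n3 : A * sinc ep ≤ A * 1 := mul_le_mul_of_nonneg_left n1 hA0
        linarith
      · have hD36 : 36 < D ^ 2 := by
          have hpi := pi_gt_three
          have h5 : 9 < sg * ep := by nlinarith
          rw [hprod] at h5
          linarith
        have h6 : |sinc sg * sinc ep| ≤ 4 / D ^ 2 := by
          rw [abs_mul]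
          have i1 := idp_abs_le_inv hsg0
          have i2 := idp_abs_le_inv hep0
          have i3 : |sinc sg| * |sinc ep| ≤ 1 / sg * (1 / ep) :=
            mul_le_mul i1 i2 (abs_nonneg _) (by positivity)
          have i4 : 1 / sg * (1 / ep) = 4 / D ^ 2 := by
            rw [div_mul_div_comm, one_mul, hprod]
            have hDne : D ≠ 0 := hD0.ne'
            field_simp
          linarith
        have h7 : sinc (D / 2) ^ 2 ≤ 4 / D ^ 2 := by
          have i1 := idp_abs_le_inv (show 0 < D / 2 by positivity)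
          have i2 : sinc (D / 2) ^ 2 ≤ (1 / (D / 2)) ^ 2 := by
            rw [← sq_abs]
            exact pow_le_pow_left₀ (abs_nonneg _) i1 2
          have i3 : (1 / (D / 2)) ^ 2 = 4 / D ^ 2 := by
            have hDne : D ≠ 0 := hD0.ne'
            field_simp
            norm_num
          linarith
        have h8 : 8 / D ^ 2 ≤ 1 / (1 + D ^ 2 / 12) := by
          rw [div_le_div_iff₀ (by positivity) (by positivity)]
          linarith
        have h9 : 8 / D ^ 2 = 4 / D ^ 2 + 4 / D ^ 2 := by ring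
        have h10 := (abs_le.mp h6).2
        linarith
    have kl : |sinc sg * sinc ep| ≤ B := by
      rw [abs_mul]
      have h1 := idp_abs_le_inv hsg0
      have h2 := idp_abs_le_one ep
      calc |sinc sg| * |sinc ep| ≤ |sinc sg| * 1 := mul_le_mul_of_nonneg_left h2 (abs_nonneg _)
        _ ≤ B := by linarith
    have kc : 2 * sinc C ^ 2 ≤ 2 / C ^ 2 := by
      have h1 := idp_abs_le_inv hC0
      have h2 : sinc C ^ 2 ≤ (1 / C) ^ 2 := by
        rw [← sq_abs]
        exact pow_le_pow_left₀ (abs_nonneg _) h1 2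
      have h4 : 2 / C ^ 2 = 2 * (1 / C) ^ 2 := by
        rw [one_div_pow]; ring
      linarith
    have k4 : 0 ≤ sinc (D / 2) ^ 2 := sq_nonneg _
    have kl' := (abs_le.mp kl).1
    rw [abs_le]
    constructor
    · have := le_max_right (1 / (1 + D ^ 2 / 12) + A - 2 * κ) (B + 2 / C ^ 2)
      linarith
    · have := le_max_left (1 / (1 + D ^ 2 / 12) + A - 2 * κ) (B + 2 / C ^ 2)
      linarith

end Pool.Agent.Helper95.SP.Crude
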