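import Pool.Agent.Helper95.SP.Crude.Box2
import Pool.Agent.Helper95.SP.Crude.IdB
import Pool.Agent.Helper95.SP.Crude.SinR

/-!
Bounds for `|sin|` on intervals and rounded square roots.
-/

set_option autoImplicit false

namespace Pool.Agent.Helper95.SP.Crude

open Real Finset

/-- the interpolation identity -/
private theorem supq_id (a b y : ℝ) :
    sin y * sin (b - a) = sin (b - y) * sin a + sin (y - a) * sin b := by
  rw [sin_sub, sin_sub, sin_sub]
  have := sin_sq_add_cos_sq y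
  ring_nf

private theorem supq_core {a b y m : ℝ} (h1 : a ≤ y) (h2 : y ≤ b) (h : b - a ≤ 1) (hm : 0 ≤ m)
    (ha : sin a ≤ m) (hb : sin b ≤ m) : sin y ≤ m * (1 + (b - a) ^ 2 / 6) := by
  rcases (h1.trans h2).eq_or_lt with hab | hab
  · have : y = a := le_antisymm (by rw [hab]; exact h2) h1
    subst this
    nlinarith [sq_nonneg (b - y)]
  · set g := b - a with hg
    have hg0 : 0 < g := by rw [hg]; linarith
    have hpi := pi_gt_three
    have s1 : 0 ≤ sin (b - y) := sin_nonneg_of_nonneg_of_le_pi (by linarith) (by linarith)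
    have s2 : 0 ≤ sin (y - a) := sin_nonneg_of_nonneg_of_le_pi (by linarith) (by linarith)
    have s3 : 0 < sin (g / 2) := sin_pos_of_pos_of_lt_pi (by linarith) (by linarith)
    have c1 : 1 - (g / 2) ^ 2 / 2 ≤ cos (g / 2) := one_sub_sq_div_two_le_cos
    have h3 : sin y * sin g ≤ m * (sin (b - y) + sin (y - a)) := by
      rw [hg, supq_id a b y]
      have i1 := mul_le_mul_of_nonneg_left ha s1
      have i2 := mul_le_mul_of_nonneg_left hb s2
      linarith
    have h4 : sin (b - y) + sin (y - a) ≤ 2 * sin (g / 2) := by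
      have e : sin (b - y) + sin (y - a) = 2 * sin (g / 2) * cos ((b + a) / 2 - y) := by
        have e1 : b - y = g / 2 + ((b + a) / 2 - y) := by rw [hg]; ring
        have e2 : y - a = g / 2 - ((b + a) / 2 - y) := by rw [hg]; ring
        rw [e1, e2, sin_add (g / 2) ((b + a) / 2 - y), sin_sub (g / 2) ((b + a) / 2 - y)]
        ring
      rw [e]
      have := cos_le_one ((b + a) / 2 - y)
      nlinarith
    have h5 : sin g = 2 * sin (g / 2) * cos (g / 2) := by
      have : g = 2 * (g / 2) := by ring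
      conv_lhs => rw [this]
      exact sin_two_mul _
    have h6 : sin y * cos (g / 2) ≤ m := by
      have h7 : sin y * sin g ≤ m * (2 * sin (g / 2)) :=
        h3.trans (mul_le_mul_of_nonneg_left h4 hm)
      rw [h5] at h7
      have h8 : (sin y * cos (g / 2)) * (2 * sin (g / 2)) ≤ m * (2 * sin (g / 2)) := by
        calc _ = sin y * (2 * sin (g / 2) * cos (g / 2)) := by ring
          _ ≤ _ := h7
      exact le_of_mul_le_mul_right h8 (by positivity)
    rcases le_total (sin y) 0 with hs | hs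
    · exact hs.trans (by positivity)
    · have hcp : 0 < cos (g / 2) := by nlinarith
      have h9 : 1 ≤ cos (g / 2) * (1 + g ^ 2 / 6) := by
        nlinarith [mul_le_mul_of_nonneg_right c1 (by positivity : 0 ≤ 1 + g ^ 2 / 6), sq_nonneg g,
          mul_nonneg (sq_nonneg g) (by nlinarith : 0 ≤ 1 - g ^ 2)]
      have h10 := mul_le_mul_of_nonneg_right h6 (by positivity : 0 ≤ 1 + g ^ 2 / 6)
      have h11 := mul_le_mul_of_nonneg_left h9 hs
      nlinarith

private theorem supq_low {a b y m : ℝ} (h1 : a ≤ y) (h2 : y ≤ b) (h : b - a ≤ 1) (hm : 0 ≤ m)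
    (ha : m ≤ sin a) (hb : m ≤ sin b) : m ≤ sin y := by
  rcases (h1.trans h2).eq_or_lt with hab | hab
  · have : y = a := le_antisymm (by rw [hab]; exact h2) h1
    subst this
    exact ha
  · have hpi := pi_gt_three
    have s1 : 0 ≤ sin (b - y) := sin_nonneg_of_nonneg_of_le_pi (by linarith) (by linarith)
    have s2 : 0 ≤ sin (y - a) := sin_nonneg_of_nonneg_of_le_pi (by linarith) (by linarith)
    have s3 : 0 < sin (b - a) := sin_pos_of_pos_of_lt_pi (by linarith) (by linarith)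
    have h4 : sin (b - a) ≤ sin (b - y) + sin (y - a) := by
      have e : b - a = (b - y) + (y - a) := by ring
      rw [e, sin_add]
      have i1 := mul_le_mul_of_nonneg_left (cos_le_one (y - a)) s1
      have i2 := mul_le_mul_of_nonneg_right (cos_le_one (b - y)) s2
      linarith
    have h3 : m * sin (b - a) ≤ sin y * sin (b - a) := by
      rw [supq_id a b y]
      have i1 := mul_le_mul_of_nonneg_left ha s1
      have i2 := mul_le_mul_of_nonneg_left hb s2
      have i3 := mul_le_mul_of_nonneg_left h4 hm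
      linarith
    exact le_of_mul_le_mul_right h3 s3

private theorem supq_low_neg {a b y m : ℝ} (h1 : a ≤ y) (h2 : y ≤ b) (h : b - a ≤ 1) (hm : 0 ≤ m)
    (ha : m ≤ -sin a) (hb : m ≤ -sin b) : m ≤ -sin y := by
  have := supq_low (a := -b) (b := -a) (y := -y) (m := m) (by linarith) (by linarith)
    (by linarith) hm (by rw [sin_neg]; exact hb) (by rw [sin_neg]; exact ha)
  rwa [sin_neg] at this

theorem supA_sound {a b : ℚ} {y : ℝ} (h0 : 0 ≤ a) (hb : b ≤ 60) (h1 : (a : ℝ) ≤ y)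
    (h2 : y ≤ (b : ℝ)) : |sin y| ≤ ((supA a b : ℚ) : ℝ) := by
  have hab : a ≤ b := by exact_mod_cast h1.trans h2
  unfold supA
  split_ifs with h
  · push_cast
    refine le_min (abs_sin_le_one y) ?_
    have h3 : (b : ℝ) - a ≤ 1 := by exact_mod_cast h
    refine (abs_sin_le_max h1 h2 h3).trans ?_
    refine mul_le_mul_of_nonneg_right ?_ (by positivity)
    exact max_le_max (aSin_sound h0 (hab.trans hb)) (aSin_sound (h0.trans hab) hb)
  · push_cast
    exact abs_sin_le_one y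

theorem supP_sound {a b : ℚ} {y : ℝ} (h0 : 0 ≤ a) (hb : b ≤ 60) (h1 : (a : ℝ) ≤ y)
    (h2 : y ≤ (b : ℝ)) : sin y ≤ ((supP a b : ℚ) : ℝ) := by
  have hab : a ≤ b := by exact_mod_cast h1.trans h2
  unfold supP
  split_ifs with h
  · push_cast
    refine le_min (sin_le_one y) ?_
    have h3 : (b : ℝ) - a ≤ 1 := by exact_mod_cast h
    exact supq_core h1 h2 h3 (le_max_left _ _)
      ((sinU_sound h0 (hab.trans hb)).trans ((le_max_left _ _).trans (le_max_right _ _)))
      ((sinU_sound (h0.trans hab) hb).trans ((le_max_right _ _).trans (le_max_right _ _)))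
  · push_cast
    exact sin_le_one y

theorem infA_sound {a b : ℚ} {y : ℝ} (h0 : 0 ≤ a) (hb : b ≤ 60) (h1 : (a : ℝ) ≤ y)
    (h2 : y ≤ (b : ℝ)) : ((infA a b : ℚ) : ℝ) ≤ |sin y| := by
  have hab : a ≤ b := by exact_mod_cast h1.trans h2
  unfold infA
  split_ifs with h
  · push_cast
    have h3 : (b : ℝ) - a ≤ 1 := by exact_mod_cast h
    refine max_le (abs_nonneg _) (max_le ?_ ?_)
    · rcases le_total (min ((sinL a : ℚ) : ℝ) ((sinL b : ℚ) : ℝ)) 0 with hm | hm
      · exact hm.trans (abs_nonneg _)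
      · exact (supq_low h1 h2 h3 hm ((min_le_left _ _).trans (sinL_sound h0 (hab.trans hb)))
          ((min_le_right _ _).trans (sinL_sound (h0.trans hab) hb))).trans (le_abs_self _)
    · rcases le_total (min (-((sinU a : ℚ) : ℝ)) (-((sinU b : ℚ) : ℝ))) 0 with hm | hm
      · exact hm.trans (abs_nonneg _)
      · exact (supq_low_neg h1 h2 h3 hm
          ((min_le_left _ _).trans (neg_le_neg (sinU_sound h0 (hab.trans hb))))
          ((min_le_right _ _).trans (neg_le_neg (sinU_sound (h0.trans hab) hb)))).trans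
          (neg_le_abs _)
  · push_cast
    exact abs_nonneg _

theorem supA_nonneg (a b : ℚ) : 0 ≤ supA a b := by
  unfold supA
  split_ifs
  · exact le_min zero_le_one (mul_nonneg ((aSin_nonneg a).trans (le_max_left _ _)) (by positivity))
  · exact zero_le_one

theorem supP_nonneg (a b : ℚ) : 0 ≤ supP a b := by
  unfold supP
  split_ifs
  · exact le_min zero_le_one (mul_nonneg (le_max_left _ _) (by positivity))
  · exact zero_le_one

theorem infA_nonneg (a b : ℚ) : 0 ≤ infA a b := by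
  unfold infA
  split_ifs
  · exact le_max_left _ _
  · exact le_refl _

theorem sqL_nonneg (x : ℚ) : 0 ≤ sqL x := by
  unfold sqL
  positivity

theorem sqU_pos (x : ℚ) : 0 < sqU x := by
  unfold sqU
  positivity

theorem sqL_sound {x : ℚ} {C : ℝ} (h0 : 0 ≤ C) (h : (x : ℝ) ≤ C ^ 2) : ((sqL x : ℚ) : ℝ) ≤ C := by
  unfold sqL
  set n := (⌊x * 10 ^ 12⌋).toNat with hn
  have hsq : ((Nat.sqrt n : ℕ) : ℝ) ^ 2 ≤ (n : ℝ) := by exact_mod_cast Nat.sqrt_le' n
  have hnC : (n : ℝ) ≤ (C * 10 ^ 6) ^ 2 := by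
    have hC : 0 ≤ (C * 10 ^ 6) ^ 2 := by positivity
    rcases le_total 0 ⌊x * 10 ^ 12⌋ with h1 | h1
    · have h2 : ((n : ℤ) : ℚ) ≤ x * 10 ^ 12 := by
        rw [hn, Int.toNat_of_nonneg h1]
        exact Int.floor_le _
      have h3 : ((n : ℕ) : ℝ) ≤ (x : ℝ) * 10 ^ 12 := by exact_mod_cast h2
      nlinarith
    · have h2 : n = 0 := by rw [hn]; exact Int.toNat_of_nonpos h1
      rw [h2]
      simpa using hC
  have h4 : ((Nat.sqrt n : ℕ) : ℝ) ≤ C * 10 ^ 6 :=
    le_of_sq_le_sq (hsq.trans hnC) (by positivity)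
  push_cast
  rw [div_le_iff₀ (by positivity)]
  exact h4

theorem sqU_sound {x : ℚ} {C : ℝ} (h : C ^ 2 ≤ (x : ℝ)) : C ≤ ((sqU x : ℚ) : ℝ) := by
  unfold sqU
  set n := (⌈x * 10 ^ 12⌉).toNat with hn
  have hsq : (n : ℝ) < ((Nat.sqrt n : ℕ) + 1 : ℝ) ^ 2 := by exact_mod_cast Nat.lt_succ_sqrt' n
  have hnC : (C * 10 ^ 6) ^ 2 ≤ (n : ℝ) := by
    have h2 : x * 10 ^ 12 ≤ ((n : ℤ) : ℚ) :=
      (Int.le_ceil _).trans (by exact_mod_cast Int.self_le_toNat _)
    have h3 : (x : ℝ) * 10 ^ 12 ≤ ((n : ℕ) : ℝ) := by exact_mod_cast h2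
    nlinarith
  have h4 : C * 10 ^ 6 ≤ ((Nat.sqrt n : ℕ) : ℝ) + 1 :=
    le_of_sq_le_sq (hnC.trans hsq.le) (by positivity)
  push_cast
  rw [le_div_iff₀ (by positivity)]
  exact h4

theorem sqU_le {x y : ℚ} (hy : 0 ≤ y) (h : x ≤ y ^ 2) : sqU x ≤ y + 3 / 10 ^ 6 := by
  unfold sqU
  set n := (⌈x * 10 ^ 12⌉).toNat with hn
  have hsq : ((Nat.sqrt n : ℕ) : ℚ) ^ 2 ≤ (n : ℚ) := by exact_mod_cast Nat.sqrt_le' n
  have hnC : (n : ℚ) ≤ (y * 10 ^ 6 + 1) ^ 2 := by
    have hC : 0 ≤ (y * 10 ^ 6 + 1) ^ 2 := by positivity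
    rcases le_total 0 ⌈x * 10 ^ 12⌉ with h1 | h1
    · have h2 : ((n : ℤ) : ℚ) < x * 10 ^ 12 + 1 := by
        rw [hn, Int.toNat_of_nonneg h1]
        exact Int.ceil_lt_add_one _
      have h3 : ((n : ℕ) : ℚ) < x * 10 ^ 12 + 1 := by exact_mod_cast h2
      nlinarith
    · have h2 : n = 0 := by rw [hn]; exact Int.toNat_of_nonpos h1
      rw [h2]
      simpa using hC
  have h4 : ((Nat.sqrt n : ℕ) : ℚ) ≤ y * 10 ^ 6 + 1 :=
    le_of_sq_le_sq (hsq.trans hnC) (by positivity)
  rw [div_le_iff₀ (by positivity)]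
  have e : (y + 3 / 10 ^ 6) * 10 ^ 6 = y * 10 ^ 6 + 3 := by ring
  rw [e]
  linarith

end Pool.Agent.Helper95.SP.Crude
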