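import Pool.Agent.Helper95.SP.Prod

/-!
# SP-wave, module Univ: the universal bound for `sinc C ^ 2 - sinc P * sinc Q`
-/

set_option autoImplicit false

namespace Pool.Agent.Helper95.SP.Crude

open Real Finset Filter Topology

/-- telescoping of products of numbers in `[0, 1]` -/
theorem prod_sub_prod_le_sum (f g : ℕ → ℝ) (h0 : ∀ j, 0 ≤ g j) (h1 : ∀ j, g j ≤ f j)
    (h2 : ∀ j, f j ≤ 1) (n : ℕ) :
    0 ≤ ∏ j ∈ range n, g j ∧ ∏ j ∈ range n, g j ≤ ∏ j ∈ range n, f j ∧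
      ∏ j ∈ range n, f j ≤ 1 ∧
      ∏ j ∈ range n, f j - ∏ j ∈ range n, g j ≤ ∑ j ∈ range n, (f j - g j) := by
  induction n with
  | zero => simp
  | succ n ih =>
    rw [Finset.prod_range_succ, Finset.prod_range_succ, Finset.sum_range_succ]
    obtain ⟨i1, i2, i3, i4⟩ := ih
    have a0 := h0 n
    have a1 := h1 n
    have a2 := h2 n
    refine ⟨mul_nonneg i1 a0, mul_le_mul i2 a1 a0 (i1.trans i2), ?_, ?_⟩
    · exact mul_le_one₀ i3 (a0.trans a1) a2
    · have e : (∏ j ∈ range n, f j) * f n - (∏ j ∈ range n, g j) * g n =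
          (∏ j ∈ range n, f j) * (f n - g n) + (∏ j ∈ range n, f j - ∏ j ∈ range n, g j) * g n := by
        ring
      rw [e]
      have b1 : (∏ j ∈ range n, f j) * (f n - g n) ≤ 1 * (f n - g n) :=
        mul_le_mul_of_nonneg_right i3 (by linarith)
      have b2 : (∏ j ∈ range n, f j - ∏ j ∈ range n, g j) * g n ≤
          (∏ j ∈ range n, f j - ∏ j ∈ range n, g j) * 1 :=
        mul_le_mul_of_nonneg_left (a1.trans a2) (by linarith)
      linarith

theorem univ_pr {s d : ℝ} (hd : 0 ≤ d) (hds : d ≤ s) (h : s ≤ 2 * π ^ 2) (n : ℕ) :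
    0 ≤ pr (-s) (n + 1) ^ 2 - pr (-(s + d)) (n + 1) * pr (-(s - d)) (n + 1) ∧
      pr (-s) (n + 1) ^ 2 - pr (-(s + d)) (n + 1) * pr (-(s - d)) (n + 1) ≤ d ^ 2 / 90 := by
  set a : ℕ → ℝ := fun j => 1 / (π ^ 2 * ((j : ℝ) + 1) ^ 2) with ha
  have hπ : 0 < π ^ 2 := by positivity
  have ha0 : ∀ j, 0 < a j := fun j => by simp only [ha]; positivity
  set f : ℕ → ℝ := fun j => (1 - s * a j) ^ 2 with hf
  set g : ℕ → ℝ := fun j => (1 - (s + d) * a j) * (1 - (s - d) * a j) with hg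
  have hfg : ∀ j, f j - g j = d ^ 2 * a j ^ 2 := by
    intro j
    simp only [hf, hg]
    ring
  have e1 : pr (-s) (n + 1) ^ 2 = ∏ j ∈ range (n + 1), f j := by
    unfold pr
    rw [← Finset.prod_pow]
    refine Finset.prod_congr rfl fun j _ => ?_
    simp only [hf, ha]
    congr 1
    ring
  have e2 : pr (-(s + d)) (n + 1) * pr (-(s - d)) (n + 1) = ∏ j ∈ range (n + 1), g j := by
    unfold pr
    rw [← Finset.prod_mul_distrib]
    refine Finset.prod_congr rfl fun j _ => ?_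
    simp only [hg, ha]
    congr 1 <;> ring
  rw [e1, e2]
  have ha1 : ∀ j, (s + d) * a (j + 1) ≤ 1 := by
    intro j
    simp only [ha]
    rw [mul_one_div, div_le_one (by positivity)]
    push_cast
    have hj : (0 : ℝ) ≤ j := Nat.cast_nonneg j
    have h4 : (4 : ℝ) ≤ ((j : ℝ) + 1 + 1) ^ 2 := by nlinarith
    nlinarith
  have hg0 : ∀ j, 0 ≤ g (j + 1) := by
    intro j
    simp only [hg]
    have h1 := ha1 j
    have h2 := ha0 (j + 1)
    apply mul_nonneg
    · linarith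
    · nlinarith
  have hgf : ∀ j, g (j + 1) ≤ f (j + 1) := by
    intro j
    have := hfg (j + 1)
    have h2 : 0 ≤ d ^ 2 * a (j + 1) ^ 2 := by positivity
    linarith
  have hf1 : ∀ j, f (j + 1) ≤ 1 := by
    intro j
    simp only [hf]
    have h1 := ha1 j
    have h2 := ha0 (j + 1)
    have h3 : 0 ≤ s * a (j + 1) := mul_nonneg (hd.trans hds) h2.le
    have h4 : s * a (j + 1) ≤ 1 := by nlinarith
    nlinarith
  have hf00 : 0 ≤ f 0 := sq_nonneg _
  have hf01 : f 0 ≤ 1 := by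
    simp only [hf, ha]
    have h3 : 0 ≤ s * (1 / (π ^ 2 * (((0 : ℕ) : ℝ) + 1) ^ 2)) := by
      have : 0 ≤ s := hd.trans hds
      positivity
    have h4 : s * (1 / (π ^ 2 * (((0 : ℕ) : ℝ) + 1) ^ 2)) ≤ 2 := by
      rw [mul_one_div, div_le_iff₀ (by positivity)]
      push_cast
      nlinarith
    nlinarith
  obtain ⟨i1, i2, i3, i4⟩ := prod_sub_prod_le_sum (fun j => f (j + 1)) (fun j => g (j + 1))
    hg0 hgf hf1 n
  rw [Finset.prod_range_succ' f, Finset.prod_range_succ' g]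
  set F := ∏ j ∈ range n, f (j + 1) with hF
  set Gp := ∏ j ∈ range n, g (j + 1) with hGp
  have h00 := hfg 0
  have hd0 : 0 ≤ d ^ 2 * a 0 ^ 2 := by positivity
  have hsum : ∑ j ∈ range (n + 1), d ^ 2 * a j ^ 2 ≤ d ^ 2 / 90 := by
    rw [← Finset.mul_sum]
    have h5 := mul_le_mul_of_nonneg_left (sum_four_le (n + 1)) (sq_nonneg d)
    have h6 : ∑ j ∈ range (n + 1), a j ^ 2 = ∑ j ∈ range (n + 1), 1 / (π ^ 2 * ((j : ℝ) + 1) ^ 2) ^ 2 := by
      refine Finset.sum_congr rfl fun j _ => ?_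
      simp only [ha]
      rw [one_div_pow]
    rw [h6]
    linarith
  rw [Finset.sum_range_succ'] at hsum
  have i4' : F - Gp ≤ ∑ j ∈ range n, d ^ 2 * a (j + 1) ^ 2 := by
    refine i4.trans (le_of_eq ?_)
    exact Finset.sum_congr rfl fun j _ => hfg (j + 1)
  rcases le_or_gt (g 0) 0 with hg00 | hg00
  · constructor
    · have h7 : 0 ≤ F * f 0 := mul_nonneg (i1.trans i2) hf00
      have h8 : Gp * g 0 ≤ 0 := mul_nonpos_of_nonneg_of_nonpos i1 hg00
      linarith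
    · have h9 : F * f 0 - Gp * g 0 ≤ F * (f 0 - g 0) := by nlinarith
      have h10 : F * (f 0 - g 0) ≤ 1 * (f 0 - g 0) :=
        mul_le_mul_of_nonneg_right i3 (by linarith)
      have h11 : 0 ≤ F - Gp := by linarith
      linarith
  · constructor
    · have h7 : Gp * g 0 ≤ F * f 0 := mul_le_mul i2 (by linarith) hg00.le (i1.trans i2)
      linarith
    · have h8 : F * f 0 - Gp * g 0 = (F - Gp) * f 0 + Gp * (f 0 - g 0) := by ring
      rw [h8, h00]
      have h9 : (F - Gp) * f 0 ≤ (F - Gp) * 1 := mul_le_mul_of_nonneg_left hf01 (by linarith)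
      have h10 : Gp * (d ^ 2 * a 0 ^ 2) ≤ 1 * (d ^ 2 * a 0 ^ 2) :=
        mul_le_mul_of_nonneg_right (i2.trans i3) hd0
      linarith

/-- the case `P^2 + Q^2 ≤ 4 π^2` -/
theorem univ_caseA {P Q C : ℝ} (hQ : 0 ≤ Q) (hQP : Q ≤ P)
    (hCC : 2 * C ^ 2 = P ^ 2 + Q ^ 2) (h : P ^ 2 + Q ^ 2 ≤ 4 * π ^ 2) :
    0 ≤ sinc C ^ 2 - sinc P * sinc Q ∧
      sinc C ^ 2 - sinc P * sinc Q ≤ (P ^ 2 - Q ^ 2) ^ 2 / 360 := by
  have hPQ : Q ^ 2 ≤ P ^ 2 := pow_le_pow_left₀ hQ hQP 2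
  have hd : 0 ≤ (P ^ 2 - Q ^ 2) / 2 := by linarith
  have hds : (P ^ 2 - Q ^ 2) / 2 ≤ C ^ 2 := by nlinarith [sq_nonneg Q]
  have hs : C ^ 2 ≤ 2 * π ^ 2 := by linarith
  have e1 : -(C ^ 2 + (P ^ 2 - Q ^ 2) / 2) = -P ^ 2 := by linarith
  have e2 : -(C ^ 2 - (P ^ 2 - Q ^ 2) / 2) = -Q ^ 2 := by linarith
  have key := fun n => univ_pr hd hds hs n
  rw [e1, e2] at key
  have t := (((tendsto_sinc C).pow 2).sub ((tendsto_sinc P).mul (tendsto_sinc Q))).comp
    (tendsto_add_atTop_nat 1)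
  constructor
  · exact ge_of_tendsto' t fun n => (key n).1
  · refine le_of_tendsto' t fun n => ?_
    refine (key n).2.trans (le_of_eq ?_)
    ring

/-- the identity for the bracket -/
theorem univ_identity {P Q C : ℝ} (hQ : 0 < Q) (hQP : Q < P) (hC : 0 ≤ C)
    (hCC : 2 * C ^ 2 = P ^ 2 + Q ^ 2) :
    sinc C ^ 2 - sinc P * sinc Q = (P - Q) ^ 2 / (4 * (P * Q)) *
      (sinc ((P - Q) / 2) ^ 2 + sinc ((2 * C + (P + Q)) / 2) * sinc ((2 * C - (P + Q)) / 2) -
        2 * sinc C ^ 2) := by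
  have hP : 0 < P := hQ.trans hQP
  have hC2 : 0 < C ^ 2 := by nlinarith
  have hC0 : 0 < C := by
    rcases hC.eq_or_lt with h0 | h0
    · rw [← h0] at hC2; norm_num at hC2
    · exact h0
  have hD : 0 < P - Q := by linarith
  have h4 : (2 * C) ^ 2 - (P + Q) ^ 2 = (P - Q) ^ 2 := by nlinarith
  have hlt : P + Q < 2 * C := by
    have : (P + Q) ^ 2 < (2 * C) ^ 2 := by nlinarith
    exact lt_of_pow_lt_pow_left₀ 2 (by positivity) this
  have hsig : (2 * C + (P + Q)) / 2 ≠ 0 := by positivity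
  have heps : (2 * C - (P + Q)) / 2 ≠ 0 := by
    have : 0 < (2 * C - (P + Q)) / 2 := by linarith
    exact this.ne'
  have hD2 : (P - Q) / 2 ≠ 0 := by
    have : 0 < (P - Q) / 2 := by linarith
    exact this.ne'
  rw [sinc_of_ne_zero hC0.ne', sinc_of_ne_zero hP.ne', sinc_of_ne_zero hQ.ne',
    sinc_of_ne_zero hsig, sinc_of_ne_zero heps, sinc_of_ne_zero hD2]
  have t1 : sin C ^ 2 = (1 - cos (2 * C)) / 2 := by rw [cos_two_mul, ← sin_sq_add_cos_sq C]; ring
  have t2 : sin P * sin Q = (cos (P - Q) - cos (P + Q)) / 2 := by rw [cos_sub, cos_add]; ring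
  have t3 : sin ((P - Q) / 2) ^ 2 = (1 - cos (P - Q)) / 2 := by
    have : cos (P - Q) = cos (2 * ((P - Q) / 2)) := by congr 1; ring
    rw [this, cos_two_mul, ← sin_sq_add_cos_sq ((P - Q) / 2)]; ring
  have t4 : sin ((2 * C + (P + Q)) / 2) * sin ((2 * C - (P + Q)) / 2) =
      (cos (P + Q) - cos (2 * C)) / 2 := by
    have a1 : cos (P + Q) = cos ((2 * C + (P + Q)) / 2 - (2 * C - (P + Q)) / 2) := by congr 1; ring
    have a2 : cos (2 * C) = cos ((2 * C + (P + Q)) / 2 + (2 * C - (P + Q)) / 2) := by congr 1; ring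
    rw [a1, a2, cos_sub, cos_add]; ring
  rw [div_pow, div_pow, div_mul_div_comm, div_mul_div_comm, t1, t2, t3, t4]
  have e5 : (2 * C + (P + Q)) / 2 * ((2 * C - (P + Q)) / 2) = (P - Q) ^ 2 / 4 := by nlinarith
  rw [e5]
  have hPQ : P * Q ≠ 0 := (mul_pos hP hQ).ne'
  have hDD : (P - Q) ^ 2 ≠ 0 := by positivity
  have hC2' : C ^ 2 = (P ^ 2 + Q ^ 2) / 2 := by linarith
  rw [hC2']
  have hS : P ^ 2 + Q ^ 2 ≠ 0 := by positivity
  have hPQ' : P - Q ≠ 0 := hD.ne'
  field_simp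
  ring

theorem abs_sinc_le_one' (x : ℝ) : |sinc x| ≤ 1 := by
  rw [abs_le]
  exact ⟨neg_one_le_sinc x, sinc_le_one x⟩

theorem abs_sub_le_univ {P Q C : ℝ} (hQ : 0 ≤ Q) (hQP : Q ≤ P) (hC : 0 ≤ C)
    (hCC : 2 * C ^ 2 = P ^ 2 + Q ^ 2) :
    |sinc C ^ 2 - sinc P * sinc Q| ≤ (P ^ 2 - Q ^ 2) ^ 2 / 360 := by
  rcases le_or_gt (P ^ 2 + Q ^ 2) (4 * π ^ 2) with h | h
  · obtain ⟨h1, h2⟩ := univ_caseA hQ hQP hCC h
    rw [abs_of_nonneg h1]
    exact h2
  · have hpi := pi_gt_d6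
    have hpi2 : (9.8696 : ℝ) ≤ π ^ 2 := by nlinarith
    have hP0 : 0 ≤ P := hQ.trans hQP
    rcases le_or_gt P (2 * Q) with h3 | h3
    · -- comparable
      rcases hQP.eq_or_lt with h5 | h5
      · -- equal
        subst h5
        have : C = Q := by
          have : C ^ 2 = Q ^ 2 := by linarith
          exact (pow_left_inj₀ hC hQ (by norm_num)).mp this
        subst this
        have e : sinc C ^ 2 - sinc C * sinc C = 0 := by ring
        rw [e]
        simp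
      · have hQ0 : 0 < Q := by linarith
        have hP1 : 0 < P := hQ0.trans h5
        rw [univ_identity hQ0 h5 hC hCC, abs_mul, abs_of_nonneg (by positivity)]
        set x1 := sinc ((P - Q) / 2) with hx1
        set x2 := sinc ((2 * C + (P + Q)) / 2) with hx2
        set x3 := sinc ((2 * C - (P + Q)) / 2) with hx3
        set x4 := sinc C with hx4
        have b1 : |x1| ≤ 1 := abs_sinc_le_one' _
        have b2 : |x2| ≤ 1 := abs_sinc_le_one' _
        have b3 : |x3| ≤ 1 := abs_sinc_le_one' _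
        have b4 : |x4| ≤ 1 := abs_sinc_le_one' _
        have c1 : x1 ^ 2 ≤ 1 := by rw [← sq_abs]; exact pow_le_one₀ (abs_nonneg _) b1
        have c4 : x4 ^ 2 ≤ 1 := by rw [← sq_abs]; exact pow_le_one₀ (abs_nonneg _) b4
        have c2 : |x2 * x3| ≤ 1 := by rw [abs_mul]; exact mul_le_one₀ b2 (abs_nonneg _) b3
        have hbr : |x1 ^ 2 + x2 * x3 - 2 * x4 ^ 2| ≤ 3 := by
          rw [abs_le] at c2 ⊢
          constructor
          · nlinarith [sq_nonneg x1]
          · nlinarith [sq_nonneg x4]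
        have hP2 : 19.739 ≤ P ^ 2 := by nlinarith
        have hPQ : 9.869 ≤ P * Q := by nlinarith
        have hS : 4 * (P * Q) ≤ (P + Q) ^ 2 := by nlinarith [sq_nonneg (P - Q)]
        have hkey : 270 ≤ P * Q * (P + Q) ^ 2 := by nlinarith
        have e6 : (P ^ 2 - Q ^ 2) ^ 2 / 360 = (P - Q) ^ 2 / (4 * (P * Q)) *
            (P * Q * (P + Q) ^ 2 / 90) := by
          field_simp
          ring
        rw [e6]
        apply mul_le_mul_of_nonneg_left _ (by positivity)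
        refine hbr.trans ?_
        rw [le_div_iff₀ (by norm_num)]
        linarith
    · -- far apart
      have hP2 : 31 ≤ P ^ 2 := by nlinarith
      have hP5 : 5 ≤ P := by nlinarith
      have hP1 : 0 < P := by linarith
      have hC2 : 19 ≤ C ^ 2 := by nlinarith
      have hC0 : 0 < C := by nlinarith
      have h6 : |sinc C ^ 2 - sinc P * sinc Q| ≤ 1 := by
        have b1 := abs_sinc_le_one' C
        have b3 := abs_sinc_le_one' Q
        have c4 : sinc C ^ 2 ≤ 1 / 2 := by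
          rw [sinc_of_ne_zero hC0.ne', div_pow, div_le_div_iff₀ (by positivity) (by norm_num)]
          have := sin_sq_le_one C
          nlinarith
        have c5 : |sinc P| ≤ 1 / 2 := by
          rw [sinc_of_ne_zero hP1.ne', abs_div, abs_of_pos hP1, div_le_div_iff₀ hP1 (by norm_num)]
          have := abs_sin_le_one P
          linarith
        have c6 : |sinc P * sinc Q| ≤ 1 / 2 := by
          rw [abs_mul]
          calc |sinc P| * |sinc Q| ≤ 1 / 2 * 1 := by gcongr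
            _ = 1 / 2 := by norm_num
        rw [abs_le] at c6 ⊢
        constructor <;> nlinarith [sq_nonneg (sinc C)]
      refine h6.trans ?_
      rw [le_div_iff₀ (by norm_num)]
      have h7 : 3 / 4 * P ^ 2 ≤ P ^ 2 - Q ^ 2 := by nlinarith
      have h8 : 23 ≤ P ^ 2 - Q ^ 2 := by linarith
      nlinarith

theorem sub_nonneg_of_le {P Q C : ℝ} (hQ : 0 ≤ Q) (hQP : Q ≤ P) (_hC : 0 ≤ C)
    (hCC : 2 * C ^ 2 = P ^ 2 + Q ^ 2) (h : P ^ 2 + Q ^ 2 ≤ 4 * π ^ 2) :
    0 ≤ sinc C ^ 2 - sinc P * sinc Q := (univ_caseA hQ hQP hCC h).1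

end Pool.Agent.Helper95.SP.Crude
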