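import Pool.Agent.Helper95.SP.Crude.Cfg2
import Pool.Agent.Helper95.SP.Crude.Univ
import Pool.Agent.Helper95.SP.Crude.IdB
import Pool.Agent.Helper95.SP.Crude.IdP
import Pool.Agent.Helper95.SP.Crude.SupQ
import Pool.Agent.Helper95.SP.Crude.ExpQ

/-!
SP-wave2, module Bet: bounds for the bracket at one harmonic over a box.
-/

set_option autoImplicit false

namespace Pool.Agent.Helper95.SP.Crude

open Real Finset

theorem Bet.hCC' {X U C : ℝ} (κ : ℝ) (hCC : 2 * C ^ 2 = X ^ 2 + U ^ 2) :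
    2 * (κ * C) ^ 2 = (κ * X) ^ 2 + (κ * U) ^ 2 := by
  rw [mul_pow, mul_pow, mul_pow]
  linear_combination κ ^ 2 * hCC

theorem BB_univ {X U C κ : ℝ} (hU : 0 ≤ U) (hUX : U < X) (hC : 0 < C)
    (hCC : 2 * C ^ 2 = X ^ 2 + U ^ 2) (hκ : 0 ≤ κ) :
    |BB X U C κ| ≤ κ ^ 4 / 90 * dd X U := by
  have h := abs_sub_le_univ (P := κ * X) (Q := κ * U) (C := κ * C) (mul_nonneg hκ hU)
    (mul_le_mul_of_nonneg_left hUX.le hκ) (mul_nonneg hκ hC.le) (Bet.hCC' κ hCC)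
  unfold BB dd
  refine h.trans (le_of_eq ?_)
  ring

/-- the shape of the identity bound over a box -/
theorem Bet.id_bound {X U X0 U0 κ N M : ℝ} (hX0 : 0 < X0) (hU0 : 0 < U0) (hX : X0 ≤ X)
    (hU : U0 ≤ U) (hκ : 0 < κ) (hM : 0 ≤ M) (hNM : N ≤ M) :
    (((κ * X) ^ 2 - (κ * U) ^ 2) / 2) ^ 2 *
      (N / (κ * X * (κ * U) * (κ * X + κ * U) ^ 2)) ≤ M / (X0 * U0 * (X0 + U0) ^ 2) * dd X U := by
  have hX' : 0 < X := hX0.trans_le hX
  have hU' : 0 < U := hU0.trans_le hU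
  have e : (((κ * X) ^ 2 - (κ * U) ^ 2) / 2) ^ 2 *
      (N / (κ * X * (κ * U) * (κ * X + κ * U) ^ 2)) = N / (X * U * (X + U) ^ 2) * dd X U := by
    unfold dd
    have h1 : X + U ≠ 0 := by positivity
    have e2 : κ * X + κ * U = κ * (X + U) := by ring
    rw [e2]
    field_simp
  rw [e]
  have hd : 0 ≤ dd X U := by unfold dd; positivity
  apply mul_le_mul_of_nonneg_right _ hd
  apply div_le_div₀ hM hNM (by positivity)
  have h3 : X0 * U0 ≤ X * U := mul_le_mul hX hU hU0.le hX'.le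
  have h4 : (X0 + U0) ^ 2 ≤ (X + U) ^ 2 := pow_le_pow_left₀ (by positivity) (by linarith) 2
  exact mul_le_mul h3 h4 (by positivity) (by positivity)

/-- the shape of the direct bound over a box -/
theorem Bet.dir_bound {X U X0 U1 N M B : ℝ} (hU : 0 ≤ U) (hU1 : U ≤ U1) (h : U1 < X0)
    (hX : X0 ≤ X) (hN : 0 ≤ N) (hB : B ≤ N) (hNM : N ≤ M) :
    B ≤ M / ((X0 ^ 2 - U1 ^ 2) / 2) ^ 2 * dd X U := by
  have h0 : 0 ≤ U1 := hU.trans hU1
  have h1 : 0 < (X0 ^ 2 - U1 ^ 2) / 2 := by nlinarith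
  have h2 : (X0 ^ 2 - U1 ^ 2) / 2 ≤ (X ^ 2 - U ^ 2) / 2 := by nlinarith
  have h3 : ((X0 ^ 2 - U1 ^ 2) / 2) ^ 2 ≤ dd X U := pow_le_pow_left₀ h1.le h2 2
  have h4 : 0 < ((X0 ^ 2 - U1 ^ 2) / 2) ^ 2 := by positivity
  have hM : 0 ≤ M := hN.trans hNM
  calc B ≤ M := hB.trans hNM
    _ = M / ((X0 ^ 2 - U1 ^ 2) / 2) ^ 2 * ((X0 ^ 2 - U1 ^ 2) / 2) ^ 2 := by
        rw [div_mul_cancel₀ _ h4.ne']
    _ ≤ _ := mul_le_mul_of_nonneg_left h3 (by positivity)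

theorem Bet.one_div_sq_le {X U X0 U1 k κ : ℝ} (hk : 0 ≤ k) (hκ : k ≤ κ) (hUX : U < X)
    (hX : X0 ≤ X) (hU1 : U ≤ U1) :
    1 / (1 + (κ * X - κ * U) ^ 2 / 12) ≤ 1 / (1 + k ^ 2 * (max 0 (X0 - U1)) ^ 2 / 12) := by
  apply one_div_le_one_div_of_le (by positivity)
  have h1 : 0 ≤ max 0 (X0 - U1) := le_max_left _ _
  have h2 : max 0 (X0 - U1) ≤ X - U := max_le (by linarith) (by linarith)
  have h3 : k * max 0 (X0 - U1) ≤ κ * (X - U) := mul_le_mul hκ h2 h1 (hk.trans hκ)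
  have h4 : (k * max 0 (X0 - U1)) ^ 2 ≤ (κ * (X - U)) ^ 2 :=
    pow_le_pow_left₀ (by positivity) h3 2
  have e1 : k ^ 2 * (max 0 (X0 - U1)) ^ 2 = (k * max 0 (X0 - U1)) ^ 2 := by ring
  have e2 : (κ * X - κ * U) ^ 2 = (κ * (X - U)) ^ 2 := by ring
  rw [e1, e2]
  linarith

theorem Bet.sq_ge {X U C X0 U0 k κ : ℝ} (hk : 0 ≤ k) (hκ : k ≤ κ) (hX0 : 0 ≤ X0) (hU0 : 0 ≤ U0)
    (hX : X0 ≤ X) (hU : U0 ≤ U) (hCC : 2 * C ^ 2 = X ^ 2 + U ^ 2) :
    k ^ 2 * (X0 ^ 2 + U0 ^ 2) ≤ 2 * (κ * C) ^ 2 := by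
  have h1 : k ^ 2 ≤ κ ^ 2 := pow_le_pow_left₀ hk hκ 2
  have h2 : X0 ^ 2 ≤ X ^ 2 := pow_le_pow_left₀ hX0 hX 2
  have h3 : U0 ^ 2 ≤ U ^ 2 := pow_le_pow_left₀ hU0 hU 2
  have e : 2 * (κ * C) ^ 2 = κ ^ 2 * (X ^ 2 + U ^ 2) := by rw [← hCC]; ring
  rw [e]
  exact mul_le_mul h1 (by linarith) (by positivity) (by positivity)

/-- the simple identity bound -/
theorem Bet.idS {b : Bx} {X U Q C : ℝ} {c0 c1 : ℚ} (h : Reg b X U Q C c0 c1) {k : ℕ} {κ : ℝ}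
    (hk : 1 ≤ k) (hκ : (k : ℝ) ≤ κ) (hok : idOK k b = true) :
    |BB X U C κ| ≤ ((idV (brS k b) b : ℚ) : ℝ) * dd X U := by
  unfold idOK at hok
  rw [Bool.and_eq_true, Bool.and_eq_true, decide_eq_true_iff, decide_eq_true_iff,
    decide_eq_true_iff] at hok
  obtain ⟨⟨hu0, hx0⟩, h6⟩ := hok
  have hu0' : (0 : ℝ) < (b.U0 : ℝ) := by exact_mod_cast hu0
  have hx0' : (0 : ℝ) < (b.X0 : ℝ) := by exact_mod_cast hx0
  have h6' : (6 : ℝ) ≤ (k : ℝ) ^ 2 * ((b.X0 : ℝ) ^ 2 + (b.U0 : ℝ) ^ 2) := by exact_mod_cast h6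
  have hk' : (1 : ℝ) ≤ (k : ℝ) := by exact_mod_cast hk
  have hκ0 : 0 < κ := by linarith
  have hX := h.hx0
  have hU := h.hu0
  have hX' : 0 < X := hx0'.trans_le hX
  have hU' : 0 < U := hu0'.trans_le hU
  have h3 := Bet.sq_ge (by linarith) hκ hx0'.le hu0'.le hX hU h.hCC
  have h1 := abs_sub_le_id (P := κ * X) (Q := κ * U) (C := κ * C) (by positivity)
    (mul_le_mul_of_nonneg_left h.hUX.le hκ0.le) (mul_nonneg hκ0.le h.hC.le) (Bet.hCC' κ h.hCC)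
    (by linarith)
  refine h1.trans ?_
  have e : ((idV (brS k b) b : ℚ) : ℝ) =
      (1 / (1 + (k : ℝ) ^ 2 * (max 0 ((b.X0 : ℝ) - (b.U1 : ℝ))) ^ 2 / 12) +
        1 / ((k : ℝ) * ((b.X0 : ℝ) + (b.U0 : ℝ)))) /
      ((b.X0 : ℝ) * (b.U0 : ℝ) * ((b.X0 : ℝ) + (b.U0 : ℝ)) ^ 2) := by
    unfold idV brS
    push_cast
    rfl
  rw [e]
  apply Bet.id_bound hx0' hu0' hX hU hκ0 (by positivity)
  apply add_le_add
  · exact Bet.one_div_sq_le (by linarith) hκ h.hUX hX h.hu1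
  · apply one_div_le_one_div_of_le (by positivity)
    have : κ * X + κ * U = κ * (X + U) := by ring
    rw [this]
    exact mul_le_mul hκ (by linarith) (by positivity) hκ0.le

/-- the simple direct bound -/
theorem Bet.dirS {b : Bx} {X U Q C : ℝ} {c0 c1 : ℚ} (h : Reg b X U Q C c0 c1) {k : ℕ} {κ : ℝ}
    (hk : 1 ≤ k) (hκ : (k : ℝ) ≤ κ) (hok : dirOK b = true) :
    |BB X U C κ| ≤ ((dirV (dvS k b) b : ℚ) : ℝ) * dd X U := by
  unfold dirOK at hok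
  rw [decide_eq_true_iff] at hok
  have hok' : (b.U1 : ℝ) < (b.X0 : ℝ) := by exact_mod_cast hok
  have hu00 : (0 : ℝ) ≤ (b.U0 : ℝ) := by exact_mod_cast h.u0
  have hk' : (1 : ℝ) ≤ (k : ℝ) := by exact_mod_cast hk
  have hκ0 : 0 < κ := by linarith
  have hX := h.hx0
  have hU := h.hu0
  have hU1 := h.hu1
  have hU' : 0 ≤ U := hu00.trans hU
  have hx0' : (0 : ℝ) < (b.X0 : ℝ) := by linarith
  have hX' : 0 < X := hx0'.trans_le hX
  have h1 := abs_sub_le_dir (P := κ * X) (Q := κ * U) (C := κ * C) (by positivity)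
    (by positivity) (mul_pos hκ0 h.hC)
  have h3 := Bet.sq_ge (by linarith) hκ hx0'.le hu00 hX hU h.hCC
  have hC := h.hC
  have e : ((dirV (dvS k b) b : ℚ) : ℝ) =
      (2 / ((k : ℝ) ^ 2 * ((b.X0 : ℝ) ^ 2 + (b.U0 : ℝ) ^ 2)) +
        1 / ((k : ℝ) * (b.X0 : ℝ)) *
          (if b.U0 = 0 then 1 else min 1 (1 / ((k : ℝ) * (b.U0 : ℝ))))) /
      (((b.X0 : ℝ) ^ 2 - (b.U1 : ℝ) ^ 2) / 2) ^ 2 := by
    unfold dirV dvS
    push_cast
    split_ifs <;> push_cast <;> rfl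
  rw [e]
  have hif0 : 0 ≤ (if κ * U = 0 then (1 : ℝ) else min 1 (1 / (κ * U))) := by
    split_ifs
    · norm_num
    · exact le_min (by norm_num) (by positivity)
  have hN : 0 ≤ 1 / (κ * C) ^ 2 + 1 / (κ * X) * (if κ * U = 0 then (1 : ℝ) else min 1 (1 / (κ * U))) := by
    positivity
  refine Bet.dir_bound hU' hU1 hok' hX hN h1 ?_
  apply add_le_add
  · rw [div_le_div_iff₀ (by positivity) (by positivity)]
    linarith
  · have hkX : (k : ℝ) * (b.X0 : ℝ) ≤ κ * X := mul_le_mul hκ hX hx0'.le hκ0.le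
    apply mul_le_mul _ _ hif0 (by positivity)
    · exact one_div_le_one_div_of_le (by positivity) hkX
    · by_cases hz : b.U0 = 0
      · rw [if_pos hz]
        split_ifs
        · exact le_refl _
        · exact min_le_left _ _
      · rw [if_neg hz]
        have hu0p : (0 : ℝ) < (b.U0 : ℝ) := by
          rcases hu00.eq_or_lt with h0 | h0
          · exact absurd (by exact_mod_cast h0.symm) hz
          · exact h0
        have hUp : 0 < U := hu0p.trans_le hU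
        rw [if_neg (by positivity)]
        apply min_le_min_left
        apply one_div_le_one_div_of_le (by positivity)
        exact mul_le_mul hκ hU hu00 hκ0.le

/-- the simple bound, valid for all frequencies `≥ k` -/
theorem bbS_sound {b : Bx} {X U Q C : ℝ} {c0 c1 : ℚ} (h : Reg b X U Q C c0 c1) {k : ℕ} {κ : ℝ}
    (hk : 1 ≤ k) (hκ : (k : ℝ) ≤ κ) (hok : bbOK k b = true) :
    |BB X U C κ| ≤ ((bbS k b : ℚ) : ℝ) * dd X U := by
  unfold bbS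
  have hd : 0 ≤ dd X U := by unfold dd; positivity
  split_ifs with h1 h2
  · have a1 := Bet.idS h hk hκ h1
    have a2 := Bet.dirS h hk hκ h2
    rw [Rat.cast_min, min_mul_of_nonneg _ _ hd]
    exact le_min a1 a2
  · exact Bet.idS h hk hκ h1
  · unfold bbOK at hok
    rw [Bool.or_eq_true] at hok
    rcases hok with h3 | h3
    · exact absurd h3 h1
    · exact Bet.dirS h hk hκ h3

theorem Bet.X1_le {b : Bx} {X U Q C : ℝ} {c0 c1 : ℚ} (h : Reg b X U Q C c0 c1) :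
    b.X1 ≤ 112 / 100 := by
  have h1 := h.x1
  by_contra hc
  push Not at hc
  nlinarith

theorem Bet.U1_nonneg {b : Bx} {X U Q C : ℝ} {c0 c1 : ℚ} (h : Reg b X U Q C c0 c1) :
    0 ≤ b.U1 := by
  have h0 : (0 : ℝ) ≤ (b.U0 : ℝ) := by exact_mod_cast h.u0
  have : (0 : ℝ) ≤ (b.U1 : ℝ) := h0.trans (h.hu0.trans h.hu1)
  exact_mod_cast this

theorem Bet.X1_nonneg {b : Bx} {X U Q C : ℝ} {c0 c1 : ℚ} (h : Reg b X U Q C c0 c1) :
    0 ≤ b.X1 := by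
  have h0 : (0 : ℝ) ≤ (b.X0 : ℝ) := by exact_mod_cast h.x0
  have : (0 : ℝ) ≤ (b.X1 : ℝ) := h0.trans (h.hx0.trans h.hx1)
  exact_mod_cast this

theorem Bet.U1_le {b : Bx} {X U Q C : ℝ} {c0 c1 : ℚ} (h : Reg b X U Q C c0 c1) :
    b.U1 ≤ 3 / 2 := by
  have h1 := h.xu
  have h2 := Bet.U1_nonneg h
  unfold PL at h1
  by_contra hc
  push Not at hc
  nlinarith [sq_nonneg b.X1]

theorem Bet.XU_le {b : Bx} {X U Q C : ℝ} {c0 c1 : ℚ} (h : Reg b X U Q C c0 c1) :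
    b.X1 + b.U1 ≤ 21 / 10 := by
  have h1 := h.xu
  unfold PL at h1
  by_contra hc
  push Not at hc
  nlinarith [sq_nonneg (b.X1 - b.U1)]

/-- the precise identity bound -/
theorem Bet.idE {b : Bx} {X U Q C : ℝ} {c0 c1 : ℚ} (h : Reg b X U Q C c0 c1) {k : ℕ}
    (hk : 1 ≤ k) (hk25 : k ≤ 25) (hok : idOK k b = true) :
    |BB X U C k| ≤ ((idV (brE k c0 c1 b) b : ℚ) : ℝ) * dd X U := by
  unfold idOK at hok
  rw [Bool.and_eq_true, Bool.and_eq_true, decide_eq_true_iff, decide_eq_true_iff,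
    decide_eq_true_iff] at hok
  obtain ⟨⟨hu0, hx0⟩, h6⟩ := hok
  have hu0' : (0 : ℝ) < (b.U0 : ℝ) := by exact_mod_cast hu0
  have hx0' : (0 : ℝ) < (b.X0 : ℝ) := by exact_mod_cast hx0
  have h6' : (6 : ℝ) ≤ (k : ℝ) ^ 2 * ((b.X0 : ℝ) ^ 2 + (b.U0 : ℝ) ^ 2) := by exact_mod_cast h6
  have hk' : (1 : ℝ) ≤ (k : ℝ) := by exact_mod_cast hk
  have hk25' : (k : ℝ) ≤ 25 := by exact_mod_cast hk25
  have hkQ : (1 : ℚ) ≤ (k : ℚ) := by exact_mod_cast hk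
  have hk25Q : (k : ℚ) ≤ 25 := by exact_mod_cast hk25
  have hk0 : (0 : ℝ) < k := by linarith
  have hX := h.hx0
  have hU := h.hu0
  have hX' : 0 < X := hx0'.trans_le hX
  have hU' : 0 < U := hu0'.trans_le hU
  have hC := h.hC
  have h3 := Bet.sq_ge hk0.le le_rfl hx0'.le hu0'.le hX hU h.hCC
  set s0 : ℚ := k * (c0 + (b.X0 + b.U0) / 2) with hs0
  set s1 : ℚ := k * (c1 + (b.X1 + b.U1) / 2) with hs1
  have hc00 : (0 : ℝ) ≤ (c0 : ℝ) := by exact_mod_cast h.c0n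
  have hs0p : 0 < s0 := by
    rw [hs0]
    have := h.c0n
    have : 0 < c0 + (b.X0 + b.U0) / 2 := by linarith
    exact mul_pos (by linarith) this
  have hs0r : (0 : ℝ) < (s0 : ℝ) := by exact_mod_cast hs0p
  have hs1le : s1 ≤ 60 := by
    rw [hs1]
    have h7 := Bet.XU_le h
    have h8 := h.c1u
    have h9 : c1 + (b.X1 + b.U1) / 2 ≤ 24 / 10 := by linarith
    have h10 : 0 ≤ c1 + (b.X1 + b.U1) / 2 := by
      have : (0 : ℝ) ≤ (c1 : ℝ) := hC.le.trans h.hc1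
      have : 0 ≤ c1 := by exact_mod_cast this
      have := Bet.U1_nonneg h
      have := Bet.X1_nonneg h
      linarith
    nlinarith
  set σ : ℝ := (2 * (k * C) + k * X + k * U) / 2 with hσ
  have hσ0 : (s0 : ℝ) ≤ σ := by
    rw [hs0, hσ]
    push_cast
    have e : (2 * ((k : ℝ) * C) + k * X + k * U) / 2 = k * (C + (X + U) / 2) := by ring
    rw [e]
    exact mul_le_mul_of_nonneg_left (by linarith [h.hc0]) hk0.le
  have hσ1 : σ ≤ (s1 : ℝ) := by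
    rw [hs1, hσ]
    push_cast
    have e : (2 * ((k : ℝ) * C) + k * X + k * U) / 2 = k * (C + (X + U) / 2) := by ring
    rw [e]
    exact mul_le_mul_of_nonneg_left (by linarith [h.hc1, h.hx1, h.hu1]) hk0.le
  have hσp : 0 < σ := hs0r.trans_le hσ0
  have hsup := supP_sound hs0p.le hs1le hσ0 hσ1
  have hsup0 : (0 : ℝ) ≤ ((supP s0 s1 : ℚ) : ℝ) := by exact_mod_cast supP_nonneg s0 s1
  have hA : sinc σ ≤ ((supP s0 s1 : ℚ) : ℝ) / (s0 : ℝ) := by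
    rw [sinc_of_ne_zero hσp.ne']
    exact div_le_div₀ hsup0 hsup hs0r hσ0
  have hc1p : (0 : ℝ) < (c1 : ℝ) := hC.trans_le h.hc1
  have hc1le : (k : ℚ) * c1 ≤ 60 := by
    have h8 := h.c1u
    have : 0 < c1 := by exact_mod_cast hc1p
    nlinarith
  have hkc0 : (((k : ℚ) * c0 : ℚ) : ℝ) ≤ k * C := by
    push_cast
    exact mul_le_mul_of_nonneg_left h.hc0 hk0.le
  have hkc1 : (k : ℝ) * C ≤ (((k : ℚ) * c1 : ℚ) : ℝ) := by
    push_cast
    exact mul_le_mul_of_nonneg_left h.hc1 hk0.le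
  have hinf := infA_sound (mul_nonneg (by linarith : (0 : ℚ) ≤ k) h.c0n) hc1le hkc0 hkc1
  have hinf0 : (0 : ℝ) ≤ ((infA (k * c0) (k * c1) : ℚ) : ℝ) := by
    exact_mod_cast infA_nonneg (k * c0) (k * c1)
  have hkC : 0 < (k : ℝ) * C := mul_pos hk0 hC
  have hκ : (((infA (k * c0) (k * c1) : ℚ) : ℝ) / ((k : ℝ) * (c1 : ℝ))) ^ 2 ≤
      sinc (k * C) ^ 2 := by
    rw [← sq_abs (sinc (k * C)), sinc_of_ne_zero hkC.ne', abs_div, abs_of_pos hkC]
    apply pow_le_pow_left₀ (by positivity)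
    apply div_le_div₀ (abs_nonneg _) hinf hkC
    push_cast at hkc1
    exact hkc1
  have hB : 1 / σ ≤ 1 / (s0 : ℝ) := one_div_le_one_div_of_le hs0r hσ0
  have h1 := abs_sub_le_idP (P := k * X) (Q := k * U) (C := k * C) (by positivity)
    (mul_le_mul_of_nonneg_left h.hUX.le hk0.le) (mul_nonneg hk0.le h.hC.le) (Bet.hCC' (k : ℝ) h.hCC)
    (by linarith) hA (by positivity) hκ hB
  refine h1.trans ?_
  have e : ((idV (brE k c0 c1 b) b : ℚ) : ℝ) =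
      (max (1 / (1 + (k : ℝ) ^ 2 * (max 0 ((b.X0 : ℝ) - (b.U1 : ℝ))) ^ 2 / 12) +
          ((supP s0 s1 : ℚ) : ℝ) / (s0 : ℝ) -
          2 * (((infA (k * c0) (k * c1) : ℚ) : ℝ) / ((k : ℝ) * (c1 : ℝ))) ^ 2)
        (1 / (s0 : ℝ) + 4 / ((k : ℝ) ^ 2 * ((b.X0 : ℝ) ^ 2 + (b.U0 : ℝ) ^ 2)))) /
      ((b.X0 : ℝ) * (b.U0 : ℝ) * ((b.X0 : ℝ) + (b.U0 : ℝ)) ^ 2) := by
    unfold idV brE
    simp only [← hs0, ← hs1]
    push_cast
    rfl
  rw [e]
  apply Bet.id_bound hx0' hu0' hX hU hk0 (le_max_of_le_right (by positivity))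
  apply max_le_max
  · have := Bet.one_div_sq_le (k := (k : ℝ)) hk0.le le_rfl h.hUX hX h.hu1
    linarith
  · apply add_le_add le_rfl
    rw [div_le_div_iff₀ (by positivity) (by positivity)]
    linarith

/-- the precise direct bound -/
theorem Bet.dirE {b : Bx} {X U Q C : ℝ} {c0 c1 : ℚ} (h : Reg b X U Q C c0 c1) {k : ℕ}
    (hk : 1 ≤ k) (hk25 : k ≤ 25) (hok : dirOK b = true) (hc0p : 0 < c0) :
    |BB X U C k| ≤ ((dirV (dvE k c0 c1 b) b : ℚ) : ℝ) * dd X U := by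
  unfold dirOK at hok
  rw [decide_eq_true_iff] at hok
  have hok' : (b.U1 : ℝ) < (b.X0 : ℝ) := by exact_mod_cast hok
  have hu00 : (0 : ℝ) ≤ (b.U0 : ℝ) := by exact_mod_cast h.u0
  have hk' : (1 : ℝ) ≤ (k : ℝ) := by exact_mod_cast hk
  have hkQ : (1 : ℚ) ≤ (k : ℚ) := by exact_mod_cast hk
  have hk25Q : (k : ℚ) ≤ 25 := by exact_mod_cast hk25
  have hk0 : (0 : ℝ) < k := by linarith
  have hX := h.hx0
  have hU := h.hu0
  have hU1 := h.hu1
  have hU' : 0 ≤ U := hu00.trans hU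
  have hx0' : (0 : ℝ) < (b.X0 : ℝ) := by linarith
  have hX' : 0 < X := hx0'.trans_le hX
  have hC := h.hC
  have hc0r : (0 : ℝ) < (c0 : ℝ) := by exact_mod_cast hc0p
  -- the three sines
  have hc1p : (0 : ℝ) < (c1 : ℝ) := hC.trans_le h.hc1
  have hc1le : (k : ℚ) * c1 ≤ 60 := by
    have h8 := h.c1u
    have : 0 < c1 := by exact_mod_cast hc1p
    nlinarith
  have hX1le : (k : ℚ) * b.X1 ≤ 60 := by
    have h8 := Bet.X1_le h
    have := Bet.X1_nonneg h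
    nlinarith
  have hU1le : (k : ℚ) * b.U1 ≤ 60 := by
    have h8 := Bet.U1_le h
    have := Bet.U1_nonneg h
    nlinarith
  have hkn : (0 : ℚ) ≤ k := by linarith
  have a1 := supA_sound (a := k * c0) (b := k * c1) (y := k * C) (mul_nonneg hkn h.c0n) hc1le
    (by push_cast; exact mul_le_mul_of_nonneg_left h.hc0 hk0.le)
    (by push_cast; exact mul_le_mul_of_nonneg_left h.hc1 hk0.le)
  have a2 := supA_sound (a := k * b.X0) (b := k * b.X1) (y := k * X) (mul_nonneg hkn h.x0) hX1le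
    (by push_cast; exact mul_le_mul_of_nonneg_left hX hk0.le)
    (by push_cast; exact mul_le_mul_of_nonneg_left h.hx1 hk0.le)
  have a3 := supA_sound (a := k * b.U0) (b := k * b.U1) (y := k * U) (mul_nonneg hkn h.u0) hU1le
    (by push_cast; exact mul_le_mul_of_nonneg_left hU hk0.le)
    (by push_cast; exact mul_le_mul_of_nonneg_left hU1 hk0.le)
  have n1 : (0 : ℝ) ≤ ((supA (k * c0) (k * c1) : ℚ) : ℝ) := by exact_mod_cast supA_nonneg _ _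
  have n2 : (0 : ℝ) ≤ ((supA (k * b.X0) (k * b.X1) : ℚ) : ℝ) := by exact_mod_cast supA_nonneg _ _
  have n3 : (0 : ℝ) ≤ ((supA (k * b.U0) (k * b.U1) : ℚ) : ℝ) := by exact_mod_cast supA_nonneg _ _
  have e : ((dirV (dvE k c0 c1 b) b : ℚ) : ℝ) =
      ((((supA (k * c0) (k * c1) : ℚ) : ℝ) / ((k : ℝ) * (c0 : ℝ))) ^ 2 +
        ((supA (k * b.X0) (k * b.X1) : ℚ) : ℝ) / ((k : ℝ) * (b.X0 : ℝ)) *
          (if b.U0 = 0 then 1 else
            min 1 (((supA (k * b.U0) (k * b.U1) : ℚ) : ℝ) / ((k : ℝ) * (b.U0 : ℝ))))) /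
      (((b.X0 : ℝ) ^ 2 - (b.U1 : ℝ) ^ 2) / 2) ^ 2 := by
    unfold dirV dvE
    push_cast
    split_ifs <;> push_cast <;> rfl
  rw [e]
  have hkC : 0 < (k : ℝ) * C := mul_pos hk0 hC
  have hkX : 0 < (k : ℝ) * X := mul_pos hk0 hX'
  have b1 : |sinc (k * C) ^ 2| ≤ (((supA (k * c0) (k * c1) : ℚ) : ℝ) / ((k : ℝ) * (c0 : ℝ))) ^ 2 := by
    rw [abs_pow, sinc_of_ne_zero hkC.ne', abs_div, abs_of_pos hkC]
    apply pow_le_pow_left₀ (by positivity)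
    exact div_le_div₀ n1 a1 (by positivity) (mul_le_mul_of_nonneg_left h.hc0 hk0.le)
  have b2 : |sinc (k * X)| ≤ ((supA (k * b.X0) (k * b.X1) : ℚ) : ℝ) / ((k : ℝ) * (b.X0 : ℝ)) := by
    rw [sinc_of_ne_zero hkX.ne', abs_div, abs_of_pos hkX]
    exact div_le_div₀ n2 a2 (by positivity) (mul_le_mul_of_nonneg_left hX hk0.le)
  have b3 : |sinc (k * U)| ≤ (if b.U0 = 0 then 1 else
      min 1 (((supA (k * b.U0) (k * b.U1) : ℚ) : ℝ) / ((k : ℝ) * (b.U0 : ℝ)))) := by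
    split_ifs with hz
    · exact abs_sinc_le_one' _
    · have hu0p : (0 : ℝ) < (b.U0 : ℝ) := by
        rcases hu00.eq_or_lt with h0 | h0
        · exact absurd (by exact_mod_cast h0.symm) hz
        · exact h0
      have hkU : 0 < (k : ℝ) * U := mul_pos hk0 (hu0p.trans_le hU)
      apply le_min (abs_sinc_le_one' _)
      rw [sinc_of_ne_zero hkU.ne', abs_div, abs_of_pos hkU]
      exact div_le_div₀ n3 a3 (by positivity) (mul_le_mul_of_nonneg_left hU hk0.le)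
  have b4 : |sinc (k * X) * sinc (k * U)| ≤
      ((supA (k * b.X0) (k * b.X1) : ℚ) : ℝ) / ((k : ℝ) * (b.X0 : ℝ)) *
        (if b.U0 = 0 then 1 else
          min 1 (((supA (k * b.U0) (k * b.U1) : ℚ) : ℝ) / ((k : ℝ) * (b.U0 : ℝ)))) := by
    rw [abs_mul]
    exact mul_le_mul b2 b3 (abs_nonneg _) (by positivity)
  have h1 : |BB X U C k| ≤ (((supA (k * c0) (k * c1) : ℚ) : ℝ) / ((k : ℝ) * (c0 : ℝ))) ^ 2 +
        ((supA (k * b.X0) (k * b.X1) : ℚ) : ℝ) / ((k : ℝ) * (b.X0 : ℝ)) *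
          (if b.U0 = 0 then 1 else
            min 1 (((supA (k * b.U0) (k * b.U1) : ℚ) : ℝ) / ((k : ℝ) * (b.U0 : ℝ)))) := by
    unfold BB
    exact (abs_sub _ _).trans (add_le_add b1 b4)
  exact Bet.dir_bound hU' hU1 hok' hX ((abs_nonneg _).trans h1) h1 le_rfl

theorem Bet.cast_upp (x : ℚ) : (x : ℝ) ≤ ((upp x : ℚ) : ℝ) := Rat.cast_le.mpr (le_upp x)

theorem betQ_sound {b : Bx} {X U Q C : ℝ} {c0 c1 : ℚ} (h : Reg b X U Q C c0 c1) {kb k : ℕ}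
    (hk : 1 ≤ k) (hk25 : k ≤ 25) :
    |BB X U C k| ≤ ((betQ kb k c0 c1 b : ℚ) : ℝ) * dd X U := by
  have hd : 0 ≤ dd X U := by unfold dd; positivity
  have hu00 : (0 : ℝ) ≤ (b.U0 : ℝ) := by exact_mod_cast h.u0
  have h1 : |BB X U C k| ≤ (((k : ℚ) ^ 4 / 90 : ℚ) : ℝ) * dd X U := by
    push_cast
    exact BB_univ (hu00.trans h.hu0) h.hUX h.hC h.hCC (Nat.cast_nonneg k)
  have h2 : |BB X U C k| ≤
      (((if bbOK k b then min ((k : ℚ) ^ 4 / 90) (upp (bbS k b)) else (k : ℚ) ^ 4 / 90) : ℚ) : ℝ) *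
        dd X U := by
    split_ifs with h3
    · rw [Rat.cast_min, min_mul_of_nonneg _ _ hd]
      refine le_min h1 ?_
      exact (bbS_sound h hk le_rfl h3).trans (mul_le_mul_of_nonneg_right (Bet.cast_upp _) hd)
    · exact h1
  unfold betQ
  dsimp only
  generalize (if bbOK k b then min ((k : ℚ) ^ 4 / 90) (upp (bbS k b)) else (k : ℚ) ^ 4 / 90) = s
    at h2 ⊢
  split_ifs with h3 h4 h5
  all_goals first | exact h2 | skip
  · rw [Rat.cast_min, min_mul_of_nonneg _ _ hd]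
    refine le_min h2 ?_
    rw [Bool.and_eq_true] at h4
    exact (Bet.idE h hk hk25 h4.2).trans (mul_le_mul_of_nonneg_right (Bet.cast_upp _) hd)
  · rw [Rat.cast_min, min_mul_of_nonneg _ _ hd]
    refine le_min h2 ?_
    rw [Bool.and_eq_true, decide_eq_true_iff] at h5
    exact (Bet.dirE h hk hk25 h5.1 h5.2).trans (mul_le_mul_of_nonneg_right (Bet.cast_upp _) hd)

theorem betQ_nonneg {b : Bx} {X U Q C : ℝ} {c0 c1 : ℚ} (h : Reg b X U Q C c0 c1) {kb k : ℕ}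
    (hk : 1 ≤ k) (hk25 : k ≤ 25) : 0 ≤ betQ kb k c0 c1 b := by
  have hu00 : (0 : ℝ) ≤ (b.U0 : ℝ) := by exact_mod_cast h.u0
  have hU : 0 ≤ U := hu00.trans h.hu0
  have hd : 0 < dd X U := by
    have h1 := h.hUX
    have : 0 < (X ^ 2 - U ^ 2) / 2 := by nlinarith
    unfold dd
    positivity
  have h2 := (abs_nonneg _).trans (betQ_sound (kb := kb) h hk hk25)
  have h3 : (0 : ℝ) ≤ ((betQ kb k c0 c1 b : ℚ) : ℝ) := by
    by_contra hc
    push Not at hc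
    nlinarith
  exact_mod_cast h3

end Pool.Agent.Helper95.SP.Crude
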