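import Pool.Agent.Helper95.SP.Crude.Tab2

/-!
The box test for the pair facts: `m` copies of `X`, the pair `(X, U)`, `n` copies of `Q`, and a rest
with entries `≤ rb` (all angles).
-/

set_option autoImplicit false

namespace Pool.Agent.Helper95.SP.Crude

/-- a box -/
structure Bx where
  X0 : ℚ
  X1 : ℚ
  U0 : ℚ
  U1 : ℚ
  Q0 : ℚ
  Q1 : ℚ

/-- 100 times lower bounds of `log (27 sin r)` at `r = max (35/100) (gr2 j)`, used as candidates -/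
def lTab2 : List ℕ := [222, 222, 222, 222, 222, 222, 225, 227, 230, 232, 235, 237, 239, 242, 244, 246, 248, 250, 252, 254, 256, 257, 259, 261, 263, 264, 266, 267, 269, 270, 272, 273, 275, 276, 277, 279, 280, 281, 283, 284, 285, 286, 287, 289, 290, 291]

def ll2 (j : ℕ) : ℚ := (lTab2.getD (if j ≤ 30 then j else 30 + (j - 30) / 10) 0 : ℕ) / 100

def lamQ (rho : ℚ) : ℚ := 4 / 3 + 4 / 9 * rho + 2569 / 10000 * rho ^ 2 + 3 / 10 * rho ^ 3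

/-- lower bound for `sinc (3 X) / sinc X` -/
def p3 (X : ℚ) : ℚ := max 0 (1 - 4 / 3 * aSin X ^ 2)

/-- the value at one corner; `w` is reduced by the mass of the extra coordinates -/
def eCor (m : ℕ) (w lam X u0 : ℚ) : ℚ :=
  eLoF (up (max 0 (lam * (w - m * X ^ 2 - u0) + 104554 / 100000 * ((X ^ 2 + u0) / 2) +
    822 / 10000 * ((X ^ 2 + u0) / 2) ^ 2))) * (if m = 1 then 1 else p3 X ^ (m - 1))

/-- the factor of the extra coordinates -/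
def qCor (n : ℕ) (lam Q0 Q1 : ℚ) : ℚ :=
  if n = 0 then 1 else (min (p3 Q0) (p3 Q1 * (1 + lam * (Q1 ^ 2 - Q0 ^ 2)))) ^ n

def brQ (v1 u0 u1 s0 s1 : ℚ) : ℚ :=
  if 9 * v1 ≤ PL then 1 + (PL - 9 * v1) * (PL - 9 * u1) / (4 * PH - 9 * s0) ^ 2
  else max 0 (1 - 4 / 3 * ((9 * v1 - PL) * (PH - 9 * u0)) / (4 * PL - 9 * s1) ^ 2)

def deQ (s0 : ℚ) : ℚ := 1 + 85 / 100000 * (1 + 55 / 1000 * s0) * (PH - s0) ^ 2

/-- lower bound for the third term over the first -/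
def gQ (m n : ℕ) (w lam : ℚ) (b : Bx) : ℚ :=
  27 * (min (eCor m (w - n * b.Q0 ^ 2) lam b.X0 (b.U0 ^ 2)) (eCor m (w - n * b.Q0 ^ 2) lam b.X1 (b.U0 ^ 2)) *
    qCor n lam b.Q0 b.Q1) *
    brQ (b.X1 ^ 2) (b.U0 ^ 2) (b.U1 ^ 2) ((b.X0 ^ 2 + b.U0 ^ 2) / 2) ((b.X1 ^ 2 + b.U1 ^ 2) / 2) /
    deQ ((b.X0 ^ 2 + b.U0 ^ 2) / 2)

def b1Q (s0 s1 : ℚ) : ℚ :=
  (1 - s1 / 6 + s1 ^ 2 / 120 - s1 ^ 3 / 5040) ^ 2 * (1 / (PH - s0) ^ 2 + 844 / 10 ^ 6) * (997 / 1000)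

/-- square root, rounded down -/
def sqL (x : ℚ) : ℚ := (Nat.sqrt (⌊x * 10 ^ 12⌋.toNat) : ℚ) / 10 ^ 6
/-- square root, rounded up -/
def sqU (x : ℚ) : ℚ := (Nat.sqrt (⌈x * 10 ^ 12⌉.toNat) + 1 : ℚ) / 10 ^ 6

/-- upper bound for `|sin y|` on `[a, b]` -/
def supA (a b : ℚ) : ℚ := if b - a ≤ 1 then min 1 (max (aSin a) (aSin b) * (1 + (b - a) ^ 2 / 6)) else 1
/-- upper bound for `max 0 (sin y)` on `[a, b]` -/
def supP (a b : ℚ) : ℚ :=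
  if b - a ≤ 1 then min 1 (max 0 (max (sinU a) (sinU b)) * (1 + (b - a) ^ 2 / 6)) else 1
/-- lower bound for `|sin y|` on `[a, b]` -/
def infA (a b : ℚ) : ℚ :=
  if b - a ≤ 1 then max 0 (max (min (sinL a) (sinL b)) (min (-sinU a) (-sinU b))) else 0

/-- the bracket of the difference identity, simple bound -/
def brS (k : ℕ) (b : Bx) : ℚ :=
  1 / (1 + k ^ 2 * (max 0 (b.X0 - b.U1)) ^ 2 / 12) + 1 / (k * (b.X0 + b.U0))

/-- the bracket of the difference identity, precise bound; `c0, c1` enclose `C` -/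
def brE (k : ℕ) (c0 c1 : ℚ) (b : Bx) : ℚ :=
  let s0 := k * (c0 + (b.X0 + b.U0) / 2)
  let s1 := k * (c1 + (b.X1 + b.U1) / 2)
  max (1 / (1 + k ^ 2 * (max 0 (b.X0 - b.U1)) ^ 2 / 12) + supP s0 s1 / s0 -
      2 * (infA (k * c0) (k * c1) / (k * c1)) ^ 2)
    (1 / s0 + 4 / (k ^ 2 * (b.X0 ^ 2 + b.U0 ^ 2)))

def idOK (k : ℕ) (b : Bx) : Bool :=
  decide (0 < b.U0) && decide (0 < b.X0) && decide (6 ≤ (k : ℚ) ^ 2 * (b.X0 ^ 2 + b.U0 ^ 2))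
def dirOK (b : Bx) : Bool := decide (b.U1 < b.X0)

/-- the direct bound, simple -/
def dvS (k : ℕ) (b : Bx) : ℚ :=
  2 / (k ^ 2 * (b.X0 ^ 2 + b.U0 ^ 2)) +
    1 / (k * b.X0) * (if b.U0 = 0 then 1 else min 1 (1 / (k * b.U0)))

/-- the direct bound, precise -/
def dvE (k : ℕ) (c0 c1 : ℚ) (b : Bx) : ℚ :=
  (supA (k * c0) (k * c1) / (k * c0)) ^ 2 + supA (k * b.X0) (k * b.X1) / (k * b.X0) *
    (if b.U0 = 0 then 1 else min 1 (supA (k * b.U0) (k * b.U1) / (k * b.U0)))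

def idV (br : ℚ) (b : Bx) : ℚ := br / (b.X0 * b.U0 * (b.X0 + b.U0) ^ 2)
def dirV (dv : ℚ) (b : Bx) : ℚ := dv / ((b.X0 ^ 2 - b.U1 ^ 2) / 2) ^ 2

/-- simple bound for `|B_k| / δ²`, valid for all larger frequencies too -/
def bbS (k : ℕ) (b : Bx) : ℚ :=
  if idOK k b then (if dirOK b then min (idV (brS k b) b) (dirV (dvS k b) b) else idV (brS k b) b)
  else dirV (dvS k b) b

def bbOK (k : ℕ) (b : Bx) : Bool := idOK k b || dirOK b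

/-- bound for `|B_k| / δ²`; `kb` is the largest frequency with precise bounds -/
def betQ (kb k : ℕ) (c0 c1 : ℚ) (b : Bx) : ℚ :=
  let s := if bbOK k b then min ((k : ℚ) ^ 4 / 90) (upp (bbS k b)) else (k : ℚ) ^ 4 / 90
  if k ≤ kb then
    (if decide (3 * b.X0 ≤ 5 * b.U0) && idOK k b then min s (upp (idV (brE k c0 c1 b) b))
    else if dirOK b && decide (0 < c0) then min s (upp (dirV (dvE k c0 c1 b) b)) else s)
  else s

/-- bound for `|sin (k X)| / (k sin X)` on `[X0, X1]` -/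
def qQ (k : ℕ) (X0 X1 : ℚ) : ℚ :=
  if 1 / 100 ≤ X0 then upp (min 1 (supA (k * X0) (k * X1) / (k * sinL X0))) else 1

/-- bound for `|sinc (k X)|` on `[X0, X1]` -/
def qE (k : ℕ) (X0 X1 : ℚ) : ℚ :=
  if 1 / 100 ≤ X0 then upp (min 1 (supA (k * X0) (k * X1) / (k * X0))) else 1

def cop (f : ℕ → ℚ → ℚ → ℚ) (k m n : ℕ) (b : Bx) : ℚ :=
  (if m = 1 then 1 else f k b.X0 b.X1 ^ (m - 1)) * (if n = 0 then 1 else f k b.Q0 b.Q1 ^ n)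

/-- lower bound for the exponent of the rest at the harmonic `k` -/
def exQ (k j : ℕ) (M : ℚ) : ℚ :=
  let F := ff2 k j
  let c := ((k : ℚ) ^ 2 - 1) / 6
  let rho := gr2 j ^ 2
  let n := ⌊M / rho⌋.toNat
  max (cc2 k j * M) (if F ≤ c * rho then min (n * F + c * (M - n * rho)) ((n + 1) * F) else 0)

/-- one odd harmonic -/
def sQ (kb k m n j : ℕ) (c0 c1 : ℚ) (b : Bx) (Mlo : ℚ) : ℚ :=
  betQ kb k c0 c1 b / k * cop qQ k m n b * eUpF (dn (exQ k j Mlo))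

/-- the factor of a copy for `k ≥ 27` -/
def cfO (X0 : ℚ) : ℚ := if 1 < 27 * sinL X0 then 1 / (27 * sinL X0) else 1

/-- the exponent for `k ≥ 27` -/
def aO (m n j : ℕ) (b : Bx) (Mlo : ℚ) : ℚ :=
  Mlo / (max (gr2 j) (35 / 100)) ^ 2 + (if 1 < 27 * sinL b.X0 then ((m - 1 : ℕ) : ℚ) else 0) +
    (if 1 < 27 * sinL b.Q0 then (n : ℚ) else 0)

/-- the common factor for `k ≥ 27` -/
def comO (m n j : ℕ) (b : Bx) (Mlo : ℚ) : ℚ :=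
  cfO b.X0 ^ (m - 1) * cfO b.Q0 ^ n * eUpF (dn (ll2 j * (Mlo / (max (gr2 j) (35 / 100)) ^ 2)))

def stOK (m n j : ℕ) (b : Bx) (Mlo : ℚ) : Bool :=
  decide (1 ≤ eLoF (ll2 j) * (27 * sinL (max (gr2 j) (35 / 100)))) &&
    ((bbOK 27 b && decide (0 < aO m n j b Mlo)) || decide (4 < aO m n j b Mlo))

/-- the odd harmonics `k ≥ 27` -/
def stQ (m n j : ℕ) (b : Bx) (Mlo : ℚ) : ℚ :=
  let a := aO m n j b Mlo
  let com := comO m n j b Mlo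
  let t1 := upp (bbS 27 b) * com * (1 / 27 + 1 / (2 * a))
  let t2 := 27 ^ 4 / 90 * com * (1 / 27 + 1 / (2 * (a - 4)))
  if bbOK 27 b && decide (0 < a) then (if 4 < a then min t1 t2 else t1) else t2

/-- lower bound of `sinc (2 X)` on `X ≤ X1` -/
def sc2 (X1 : ℚ) : ℚ :=
  if X1 ≤ 1 then max 0 (1 - (2 * X1) ^ 2 / 6 + (2 * X1) ^ 4 / 120 - (2 * X1) ^ 6 / 5040) else 0

/-- the second harmonic over four -/
def g2Q (m n : ℕ) (b : Bx) (Mhi : ℚ) : ℚ :=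
  4 / PH ^ 2 * (1 - 2614 / 10000 * ((b.X1 ^ 2 + b.U1 ^ 2) / 2)) ^ 2 * eLoF (up (727 / 1000 * Mhi)) *
    (if m = 1 then 1 else sc2 b.X1 ^ (m - 1)) * (if n = 0 then 1 else sc2 b.Q1 ^ n)

def s4Q (kb m n : ℕ) (c0 c1 : ℚ) (b : Bx) (Mlo : ℚ) : ℚ :=
  betQ kb 4 c0 c1 b / 16 * cop qE 4 m n b * eUpF (dn (8 / 3 * Mlo))

def s6Q (kb m n j : ℕ) (c0 c1 : ℚ) (b : Bx) (Mlo : ℚ) : ℚ :=
  betQ kb 6 c0 c1 b / 36 * cop qE 6 m n b * eUpF (dn (min 6 (3 / 2 / gr2 j ^ 2) * Mlo))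

/-- the factor of a copy for even `k ≥ 8` -/
def cfE (X0 : ℚ) : ℚ := if 1 < 8 * X0 then 1 / (8 * X0) else 1

def aE (m n j : ℕ) (b : Bx) (Mlo : ℚ) : ℚ :=
  Mlo / (max (gr2 j) (57 / 100)) ^ 2 + (if 1 < 8 * b.X0 then ((m - 1 : ℕ) : ℚ) else 0) +
    (if 1 < 8 * b.Q0 then (n : ℚ) else 0)

def comE (m n j : ℕ) (b : Bx) (Mlo : ℚ) : ℚ :=
  cfE b.X0 ^ (m - 1) * cfE b.Q0 ^ n * eUpF (dn (3 / 2 * (Mlo / (max (gr2 j) (57 / 100)) ^ 2)))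

def seOK (m n j : ℕ) (b : Bx) (Mlo : ℚ) : Bool := bbOK 8 b || decide (3 < aE m n j b Mlo)

/-- the even harmonics `k ≥ 8` -/
def seQ (m n j : ℕ) (b : Bx) (Mlo : ℚ) : ℚ :=
  let a := aE m n j b Mlo
  let com := comE m n j b Mlo
  let t1 := upp (bbS 8 b) * com * (1 / 64 + 1 / (16 * (1 + a)))
  let t2 := 8 ^ 4 / 90 * com * (1 / 64 + 1 / (16 * (a - 3)))
  if bbOK 8 b then (if 3 < a then min t1 t2 else t1) else t2

/-- grid index for the bound `r` of the rest (candidate, to be checked) -/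
def idx1 (r : ℚ) : ℕ :=
  if r ≤ 6 / 10 then ⌈(r - 3 / 10) * 100⌉.toNat else 30 + ⌈(r - 6 / 10) * 1000⌉.toNat

def idx (r Mhi : ℚ) : ℕ := min (idx1 r) (idx1 (sqU Mhi))

def drop5 (m n : ℕ) (rho : ℚ) (b : Bx) : Bool :=
  decide (m % 2 = 0) && decide (n = 0) && decide (6284 / 10000 ≤ b.X0) &&
    decide (b.U1 ≤ 6283 / 10000) && decide (rho ≤ (6283 / 10000) ^ 2)

/-- the odd test: all quantities; `j` is the grid index -/
def oddQ (kb m n j : ℕ) (w c0 c1 : ℚ) (b : Bx) (rho Mlo : ℚ) : ℚ :=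
  b1Q ((b.X0 ^ 2 + b.U0 ^ 2) / 2) ((b.X1 ^ 2 + b.U1 ^ 2) / 2) *
    ((1 - 1 / 10 ^ 5) * gQ m n w (lamQ rho) b - 1) -
    (if drop5 m n rho b then 0 else sQ kb 5 m n j c0 c1 b Mlo) -
    sQ kb 7 m n j c0 c1 b Mlo - sQ kb 9 m n j c0 c1 b Mlo - sQ kb 11 m n j c0 c1 b Mlo -
    sQ kb 13 m n j c0 c1 b Mlo - sQ kb 15 m n j c0 c1 b Mlo - sQ kb 17 m n j c0 c1 b Mlo -
    sQ kb 19 m n j c0 c1 b Mlo - sQ kb 21 m n j c0 c1 b Mlo - sQ kb 23 m n j c0 c1 b Mlo -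
    sQ kb 25 m n j c0 c1 b Mlo - stQ m n j b Mlo - 1 / 10 ^ 8

def evenQ (kb m n j : ℕ) (w c0 c1 : ℚ) (b : Bx) (Mhi Mlo : ℚ) : ℚ :=
  (1 - 1 / 10 ^ 5) * g2Q m n b Mhi - s4Q kb m n c0 c1 b Mlo -
    s6Q kb m n j c0 c1 b Mlo - seQ m n j b Mlo - 4 / 10 ^ 4 / w ^ 2

def okJ (rb Mhi : ℚ) (j : ℕ) : Bool :=
  decide (j < 181) && (decide (rb ≤ gr2 j) || decide (Mhi ≤ gr2 j ^ 2))

/-- the odd test -/
def chkO (m n : ℕ) (w rb : ℚ) (b : Bx) : Bool :=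
  let Mhi := w - m * b.X0 ^ 2 - b.U0 ^ 2 - n * b.Q0 ^ 2
  let Mlo := max 0 (w - m * b.X1 ^ 2 - b.U1 ^ 2 - n * b.Q1 ^ 2)
  let j := idx rb Mhi
  let rho := min (rb ^ 2) Mhi
  let c0 := sqL ((b.X0 ^ 2 + b.U0 ^ 2) / 2)
  let c1 := sqU ((b.X1 ^ 2 + b.U1 ^ 2) / 2)
  decide (b.X1 ^ 2 ≤ 125 / 100) && (decide (9 * b.X1 ^ 2 ≤ PL) || decide (m = 1)) &&
    decide (9 * (b.X1 ^ 2 + b.U1 ^ 2) < 2 * PL) && decide (9 * b.Q1 ^ 2 ≤ PL) &&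
    decide (rho ≤ 56 / 100) && okJ rb Mhi j && stOK m n j b Mlo &&
    (decide (0 ≤ oddQ 3 m n j w c0 c1 b rho Mlo) || decide (0 ≤ oddQ 11 m n j w c0 c1 b rho Mlo) ||
      decide (0 ≤ oddQ 25 m n j w c0 c1 b rho Mlo))

/-- the even test -/
def chkE (m n : ℕ) (w rb : ℚ) (b : Bx) : Bool :=
  let Mhi := w - m * b.X0 ^ 2 - b.U0 ^ 2 - n * b.Q0 ^ 2
  let Mlo := max 0 (w - m * b.X1 ^ 2 - b.U1 ^ 2 - n * b.Q1 ^ 2)
  let j := idx rb Mhi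
  let c0 := sqL ((b.X0 ^ 2 + b.U0 ^ 2) / 2)
  let c1 := sqU ((b.X1 ^ 2 + b.U1 ^ 2) / 2)
  decide (b.X1 ^ 2 ≤ 125 / 100) && decide (9 * (b.X1 ^ 2 + b.U1 ^ 2) < 2 * PL) &&
    decide (b.Q1 ≤ 1) && okJ rb Mhi j && seOK m n j b Mlo &&
    (decide (0 ≤ evenQ 3 m n j w c0 c1 b Mhi Mlo) || decide (0 ≤ evenQ 6 m n j w c0 c1 b Mhi Mlo))

def Bx.scale (mu : ℚ) (b : Bx) : Bx :=
  ⟨mu * b.X0, mu * b.X1, mu * b.U0, mu * b.U1, mu * b.Q0, mu * b.Q1⟩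

/-- the box test; `rb` is a bound for the rest, `mu` the scale of the even test -/
def chk (m n : ℕ) (w mu rb : ℚ) (b : Bx) : Bool :=
  decide (b.X1 ≤ b.U0) || decide (w - m * b.X0 ^ 2 - b.U0 ^ 2 - n * b.Q0 ^ 2 < 0) ||
    decide (rb < 0) ||
  (if mu = 1 then chkE m n w rb b else chkE m n (mu ^ 2 * w) (mu * rb) (b.scale mu)) &&
    chkO m n w rb b

/-- bisection trees -/
inductive Tr
  | l : Tr
  | x : Tr → Tr → Tr
  | u : Tr → Tr → Tr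
  | q : Tr → Tr → Tr

def Bx.xl (b : Bx) : Bx := { b with X1 := (b.X0 + b.X1) / 2 }
def Bx.xr (b : Bx) : Bx := { b with X0 := (b.X0 + b.X1) / 2 }
def Bx.ul (b : Bx) : Bx := { b with U1 := (b.U0 + b.U1) / 2 }
def Bx.ur (b : Bx) : Bx := { b with U0 := (b.U0 + b.U1) / 2 }
def Bx.ql (b : Bx) : Bx := { b with Q1 := (b.Q0 + b.Q1) / 2 }
def Bx.qr (b : Bx) : Bx := { b with Q0 := (b.Q0 + b.Q1) / 2 }

/-- the test along a bisection tree; `emp` recognises irrelevant boxes, `rbf` bounds the rest -/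
def cov (m n : ℕ) (w mu : ℚ) (emp : Bx → Bool) (rbf : Bx → ℚ) : Tr → Bx → Bool
  | .l, b => emp b || chk m n w mu (rbf b) b
  | .x s t, b => cov m n w mu emp rbf s b.xl && cov m n w mu emp rbf t b.xr
  | .u s t, b => cov m n w mu emp rbf s b.ul && cov m n w mu emp rbf t b.ur
  | .q s t, b => cov m n w mu emp rbf s b.ql && cov m n w mu emp rbf t b.qr

/-- find a bisection tree (for information): tree, number of leaves, number of failures -/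
def find (m n : ℕ) (w mu : ℚ) (emp : Bx → Bool) (rbf : Bx → ℚ) : ℕ → Bx → Tr × ℕ × ℕ
  | 0, b => if emp b || chk m n w mu (rbf b) b then (.l, 1, 0) else (.l, 0, 1)
  | d + 1, b =>
    if emp b || chk m n w mu (rbf b) b then (.l, 1, 0) else
    let dx := m * (b.X1 ^ 2 - b.X0 ^ 2)
    let du := (b.U1 ^ 2 - b.U0 ^ 2) + (b.U1 - b.U0) / 20
    let dq := n * (b.Q1 ^ 2 - b.Q0 ^ 2)
    if du ≤ dx ∧ dq ≤ dx then
      let s := find m n w mu emp rbf d b.xl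
      let t := find m n w mu emp rbf d b.xr
      (.x s.1 t.1, s.2.1 + t.2.1, s.2.2 + t.2.2)
    else if dq ≤ du then
      let s := find m n w mu emp rbf d b.ul
      let t := find m n w mu emp rbf d b.ur
      (.u s.1 t.1, s.2.1 + t.2.1, s.2.2 + t.2.2)
    else
      let s := find m n w mu emp rbf d b.ql
      let t := find m n w mu emp rbf d b.qr
      (.q s.1 t.1, s.2.1 + t.2.1, s.2.2 + t.2.2)

end Pool.Agent.Helper95.SP.Crude
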