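import Pool.Agent.Helper95.SP.CombNat

/-! Products of `sinc` over lists (SP-wave, module Lists). -/

set_option autoImplicit false

namespace Pool.Agent.Helper95.SP.Crude

open Real Finset

theorem PP_nil' (k : ℝ) : PP [] k = 1 := by
  simp [PP]

theorem PP_cons' (x : ℝ) (l : List ℝ) (k : ℝ) : PP (x :: l) k = sinc (k * x) * PP l k := by
  simp [PP]

theorem PP_append (l₁ l₂ : List ℝ) (k : ℝ) : PP (l₁ ++ l₂) k = PP l₁ k * PP l₂ k := by
  unfold PP
  rw [List.map_append, List.prod_append]

theorem PP_replicate (n : ℕ) (x k : ℝ) : PP (List.replicate n x) k = sinc (k * x) ^ n := by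
  unfold PP
  rw [List.map_replicate, List.prod_replicate]

theorem PP_one_pos {R : List ℝ} (h1 : ∀ x ∈ R, 0 < sinc x) : 0 < PP R 1 := by
  induction R with
  | nil => simp [PP]
  | cons x R ih =>
    rw [PP_cons', one_mul]
    exact mul_pos (h1 x (by simp)) (ih fun y hy => h1 y (by simp [hy]))

theorem abs_PP_le_exp {R : List ℝ} {k c : ℝ} (h1 : ∀ x ∈ R, 0 < sinc x)
    (h : ∀ x ∈ R, |sinc (k * x)| ≤ sinc x * exp (-(c * x ^ 2))) :
    |PP R k| ≤ PP R 1 * exp (-(c * (R.map fun x => x ^ 2).sum)) := by
  induction R with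
  | nil => simp [PP]
  | cons x R ih =>
    have ih' := ih (fun y hy => h1 y (by simp [hy])) (fun y hy => h y (by simp [hy]))
    have hx := h x (by simp)
    have hx1 := h1 x (by simp)
    rw [PP_cons', PP_cons', one_mul, abs_mul, List.map_cons, List.sum_cons]
    calc |sinc (k * x)| * |PP R k|
        ≤ (sinc x * exp (-(c * x ^ 2))) *
          (PP R 1 * exp (-(c * (R.map fun x => x ^ 2).sum))) :=
          mul_le_mul hx ih' (abs_nonneg _) (by positivity)
      _ = sinc x * PP R 1 * exp (-(c * (x ^ 2 + (R.map fun x => x ^ 2).sum))) := by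
          rw [show -(c * (x ^ 2 + (R.map fun x => x ^ 2).sum)) =
            -(c * x ^ 2) + -(c * (R.map fun x => x ^ 2).sum) by ring, exp_add]
          ring

theorem abs_PP_le_exp' {R : List ℝ} {k c : ℝ}
    (h : ∀ x ∈ R, |sinc (k * x)| ≤ exp (-(c * x ^ 2))) :
    |PP R k| ≤ exp (-(c * (R.map fun x => x ^ 2).sum)) := by
  induction R with
  | nil => simp [PP]
  | cons x R ih =>
    have ih' := ih (fun y hy => h y (by simp [hy]))
    have hx := h x (by simp)
    rw [PP_cons', abs_mul, List.map_cons, List.sum_cons]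
    calc |sinc (k * x)| * |PP R k|
        ≤ exp (-(c * x ^ 2)) * exp (-(c * (R.map fun x => x ^ 2).sum)) :=
          mul_le_mul hx ih' (abs_nonneg _) (by positivity)
      _ = exp (-(c * (x ^ 2 + (R.map fun x => x ^ 2).sum))) := by
          rw [← exp_add]
          congr 1
          ring

theorem exp_mul_PP_le {R : List ℝ} {k c : ℝ} (h1 : ∀ x ∈ R, 0 < sinc x)
    (h : ∀ x ∈ R, exp (-(c * x ^ 2)) * sinc x ≤ sinc (k * x)) :
    exp (-(c * (R.map fun x => x ^ 2).sum)) * PP R 1 ≤ PP R k := by
  induction R with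
  | nil => simp [PP]
  | cons x R ih =>
    have h1' : ∀ y ∈ R, 0 < sinc y := fun y hy => h1 y (by simp [hy])
    have ih' := ih h1' (fun y hy => h y (by simp [hy]))
    have hx := h x (by simp)
    have hx1 := h1 x (by simp)
    have hp := PP_one_pos h1'
    rw [PP_cons', PP_cons', one_mul, List.map_cons, List.sum_cons]
    have h2 : 0 ≤ exp (-(c * x ^ 2)) * sinc x := by positivity
    calc exp (-(c * (x ^ 2 + (R.map fun x => x ^ 2).sum))) * (sinc x * PP R 1)
        = (exp (-(c * x ^ 2)) * sinc x) *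
          (exp (-(c * (R.map fun x => x ^ 2).sum)) * PP R 1) := by
          rw [show -(c * (x ^ 2 + (R.map fun x => x ^ 2).sum)) =
            -(c * x ^ 2) + -(c * (R.map fun x => x ^ 2).sum) by ring, exp_add]
          ring
      _ ≤ sinc (k * x) * PP R k :=
          mul_le_mul hx ih' (by positivity) (h2.trans hx)

theorem exp_le_PP {R : List ℝ} {k c : ℝ} (h : ∀ x ∈ R, exp (-(c * x ^ 2)) ≤ sinc (k * x)) :
    exp (-(c * (R.map fun x => x ^ 2).sum)) ≤ PP R k := by
  induction R with
  | nil => simp [PP]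
  | cons x R ih =>
    have ih' := ih (fun y hy => h y (by simp [hy]))
    have hx := h x (by simp)
    rw [PP_cons', List.map_cons, List.sum_cons]
    calc exp (-(c * (x ^ 2 + (R.map fun x => x ^ 2).sum)))
        = exp (-(c * x ^ 2)) * exp (-(c * (R.map fun x => x ^ 2).sum)) := by
          rw [← exp_add]
          congr 1
          ring
      _ ≤ sinc (k * x) * PP R k :=
          mul_le_mul hx ih' (exp_pos _).le ((exp_pos _).le.trans hx)

theorem abs_PP_le_exists {R : List ℝ} {k c F rho : ℝ} (h1 : ∀ x ∈ R, 0 < sinc x)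
    (hr : ∀ x ∈ R, x ^ 2 ≤ rho)
    (h : ∀ x ∈ R, |sinc (k * x)| ≤ sinc x * max (exp (-(c * x ^ 2))) (exp (-F)))
    (hc : 0 ≤ c) :
    ∃ j : ℕ, |PP R k| ≤ PP R 1 *
      exp (-(j * F + c * max 0 ((R.map fun x => x ^ 2).sum - j * rho))) := by
  induction R with
  | nil => exact ⟨0, by simp [PP]⟩
  | cons x R ih =>
    have h1' : ∀ y ∈ R, 0 < sinc y := fun y hy => h1 y (by simp [hy])
    obtain ⟨j, ih'⟩ := ih h1' (fun y hy => hr y (by simp [hy])) (fun y hy => h y (by simp [hy]))
    have hx := h x (by simp)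
    have hx1 := h1 x (by simp)
    have hxr := hr x (by simp)
    have hp := PP_one_pos h1'
    set M := (R.map fun x => x ^ 2).sum with hM
    rcases le_total (exp (-F)) (exp (-(c * x ^ 2))) with hcase | hcase
    · refine ⟨j, ?_⟩
      rw [max_eq_left hcase] at hx
      rw [PP_cons', PP_cons', one_mul, abs_mul, List.map_cons, List.sum_cons]
      have hm : max 0 (x ^ 2 + M - j * rho) ≤ x ^ 2 + max 0 (M - j * rho) := by
        apply max_le
        · have := le_max_left 0 (M - j * rho)
          positivity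
        · have := le_max_right 0 (M - j * rho)
          linarith
      have hm2 := mul_le_mul_of_nonneg_left hm hc
      calc |sinc (k * x)| * |PP R k|
          ≤ (sinc x * exp (-(c * x ^ 2))) *
            (PP R 1 * exp (-(j * F + c * max 0 (M - j * rho)))) :=
            mul_le_mul hx ih' (abs_nonneg _) (by positivity)
        _ = sinc x * PP R 1 * exp (-(c * x ^ 2) + -(j * F + c * max 0 (M - j * rho))) := by
            rw [exp_add]
            ring
        _ ≤ sinc x * PP R 1 * exp (-(j * F + c * max 0 (x ^ 2 + M - j * rho))) := by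
            apply mul_le_mul_of_nonneg_left _ (by positivity)
            apply exp_le_exp.mpr
            linarith
    · refine ⟨j + 1, ?_⟩
      rw [max_eq_right hcase] at hx
      rw [PP_cons', PP_cons', one_mul, abs_mul, List.map_cons, List.sum_cons]
      have hm : max 0 (x ^ 2 + M - ((j + 1 : ℕ) : ℝ) * rho) ≤ max 0 (M - j * rho) := by
        apply max_le_max le_rfl
        push_cast
        linarith
      have hm2 := mul_le_mul_of_nonneg_left hm hc
      calc |sinc (k * x)| * |PP R k|
          ≤ (sinc x * exp (-F)) *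
            (PP R 1 * exp (-(j * F + c * max 0 (M - j * rho)))) :=
            mul_le_mul hx ih' (abs_nonneg _) (by positivity)
        _ = sinc x * PP R 1 * exp (-F + -(j * F + c * max 0 (M - j * rho))) := by
            rw [exp_add]
            ring
        _ ≤ sinc x * PP R 1 *
            exp (-(((j + 1 : ℕ) : ℝ) * F + c * max 0 (x ^ 2 + M - ((j + 1 : ℕ) : ℝ) * rho))) := by
            apply mul_le_mul_of_nonneg_left _ (by positivity)
            apply exp_le_exp.mpr
            push_cast at hm2 ⊢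
            linarith

/-- the integrality bound -/
theorem abs_PP_le_floor {R : List ℝ} {k c F rho : ℝ} (h1 : ∀ x ∈ R, 0 < sinc x)
    (hr : ∀ x ∈ R, x ^ 2 ≤ rho)
    (h : ∀ x ∈ R, |sinc (k * x)| ≤ sinc x * max (exp (-(c * x ^ 2))) (exp (-F)))
    (hc : 0 ≤ c) (hF : 0 ≤ F) (hFc : F ≤ c * rho) (n : ℕ) :
    |PP R k| ≤ PP R 1 * exp (-(min (n * F + c * ((R.map fun x => x ^ 2).sum - n * rho))
      ((n + 1) * F))) := by
  obtain ⟨j, hj⟩ := abs_PP_le_exists h1 hr h hc
  refine hj.trans ?_
  apply mul_le_mul_of_nonneg_left _ (PP_one_pos h1).le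
  apply exp_le_exp.mpr
  apply neg_le_neg
  set M := (R.map fun x => x ^ 2).sum with hM
  rcases Nat.lt_or_ge n j with hnj | hnj
  · refine (min_le_right _ _).trans ?_
    have h2 : ((n : ℝ) + 1) ≤ j := by exact_mod_cast hnj
    have h3 : 0 ≤ c * max 0 (M - j * rho) := mul_nonneg hc (le_max_left _ _)
    have h4 := mul_le_mul_of_nonneg_right h2 hF
    linarith
  · refine (min_le_left _ _).trans ?_
    have h2 : (0 : ℝ) ≤ (n : ℝ) - j := by
      have : (j : ℝ) ≤ n := by exact_mod_cast hnj
      linarith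
    have h3 : c * (M - j * rho) ≤ c * max 0 (M - j * rho) :=
      mul_le_mul_of_nonneg_left (le_max_right _ _) hc
    have h4 := mul_nonneg h2 (sub_nonneg.mpr hFc)
    nlinarith

end Pool.Agent.Helper95.SP.Crude
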