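import Pool.Agent.Helper95.SP.Even
import Pool.Agent.Helper95.SP.Crude.Lists
import Pool.Agent.Helper95.SP.Crude.SincB
import Pool.Agent.Helper95.SP.Crude.Box2

/-!
The scaled configuration of the pair facts: `m` copies of `X` (one of them in the pair `(X, U)`),
`n` copies of `Q` and a list `R` of small entries (all multiplied by the node angle).
-/

set_option autoImplicit false

namespace Pool.Agent.Helper95.SP.Crude

open Real Finset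

/-- the scaled configuration -/
structure Cfg2 (m n : ℕ) (w X U Q C : ℝ) (R : List ℝ) : Prop where
  hm : 1 ≤ m
  hU : 0 ≤ U
  hUX : U < X
  hQ : 0 ≤ Q
  hC : 0 < C
  hCC : 2 * C ^ 2 = X ^ 2 + U ^ 2
  hX : X ^ 2 ≤ 5 / 4
  h9 : 9 * C ^ 2 < π ^ 2
  hQ9 : 9 * Q ^ 2 ≤ π ^ 2
  hR : ∀ x ∈ R, 0 ≤ x ∧ x ≤ 3 / 4
  hw : m * X ^ 2 + U ^ 2 + n * Q ^ 2 + (R.map fun x => x ^ 2).sum = w

/-- the sum of the squares of the rest -/
noncomputable def MM (R : List ℝ) : ℝ := (R.map fun x => x ^ 2).sum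

/-- the list of the other entries -/
def LL (m n : ℕ) (X Q : ℝ) (R : List ℝ) : List ℝ :=
  List.replicate (m - 1) X ++ (List.replicate n Q ++ R)

/-- the product of `sinc` at frequency `k` times the bracket -/
noncomputable def FF (m n : ℕ) (X U Q C : ℝ) (R : List ℝ) (k : ℝ) : ℝ :=
  Ker.PB (LL m n X Q R) X U C k

/-- the base product -/
noncomputable def R1 (m n : ℕ) (X Q : ℝ) (R : List ℝ) : ℝ := sinc X ^ (m - 1) * sinc Q ^ n * PP R 1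

noncomputable def dd (X U : ℝ) : ℝ := ((X ^ 2 - U ^ 2) / 2) ^ 2

/-- membership in a box -/
structure InB (b : Bx) (X U Q : ℝ) : Prop where
  x0 : 0 ≤ b.X0
  u0 : 0 ≤ b.U0
  q0 : 0 ≤ b.Q0
  hx0 : (b.X0 : ℝ) ≤ X
  hx1 : X ≤ (b.X1 : ℝ)
  hu0 : (b.U0 : ℝ) ≤ U
  hu1 : U ≤ (b.U1 : ℝ)
  hq0 : (b.Q0 : ℝ) ≤ Q
  hq1 : Q ≤ (b.Q1 : ℝ)

/-- the conditions on a box checked by `chkO`, `chkE` -/
structure Reg (b : Bx) (X U Q C : ℝ) (c0 c1 : ℚ) : Prop extends InB b X U Q where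
  x1 : b.X1 ^ 2 ≤ 125 / 100
  xu : 9 * (b.X1 ^ 2 + b.U1 ^ 2) < 2 * PL
  q1 : 9 * b.Q1 ^ 2 ≤ PH
  hUX : U < X
  hC : 0 < C
  hCC : 2 * C ^ 2 = X ^ 2 + U ^ 2
  c0n : 0 ≤ c0
  hc0 : (c0 : ℝ) ≤ C
  hc1 : C ≤ (c1 : ℝ)
  c1u : c1 ≤ 106 / 100

theorem PL_lt : ((PL : ℚ) : ℝ) < π ^ 2 := by
  have h1 := pi_gt_d6
  have : ((PL : ℚ) : ℝ) = 9.8696 := by unfold PL; norm_num
  rw [this]
  nlinarith

theorem lt_PH : π ^ 2 < ((PH : ℚ) : ℝ) := by
  have h1 := pi_lt_d6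
  have h0 := pi_pos
  have : ((PH : ℚ) : ℝ) = 9.8697 := by unfold PH; norm_num
  rw [this]
  nlinarith

theorem FF_eq (m n : ℕ) (X U Q C : ℝ) (R : List ℝ) (k : ℝ) :
    FF m n X U Q C R k =
      sinc (k * X) ^ (m - 1) * sinc (k * Q) ^ n * PP R k * BB X U C k := by
  unfold FF Ker.PB LL
  rw [PP_append, PP_append, PP_replicate, PP_replicate]
  ring

theorem MM_nonneg (R : List ℝ) : 0 ≤ MM R := by
  unfold MM
  apply List.sum_nonneg
  intro y hy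
  obtain ⟨x, -, rfl⟩ := List.mem_map.mp hy
  positivity

theorem sq_le_MM {R : List ℝ} {x : ℝ} (hx : x ∈ R) : x ^ 2 ≤ MM R := by
  unfold MM
  apply List.single_le_sum
  · intro y hy
    obtain ⟨z, -, rfl⟩ := List.mem_map.mp hy
    positivity
  · exact List.mem_map.mpr ⟨x, hx, rfl⟩

theorem sinc_pos' {x : ℝ} (h0 : 0 ≤ x) (h1 : x ≤ 12 / 10) : 0 < sinc x :=
  (exp_pos _).trans_le (le_sinc h0 h1)

namespace Cfg2

variable {m n : ℕ} {w X U Q C : ℝ} {R : List ℝ}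

theorem X0 (h : Cfg2 m n w X U Q C R) : 0 < X := h.hU.trans_lt h.hUX

theorem hM (h : Cfg2 m n w X U Q C R) : MM R = w - m * X ^ 2 - U ^ 2 - n * Q ^ 2 := by
  have := h.hw
  unfold MM
  linarith

theorem X_le (h : Cfg2 m n w X U Q C R) : X ≤ 1.12 := by
  have h1 := h.hX
  have h4 := h.X0
  nlinarith

theorem Q_le (h : Cfg2 m n w X U Q C R) : Q ≤ 1.05 := by
  have h1 := h.hQ9
  have h2 := pi_lt_d2
  have h3 := pi_pos
  have h4 := h.hQ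
  nlinarith

theorem sinc_X (h : Cfg2 m n w X U Q C R) : 0 < sinc X :=
  sinc_pos' h.X0.le (h.X_le.trans (by norm_num))

theorem sinc_Q (h : Cfg2 m n w X U Q C R) : 0 < sinc Q :=
  sinc_pos' h.hQ (h.Q_le.trans (by norm_num))

theorem sinc_R (h : Cfg2 m n w X U Q C R) : ∀ x ∈ R, 0 < sinc x := fun x hx =>
  sinc_pos' (h.hR x hx).1 (by linarith [(h.hR x hx).2])

theorem PP_pos (h : Cfg2 m n w X U Q C R) : 0 < PP R 1 := by
  unfold PP
  apply List.prod_pos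
  intro y hy
  obtain ⟨x, hx, rfl⟩ := List.mem_map.mp hy
  rw [one_mul]
  exact h.sinc_R x hx

theorem R1_pos (h : Cfg2 m n w X U Q C R) : 0 < R1 m n X Q R :=
  mul_pos (mul_pos (pow_pos h.sinc_X _) (pow_pos h.sinc_Q _)) h.PP_pos

theorem R1_ge (h : Cfg2 m n w X U Q C R) : exp (-(w / 5)) ≤ R1 m n X Q R := by
  have h1 : exp (-(1 / 5 * (R.map fun x => x ^ 2).sum)) ≤ PP R 1 := by
    apply exp_le_PP
    intro x hx
    rw [one_mul]
    refine le_trans (le_of_eq ?_) (le_sinc (h.hR x hx).1 (by linarith [(h.hR x hx).2]))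
    congr 1; ring
  have h2 : exp (-(X ^ 2 / 5)) ^ (m - 1) ≤ sinc X ^ (m - 1) :=
    pow_le_pow_left₀ (exp_pos _).le (le_sinc h.X0.le (h.X_le.trans (by norm_num))) _
  have h2' : exp (-(Q ^ 2 / 5)) ^ n ≤ sinc Q ^ n :=
    pow_le_pow_left₀ (exp_pos _).le (le_sinc h.hQ (h.Q_le.trans (by norm_num))) _
  have h3 : exp (-(X ^ 2 / 5)) ^ (m - 1) * exp (-(Q ^ 2 / 5)) ^ n *
      exp (-(1 / 5 * (R.map fun x => x ^ 2).sum)) ≤ R1 m n X Q R :=
    mul_le_mul (mul_le_mul h2 h2' (pow_nonneg (exp_pos _).le _) (pow_nonneg h.sinc_X.le _)) h1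
      (exp_pos _).le (mul_nonneg (pow_nonneg h.sinc_X.le _) (pow_nonneg h.sinc_Q.le _))
  refine le_trans ?_ h3
  rw [← exp_nat_mul, ← exp_nat_mul, ← exp_add, ← exp_add]
  apply exp_le_exp.mpr
  have h4 := h.hw
  have h5 : ((m - 1 : ℕ) : ℝ) ≤ m := by exact_mod_cast Nat.sub_le _ _
  have h6 : ((m - 1 : ℕ) : ℝ) * X ^ 2 ≤ m * X ^ 2 := mul_le_mul_of_nonneg_right h5 (sq_nonneg _)
  have h7 := sq_nonneg U
  have e : ((m - 1 : ℕ) : ℝ) * -(X ^ 2 / 5) = -(((m - 1 : ℕ) : ℝ) * X ^ 2 / 5) := by ring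
  have e' : (n : ℝ) * -(Q ^ 2 / 5) = -((n : ℝ) * Q ^ 2 / 5) := by ring
  rw [e, e']
  linarith

theorem dd_pos (h : Cfg2 m n w X U Q C R) : 0 < dd X U := by
  have h1 := h.hUX
  have h2 := h.hU
  have : 0 < (X ^ 2 - U ^ 2) / 2 := by nlinarith
  unfold dd
  positivity

end Cfg2

end Pool.Agent.Helper95.SP.Crude
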