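import Pool.Agent.Helper95.SP.Crude.Cfg2

/-! The frequency `5` may be dropped: its term has the right sign (SP-wave2, module Drop5). -/

set_option autoImplicit false

namespace Pool.Agent.Helper95.SP.Crude

open Real Finset

theorem sinc_nonneg_of_le_pi {x : ℝ} (h0 : 0 ≤ x) (h1 : x ≤ π) : 0 ≤ sinc x := by
  rcases h0.eq_or_lt with h | h
  · rw [← h, sinc_zero]; exact zero_le_one
  · rw [sinc_of_ne_zero h.ne']
    exact div_nonneg (sin_nonneg_of_nonneg_of_le_pi h0 h1) h0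

theorem sinc_nonpos_of_pi_le {x : ℝ} (h0 : π ≤ x) (h1 : x ≤ 2 * π) : sinc x ≤ 0 := by
  have hx : 0 < x := pi_pos.trans_le h0
  rw [sinc_of_ne_zero hx.ne']
  have h2 : 0 ≤ sin (x - π) := sin_nonneg_of_nonneg_of_le_pi (by linarith) (by linarith)
  rw [sin_sub_pi] at h2
  exact div_nonpos_of_nonpos_of_nonneg (by linarith) hx.le

theorem drop5_sound {m n : ℕ} {w X U Q C : ℝ} {R : List ℝ} (h : Cfg2 m n w X U Q C R) {b : Bx}
    {c0 c1 : ℚ} (hb : Reg b X U Q C c0 c1) {rho : ℚ} (hrho : ∀ x ∈ R, x ^ 2 ≤ (rho : ℝ))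
    (hd : drop5 m n rho b = true) : FF m n X U Q C R 5 ≤ 0 := by
  unfold drop5 at hd
  simp only [Bool.and_eq_true, decide_eq_true_eq] at hd
  obtain ⟨⟨⟨⟨hm2, hn⟩, hX0⟩, hU1⟩, hr⟩ := hd
  have hpi1 := pi_gt_d4
  have hpi2 := pi_lt_d4
  have hX0' : (6284 / 10000 : ℝ) ≤ (b.X0 : ℝ) := by
    have : ((6284 / 10000 : ℚ) : ℝ) ≤ (b.X0 : ℝ) := by exact_mod_cast hX0
    push_cast at this
    exact this
  have hU1' : (b.U1 : ℝ) ≤ 6283 / 10000 := by
    have : (b.U1 : ℝ) ≤ ((6283 / 10000 : ℚ) : ℝ) := by exact_mod_cast hU1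
    push_cast at this
    exact this
  have hr' : (rho : ℝ) ≤ (6283 / 10000) ^ 2 := by
    have : (rho : ℝ) ≤ (((6283 / 10000) ^ 2 : ℚ) : ℝ) := by exact_mod_cast hr
    push_cast at this
    exact this
  have hX := hb.hx0
  have hU := hb.hu1
  have hXl := h.X_le
  have hsX : sinc (5 * X) ≤ 0 := sinc_nonpos_of_pi_le (by linarith) (by linarith)
  have hsU : 0 ≤ sinc (5 * U) :=
    sinc_nonneg_of_le_pi (by linarith [h.hU]) (by linarith)
  have hPP : 0 ≤ PP R 5 := by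
    unfold PP
    apply List.prod_nonneg
    intro y hy
    obtain ⟨x, hx, rfl⟩ := List.mem_map.mp hy
    have hx0 := (h.hR x hx).1
    have hx2 : x ^ 2 ≤ (6283 / 10000) ^ 2 := (hrho x hx).trans hr'
    have hx1 : x ≤ 6283 / 10000 := by
      by_contra hc
      push Not at hc
      nlinarith
    exact sinc_nonneg_of_le_pi (by linarith) (by linarith)
  have hBB : 0 ≤ BB X U C 5 := by
    unfold BB
    have h1 : sinc (5 * X) * sinc (5 * U) ≤ 0 := mul_nonpos_of_nonpos_of_nonneg hsX hsU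
    have h2 := sq_nonneg (sinc (5 * C))
    linarith
  have hodd : Odd (m - 1) := by
    have := h.hm
    rw [Nat.odd_iff]
    omega
  have hpow : sinc (5 * X) ^ (m - 1) ≤ 0 := hodd.pow_nonpos hsX
  rw [FF_eq, hn, pow_zero, mul_one]
  exact mul_nonpos_of_nonpos_of_nonneg (mul_nonpos_of_nonpos_of_nonneg hpow hPP) hBB

end Pool.Agent.Helper95.SP.Crude
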