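import Pool.Agent.Helper95.SP.Crude.Cfg2
import Pool.Agent.Helper95.SP.Crude.Lists
import Pool.Agent.Helper95.SP.Crude.Adm2
import Pool.Agent.Helper95.SP.Crude.SupQ
import Pool.Agent.Helper95.SP.Crude.SinR
import Pool.Agent.Helper95.SP.Crude.ExpF
import Pool.Agent.Helper95.SP.Crude.ExpQ
import Pool.Agent.Helper95.SP.Crude.SincB

/-!
SP-wave2 Copy: a copy at an odd harmonic, and the rest at an odd harmonic.
-/

set_option autoImplicit false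

namespace Pool.Agent.Helper95.SP.Crude

open Real Finset

private theorem cp_half_pi {X : ℝ} {X1 : ℚ} (h2 : X ≤ (X1 : ℝ)) (h3 : X1 ≤ 112 / 100) :
    X ≤ 112 / 100 ∧ X ≤ π / 2 := by
  have h4 : (X1 : ℝ) ≤ 112 / 100 := by
    have : ((X1 : ℚ) : ℝ) ≤ ((112 / 100 : ℚ) : ℝ) := Rat.cast_le.mpr h3
    simpa using this
  have := pi_gt_three
  constructor <;> linarith

private theorem cp_sinc_le {k : ℕ} {X : ℝ} (hk : 1 ≤ k) (h0 : 0 ≤ X) (h1 : X ≤ π / 2) :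
    |sinc (k * X)| ≤ sinc X := by
  rcases h0.eq_or_lt with h | h
  · rw [← h, mul_zero, sinc_zero, abs_one]
  · have hk0 : (0 : ℝ) < k := by exact_mod_cast hk
    have h2 := abs_sin_nat_mul_le k h0 h1
    rw [sinc_of_ne_zero (by positivity), sinc_of_ne_zero h.ne', abs_div,
      abs_of_pos (show (0 : ℝ) < k * X by positivity), div_le_div_iff₀ (by positivity) h]
    nlinarith

private theorem cp_sinL_pos {X0 : ℚ} (h : 1 / 100 ≤ X0) (h1 : X0 ≤ 112 / 100) :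
    (0 : ℝ) < ((sinL X0 : ℚ) : ℝ) := by
  have h0 : 0 ≤ X0 := by linarith
  have h2 := le_sinL h0 (by linarith)
  have h3 : (1 / 100 : ℝ) ≤ (X0 : ℝ) := by
    have : ((1 / 100 : ℚ) : ℝ) ≤ ((X0 : ℚ) : ℝ) := Rat.cast_le.mpr h
    simpa using this
  have h4 : (X0 : ℝ) ≤ 112 / 100 := by
    have : ((X0 : ℚ) : ℝ) ≤ ((112 / 100 : ℚ) : ℝ) := Rat.cast_le.mpr h1
    simpa using this
  have h5 : 0 < (X0 : ℝ) := by linarith
  have h6 := sin_gt_sub_cube h5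
  have h7 : (X0 : ℝ) ^ 3 ≤ (112 / 100) ^ 2 * X0 := by
    have : (X0 : ℝ) ^ 2 ≤ (112 / 100) ^ 2 := pow_le_pow_left₀ h5.le h4 2
    nlinarith
  norm_num at h7 h2
  linarith

private theorem cp_supA {k : ℕ} {X0 X1 : ℚ} {X : ℝ} (hk25 : k ≤ 25) (h0 : 0 ≤ X0)
    (h1 : (X0 : ℝ) ≤ X) (h2 : X ≤ (X1 : ℝ)) (h3 : X1 ≤ 112 / 100) :
    |sin (k * X)| ≤ ((supA (k * X0) (k * X1) : ℚ) : ℝ) := by
  have hk0 : (0 : ℝ) ≤ k := Nat.cast_nonneg k
  have h01 : 0 ≤ X1 := by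
    have h5 : (0 : ℝ) ≤ (X0 : ℝ) := by exact_mod_cast h0
    have h6 : ((0 : ℚ) : ℝ) ≤ (X1 : ℝ) := by rw [Rat.cast_zero]; linarith
    exact_mod_cast h6
  apply supA_sound
  · positivity
  · have : (k : ℚ) ≤ 25 := by exact_mod_cast hk25
    calc (k : ℚ) * X1 ≤ 25 * (112 / 100) := by gcongr
      _ ≤ 60 := by norm_num
  · push_cast
    exact mul_le_mul_of_nonneg_left h1 hk0
  · push_cast
    exact mul_le_mul_of_nonneg_left h2 hk0

private theorem cp_X0le {X0 X1 : ℚ} {X : ℝ} (h1 : (X0 : ℝ) ≤ X) (h2 : X ≤ (X1 : ℝ))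
    (h3 : X1 ≤ 112 / 100) : X0 ≤ 112 / 100 := by
  have : (X0 : ℝ) ≤ (X1 : ℝ) := h1.trans h2
  have : X0 ≤ X1 := by exact_mod_cast this
  exact this.trans h3

/-- a copy `X ∈ [X0, X1]` at the odd harmonic `k` -/
theorem qQ_sound {k : ℕ} {X0 X1 : ℚ} {X : ℝ} (hk : 1 ≤ k) (hk25 : k ≤ 25) (h0 : 0 ≤ X0)
    (h1 : (X0 : ℝ) ≤ X) (h2 : X ≤ (X1 : ℝ)) (h3 : X1 ≤ 112 / 100) :
    |sinc (k * X)| ≤ ((qQ k X0 X1 : ℚ) : ℝ) * sinc X := by
  have h0' : (0 : ℝ) ≤ (X0 : ℝ) := by exact_mod_cast h0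
  have hX0 : 0 ≤ X := h0'.trans h1
  obtain ⟨hX1, hX2⟩ := cp_half_pi h2 h3
  have hs1 := cp_sinc_le hk hX0 hX2
  have hsp : 0 < sinc X := sinc_pos' hX0 (by linarith)
  unfold qQ
  split_ifs with hc
  · have hpos := cp_sinL_pos hc (cp_X0le h1 h2 h3)
    have hX0' : (0 : ℝ) < (X0 : ℝ) := by
      have : ((1 / 100 : ℚ) : ℝ) ≤ ((X0 : ℚ) : ℝ) := Rat.cast_le.mpr hc
      have h4 : (0 : ℝ) < ((1 / 100 : ℚ) : ℝ) := by norm_num
      linarith
    have hXp : 0 < X := hX0'.trans_le h1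
    have hk0 : (0 : ℝ) < k := by exact_mod_cast hk
    have h4 := cp_supA hk25 h0 h1 h2 h3
    have h5 : ((sinL X0 : ℚ) : ℝ) ≤ sin X := by
      refine (sinL_sound h0 ((cp_X0le h1 h2 h3).trans (by norm_num))).trans ?_
      exact sin_le_sin_of_le_of_le_pi_div_two (by linarith [pi_pos]) hX2 h1
    have h6 : |sinc (k * X)| ≤
        ((supA (k * X0) (k * X1) / (k * sinL X0) : ℚ) : ℝ) * sinc X := by
      push_cast
      rw [sinc_of_ne_zero (by positivity), sinc_of_ne_zero hXp.ne', abs_div,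
        abs_of_pos (show (0 : ℝ) < k * X by positivity), div_mul_div_comm,
        div_le_div_iff₀ (by positivity) (by positivity)]
      have h7 : 0 ≤ ((supA (k * X0) (k * X1) : ℚ) : ℝ) := (abs_nonneg _).trans h4
      calc |sin (k * X)| * (k * ((sinL X0 : ℚ) : ℝ) * X)
          ≤ ((supA (k * X0) (k * X1) : ℚ) : ℝ) * (k * sin X * X) := by gcongr
        _ = ((supA (k * X0) (k * X1) : ℚ) : ℝ) * sin X * (k * X) := by ring
    refine le_trans ?_ (mul_le_mul_of_nonneg_right (Rat.cast_le.mpr (le_upp _)) hsp.le)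
    rw [Rat.cast_min, min_mul_of_nonneg _ _ hsp.le]
    refine le_min ?_ h6
    rwa [Rat.cast_one, one_mul]
  · rwa [Rat.cast_one, one_mul]

theorem qQ_nonneg {k : ℕ} {X0 X1 : ℚ} {X : ℝ} (hk : 1 ≤ k) (hk25 : k ≤ 25) (h0 : 0 ≤ X0)
    (h1 : (X0 : ℝ) ≤ X) (h2 : X ≤ (X1 : ℝ)) (h3 : X1 ≤ 112 / 100) : 0 ≤ qQ k X0 X1 := by
  unfold qQ
  split_ifs with hc
  · have hpos : 0 < sinL X0 := by exact_mod_cast cp_sinL_pos hc (cp_X0le h1 h2 h3)
    refine le_trans ?_ (le_upp _)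
    refine le_min zero_le_one ?_
    exact div_nonneg (supA_nonneg _ _) (by positivity)
  · exact zero_le_one

theorem qE_sound {k : ℕ} {X0 X1 : ℚ} {X : ℝ} (hk : 1 ≤ k) (hk25 : k ≤ 25) (h0 : 0 ≤ X0)
    (h1 : (X0 : ℝ) ≤ X) (h2 : X ≤ (X1 : ℝ)) (h3 : X1 ≤ 112 / 100) :
    |sinc (k * X)| ≤ ((qE k X0 X1 : ℚ) : ℝ) := by
  unfold qE
  split_ifs with hc
  · have hX0' : (0 : ℝ) < (X0 : ℝ) := by
      have : ((1 / 100 : ℚ) : ℝ) ≤ ((X0 : ℚ) : ℝ) := Rat.cast_le.mpr hc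
      have h4 : (0 : ℝ) < ((1 / 100 : ℚ) : ℝ) := by norm_num
      linarith
    have hXp : 0 < X := hX0'.trans_le h1
    have hk0 : (0 : ℝ) < k := by exact_mod_cast hk
    have h4 := cp_supA hk25 h0 h1 h2 h3
    refine le_trans ?_ (Rat.cast_le.mpr (le_upp _))
    rw [Rat.cast_min, Rat.cast_one]
    refine le_min (abs_sinc_le_one _) ?_
    push_cast
    rw [sinc_of_ne_zero (by positivity), abs_div,
      abs_of_pos (show (0 : ℝ) < k * X by positivity)]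
    have h7 : 0 ≤ ((supA (k * X0) (k * X1) : ℚ) : ℝ) := (abs_nonneg _).trans h4
    gcongr
  · rw [Rat.cast_one]
    exact abs_sinc_le_one _

/-- the rest at the odd harmonic `k` -/
theorem exQ_sound {k j : ℕ} (hk : k ∈ [5, 7, 9, 11, 13, 15, 17, 19, 21, 23, 25]) (hj : j < 181)
    {R : List ℝ} (hR : ∀ x ∈ R, 0 ≤ x ∧ x ≤ ((gr2 j : ℚ) : ℝ)) {Mlo : ℚ} (h0 : 0 ≤ Mlo)
    (hM : (Mlo : ℝ) ≤ MM R) :
    |PP R k| ≤ PP R 1 * ((eUpF (dn (exQ k j Mlo)) : ℚ) : ℝ) := by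
  have hgr : (0 : ℝ) < ((gr2 j : ℚ) : ℝ) := by exact_mod_cast gr2_pos j
  have hgr' : ((gr2 j : ℚ) : ℝ) ≤ 3 / 4 := by
    have : ((gr2 j : ℚ) : ℝ) ≤ ((3 / 4 : ℚ) : ℝ) := Rat.cast_le.mpr (gr2_le hj)
    simpa using this
  have hs : ∀ x ∈ R, 0 < sinc x := fun x hx =>
    sinc_pos' (hR x hx).1 (by linarith [(hR x hx).2])
  have hP := PP_one_pos hs
  have hcc : (0 : ℝ) ≤ ((cc2 k j : ℚ) : ℝ) := by exact_mod_cast cc2_nonneg k j
  have hff : (0 : ℝ) ≤ ((ff2 k j : ℚ) : ℝ) := by exact_mod_cast ff2_nonneg k j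
  have hM0 : (0 : ℝ) ≤ (Mlo : ℝ) := by exact_mod_cast h0
  have hk1 : (1 : ℝ) ≤ k := by
    have : 1 ≤ k := by
      fin_cases hk <;> norm_num
    exact_mod_cast this
  -- the first bound
  have hA : |PP R k| ≤ PP R 1 * exp (-(((cc2 k j * Mlo : ℚ) : ℝ))) := by
    refine (abs_PP_le_exp (c := ((cc2 k j : ℚ) : ℝ)) hs
      (fun x hx => adm2 hk hj (hR x hx).1 (hR x hx).2)).trans ?_
    apply mul_le_mul_of_nonneg_left _ hP.le
    apply exp_le_exp.mpr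
    apply neg_le_neg
    push_cast
    exact mul_le_mul_of_nonneg_left hM hcc
  have hE0 : 0 ≤ exQ k j Mlo := by
    unfold exQ
    exact (mul_nonneg (cc2_nonneg k j) h0).trans (le_max_left _ _)
  have hE : |PP R k| ≤ PP R 1 * exp (-(((exQ k j Mlo : ℚ) : ℝ))) := by
    unfold exQ
    simp only
    rcases le_total (if ff2 k j ≤ ((k : ℚ) ^ 2 - 1) / 6 * gr2 j ^ 2 then
        min (((⌊Mlo / gr2 j ^ 2⌋.toNat : ℕ) : ℚ) * ff2 k j + ((k : ℚ) ^ 2 - 1) / 6 *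
          (Mlo - ((⌊Mlo / gr2 j ^ 2⌋.toNat : ℕ) : ℚ) * gr2 j ^ 2))
          ((((⌊Mlo / gr2 j ^ 2⌋.toNat : ℕ) : ℚ) + 1) * ff2 k j) else 0) (cc2 k j * Mlo) with hle | hle
    · rw [max_eq_left hle]
      exact hA
    · rw [max_eq_right hle]
      split_ifs with hF
      · have hF' : ((ff2 k j : ℚ) : ℝ) ≤ (((k : ℝ) ^ 2 - 1) / 6) * ((gr2 j : ℚ) : ℝ) ^ 2 := by
          have : ((ff2 k j : ℚ) : ℝ) ≤ ((((k : ℚ) ^ 2 - 1) / 6 * gr2 j ^ 2 : ℚ) : ℝ) :=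
            Rat.cast_le.mpr hF
          push_cast at this
          exact this
        have hc0 : 0 ≤ ((k : ℝ) ^ 2 - 1) / 6 := by nlinarith
        refine (abs_PP_le_floor (rho := ((gr2 j : ℚ) : ℝ) ^ 2) hs
          (fun x hx => pow_le_pow_left₀ (hR x hx).1 (hR x hx).2 2)
          (fun x hx => admJ2 hk hj (hR x hx).1 (hR x hx).2) hc0 hff hF'
          ⌊Mlo / gr2 j ^ 2⌋.toNat).trans ?_
        apply mul_le_mul_of_nonneg_left _ hP.le
        apply exp_le_exp.mpr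
        apply neg_le_neg
        push_cast
        apply min_le_min_right
        have := mul_le_mul_of_nonneg_left hM hc0
        unfold MM at this
        linarith
      · rw [Rat.cast_zero, neg_zero, exp_zero, mul_one]
        refine hA.trans ?_
        have : exp (-(((cc2 k j * Mlo : ℚ) : ℝ))) ≤ 1 := by
          apply exp_le_one_iff.mpr
          push_cast
          have := mul_nonneg hcc hM0
          linarith
        nlinarith
  refine hE.trans ?_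
  apply mul_le_mul_of_nonneg_left _ hP.le
  refine le_trans ?_ (eUpF_sound (dn_nonneg hE0))
  apply exp_le_exp.mpr
  apply neg_le_neg
  exact Rat.cast_le.mpr (dn_le _)

end Pool.Agent.Helper95.SP.Crude
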