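import Mathlib

/-!
SP-wave2 (MP_66ebcc_gt), module SumO: two elementary sums.
-/

set_option autoImplicit false

namespace Pool.Agent.Helper95.SP.Crude

open Real Finset

private theorem step_le {k a : ℝ} (hk : 2 < k) (ha : 0 < a) {S : ℝ} (hS : 0 < S) :
    2 * a / k * (S / k) ^ a ≤ (S / (k - 2)) ^ a - (S / k) ^ a := by
  have hk0 : 0 < k := by linarith
  have hk2 : 0 < k - 2 := by linarith
  have h1 : (S / (k - 2)) ^ a = (k / (k - 2)) ^ a * (S / k) ^ a := by
    rw [← mul_rpow (by positivity) (by positivity)]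
    congr 1
    field_simp
  have h2 : 1 + 2 * a / k ≤ (k / (k - 2)) ^ a := by
    have h3 : 2 / k ≤ Real.log (k / (k - 2)) := by
      have h4 := Real.one_sub_inv_le_log_of_pos (show 0 < k / (k - 2) by positivity)
      have h5 : 1 - (k / (k - 2))⁻¹ = 2 / k := by
        rw [inv_div]
        field_simp
        ring
      rw [h5] at h4
      exact h4
    rw [Real.rpow_def_of_pos (by positivity)]
    have h6 : 2 * a / k ≤ Real.log (k / (k - 2)) * a := by
      calc 2 * a / k = 2 / k * a := by ring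
        _ ≤ _ := mul_le_mul_of_nonneg_right h3 ha.le
    have h7 := Real.add_one_le_exp (Real.log (k / (k - 2)) * a)
    linarith
  rw [h1]
  have h8 : 0 ≤ (S / k) ^ a := by positivity
  nlinarith [mul_le_mul_of_nonneg_right h2 h8]

theorem sum_odd_gen_le (n : ℕ) {T a : ℝ} (hT : 2 ≤ T) (ha : 0 < a) :
    ∑ i ∈ range n, 1 / (2 * (i : ℝ) + T) * (T / (2 * (i : ℝ) + T)) ^ a ≤ 1 / T + 1 / (2 * a) := by
  have hT0 : 0 < T := by linarith
  have key : ∀ m : ℕ, ∑ i ∈ range (m + 1), 1 / (2 * (i : ℝ) + T) * (T / (2 * (i : ℝ) + T)) ^ a ≤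
      1 / T + 1 / (2 * a) * (1 - (T / (2 * (m : ℝ) + T)) ^ a) := by
    intro m
    induction m with
    | zero =>
      simp only [zero_add, Finset.sum_range_one, Nat.cast_zero, mul_zero, zero_add]
      rw [div_self hT0.ne', one_rpow]
      linarith
    | succ m ih =>
      rw [Finset.sum_range_succ]
      have hk : 2 < 2 * ((m + 1 : ℕ) : ℝ) + T := by
        push_cast
        have : (0 : ℝ) ≤ m := Nat.cast_nonneg m
        linarith
      have h1 := step_le hk ha hT0
      have h2 : 2 * ((m + 1 : ℕ) : ℝ) + T - 2 = 2 * (m : ℝ) + T := by push_cast; ring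
      rw [h2] at h1
      set k : ℝ := 2 * ((m + 1 : ℕ) : ℝ) + T with hkdef
      set X := (T / k) ^ a with hX
      set Y := (T / (2 * (m : ℝ) + T)) ^ a with hY
      have h3 : 1 / k * X = 1 / (2 * a) * (2 * a / k * X) := by
        field_simp
      have h4 : 1 / (2 * a) * (2 * a / k * X) ≤ 1 / (2 * a) * (Y - X) :=
        mul_le_mul_of_nonneg_left h1 (by positivity)
      calc _ ≤ 1 / T + 1 / (2 * a) * (1 - Y) + 1 / k * X := by linarith
        _ ≤ 1 / T + 1 / (2 * a) * (1 - Y) + 1 / (2 * a) * (Y - X) := by linarith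
        _ = 1 / T + 1 / (2 * a) * (1 - X) := by ring
  rcases n with _ | m
  · simp only [Finset.range_zero, Finset.sum_empty]
    positivity
  · refine (key m).trans ?_
    have h1 : 0 ≤ (T / (2 * (m : ℝ) + T)) ^ a := by positivity
    have h2 : 0 < 1 / (2 * a) := by positivity
    nlinarith [mul_nonneg h2.le h1]

theorem sum_even_le (n : ℕ) {b : ℝ} (hb : -1 < b) :
    ∑ i ∈ range n, 1 / (2 * (i : ℝ) + 8) ^ 2 * (8 / (2 * (i : ℝ) + 8)) ^ b ≤
      1 / 64 + 1 / (16 * (1 + b)) := by
  have hc : 0 < 1 + b := by linarith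
  have key : ∀ m : ℕ, ∑ i ∈ range (m + 1), 1 / (2 * (i : ℝ) + 8) ^ 2 * (8 / (2 * (i : ℝ) + 8)) ^ b ≤
      1 / 64 + 1 / (16 * (1 + b)) * (1 - (8 / (2 * (m : ℝ) + 8)) ^ (1 + b)) := by
    intro m
    induction m with
    | zero =>
      simp only [zero_add, Finset.sum_range_one, Nat.cast_zero, mul_zero, zero_add]
      rw [div_self (by norm_num), one_rpow, one_rpow]
      norm_num
    | succ m ih =>
      rw [Finset.sum_range_succ]
      have hm : (0 : ℝ) ≤ m := Nat.cast_nonneg m
      have hk : 2 < 2 * ((m + 1 : ℕ) : ℝ) + 8 := by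
        push_cast
        linarith
      have h1 := step_le hk hc (show (0 : ℝ) < 8 by norm_num)
      have h2 : 2 * ((m + 1 : ℕ) : ℝ) + 8 - 2 = 2 * (m : ℝ) + 8 := by push_cast; ring
      rw [h2] at h1
      set k : ℝ := 2 * ((m + 1 : ℕ) : ℝ) + 8 with hkdef
      have hk0 : 0 < k := by linarith
      set X := (8 / k) ^ (1 + b) with hX
      set Y := (8 / (2 * (m : ℝ) + 8)) ^ (1 + b) with hY
      have h0 : X = 8 / k * (8 / k) ^ b := by
        rw [hX, Real.rpow_add (by positivity), Real.rpow_one]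
      have h3 : 1 / k ^ 2 * (8 / k) ^ b = 1 / (16 * (1 + b)) * (2 * (1 + b) / k * X) := by
        rw [h0]
        field_simp
        ring
      have h4 : 1 / (16 * (1 + b)) * (2 * (1 + b) / k * X) ≤ 1 / (16 * (1 + b)) * (Y - X) :=
        mul_le_mul_of_nonneg_left h1 (by positivity)
      calc _ ≤ 1 / 64 + 1 / (16 * (1 + b)) * (1 - Y) + 1 / k ^ 2 * (8 / k) ^ b := by linarith
        _ ≤ 1 / 64 + 1 / (16 * (1 + b)) * (1 - Y) + 1 / (16 * (1 + b)) * (Y - X) := by linarith
        _ = 1 / 64 + 1 / (16 * (1 + b)) * (1 - X) := by ring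
  rcases n with _ | m
  · simp only [Finset.range_zero, Finset.sum_empty]
    positivity
  · refine (key m).trans ?_
    have h1 : 0 ≤ (8 / (2 * (m : ℝ) + 8)) ^ (1 + b) := by positivity
    have h2 : 0 < 1 / (16 * (1 + b)) := by positivity
    nlinarith [mul_nonneg h2.le h1]

end Pool.Agent.Helper95.SP.Crude
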