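import Pool.Agent.Helper95.SP.Prod
import Pool.Agent.Helper95.SP.Crude.SincB

/-! SP-wave, section TailRest. -/

set_option autoImplicit false

namespace Pool.Agent.Helper95.SP.Crude

open Real Finset

theorem tr_sin_ratio {x r : ℝ} (hx : 0 < x) (hxr : x ≤ r) (hr : r ≤ 3 / 4) : x * sin r ≤ r * sin x := by
  have hr0 : 0 < r := lt_of_lt_of_le hx hxr
  have hpi : r ≤ π := by have := pi_gt_three; linarith
  have hc := strictConcaveOn_sin_Icc.concaveOn.2 (show (0:ℝ) ∈ Set.Icc 0 π from ⟨le_rfl, by positivity⟩)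
    (show r ∈ Set.Icc 0 π from ⟨hr0.le, hpi⟩)
    (show (0:ℝ) ≤ 1 - x / r by rw [sub_nonneg, div_le_one hr0]; exact hxr) (show (0:ℝ) ≤ x / r by positivity)
    (by ring)
  simp only [smul_eq_mul, mul_zero, zero_add, sin_zero] at hc
  have e : x / r * r = x := by field_simp
  rw [e] at hc
  have h1 : r * (x / r * sin r) ≤ r * sin x := mul_le_mul_of_nonneg_left hc hr0.le
  have e2 : r * (x / r * sin r) = x * sin r := by field_simp
  linarith

theorem tr_log_ratio {x r : ℝ} (hx : 0 < x) (hxr : x ≤ r) : log (r / x) ≤ 1 / 2 * (r ^ 2 / x ^ 2 - 1) := by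
  have hr0 : 0 < r := lt_of_lt_of_le hx hxr
  have h1 := log_le_sub_one_of_pos (show 0 < (r / x) ^ 2 by positivity)
  rw [log_pow] at h1
  push_cast at h1
  have e : (r / x) ^ 2 = r ^ 2 / x ^ 2 := by rw [div_pow]
  rw [e] at h1
  linarith

theorem tr_half_le_log {t : ℝ} (ht : 2 ≤ t) : 1 / 2 ≤ log t := by
  have h1 := log_le_log (by norm_num : (0:ℝ) < 2) ht
  have := log_two_gt_d9
  linarith

theorem tr_sin_lower {k x : ℝ} (hk : 0 < k) (hx : 0 < x) (hx1 : x ≤ 3 / 4) (h : 449 / 100 ≤ k * x) : 2 ≤ k * sin x := by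
  have h1 := sin_gt_sub_cube hx
  have h2 : 0.8 * x ≤ sin x := by nlinarith [sq_nonneg x, pow_pos hx 3]
  have h3 : k * (0.8 * x) ≤ k * sin x := mul_le_mul_of_nonneg_left h2 hk.le
  nlinarith

/-- `log (k sin y) ≥ (y / r)^2 log (k sin r)` -/
theorem tr_claim_odd {k r y : ℝ} (hk : 0 < k) (hr' : r ≤ 3 / 4) (hy : 0 < y) (hyr : y ≤ r) (h : 449 / 100 ≤ k * y) :
    log (k * sin r) / r ^ 2 * y ^ 2 ≤ log (k * sin y) := by
  have hr0 : 0 < r := lt_of_lt_of_le hy hyr
  have hs1 := tr_sin_lower hk hy (hyr.trans hr') h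
  have hs2 := tr_sin_lower hk hr0 hr' (h.trans (mul_le_mul_of_nonneg_left hyr hk.le))
  have h1 := tr_half_le_log hs1
  have h2 : log (k * sin r) ≤ log (k * sin y) + log (r / y) := by
    rw [← log_mul (by linarith) (by positivity)]
    apply log_le_log (by linarith)
    have h3 := tr_sin_ratio hy hyr hr'
    rw [mul_div_assoc', le_div_iff₀ hy]
    nlinarith
  have h3 := tr_log_ratio hy hyr
  have h4 : 0 ≤ r ^ 2 / y ^ 2 - 1 := by
    rw [sub_nonneg, one_le_div (by positivity)]
    exact pow_le_pow_left₀ hy.le hyr 2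
  have h5 : log (k * sin r) ≤ log (k * sin y) * (r ^ 2 / y ^ 2) := by nlinarith
  rw [div_mul_eq_mul_div, div_le_iff₀ (by positivity)]
  have h6 : log (k * sin r) * y ^ 2 ≤ log (k * sin y) * (r ^ 2 / y ^ 2) * y ^ 2 :=
    mul_le_mul_of_nonneg_right h5 (by positivity)
  have e : log (k * sin y) * (r ^ 2 / y ^ 2) * y ^ 2 = log (k * sin y) * r ^ 2 := by field_simp
  linarith

theorem tr_claim_even {k r y : ℝ} (hk : 0 < k) (hy : 0 < y) (hyr : y ≤ r) (h : 449 / 100 ≤ k * y) :
    log (k * r) / r ^ 2 * y ^ 2 ≤ log (k * y) := by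
  have hr0 : 0 < r := lt_of_lt_of_le hy hyr
  have h1 := tr_half_le_log (show 2 ≤ k * y by linarith)
  have h2 : log (k * r) = log (k * y) + log (r / y) := by
    rw [← log_mul (by positivity) (by positivity)]
    congr 1
    field_simp
  have h3 := tr_log_ratio hy hyr
  have h4 : 0 ≤ r ^ 2 / y ^ 2 - 1 := by
    rw [sub_nonneg, one_le_div (by positivity)]
    exact pow_le_pow_left₀ hy.le hyr 2
  have h5 : log (k * r) ≤ log (k * y) * (r ^ 2 / y ^ 2) := by nlinarith
  rw [div_mul_eq_mul_div, div_le_iff₀ (by positivity)]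
  have h6 : log (k * r) * y ^ 2 ≤ log (k * y) * (r ^ 2 / y ^ 2) * y ^ 2 :=
    mul_le_mul_of_nonneg_right h5 (by positivity)
  have e : log (k * y) * (r ^ 2 / y ^ 2) * y ^ 2 = log (k * y) * r ^ 2 := by field_simp
  linarith

theorem tr_log_le {t : ℝ} (ht : 45 / 10 ≤ t) : log t ≤ t / 4 + 387 / 1000 := by
  have h1 := log_le_sub_one_of_pos (show 0 < t / 4 by linarith)
  rw [log_div (by linarith) (by norm_num)] at h1
  have h2 : log 4 = 2 * log 2 := by
    rw [show (4:ℝ) = 2 ^ 2 by norm_num, log_pow]; norm_num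
  have := log_two_lt_d9
  linarith

theorem tail_rest_odd {k r x : ℝ} (hk : 13 ≤ k) (hr : 35 / 100 ≤ r) (hr' : r ≤ 3 / 4) (hx : 0 ≤ x)
    (hxr : x ≤ r) :
    |sinc (k * x)| ≤ sinc x * exp (-(log (k * sin r) / r ^ 2 * x ^ 2)) := by
  have hk0 : 0 < k := by linarith
  have hr0 : 0 < r := by linarith
  have hkr : 455 / 100 ≤ k * r := by nlinarith
  have hsr := tr_sin_lower hk0 hr0 hr' (by linarith)
  have hL := tr_half_le_log hsr
  rcases le_or_gt (k * x) π with h | h
  · refine (abs_sinc_mul_le (by linarith) hx h).trans ?_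
    have hs : 0 ≤ sinc x := by
      rcases eq_or_lt_of_le hx with h0 | h0
      · rw [← h0]; simp
      · rw [sinc_of_ne_zero h0.ne']
        have : 0 < sin x := sin_pos_of_pos_of_lt_pi h0 (by have := pi_gt_three; linarith)
        positivity
    apply mul_le_mul_of_nonneg_left _ hs
    apply exp_le_exp.mpr
    apply neg_le_neg
    apply mul_le_mul_of_nonneg_right _ (by positivity)
    rw [div_le_iff₀ (by positivity)]
    have h1 : log (k * sin r) ≤ log (k * r) :=
      log_le_log (by linarith) (mul_le_mul_of_nonneg_left (sin_le hr0.le) hk0.le)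
    have h2 := tr_log_le (show 45 / 10 ≤ k * r by linarith)
    have h3 : (k * r) / 4 + 387 / 1000 ≤ ((k * r) ^ 2 - 5625 / 10000) / 6 := by nlinarith
    have h4 : ((k * r) ^ 2 - 5625 / 10000) / 6 ≤ (k ^ 2 - 1) / 6 * r ^ 2 := by nlinarith
    linarith
  · have hx0 : 0 < x := by
      by_contra hcon
      push Not at hcon
      have : x = 0 := le_antisymm hcon hx
      rw [this, mul_zero] at h
      have := pi_pos
      linarith
    have hsx : 0 < sin x := sin_pos_of_pos_of_lt_pi hx0 (by have := pi_gt_three; linarith)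
    rcases le_or_gt (449 / 100) (k * x) with h4 | h4
    · have hc := tr_claim_odd hk0 hr' hx0 hxr h4
      have hs1 := tr_sin_lower hk0 hx0 (hxr.trans hr') h4
      refine (abs_sinc_le_inv (by positivity)).trans ?_
      rw [sinc_of_ne_zero hx0.ne']
      have h5 : 1 / (k * sin x) ≤ exp (-(log (k * sin r) / r ^ 2 * x ^ 2)) := by
        rw [exp_neg, ← one_div]
        apply one_div_le_one_div_of_le (exp_pos _)
        rw [← exp_log (show 0 < k * sin x by linarith)]
        exact exp_le_exp.mpr hc
      have h6 : sin x / x * (1 / (k * sin x)) = 1 / (k * x) := by field_simp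
      rw [← h6]
      exact mul_le_mul_of_nonneg_left h5 (by positivity)
    · set y := 449 / 100 / k with hy
      have hy0 : 0 < y := by positivity
      have hky : k * y = 449 / 100 := by rw [hy]; field_simp
      have hyr : y ≤ r := by
        rw [hy, div_le_iff₀ hk0]; linarith
      have hxy : x ≤ y := by
        rw [hy, le_div_iff₀ hk0]; linarith
      have hc := tr_claim_odd hk0 hr' hy0 hyr hky.ge
      have hs1 := tr_sin_lower hk0 hy0 (hyr.trans hr') hky.ge
      refine (abs_sinc_le_of_pi_le h.le).trans ?_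
      rw [sinc_of_ne_zero hx0.ne']
      have hratio := tr_sin_ratio hx0 hxy (hyr.trans hr')
      have hsy : sin y / y ≤ sin x / x := by
        rw [div_le_div_iff₀ hy0 hx0]; linarith
      have h5 : 1 / (k * sin y) ≤ exp (-(log (k * sin r) / r ^ 2 * x ^ 2)) := by
        rw [exp_neg, ← one_div]
        apply one_div_le_one_div_of_le (exp_pos _)
        rw [← exp_log (show 0 < k * sin y by linarith)]
        apply exp_le_exp.mpr
        refine le_trans ?_ hc
        apply mul_le_mul_of_nonneg_left (pow_le_pow_left₀ hx hxy 2)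
        apply div_nonneg (by linarith) (by positivity)
      have hsy0 : 0 < sin y := by
        by_contra hcon
        push Not at hcon
        nlinarith
      have h6 : sin y / y * (1 / (k * sin y)) = 100 / 449 := by
        have : sin y / y * (1 / (k * sin y)) = 1 / (k * y) := by field_simp
        rw [this, hky]; norm_num
      rw [← h6]
      exact mul_le_mul hsy h5 (by positivity) (by positivity)

theorem tail_rest_even {k r x : ℝ} (hk : 8 ≤ k) (hr : 57 / 100 ≤ r) (hr' : r ≤ 3 / 4) (hx : 0 ≤ x)
    (hxr : x ≤ r) :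
    |sinc (k * x)| ≤ exp (-(log (k * r) / r ^ 2 * x ^ 2)) := by
  have hk0 : 0 < k := by linarith
  have hr0 : 0 < r := by linarith
  have hkr : 456 / 100 ≤ k * r := by nlinarith
  have hL := tr_half_le_log (show 2 ≤ k * r by linarith)
  rcases le_or_gt (k * x) π with h | h
  · refine (abs_sinc_le_exp (by positivity) h).trans ?_
    apply exp_le_exp.mpr
    apply neg_le_neg
    have h2 := tr_log_le (show 45 / 10 ≤ k * r by linarith)
    have h3 : (k * r) / 4 + 387 / 1000 ≤ (k * r) ^ 2 / 6 := by nlinarith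
    have h4 : log (k * r) / r ^ 2 ≤ k ^ 2 / 6 := by
      rw [div_le_iff₀ (by positivity)]
      nlinarith
    calc log (k * r) / r ^ 2 * x ^ 2 ≤ k ^ 2 / 6 * x ^ 2 := mul_le_mul_of_nonneg_right h4 (by positivity)
      _ = (k * x) ^ 2 / 6 := by ring
  · have hx0 : 0 < x := by
      by_contra hcon
      push Not at hcon
      have : x = 0 := le_antisymm hcon hx
      rw [this, mul_zero] at h
      have := pi_pos
      linarith
    rcases le_or_gt (449 / 100) (k * x) with h4 | h4
    · have hc := tr_claim_even hk0 hx0 hxr h4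
      refine (abs_sinc_le_inv (by positivity)).trans ?_
      rw [exp_neg, ← one_div]
      apply one_div_le_one_div_of_le (exp_pos _)
      rw [← exp_log (show 0 < k * x by positivity)]
      rw [exp_log (show 0 < k * x by positivity)]
      rw [← exp_log (show 0 < k * x by positivity)]
      exact exp_le_exp.mpr hc
    · set y := 449 / 100 / k with hy
      have hy0 : 0 < y := by positivity
      have hky : k * y = 449 / 100 := by rw [hy]; field_simp
      have hyr : y ≤ r := by
        rw [hy, div_le_iff₀ hk0]; linarith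
      have hxy : x ≤ y := by
        rw [hy, le_div_iff₀ hk0]; linarith
      have hc := tr_claim_even hk0 hy0 hyr hky.ge
      refine (abs_sinc_le_of_pi_le h.le).trans ?_
      have h5 : 1 / (k * y) ≤ exp (-(log (k * r) / r ^ 2 * x ^ 2)) := by
        rw [exp_neg, ← one_div]
        apply one_div_le_one_div_of_le (exp_pos _)
        calc exp (log (k * r) / r ^ 2 * x ^ 2) ≤ exp (log (k * y)) := by
              apply exp_le_exp.mpr
              refine le_trans ?_ hc
              apply mul_le_mul_of_nonneg_left (pow_le_pow_left₀ hx hxy 2)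
              apply div_nonneg (by linarith) (by positivity)
          _ = k * y := exp_log (by positivity)
      rw [hky] at h5
      norm_num at h5 ⊢
      exact h5

end Pool.Agent.Helper95.SP.Crude
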