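import Pool.Agent.Helper95.SP.Crude.Cfg2
import Pool.Agent.Helper95.SP.Crude.Bet
import Pool.Agent.Helper95.SP.Crude.Copy
import Pool.Agent.Helper95.SP.Crude.BBx
import Pool.Agent.Helper95.SP.Crude.TailRest
import Pool.Agent.Helper95.SP.Crude.Lists
import Pool.Agent.Helper95.SP.Crude.SincB
import Pool.Agent.Helper95.SP.Crude.SumO
import Pool.Agent.Helper95.SP.Crude.ExpF
import Pool.Agent.Helper95.SP.Crude.ExpQ
import Pool.Agent.Helper95.SP.Crude.Adm2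

/-!
The even harmonics of the box test: the second one from below, the fourth, the sixth and the tail
(`k ≥ 8`) from above.
-/

set_option autoImplicit false

namespace Pool.Agent.Helper95.SP.Crude

open Real Finset

/-! ### small facts -/

theorem evt_pi_bounds : (3 : ℝ) < π ∧ π < 3.15 := ⟨pi_gt_three, pi_lt_d2⟩

theorem evt_dn_le (x : ℚ) : ((dn x : ℚ) : ℝ) ≤ (x : ℝ) := by exact_mod_cast dn_le x

theorem evt_sinc_anti {a b : ℝ} (ha : 0 ≤ a) (hab : a ≤ b) (hb : b ≤ π) : sinc b ≤ sinc a := by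
  rcases ha.eq_or_lt with h0 | ha'
  · rw [← h0, sinc_zero]; exact sinc_le_one b
  have hb0 : 0 < b := ha'.trans_le hab
  have hc := strictConcaveOn_sin_Icc.concaveOn.2
    (show (0 : ℝ) ∈ Set.Icc 0 π from ⟨le_rfl, by positivity⟩)
    (show b ∈ Set.Icc 0 π from ⟨hb0.le, hb⟩)
    (show (0 : ℝ) ≤ 1 - a / b by rw [sub_nonneg, div_le_one hb0]; exact hab)
    (show (0 : ℝ) ≤ a / b by positivity) (by ring)
  simp only [smul_eq_mul, mul_zero, zero_add, sin_zero] at hc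
  have e : a / b * b = a := by field_simp
  rw [e] at hc
  rw [sinc_of_ne_zero ha'.ne', sinc_of_ne_zero hb0.ne', div_le_div_iff₀ hb0 ha']
  have h1 : sin b * a = (a / b * sin b) * b := by field_simp
  rw [h1]
  exact mul_le_mul_of_nonneg_right hc hb0.le

theorem evt_sinc_nonneg {a : ℝ} (ha : 0 ≤ a) (hb : a ≤ π) : 0 ≤ sinc a := by
  have h := evt_sinc_anti ha hb le_rfl
  rwa [sinc_of_ne_zero pi_ne_zero, sin_pi, zero_div] at h

theorem evt_le_of_sq {a b : ℝ} (hb : 0 ≤ b) (h : a ^ 2 ≤ b ^ 2) : a ≤ b :=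
  le_trans (le_abs_self a) (by rw [← abs_of_nonneg hb]; exact abs_le_abs_of_sq_le_sq h)
where
  abs_le_abs_of_sq_le_sq {a b : ℝ} (h : a ^ 2 ≤ b ^ 2) : |a| ≤ |b| := sq_le_sq.mp h

/-- the bounds of the box -/
theorem evt_X1 {b : Bx} {X U Q C : ℝ} {c0 c1 : ℚ} (hb : Reg b X U Q C c0 c1) :
    b.X1 ≤ 112 / 100 := by
  have h1 := hb.x1
  by_contra h
  rw [not_le] at h
  nlinarith

theorem evt_Q1 {b : Bx} {X U Q C : ℝ} {c0 c1 : ℚ} (hb : Reg b X U Q C c0 c1) :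
    b.Q1 ≤ 105 / 100 := by
  have h1 := hb.q1
  by_contra h
  rw [not_le] at h
  unfold PH at h1
  nlinarith

theorem evt_s1 {b : Bx} {X U Q C : ℝ} {c0 c1 : ℚ} (hb : Reg b X U Q C c0 c1) :
    C ^ 2 ≤ (((b.X1 ^ 2 + b.U1 ^ 2) / 2 : ℚ) : ℝ) := by
  have h1 := hb.hCC
  have h2 : X ^ 2 ≤ (b.X1 : ℝ) ^ 2 :=
    pow_le_pow_left₀ (le_trans (by exact_mod_cast hb.x0) hb.hx0) hb.hx1 2
  have h3 : U ^ 2 ≤ (b.U1 : ℝ) ^ 2 :=
    pow_le_pow_left₀ (le_trans (by exact_mod_cast hb.u0) hb.hu0) hb.hu1 2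
  push_cast
  linarith

/-! ### the second harmonic -/

theorem evt_sc2_nonneg (x : ℚ) : 0 ≤ sc2 x := by
  unfold sc2
  split_ifs
  · exact le_max_left _ _
  · exact le_rfl

theorem evt_sc2 {x1 : ℚ} {x : ℝ} (h0 : 0 ≤ x) (h1 : x ≤ (x1 : ℝ)) (h2 : x ≤ 1.12) :
    ((sc2 x1 : ℚ) : ℝ) ≤ sinc (2 * x) := by
  have hpi := evt_pi_bounds
  have hn : 0 ≤ sinc (2 * x) := evt_sinc_nonneg (by linarith) (by linarith)
  unfold sc2
  split_ifs with h
  · have hx1 : (x1 : ℝ) ≤ 1 := by exact_mod_cast h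
    have h3 : sinc (2 * (x1 : ℝ)) ≤ sinc (2 * x) :=
      evt_sinc_anti (by linarith) (by linarith) (by linarith)
    have h4 := le_sinc_poly' (x := 2 * (x1 : ℝ)) (by linarith)
    rw [Rat.cast_max]
    push_cast
    exact max_le hn (h4.trans h3)
  · simpa using hn

theorem g2Q_nonneg {m n : ℕ} {w X U Q C : ℝ} {R : List ℝ} (_h : Cfg2 m n w X U Q C R) {b : Bx}
    {c0 c1 : ℚ} (_hb : Reg b X U Q C c0 c1) {Mhi : ℚ} (_hM : MM R ≤ (Mhi : ℝ)) :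
    0 ≤ g2Q m n b Mhi := by
  unfold g2Q
  have h1 : (0 : ℚ) ≤ if m = 1 then 1 else sc2 b.X1 ^ (m - 1) := by
    split_ifs
    · exact zero_le_one
    · exact pow_nonneg (evt_sc2_nonneg _) _
  have h2 : (0 : ℚ) ≤ if n = 0 then 1 else sc2 b.Q1 ^ n := by
    split_ifs
    · exact zero_le_one
    · exact pow_nonneg (evt_sc2_nonneg _) _
  have h3 : (0 : ℚ) ≤ 4 / PH ^ 2 := by unfold PH; norm_num
  exact mul_nonneg (mul_nonneg (mul_nonneg (mul_nonneg h3 (sq_nonneg _)) (eLoF_nonneg _)) h1) h2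

theorem evt_pow_ite {m : ℕ} {q : ℚ} : (((if m = 1 then 1 else q ^ (m - 1) : ℚ)) : ℝ) =
    (q : ℝ) ^ (m - 1) := by
  split_ifs with h
  · subst h; simp
  · push_cast; rfl

theorem evt_pow_ite' {n : ℕ} {q : ℚ} : (((if n = 0 then 1 else q ^ n : ℚ)) : ℝ) =
    (q : ℝ) ^ n := by
  split_ifs with h
  · subst h; simp
  · push_cast; rfl

theorem g2Q_sound {m n : ℕ} {w X U Q C : ℝ} {R : List ℝ} (h : Cfg2 m n w X U Q C R) {b : Bx}
    {c0 c1 : ℚ} (hb : Reg b X U Q C c0 c1) {Mhi : ℚ} (hM : MM R ≤ (Mhi : ℝ)) :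
    ((g2Q m n b Mhi : ℚ) : ℝ) * dd X U ≤ FF m n X U Q C R 2 / 4 := by
  have hpi := evt_pi_bounds
  have hPH := lt_PH
  rw [FF_eq]
  -- the bracket
  have hB := le_BB2' h.hU h.hUX h.hC.le h.hCC h.hX h.h9
  have hs1 := evt_s1 hb
  set s1 : ℚ := (b.X1 ^ 2 + b.U1 ^ 2) / 2 with hs1d
  have hs1u : (s1 : ℝ) ≤ 11 / 10 := by
    have h1 := hb.xu
    have h2 : s1 ≤ 11 / 10 := by
      rw [hs1d]
      unfold PL at h1
      linarith
    have h3 : ((s1 : ℚ) : ℝ) ≤ ((11 / 10 : ℚ) : ℝ) := by exact_mod_cast h2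
    exact h3.trans (le_of_eq (by norm_num))
  have hC0 := sq_nonneg C
  have hsq : (1 - 2614 / 10000 * (s1 : ℝ)) ^ 2 ≤ (1 - 2614 / 10000 * C ^ 2) ^ 2 :=
    pow_le_pow_left₀ (by linarith) (by linarith) 2
  have hPH0 : (0 : ℝ) < ((PH : ℚ) : ℝ) := lt_trans (by positivity) hPH
  have h4 : 4 / ((PH : ℚ) : ℝ) ^ 2 ≤ 4 / π ^ 4 := by
    apply div_le_div_of_nonneg_left (by norm_num) (by positivity)
    calc π ^ 4 = (π ^ 2) ^ 2 := by ring
      _ ≤ ((PH : ℚ) : ℝ) ^ 2 := pow_le_pow_left₀ (by positivity) hPH.le 2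
  have hbr : 4 / ((PH : ℚ) : ℝ) ^ 2 * (1 - 2614 / 10000 * (s1 : ℝ)) ^ 2 * dd X U ≤
      BB X U C 2 / 4 := by
    have h5 : 4 / ((PH : ℚ) : ℝ) ^ 2 * (1 - 2614 / 10000 * (s1 : ℝ)) ^ 2 ≤
        4 / π ^ 4 * (1 - 2614 / 10000 * C ^ 2) ^ 2 :=
      mul_le_mul h4 hsq (sq_nonneg _) (by positivity)
    have h6 := mul_le_mul_of_nonneg_right h5 h.dd_pos.le
    refine h6.trans ?_
    have e : 4 / π ^ 4 * (1 - 2614 / 10000 * C ^ 2) ^ 2 * dd X U =
        (((X ^ 2 - U ^ 2) / 2) ^ 2 * (16 / π ^ 4 * (1 - 2614 / 10000 * C ^ 2) ^ 2)) / 4 := by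
      unfold dd; ring
    rw [e]
    exact div_le_div_of_nonneg_right hB (by norm_num)
  -- the rest
  have hMM := MM_nonneg R
  have hMhi0 : (0 : ℝ) ≤ (Mhi : ℝ) := hMM.trans hM
  have hup : (727 / 1000 * (Mhi : ℝ)) ≤ ((up (727 / 1000 * Mhi) : ℚ) : ℝ) := by
    have := le_up (727 / 1000 * Mhi)
    have h7 : ((727 / 1000 * Mhi : ℚ) : ℝ) ≤ ((up (727 / 1000 * Mhi) : ℚ) : ℝ) := by
      exact_mod_cast this
    push_cast at h7
    exact h7
  have hup0 : (0 : ℚ) ≤ up (727 / 1000 * Mhi) := by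
    have : (0 : ℝ) ≤ ((up (727 / 1000 * Mhi) : ℚ) : ℝ) := le_trans (by positivity) hup
    exact_mod_cast this
  have hP : ((eLoF (up (727 / 1000 * Mhi)) : ℚ) : ℝ) ≤ PP R 2 := by
    have h7 : exp (-(727 / 1000 * (R.map fun x => x ^ 2).sum)) ≤ PP R 2 :=
      exp_le_PP fun x hx => le_sinc_two_mul (h.hR x hx).1 (h.hR x hx).2
    refine (eLoF_sound hup0).trans (le_trans (exp_le_exp.mpr ?_) h7)
    have : MM R = (R.map fun x => x ^ 2).sum := rfl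
    rw [← this]
    linarith [mul_le_mul_of_nonneg_left hM (by norm_num : (0 : ℝ) ≤ 727 / 1000)]
  have hX2 : ((sc2 b.X1 : ℚ) : ℝ) ^ (m - 1) ≤ sinc (2 * X) ^ (m - 1) :=
    pow_le_pow_left₀ (by exact_mod_cast evt_sc2_nonneg _)
      (evt_sc2 h.X0.le hb.hx1 h.X_le) _
  have hQ2 : ((sc2 b.Q1 : ℚ) : ℝ) ^ n ≤ sinc (2 * Q) ^ n :=
    pow_le_pow_left₀ (by exact_mod_cast evt_sc2_nonneg _)
      (evt_sc2 h.hQ hb.hq1 (by linarith [h.Q_le])) _
  have hx0 : (0 : ℝ) ≤ ((sc2 b.X1 : ℚ) : ℝ) ^ (m - 1) :=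
    pow_nonneg (by exact_mod_cast evt_sc2_nonneg _) _
  have hq0 : (0 : ℝ) ≤ ((sc2 b.Q1 : ℚ) : ℝ) ^ n :=
    pow_nonneg (by exact_mod_cast evt_sc2_nonneg _) _
  have he0 : (0 : ℝ) ≤ ((eLoF (up (727 / 1000 * Mhi)) : ℚ) : ℝ) := by
    exact_mod_cast eLoF_nonneg _
  have hbr0 : 0 ≤ 4 / ((PH : ℚ) : ℝ) ^ 2 * (1 - 2614 / 10000 * (s1 : ℝ)) ^ 2 * dd X U :=
    mul_nonneg (by positivity) h.dd_pos.le
  have e1 : ((g2Q m n b Mhi : ℚ) : ℝ) * dd X U =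
      ((sc2 b.X1 : ℚ) : ℝ) ^ (m - 1) * ((sc2 b.Q1 : ℚ) : ℝ) ^ n *
        ((eLoF (up (727 / 1000 * Mhi)) : ℚ) : ℝ) *
        (4 / ((PH : ℚ) : ℝ) ^ 2 * (1 - 2614 / 10000 * (s1 : ℝ)) ^ 2 * dd X U) := by
    unfold g2Q
    rw [← hs1d, Rat.cast_mul, Rat.cast_mul, evt_pow_ite, evt_pow_ite']
    push_cast
    ring
  rw [e1, mul_div_assoc]
  exact mul_le_mul (mul_le_mul (mul_le_mul hX2 hQ2 hq0 (hx0.trans hX2)) hP he0
    (mul_nonneg (hx0.trans hX2) (hq0.trans hQ2))) hbr hbr0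
    (mul_nonneg (mul_nonneg (hx0.trans hX2) (hq0.trans hQ2)) (he0.trans hP))

/-! ### the fourth and the sixth harmonic -/

theorem evt_cop {b : Bx} {X U Q C : ℝ} {c0 c1 : ℚ} (hb : Reg b X U Q C c0 c1) (m n : ℕ)
    {k : ℕ} (hk : 1 ≤ k) (hk25 : k ≤ 25) :
    |sinc (k * X)| ^ (m - 1) * |sinc (k * Q)| ^ n ≤ ((cop qE k m n b : ℚ) : ℝ) := by
  have hX1 := evt_X1 hb
  have hQ1 := evt_Q1 hb
  have h1 := qE_sound hk hk25 hb.x0 hb.hx0 hb.hx1 hX1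
  have h2 := qE_sound hk hk25 hb.q0 hb.hq0 hb.hq1 (hQ1.trans (by norm_num))
  unfold cop
  rw [Rat.cast_mul, evt_pow_ite, evt_pow_ite']
  exact mul_le_mul (pow_le_pow_left₀ (abs_nonneg _) h1 _) (pow_le_pow_left₀ (abs_nonneg _) h2 _)
    (pow_nonneg (abs_nonneg _) _) (pow_nonneg ((abs_nonneg _).trans h1) _)

theorem evt_term {m n : ℕ} {X U Q C : ℝ} {R : List ℝ} {b : Bx}
    {c0 c1 : ℚ} (hb : Reg b X U Q C c0 c1) {kb : ℕ} {k : ℕ} (hk : 1 ≤ k) (hk25 : k ≤ 25)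
    {E : ℚ} (hE : 0 ≤ E) (hP : |PP R k| ≤ exp (-(E : ℝ))) :
    |FF m n X U Q C R k| ≤ ((betQ kb k c0 c1 b * cop qE k m n b * eUpF (dn E) : ℚ) : ℝ) *
      dd X U := by
  have hP' : |PP R k| ≤ ((eUpF (dn E) : ℚ) : ℝ) := by
    refine hP.trans (le_trans (exp_le_exp.mpr ?_) (eUpF_sound (dn_nonneg hE)))
    have := evt_dn_le E
    linarith
  have hB := betQ_sound hb (kb := kb) hk hk25
  have hc := evt_cop hb m n hk hk25
  have hc0 : (0 : ℝ) ≤ |sinc (k * X)| ^ (m - 1) * |sinc (k * Q)| ^ n := by positivity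
  rw [FF_eq, abs_mul, abs_mul, abs_mul, abs_pow, abs_pow]
  have e : ((betQ kb k c0 c1 b * cop qE k m n b * eUpF (dn E) : ℚ) : ℝ) * dd X U =
      ((cop qE k m n b : ℚ) : ℝ) * ((eUpF (dn E) : ℚ) : ℝ) *
        (((betQ kb k c0 c1 b : ℚ) : ℝ) * dd X U) := by
    push_cast
    ring
  rw [e]
  exact mul_le_mul (mul_le_mul hc hP' (abs_nonneg _) (hc0.trans hc)) hB (abs_nonneg _)
    (mul_nonneg (hc0.trans hc) ((abs_nonneg _).trans hP'))

theorem s4Q_sound {m n : ℕ} {w X U Q C : ℝ} {R : List ℝ} (h : Cfg2 m n w X U Q C R) {b : Bx}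
    {c0 c1 : ℚ} (hb : Reg b X U Q C c0 c1) {kb : ℕ} {Mlo : ℚ} (h0 : 0 ≤ Mlo)
    (hM : (Mlo : ℝ) ≤ MM R) :
    |FF m n X U Q C R 4| / 16 ≤ ((s4Q kb m n c0 c1 b Mlo : ℚ) : ℝ) * dd X U := by
  have hP : |PP R ((4 : ℕ) : ℝ)| ≤ exp (-((8 / 3 * Mlo : ℚ) : ℝ)) := by
    have h1 : |PP R ((4 : ℕ) : ℝ)| ≤ exp (-(8 / 3 * (R.map fun x => x ^ 2).sum)) :=
      abs_PP_le_exp' fun x hx =>
        abs_sinc_mul_le_four (by norm_num) (h.hR x hx).1 (h.hR x hx).2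
    refine h1.trans (exp_le_exp.mpr ?_)
    have : MM R = (R.map fun x => x ^ 2).sum := rfl
    rw [← this]
    push_cast
    linarith
  have h2 := evt_term (m := m) (n := n) hb (kb := kb) (k := 4) (by norm_num) (by norm_num)
    (mul_nonneg (by norm_num) h0) hP
  rw [Nat.cast_ofNat] at h2
  refine (div_le_div_of_nonneg_right h2 (by norm_num)).trans (le_of_eq ?_)
  unfold s4Q
  push_cast
  ring

theorem s6Q_sound {m n : ℕ} {w X U Q C : ℝ} {R : List ℝ} (h : Cfg2 m n w X U Q C R) {b : Bx}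
    {c0 c1 : ℚ} (hb : Reg b X U Q C c0 c1) {kb j : ℕ} (_hj : j < 181)
    (hR : ∀ x ∈ R, x ≤ ((gr2 j : ℚ) : ℝ)) {Mlo : ℚ} (h0 : 0 ≤ Mlo) (hM : (Mlo : ℝ) ≤ MM R) :
    |FF m n X U Q C R 6| / 36 ≤ ((s6Q kb m n j c0 c1 b Mlo : ℚ) : ℝ) * dd X U := by
  have hg : (0 : ℝ) < ((gr2 j : ℚ) : ℝ) := by exact_mod_cast gr2_pos j
  have hg0 : 0 < gr2 j := gr2_pos j
  have hmin : (0 : ℚ) ≤ min 6 (3 / 2 / gr2 j ^ 2) := le_min (by norm_num) (by positivity)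
  have hP : |PP R ((6 : ℕ) : ℝ)| ≤ exp (-((min 6 (3 / 2 / gr2 j ^ 2) * Mlo : ℚ) : ℝ)) := by
    have h1 : |PP R ((6 : ℕ) : ℝ)| ≤
        exp (-(min 6 (3 / 2 / ((gr2 j : ℚ) : ℝ) ^ 2) * (R.map fun x => x ^ 2).sum)) :=
      abs_PP_le_exp' fun x hx =>
        abs_sinc_mul_le_six (by norm_num) (h.hR x hx).1 (hR x hx) hg
    refine h1.trans (exp_le_exp.mpr ?_)
    have : MM R = (R.map fun x => x ^ 2).sum := rfl
    rw [← this, Rat.cast_mul, Rat.cast_min]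
    push_cast
    have hm0 : (0 : ℝ) ≤ min 6 (3 / 2 / ((gr2 j : ℚ) : ℝ) ^ 2) :=
      le_min (by norm_num) (by positivity)
    linarith [mul_le_mul_of_nonneg_left hM hm0]
  have h2 := evt_term (m := m) (n := n) hb (kb := kb) (k := 6) (by norm_num) (by norm_num)
    (mul_nonneg hmin h0) hP
  rw [Nat.cast_ofNat] at h2
  refine (div_le_div_of_nonneg_right h2 (by norm_num)).trans (le_of_eq ?_)
  unfold s6Q
  push_cast
  ring

/-! ### the tail -/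

/-- a copy at an even harmonic `k ≥ 8` -/
theorem evt_copy {X0 : ℚ} {X : ℝ} (h1 : (X0 : ℝ) ≤ X) {k : ℝ} (hk : 8 ≤ k) :
    |sinc (k * X)| ≤ ((cfE X0 : ℚ) : ℝ) * (8 / k) ^ (if 1 < 8 * X0 then (1 : ℝ) else 0) := by
  have hk0 : 0 < k := by linarith
  unfold cfE
  split_ifs with h
  · have hX0 : (1 : ℝ) < 8 * (X0 : ℝ) := by exact_mod_cast h
    have hX : 0 < X := by linarith
    refine (abs_sinc_le_inv (mul_pos hk0 hX)).trans ?_
    rw [rpow_one]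
    push_cast
    have e : 1 / (8 * (X0 : ℝ)) * (8 / k) = 1 / (k * X0) := by
      have : (X0 : ℝ) ≠ 0 := by intro h0; rw [h0] at hX0; norm_num at hX0
      field_simp
    rw [e]
    apply div_le_div_of_nonneg_left (by norm_num) (mul_pos hk0 (by linarith))
    exact mul_le_mul_of_nonneg_left h1 hk0.le
  · rw [rpow_zero]
    simpa using abs_sinc_le_one _

theorem evt_cfE_nonneg (X0 : ℚ) : 0 ≤ cfE X0 := by
  unfold cfE
  split_ifs with h
  · apply div_nonneg zero_le_one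
    linarith
  · exact zero_le_one

theorem evt_copy_pow {X0 : ℚ} {X : ℝ} (h1 : (X0 : ℝ) ≤ X) {k : ℝ} (hk : 8 ≤ k) (m : ℕ) :
    |sinc (k * X)| ^ m ≤ ((cfE X0 : ℚ) : ℝ) ^ m *
      (8 / k) ^ (((if 1 < 8 * X0 then (m : ℚ) else 0 : ℚ)) : ℝ) := by
  have hk0 : 0 < k := by linarith
  have h8 : (0 : ℝ) ≤ 8 / k := by positivity
  refine (pow_le_pow_left₀ (abs_nonneg _) (evt_copy h1 hk) m).trans (le_of_eq ?_)
  rw [mul_pow, ← rpow_natCast ((8 / k) ^ _), ← rpow_mul h8]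
  congr 2
  split_ifs <;> simp

/-- the rest at an even harmonic `k ≥ 8` -/
theorem evt_rest {R : List ℝ} (hR0 : ∀ x ∈ R, 0 ≤ x) {j : ℕ} (hj : j < 181)
    (hR : ∀ x ∈ R, x ≤ ((gr2 j : ℚ) : ℝ)) {Mlo : ℚ} (h0 : 0 ≤ Mlo) (hM : (Mlo : ℝ) ≤ MM R)
    {k : ℝ} (hk : 8 ≤ k) :
    |PP R k| ≤ ((eUpF (dn (3 / 2 * (Mlo / (max (gr2 j) (57 / 100)) ^ 2))) : ℚ) : ℝ) *
      (8 / k) ^ (((Mlo / (max (gr2 j) (57 / 100)) ^ 2 : ℚ)) : ℝ) := by
  have hk0 : 0 < k := by linarith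
  set r : ℚ := max (gr2 j) (57 / 100) with hr
  have hr1 : 57 / 100 ≤ r := le_max_right _ _
  have hr2 : r ≤ 3 / 4 := max_le (gr2_le hj) (by norm_num)
  have hr1' : (57 / 100 : ℝ) ≤ (r : ℝ) := by
    have : ((57 / 100 : ℚ) : ℝ) ≤ (r : ℝ) := by exact_mod_cast hr1
    exact le_trans (le_of_eq (by norm_num)) this
  have hr2' : (r : ℝ) ≤ 3 / 4 := by
    have : (r : ℝ) ≤ ((3 / 4 : ℚ) : ℝ) := by exact_mod_cast hr2
    exact this.trans (le_of_eq (by norm_num))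
  have hr0 : (0 : ℝ) < (r : ℝ) := by linarith
  have hgr : ((gr2 j : ℚ) : ℝ) ≤ (r : ℝ) := by exact_mod_cast le_max_left _ _
  have h1 : |PP R k| ≤ exp (-(log (k * r) / (r : ℝ) ^ 2 * (R.map fun x => x ^ 2).sum)) :=
    abs_PP_le_exp' fun x hx =>
      tail_rest_even hk hr1' hr2' (hR0 x hx) ((hR x hx).trans hgr)
  have hMM : MM R = (R.map fun x => x ^ 2).sum := rfl
  rw [← hMM] at h1
  set a : ℚ := Mlo / r ^ 2 with ha
  have ha0 : 0 ≤ a := div_nonneg h0 (sq_nonneg _)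
  have ha0' : (0 : ℝ) ≤ (a : ℝ) := by exact_mod_cast ha0
  have hae : (a : ℝ) = (Mlo : ℝ) / (r : ℝ) ^ 2 := by rw [ha]; push_cast; rfl
  have hlog8 : (3 / 2 : ℝ) ≤ log (8 * r) := by
    have h2 : (449 / 100 : ℝ) ≤ 8 * (r : ℝ) := by linarith
    have h3 : (3 / 2 : ℝ) ≤ log (449 / 100) := by
      rw [le_log_iff_exp_le (by norm_num)]
      have h4 := inv_le_exp_neg
      rw [exp_neg, ← one_div, div_le_div_iff₀ (by norm_num) (exp_pos _)] at h4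
      linarith
    exact h3.trans (log_le_log (by norm_num) h2)
  have hlogk : log (k * r) = log (k / 8) + log (8 * r) := by
    rw [← log_mul (by positivity) (by positivity)]
    congr 1
    field_simp
  have hlk : 0 ≤ log (k / 8) := log_nonneg (by rw [le_div_iff₀ (by norm_num)]; linarith)
  have hL0 : 0 ≤ log (k * r) := by rw [hlogk]; linarith
  have h5 : log (k * r) * (a : ℝ) ≤ log (k * r) / (r : ℝ) ^ 2 * MM R := by
    rw [hae]
    calc log (k * r) * ((Mlo : ℝ) / (r : ℝ) ^ 2) = log (k * r) / (r : ℝ) ^ 2 * Mlo := by ring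
      _ ≤ _ := mul_le_mul_of_nonneg_left hM (by positivity)
  have h6 : exp (-(log (k * r) * (a : ℝ))) ≤ exp (-((3 / 2 * a : ℚ) : ℝ)) *
      (8 / k) ^ (a : ℝ) := by
    have e8 : (8 / k) ^ (a : ℝ) = exp (-(log (k / 8) * a)) := by
      rw [rpow_def_of_pos (by positivity)]
      congr 1
      rw [show (8 : ℝ) / k = (k / 8)⁻¹ by rw [inv_div], log_inv]
      ring
    rw [e8, ← exp_add]
    apply exp_le_exp.mpr
    rw [hlogk]
    push_cast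
    have := mul_le_mul_of_nonneg_right hlog8 ha0'
    linarith
  have h7 : exp (-((3 / 2 * a : ℚ) : ℝ)) ≤ ((eUpF (dn (3 / 2 * a)) : ℚ) : ℝ) := by
    have h8 : (0 : ℚ) ≤ 3 / 2 * a := mul_nonneg (by norm_num) ha0
    refine le_trans (exp_le_exp.mpr ?_) (eUpF_sound (dn_nonneg h8))
    have := evt_dn_le (3 / 2 * a)
    linarith
  refine h1.trans ((exp_le_exp.mpr (by linarith)).trans (h6.trans ?_))
  exact mul_le_mul_of_nonneg_right h7 (rpow_nonneg (by positivity) _)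

/-- all factors but the bracket at an even harmonic `k ≥ 8` -/
theorem evt_com {m n : ℕ} {w X U Q C : ℝ} {R : List ℝ} (h : Cfg2 m n w X U Q C R) {b : Bx}
    {c0 c1 : ℚ} (hb : Reg b X U Q C c0 c1) {j : ℕ} (hj : j < 181)
    (hR : ∀ x ∈ R, x ≤ ((gr2 j : ℚ) : ℝ)) {Mlo : ℚ} (h0 : 0 ≤ Mlo) (hM : (Mlo : ℝ) ≤ MM R)
    {k : ℝ} (hk : 8 ≤ k) :
    |FF m n X U Q C R k| ≤ ((comE m n j b Mlo : ℚ) : ℝ) * (8 / k) ^ ((aE m n j b Mlo : ℚ) : ℝ) *
      |BB X U C k| := by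
  have hk0 : 0 < k := by linarith
  have h8 : (0 : ℝ) < 8 / k := by positivity
  have h1 := evt_copy_pow hb.hx0 hk (m - 1)
  have h2 := evt_copy_pow hb.hq0 hk n
  have h3 := evt_rest (fun x hx => (h.hR x hx).1) hj hR h0 hM hk
  rw [FF_eq, abs_mul, abs_mul, abs_mul, abs_pow, abs_pow]
  refine mul_le_mul_of_nonneg_right ?_ (abs_nonneg _)
  have hc1 : (0 : ℝ) ≤ ((cfE b.X0 : ℚ) : ℝ) := by exact_mod_cast evt_cfE_nonneg _
  have hc2 : (0 : ℝ) ≤ ((cfE b.Q0 : ℚ) : ℝ) := by exact_mod_cast evt_cfE_nonneg _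
  refine (mul_le_mul (mul_le_mul h1 h2 (by positivity) (by positivity)) h3 (abs_nonneg _)
    (by positivity)).trans (le_of_eq ?_)
  unfold comE aE
  push_cast
  rw [rpow_add h8, rpow_add h8]
  ring

theorem seQ_sound {m n : ℕ} {w X U Q C : ℝ} {R : List ℝ} (h : Cfg2 m n w X U Q C R) {b : Bx}
    {c0 c1 : ℚ} (hb : Reg b X U Q C c0 c1) {j : ℕ} (hj : j < 181)
    (hR : ∀ x ∈ R, x ≤ ((gr2 j : ℚ) : ℝ)) {Mlo : ℚ} (h0 : 0 ≤ Mlo) (hM : (Mlo : ℝ) ≤ MM R)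
    (hst : seOK m n j b Mlo = true) (N : ℕ) :
    ∑ i ∈ range N, |FF m n X U Q C R (2 * (i : ℝ) + 8)| / (2 * (i : ℝ) + 8) ^ 2 ≤
      ((seQ m n j b Mlo : ℚ) : ℝ) * dd X U := by
  set a : ℚ := aE m n j b Mlo with ha
  set com : ℚ := comE m n j b Mlo with hcom
  have ha0 : 0 ≤ a := by
    rw [ha]
    unfold aE
    refine add_nonneg (add_nonneg (div_nonneg h0 (sq_nonneg _)) ?_) ?_
    · split_ifs
      · exact Nat.cast_nonneg _
      · exact le_rfl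
    · split_ifs
      · exact Nat.cast_nonneg _
      · exact le_rfl
  have ha0' : (0 : ℝ) ≤ (a : ℝ) := by exact_mod_cast ha0
  have hcom0 : 0 ≤ com := by
    rw [hcom]
    unfold comE
    exact mul_nonneg (mul_nonneg (pow_nonneg (evt_cfE_nonneg _) _)
      (pow_nonneg (evt_cfE_nonneg _) _)) (eUpF_nonneg _)
  have hcom0' : (0 : ℝ) ≤ (com : ℝ) := by exact_mod_cast hcom0
  have hdd := h.dd_pos
  have hk8 : ∀ i : ℕ, (8 : ℝ) ≤ 2 * (i : ℝ) + 8 := fun i => by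
    have : (0 : ℝ) ≤ (i : ℝ) := Nat.cast_nonneg i
    linarith
  have hF : ∀ i : ℕ, |FF m n X U Q C R (2 * (i : ℝ) + 8)| ≤
      (com : ℝ) * (8 / (2 * (i : ℝ) + 8)) ^ (a : ℝ) * |BB X U C (2 * (i : ℝ) + 8)| :=
    fun i => evt_com h hb hj hR h0 hM (hk8 i)
  -- first bound
  have T1 : bbOK 8 b = true → ∑ i ∈ range N, |FF m n X U Q C R (2 * (i : ℝ) + 8)| /
      (2 * (i : ℝ) + 8) ^ 2 ≤
      ((upp (bbS 8 b) * com * (1 / 64 + 1 / (16 * (1 + a))) : ℚ) : ℝ) * dd X U := by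
    intro hok
    have hs := sum_even_le N (b := (a : ℝ)) (by linarith)
    have hup : ((bbS 8 b : ℚ) : ℝ) ≤ ((upp (bbS 8 b) : ℚ) : ℝ) := by exact_mod_cast le_upp _
    have hB : ∀ i : ℕ, |BB X U C (2 * (i : ℝ) + 8)| ≤ ((upp (bbS 8 b) : ℚ) : ℝ) * dd X U :=
      fun i => (bbS_sound hb (k := 8) (by norm_num) (by exact_mod_cast hk8 i) hok).trans
        (mul_le_mul_of_nonneg_right hup hdd.le)
    have hup0 : (0 : ℝ) ≤ ((upp (bbS 8 b) : ℚ) : ℝ) * dd X U := (abs_nonneg _).trans (hB 0)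
    calc ∑ i ∈ range N, |FF m n X U Q C R (2 * (i : ℝ) + 8)| / (2 * (i : ℝ) + 8) ^ 2
        ≤ ∑ i ∈ range N, (((upp (bbS 8 b) : ℚ) : ℝ) * dd X U * com) *
          (1 / (2 * (i : ℝ) + 8) ^ 2 * (8 / (2 * (i : ℝ) + 8)) ^ (a : ℝ)) := by
          refine sum_le_sum fun i _ => ?_
          have hk := hk8 i
          have hk0 : (0 : ℝ) < 2 * (i : ℝ) + 8 := by linarith
          have h1 : |FF m n X U Q C R (2 * (i : ℝ) + 8)| ≤
              (com : ℝ) * (8 / (2 * (i : ℝ) + 8)) ^ (a : ℝ) *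
                (((upp (bbS 8 b) : ℚ) : ℝ) * dd X U) :=
            (hF i).trans (mul_le_mul_of_nonneg_left (hB i)
              (mul_nonneg hcom0' (rpow_nonneg (by positivity) _)))
          refine (div_le_div_of_nonneg_right h1 (by positivity)).trans (le_of_eq ?_)
          ring
      _ = (((upp (bbS 8 b) : ℚ) : ℝ) * dd X U * com) * ∑ i ∈ range N,
          (1 / (2 * (i : ℝ) + 8) ^ 2 * (8 / (2 * (i : ℝ) + 8)) ^ (a : ℝ)) := by
          rw [mul_sum]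
      _ ≤ (((upp (bbS 8 b) : ℚ) : ℝ) * dd X U * com) * (1 / 64 + 1 / (16 * (1 + (a : ℝ)))) :=
          mul_le_mul_of_nonneg_left hs (mul_nonneg hup0 hcom0')
      _ = _ := by
          push_cast
          ring
  -- second bound
  have T2 : 3 < a → ∑ i ∈ range N, |FF m n X U Q C R (2 * (i : ℝ) + 8)| /
      (2 * (i : ℝ) + 8) ^ 2 ≤
      ((8 ^ 4 / 90 * com * (1 / 64 + 1 / (16 * (a - 3))) : ℚ) : ℝ) * dd X U := by
    intro ha3
    have ha3' : (3 : ℝ) < (a : ℝ) := by exact_mod_cast ha3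
    have hs := sum_even_le N (b := (a : ℝ) - 4) (by linarith)
    calc ∑ i ∈ range N, |FF m n X U Q C R (2 * (i : ℝ) + 8)| / (2 * (i : ℝ) + 8) ^ 2
        ≤ ∑ i ∈ range N, (8 ^ 4 / 90 * com * dd X U) *
          (1 / (2 * (i : ℝ) + 8) ^ 2 * (8 / (2 * (i : ℝ) + 8)) ^ ((a : ℝ) - 4)) := by
          refine sum_le_sum fun i _ => ?_
          have hk := hk8 i
          have hk0 : (0 : ℝ) < 2 * (i : ℝ) + 8 := by linarith
          have hB := BB_univ h.hU h.hUX h.hC h.hCC hk0.le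
          have h1 := (hF i).trans (mul_le_mul_of_nonneg_left hB
              (mul_nonneg hcom0' (rpow_nonneg (by positivity) _)))
          refine (div_le_div_of_nonneg_right h1 (by positivity)).trans (le_of_eq ?_)
          have h8 : (0 : ℝ) < 8 / (2 * (i : ℝ) + 8) := by positivity
          have e4 : (8 / (2 * (i : ℝ) + 8)) ^ ((a : ℝ) - 4) =
              (8 / (2 * (i : ℝ) + 8)) ^ (a : ℝ) / (8 / (2 * (i : ℝ) + 8)) ^ 4 := by
            rw [rpow_sub h8]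
            congr 1
            rw [← rpow_natCast]
            norm_num
          rw [e4]
          field_simp
      _ = (8 ^ 4 / 90 * com * dd X U) * ∑ i ∈ range N,
          (1 / (2 * (i : ℝ) + 8) ^ 2 * (8 / (2 * (i : ℝ) + 8)) ^ ((a : ℝ) - 4)) := by
          rw [mul_sum]
      _ ≤ (8 ^ 4 / 90 * com * dd X U) * (1 / 64 + 1 / (16 * (1 + ((a : ℝ) - 4)))) :=
          mul_le_mul_of_nonneg_left hs (mul_nonneg (by positivity) hdd.le)
      _ = _ := by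
          push_cast
          rw [show (1 : ℝ) + ((a : ℝ) - 4) = (a : ℝ) - 3 by ring]
          ring
  unfold seQ
  rw [← ha, ← hcom]
  dsimp only
  unfold seOK at hst
  rw [← ha] at hst
  by_cases hok : bbOK 8 b = true
  · rw [if_pos hok]
    split_ifs with h3
    · rw [Rat.cast_min, min_mul_of_nonneg _ _ hdd.le]
      exact le_min (T1 hok) (T2 h3)
    · exact T1 hok
  · rw [if_neg hok]
    have h3 : 3 < a := by
      rw [Bool.or_eq_true] at hst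
      rcases hst with h4 | h4
      · exact absurd h4 hok
      · exact of_decide_eq_true h4
    exact T2 h3

end Pool.Agent.Helper95.SP.Crude
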