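import Pool.Agent.Helper95.SP.Crude.Cfg2
import Pool.Agent.Helper95.SP.Crude.Bet
import Pool.Agent.Helper95.SP.Crude.TailRest
import Pool.Agent.Helper95.SP.Crude.Lists
import Pool.Agent.Helper95.SP.Crude.SumO
import Pool.Agent.Helper95.SP.Crude.SinR
import Pool.Agent.Helper95.SP.Crude.ExpF
import Pool.Agent.Helper95.SP.Crude.ExpQ

/-! The odd harmonics `k ≥ 27` (SP-wave 2, module TailO). -/

set_option autoImplicit false

namespace Pool.Agent.Helper95.SP.Crude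

open Real Finset

/-- a copy at a harmonic `κ ≥ 27` -/
private theorem tailO_copy {X0 : ℚ} {X : ℝ} (h0 : 0 ≤ X0) (h1 : (X0 : ℝ) ≤ X) (h2 : X ≤ 1.12)
    (κ : ℕ) (hκ : 27 ≤ κ) (p : ℕ) :
    |sinc ((κ : ℝ) * X)| ^ p ≤ sinc X ^ p * (((cfO X0 : ℚ) : ℝ) ^ p *
      (27 / (κ : ℝ)) ^ (((if 1 < 27 * sinL X0 then (p : ℚ) else 0 : ℚ)) : ℝ)) := by
  have h0' : (0 : ℝ) ≤ X0 := by exact_mod_cast h0
  have hX0 : 0 ≤ X := h0'.trans h1
  have hpi := pi_gt_three
  have hs : 0 < sinc X := sinc_pos' hX0 (by norm_num at h2 ⊢; linarith)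
  have hκ0 : (0 : ℝ) < κ := by
    have : 0 < κ := by omega
    exact_mod_cast this
  have hX060 : X0 ≤ 60 := by
    have : (X0 : ℝ) ≤ 60 := by norm_num at h2; linarith
    exact_mod_cast this
  unfold cfO
  split_ifs with hc
  · -- the case of a positive bound
    have hc' : (1 : ℝ) < 27 * ((sinL X0 : ℚ) : ℝ) := by exact_mod_cast hc
    have hsl : 0 < ((sinL X0 : ℚ) : ℝ) := by linarith
    have h3 : ((sinL X0 : ℚ) : ℝ) ≤ sin X := by
      refine (sinL_sound h0 hX060).trans ?_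
      apply sin_le_sin_of_le_of_le_pi_div_two (by linarith) (by norm_num at h2; linarith) h1
    have hXpos : 0 < X := by
      rcases hX0.eq_or_lt with h | h
      · rw [← h, sin_zero] at h3; linarith
      · exact h
    have h4 : |sinc ((κ : ℝ) * X)| ≤ sinc X * (1 / (27 * ((sinL X0 : ℚ) : ℝ)) * (27 / (κ : ℝ))) := by
      have e1 : sinc X = sin X / X := sinc_of_ne_zero hXpos.ne'
      have e2 : sinc ((κ : ℝ) * X) = sin ((κ : ℝ) * X) / ((κ : ℝ) * X) :=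
        sinc_of_ne_zero (mul_pos hκ0 hXpos).ne'
      rw [e1, e2, abs_div, abs_of_pos (mul_pos hκ0 hXpos)]
      have h5 : |sin ((κ : ℝ) * X)| / ((κ : ℝ) * X) ≤ 1 / ((κ : ℝ) * X) :=
        div_le_div_of_nonneg_right (abs_sin_le_one _) (mul_pos hκ0 hXpos).le
      refine h5.trans ?_
      have e3 : sin X / X * (1 / (27 * ((sinL X0 : ℚ) : ℝ)) * (27 / (κ : ℝ))) =
          (sin X / ((sinL X0 : ℚ) : ℝ)) * (1 / ((κ : ℝ) * X)) := by
        field_simp
      rw [e3]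
      refine le_mul_of_one_le_left (by positivity) ?_
      rw [le_div_iff₀ hsl, one_mul]
      exact h3
    have h6 := pow_le_pow_left₀ (abs_nonneg _) h4 p
    refine h6.trans (le_of_eq ?_)
    rw [mul_pow, mul_pow]
    push_cast
    rw [Real.rpow_natCast]
  · have h4 : |sinc ((κ : ℝ) * X)| ≤ sinc X := by
      rcases hX0.eq_or_lt with h | h
      · rw [← h, mul_zero, sinc_zero, abs_one]
      · rw [sinc_of_ne_zero h.ne', sinc_of_ne_zero (mul_pos hκ0 h).ne', abs_div,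
          abs_of_pos (mul_pos hκ0 h)]
        have h5 := abs_sin_nat_mul_le κ h.le (by norm_num at h2; linarith)
        rw [div_le_div_iff₀ (mul_pos hκ0 h) h]
        calc |sin ((κ : ℝ) * X)| * X ≤ (κ * sin X) * X := mul_le_mul_of_nonneg_right h5 h.le
          _ = sin X * ((κ : ℝ) * X) := by ring
    have h6 := pow_le_pow_left₀ (abs_nonneg _) h4 p
    refine h6.trans (le_of_eq ?_)
    push_cast
    rw [Real.rpow_zero, one_pow, mul_one, mul_one]

theorem tailO_gr2_le {j : ℕ} (hj : j < 181) : gr2 j ≤ 3 / 4 := by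
  unfold gr2
  split_ifs with h
  · have : (j : ℚ) ≤ 30 := by exact_mod_cast h
    linarith
  · have h1 : ((j - 30 : ℕ) : ℚ) ≤ 150 := by
      have : j - 30 ≤ 150 := by omega
      exact_mod_cast this
    linarith

/-- the rest at a harmonic `κ ≥ 27` -/
private theorem tailO_rest {R : List ℝ} (hs : ∀ x ∈ R, 0 < sinc x) (h00 : ∀ x ∈ R, 0 ≤ x) {j : ℕ}
    (hj : j < 181) (hR : ∀ x ∈ R, x ≤ ((gr2 j : ℚ) : ℝ)) {Mlo : ℚ} (h0 : 0 ≤ Mlo)
    (hM : (Mlo : ℝ) ≤ MM R)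
    (hst : 1 ≤ eLoF (ll2 j) * (27 * sinL (max (gr2 j) (35 / 100)))) (κ : ℕ) (hκ : 27 ≤ κ) :
    |PP R κ| ≤ PP R 1 *
      (((eUpF (dn (ll2 j * (Mlo / (max (gr2 j) (35 / 100)) ^ 2))) : ℚ) : ℝ) *
        (27 / (κ : ℝ)) ^ ((Mlo / (max (gr2 j) (35 / 100)) ^ 2 : ℚ) : ℝ)) := by
  set rq : ℚ := max (gr2 j) (35 / 100) with hrq
  have hr1 : 35 / 100 ≤ rq := le_max_right _ _
  have hr2 : rq ≤ 3 / 4 := max_le (tailO_gr2_le hj) (by norm_num)
  have hr1' : (35 / 100 : ℝ) ≤ (rq : ℝ) := by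
    have : ((35 / 100 : ℚ) : ℝ) ≤ (rq : ℝ) := by exact_mod_cast hr1
    push_cast at this
    exact this
  have hr2' : (rq : ℝ) ≤ 3 / 4 := by
    have : (rq : ℝ) ≤ ((3 / 4 : ℚ) : ℝ) := by exact_mod_cast hr2
    push_cast at this
    exact this
  have hr0 : (0 : ℝ) < rq := by linarith
  have hκ27 : (27 : ℝ) ≤ κ := by exact_mod_cast hκ
  have hκ0 : (0 : ℝ) < κ := by linarith
  have hll : 0 ≤ ll2 j := by unfold ll2; positivity
  have hll' : (0 : ℝ) ≤ ((ll2 j : ℚ) : ℝ) := by exact_mod_cast hll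
  -- the logarithm
  have hst' : (1 : ℝ) ≤ ((eLoF (ll2 j) : ℚ) : ℝ) * (27 * ((sinL rq : ℚ) : ℝ)) := by
    exact_mod_cast hst
  have he := eLoF_sound hll
  have hen : (0 : ℝ) ≤ ((eLoF (ll2 j) : ℚ) : ℝ) := by exact_mod_cast eLoF_nonneg (ll2 j)
  have hsin := sinL_sound (y := rq) (by linarith) (by linarith)
  have hsl : 0 < ((sinL rq : ℚ) : ℝ) := by
    by_contra hneg
    push Not at hneg
    have : ((eLoF (ll2 j) : ℚ) : ℝ) * (27 * ((sinL rq : ℚ) : ℝ)) ≤ 0 :=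
      mul_nonpos_of_nonneg_of_nonpos hen (by linarith)
    linarith
  have h27 : (1 : ℝ) ≤ exp (-((ll2 j : ℚ) : ℝ)) * (27 * sin (rq : ℝ)) := by
    refine hst'.trans ?_
    exact mul_le_mul he (by linarith) (by linarith) (exp_pos _).le
  have hsr : 0 < sin (rq : ℝ) := hsl.trans_le hsin
  have hlog : ((ll2 j : ℚ) : ℝ) ≤ log (27 * sin (rq : ℝ)) := by
    rw [le_log_iff_exp_le (by positivity)]
    rw [exp_neg] at h27
    rwa [inv_mul_eq_div, le_div_iff₀ (exp_pos _), one_mul] at h27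
  have hlogκ : log (κ * sin (rq : ℝ)) = log (27 * sin (rq : ℝ)) + log ((κ : ℝ) / 27) := by
    rw [← log_mul (by positivity) (by positivity)]
    congr 1
    field_simp
  have hlogκ0 : 0 ≤ log ((κ : ℝ) / 27) := log_nonneg (by rw [le_div_iff₀ (by norm_num)]; linarith)
  have hlog0 : 0 ≤ log (κ * sin (rq : ℝ)) := by rw [hlogκ]; linarith
  -- the product
  have h1 : |PP R κ| ≤ PP R 1 * exp (-(log (κ * sin (rq : ℝ)) / (rq : ℝ) ^ 2 *
      (R.map fun x => x ^ 2).sum)) := by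
    apply abs_PP_le_exp hs
    intro x hx
    refine tail_rest_odd (by linarith) hr1' hr2' (h00 x hx) ((hR x hx).trans ?_)
    have : gr2 j ≤ rq := le_max_left _ _
    exact_mod_cast this
  refine h1.trans (mul_le_mul_of_nonneg_left ?_ (PP_one_pos hs).le)
  set E : ℚ := Mlo / rq ^ 2 with hE
  have hE' : ((E : ℚ) : ℝ) = (Mlo : ℝ) / (rq : ℝ) ^ 2 := by rw [hE]; push_cast; rfl
  have hE0 : 0 ≤ E := by rw [hE]; positivity
  have hE0' : (0 : ℝ) ≤ (E : ℝ) := by exact_mod_cast hE0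
  have h2 : exp (-(log (κ * sin (rq : ℝ)) / (rq : ℝ) ^ 2 * (R.map fun x => x ^ 2).sum)) ≤
      exp (-(((ll2 j : ℚ) : ℝ) * (E : ℝ))) * exp (-((E : ℝ) * log ((κ : ℝ) / 27))) := by
    rw [← exp_add]
    apply exp_le_exp.mpr
    have h3 : log (κ * sin (rq : ℝ)) / (rq : ℝ) ^ 2 * (Mlo : ℝ) ≤
        log (κ * sin (rq : ℝ)) / (rq : ℝ) ^ 2 * (R.map fun x => x ^ 2).sum :=
      mul_le_mul_of_nonneg_left hM (div_nonneg hlog0 (by positivity))
    have h4 : log (κ * sin (rq : ℝ)) / (rq : ℝ) ^ 2 * (Mlo : ℝ) =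
        log (κ * sin (rq : ℝ)) * (E : ℝ) := by rw [hE']; ring
    have h5 : ((ll2 j : ℚ) : ℝ) * (E : ℝ) + (E : ℝ) * log ((κ : ℝ) / 27) ≤
        log (κ * sin (rq : ℝ)) * (E : ℝ) := by
      rw [hlogκ]
      nlinarith
    linarith
  refine h2.trans ?_
  have h6 : exp (-((E : ℝ) * log ((κ : ℝ) / 27))) = (27 / (κ : ℝ)) ^ (E : ℝ) := by
    rw [Real.rpow_def_of_pos (by positivity)]
    congr 1
    have : log (27 / (κ : ℝ)) = -log ((κ : ℝ) / 27) := by
      rw [← log_inv, inv_div]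
    rw [this]; ring
  rw [h6]
  refine mul_le_mul_of_nonneg_right ?_ (by positivity)
  have h7 := eUpF_sound (dn_nonneg (mul_nonneg hll hE0))
  refine le_trans (exp_le_exp.mpr ?_) h7
  have h8 : ((dn (ll2 j * E) : ℚ) : ℝ) ≤ ((ll2 j * E : ℚ) : ℝ) := by exact_mod_cast dn_le _
  push_cast at h8
  linarith

/-- the sum over the harmonics, with a bound `β (27/κ)^s` for the bracket -/
private theorem tailO_sum {m n : ℕ} {w X U Q C : ℝ} {R : List ℝ} (h : Cfg2 m n w X U Q C R)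
    {b : Bx} {c0 c1 : ℚ} (hb : Reg b X U Q C c0 c1) {j : ℕ} (hj : j < 181)
    (hR : ∀ x ∈ R, x ≤ ((gr2 j : ℚ) : ℝ)) {Mlo : ℚ} (h0 : 0 ≤ Mlo) (hM : (Mlo : ℝ) ≤ MM R)
    (hst : 1 ≤ eLoF (ll2 j) * (27 * sinL (max (gr2 j) (35 / 100)))) {β s : ℝ} (hβ : 0 ≤ β)
    (hB : ∀ κ : ℕ, 27 ≤ κ → |BB X U C κ| ≤ β * (27 / (κ : ℝ)) ^ s * dd X U)
    (ha : 0 < ((aO m n j b Mlo : ℚ) : ℝ) + s) (N : ℕ) :
    ∑ i ∈ range N, |FF m n X U Q C R (2 * (i : ℝ) + 27)| / (2 * (i : ℝ) + 27) ≤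
      (β * ((comO m n j b Mlo : ℚ) : ℝ) *
        (1 / 27 + 1 / (2 * (((aO m n j b Mlo : ℚ) : ℝ) + s)))) * (R1 m n X Q R * dd X U) := by
  have hcfO : ∀ {X0 : ℚ}, 0 ≤ cfO X0 := by
    intro X0
    unfold cfO
    split_ifs with hc
    · have : 0 < sinL X0 := by linarith
      positivity
    · norm_num
  have hcom : (0 : ℝ) ≤ ((comO m n j b Mlo : ℚ) : ℝ) := by
    have : 0 ≤ comO m n j b Mlo := by
      unfold comO
      exact mul_nonneg (mul_nonneg (pow_nonneg hcfO _) (pow_nonneg hcfO _)) (eUpF_nonneg _)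
    exact_mod_cast this
  have hR1 := h.R1_pos
  have hdd := h.dd_pos
  have key : ∀ i ∈ range N, |FF m n X U Q C R (2 * (i : ℝ) + 27)| / (2 * (i : ℝ) + 27) ≤
      (β * ((comO m n j b Mlo : ℚ) : ℝ) * (R1 m n X Q R * dd X U)) *
        (1 / (2 * (i : ℝ) + 27) * (27 / (2 * (i : ℝ) + 27)) ^ (((aO m n j b Mlo : ℚ) : ℝ) + s)) := by
    intro i _
    have e1 : (2 * (i : ℝ) + 27) = ((2 * i + 27 : ℕ) : ℝ) := by push_cast; ring
    rw [e1]
    set κ : ℕ := 2 * i + 27 with hκ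
    have hκ27 : 27 ≤ κ := by omega
    have hκ0 : (0 : ℝ) < κ := by
      have : 0 < κ := by omega
      exact_mod_cast this
    have hX1 := tailO_copy hb.x0 hb.hx0 h.X_le κ hκ27 (m - 1)
    have hQ1 := tailO_copy hb.q0 hb.hq0 (h.Q_le.trans (by norm_num)) κ hκ27 n
    have hP1 := tailO_rest h.sinc_R (fun x hx => (h.hR x hx).1) hj hR h0 hM hst κ hκ27
    have hB1 := hB κ hκ27
    have hcomE : ((comO m n j b Mlo : ℚ) : ℝ) = ((cfO b.X0 : ℚ) : ℝ) ^ (m - 1) *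
        ((cfO b.Q0 : ℚ) : ℝ) ^ n *
        ((eUpF (dn (ll2 j * (Mlo / (max (gr2 j) (35 / 100)) ^ 2))) : ℚ) : ℝ) := by
      unfold comO
      push_cast
      rfl
    have haE : (27 / (κ : ℝ)) ^ (((aO m n j b Mlo : ℚ) : ℝ) + s) =
        (27 / (κ : ℝ)) ^ ((Mlo / (max (gr2 j) (35 / 100)) ^ 2 : ℚ) : ℝ) *
        (27 / (κ : ℝ)) ^ (((if 1 < 27 * sinL b.X0 then ((m - 1 : ℕ) : ℚ) else 0 : ℚ)) : ℝ) *
        (27 / (κ : ℝ)) ^ (((if 1 < 27 * sinL b.Q0 then (n : ℚ) else 0 : ℚ)) : ℝ) *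
        (27 / (κ : ℝ)) ^ s := by
      rw [← Real.rpow_add (by positivity), ← Real.rpow_add (by positivity),
        ← Real.rpow_add (by positivity)]
      congr 1
      unfold aO
      push_cast
      ring
    rw [FF_eq, abs_mul, abs_mul, abs_mul, abs_pow, abs_pow]
    set a1 := |sinc ((κ : ℝ) * X)| ^ (m - 1)
    set a2 := |sinc ((κ : ℝ) * Q)| ^ n
    set a3 := |PP R (κ : ℝ)|
    set a4 := |BB X U C (κ : ℝ)|
    have hsX := h.sinc_X
    have hsQ := h.sinc_Q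
    have hPP := h.PP_pos
    have n1 : 0 ≤ a1 := pow_nonneg (abs_nonneg _) _
    have n2 : 0 ≤ a2 := pow_nonneg (abs_nonneg _) _
    have n3 : 0 ≤ a3 := abs_nonneg _
    have n4 : 0 ≤ a4 := abs_nonneg _
    have hcX : (0 : ℝ) ≤ ((cfO b.X0 : ℚ) : ℝ) := by exact_mod_cast hcfO
    have hcQ : (0 : ℝ) ≤ ((cfO b.Q0 : ℚ) : ℝ) := by exact_mod_cast hcfO
    have heU : (0 : ℝ) ≤ ((eUpF (dn (ll2 j * (Mlo / (max (gr2 j) (35 / 100)) ^ 2))) : ℚ) : ℝ) := by
      exact_mod_cast eUpF_nonneg _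
    have h12 : a1 * a2 * a3 * a4 ≤ _ := mul_le_mul (mul_le_mul (mul_le_mul hX1 hQ1 n2 (by positivity))
      hP1 n3 (by positivity)) hB1 n4 (by positivity)
    have hfin : a1 * a2 * a3 * a4 / (κ : ℝ) ≤ _ := div_le_div_of_nonneg_right h12 hκ0.le
    refine hfin.trans (le_of_eq ?_)
    rw [haE, hcomE]
    unfold R1
    ring
  refine (sum_le_sum key).trans ?_
  rw [← mul_sum]
  have h5 := sum_odd_gen_le N (T := 27) (by norm_num) ha
  have h6 : 0 ≤ β * ((comO m n j b Mlo : ℚ) : ℝ) * (R1 m n X Q R * dd X U) := by positivity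
  refine (mul_le_mul_of_nonneg_left h5 h6).trans (le_of_eq ?_)
  ring

theorem stQ_sound {m n : ℕ} {w X U Q C : ℝ} {R : List ℝ} (h : Cfg2 m n w X U Q C R) {b : Bx}
    {c0 c1 : ℚ} (hb : Reg b X U Q C c0 c1) {j : ℕ} (hj : j < 181)
    (hR : ∀ x ∈ R, x ≤ ((gr2 j : ℚ) : ℝ)) {Mlo : ℚ} (h0 : 0 ≤ Mlo) (hM : (Mlo : ℝ) ≤ MM R)
    (hst : stOK m n j b Mlo = true) (N : ℕ) :
    ∑ i ∈ range N, |FF m n X U Q C R (2 * (i : ℝ) + 27)| / (2 * (i : ℝ) + 27) ≤
      ((stQ m n j b Mlo : ℚ) : ℝ) * (R1 m n X Q R * dd X U) := by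
  unfold stOK at hst
  simp only [Bool.and_eq_true, Bool.or_eq_true, decide_eq_true_eq] at hst
  obtain ⟨hst1, hst2⟩ := hst
  have hR1 := h.R1_pos
  have hdd := h.dd_pos
  -- first bound
  have b1 : bbOK 27 b = true → 0 < aO m n j b Mlo →
      ∑ i ∈ range N, |FF m n X U Q C R (2 * (i : ℝ) + 27)| / (2 * (i : ℝ) + 27) ≤
      (((upp (bbS 27 b) * comO m n j b Mlo * (1 / 27 + 1 / (2 * aO m n j b Mlo)) : ℚ)) : ℝ) *
        (R1 m n X Q R * dd X U) := by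
    intro hok ha
    have hu : ((bbS 27 b : ℚ) : ℝ) ≤ ((upp (bbS 27 b) : ℚ) : ℝ) := by exact_mod_cast le_upp _
    have hbs0 : (0 : ℝ) ≤ ((bbS 27 b : ℚ) : ℝ) := by
      have := bbS_sound hb (k := 27) (κ := 27) (by norm_num) (by norm_num) hok
      by_contra hneg
      push Not at hneg
      have h1 : ((bbS 27 b : ℚ) : ℝ) * dd X U < 0 := mul_neg_of_neg_of_pos hneg hdd
      linarith [abs_nonneg (BB X U C 27)]
    have h1 := tailO_sum h hb hj hR h0 hM hst1 (β := ((upp (bbS 27 b) : ℚ) : ℝ)) (s := 0)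
      (hbs0.trans hu) (fun κ hκ => by
        rw [Real.rpow_zero, mul_one]
        refine (bbS_sound hb (k := 27) (κ := κ) (by norm_num) (by exact_mod_cast hκ) hok).trans ?_
        exact mul_le_mul_of_nonneg_right hu hdd.le) (by rw [add_zero]; exact_mod_cast ha) N
    refine h1.trans (le_of_eq ?_)
    push_cast
    rw [add_zero]
  have b2 : 4 < aO m n j b Mlo →
      ∑ i ∈ range N, |FF m n X U Q C R (2 * (i : ℝ) + 27)| / (2 * (i : ℝ) + 27) ≤
      (((27 ^ 4 / 90 * comO m n j b Mlo * (1 / 27 + 1 / (2 * (aO m n j b Mlo - 4))) : ℚ)) : ℝ) *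
        (R1 m n X Q R * dd X U) := by
    intro ha
    have ha' : (4 : ℝ) < ((aO m n j b Mlo : ℚ) : ℝ) := by exact_mod_cast ha
    have h1 := tailO_sum h hb hj hR h0 hM hst1 (β := 27 ^ 4 / 90) (s := -4)
      (by norm_num) (fun κ hκ => by
        have hκ0 : (0 : ℝ) < κ := by
          have : 0 < κ := by omega
          exact_mod_cast this
        refine (BB_univ h.hU h.hUX h.hC h.hCC hκ0.le).trans (le_of_eq ?_)
        congr 1
        have e : ((27 : ℝ) / κ) ^ (-4 : ℝ) = ((κ : ℝ) / 27) ^ 4 := by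
          rw [Real.rpow_neg (by positivity), ← Real.inv_rpow (by positivity), inv_div]
          norm_cast
        rw [e]
        field_simp) (by linarith) N
    refine h1.trans (le_of_eq ?_)
    push_cast
    ring
  unfold stQ
  simp only [Bool.and_eq_true, decide_eq_true_eq]
  split_ifs with h1 h2
  · rcases le_total (upp (bbS 27 b) * comO m n j b Mlo * (1 / 27 + 1 / (2 * aO m n j b Mlo)))
      (27 ^ 4 / 90 * comO m n j b Mlo * (1 / 27 + 1 / (2 * (aO m n j b Mlo - 4)))) with h3 | h3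
    · rw [min_eq_left h3]; exact b1 h1.1 h1.2
    · rw [min_eq_right h3]; exact b2 h2
  · exact b1 h1.1 h1.2
  · rcases hst2 with h3 | h3
    · exact absurd h3 h1
    · exact b2 h3

end Pool.Agent.Helper95.SP.Crude
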