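import Pool.Agent.Helper95.SP.Crude.Cfg2
import Pool.Agent.Helper95.SP.Crude.Bet
import Pool.Agent.Helper95.SP.Crude.Copy

/-!
SP-wave2 TermO: one odd harmonic.
-/

set_option autoImplicit false

namespace Pool.Agent.Helper95.SP.Crude

open Real Finset

private theorem to_pow {a q s : ℝ} (ha : 0 ≤ a) (h : a ≤ q * s) (n : ℕ) :
    a ^ n ≤ q ^ n * s ^ n := by
  rw [← mul_pow]
  exact pow_le_pow_left₀ ha h n

theorem sQ_sound {m n : ℕ} {w X U Q C : ℝ} {R : List ℝ} (h : Cfg2 m n w X U Q C R) {b : Bx}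
    {c0 c1 : ℚ} (hb : Reg b X U Q C c0 c1) {kb k j : ℕ}
    (hk : k ∈ [5, 7, 9, 11, 13, 15, 17, 19, 21, 23, 25]) (hj : j < 181)
    (hR : ∀ x ∈ R, x ≤ ((gr2 j : ℚ) : ℝ)) {Mlo : ℚ} (h0 : 0 ≤ Mlo) (hM : (Mlo : ℝ) ≤ MM R) :
    |FF m n X U Q C R k| / k ≤
      ((sQ kb k m n j c0 c1 b Mlo : ℚ) : ℝ) * (R1 m n X Q R * dd X U) := by
  have hk1 : 1 ≤ k := by fin_cases hk <;> norm_num
  have hk25 : k ≤ 25 := by fin_cases hk <;> norm_num
  have hk0 : (0 : ℝ) < k := by exact_mod_cast hk1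
  have hX1 : b.X1 ≤ 112 / 100 := by
    by_contra hc
    have := hb.x1
    nlinarith [not_le.mp hc]
  have hQ1 : b.Q1 ≤ 112 / 100 := by
    by_contra hc
    have := hb.q1
    unfold PH at this
    nlinarith [not_le.mp hc]
  have e1 := qQ_sound hk1 hk25 hb.x0 hb.hx0 hb.hx1 hX1
  have e1' := qQ_nonneg hk1 hk25 hb.x0 hb.hx0 hb.hx1 hX1
  have e2 := qQ_sound hk1 hk25 hb.q0 hb.hq0 hb.hq1 hQ1
  have e2' := qQ_nonneg hk1 hk25 hb.q0 hb.hq0 hb.hq1 hQ1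
  have e3 := exQ_sound hk hj (fun x hx => ⟨(h.hR x hx).1, hR x hx⟩) h0 hM
  have e4 := betQ_sound hb (kb := kb) hk1 hk25
  have e4' := betQ_nonneg hb (kb := kb) hk1 hk25
  have f1 : |sinc (k * X)| ^ (m - 1) ≤
      ((if m = 1 then 1 else qQ k b.X0 b.X1 ^ (m - 1) : ℚ) : ℝ) * sinc X ^ (m - 1) := by
    split_ifs with hm
    · subst hm
      simp
    · rw [Rat.cast_pow]
      exact to_pow (abs_nonneg _) e1 _
  have f2 : |sinc (k * Q)| ^ n ≤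
      ((if n = 0 then 1 else qQ k b.Q0 b.Q1 ^ n : ℚ) : ℝ) * sinc Q ^ n := by
    split_ifs with hn
    · subst hn
      simp
    · rw [Rat.cast_pow]
      exact to_pow (abs_nonneg _) e2 _
  have hcop : ((cop qQ k m n b : ℚ) : ℝ) =
      ((if m = 1 then 1 else qQ k b.X0 b.X1 ^ (m - 1) : ℚ) : ℝ) *
      ((if n = 0 then 1 else qQ k b.Q0 b.Q1 ^ n : ℚ) : ℝ) := by
    unfold cop
    rw [Rat.cast_mul]
  have g12 : |sinc (k * X)| ^ (m - 1) * |sinc (k * Q)| ^ n ≤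
      ((cop qQ k m n b : ℚ) : ℝ) * (sinc X ^ (m - 1) * sinc Q ^ n) := by
    rw [hcop]
    refine (mul_le_mul f1 f2 (by positivity) ((pow_nonneg (abs_nonneg _) _).trans f1)).trans_eq ?_
    ring
  have g123 : |sinc (k * X)| ^ (m - 1) * |sinc (k * Q)| ^ n * |PP R k| ≤
      (((cop qQ k m n b : ℚ) : ℝ) * ((eUpF (dn (exQ k j Mlo)) : ℚ) : ℝ)) * R1 m n X Q R := by
    refine (mul_le_mul g12 e3 (abs_nonneg _) ((by positivity : (0 : ℝ) ≤ |sinc (k * X)| ^ (m - 1) *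
      |sinc (k * Q)| ^ n).trans g12)).trans_eq ?_
    unfold R1
    ring
  have g : |FF m n X U Q C R k| ≤
      (((cop qQ k m n b : ℚ) : ℝ) * ((eUpF (dn (exQ k j Mlo)) : ℚ) : ℝ)) * R1 m n X Q R *
        (((betQ kb k c0 c1 b : ℚ) : ℝ) * dd X U) := by
    rw [FF_eq, abs_mul, abs_mul, abs_mul, abs_pow, abs_pow]
    exact mul_le_mul g123 e4 (abs_nonneg _) ((by positivity : (0 : ℝ) ≤ |sinc (k * X)| ^ (m - 1) *
      |sinc (k * Q)| ^ n * |PP R k|).trans g123)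
  rw [div_le_iff₀ hk0]
  refine g.trans_eq ?_
  unfold sQ
  push_cast
  field_simp

end Pool.Agent.Helper95.SP.Crude
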