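import Pool.Agent.Helper95.SP.Crude.Third2
import Pool.Agent.Helper95.SP.Crude.TermO
import Pool.Agent.Helper95.SP.Crude.TailO
import Pool.Agent.Helper95.SP.Crude.EvenT
import Pool.Agent.Helper95.SP.Crude.Drop5
import Pool.Agent.Helper95.SP.Crude.SupQ
import Pool.Agent.Helper95.SP.Crude.Adm2

/-!
Soundness of the box test.
-/

set_option autoImplicit false

namespace Pool.Agent.Helper95.SP.Crude

open Real Finset

/-- the data of a configuration -/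
structure Raw (m n : ℕ) (w X U Q C : ℝ) (R : List ℝ) : Prop where
  hm : 1 ≤ m
  hU : 0 ≤ U
  hUX : U < X
  hQ : 0 ≤ Q
  hC : 0 < C
  hCC : 2 * C ^ 2 = X ^ 2 + U ^ 2
  hR : ∀ x ∈ R, 0 ≤ x
  hw : m * X ^ 2 + U ^ 2 + n * Q ^ 2 + (R.map fun x => x ^ 2).sum = w

/-- the odd inequality -/
def OddI (m n : ℕ) (w X U Q C : ℝ) (R : List ℝ) : Prop :=
  0 ≤ FF m n X U Q C R 1 ∧ 0 ≤ FF m n X U Q C R 3 ∧ ∃ T7 : ℝ,
    (∀ N : ℕ, ∑ i ∈ range N, |FF m n X U Q C R (2 * (i : ℝ) + 7)| / (2 * (i : ℝ) + 7) ≤ T7) ∧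
    FF m n X U Q C R 1 + max (FF m n X U Q C R 5) 0 / 5 + T7 +
      2 / 10 ^ 9 * (4 * dd X U / w ^ 2) ≤ (1 - 1 / 10 ^ 5) * FF m n X U Q C R 3 / 3

/-- the even inequality -/
def EvenI (m n : ℕ) (w X U Q C : ℝ) (R : List ℝ) : Prop :=
  0 ≤ FF m n X U Q C R 2 ∧ ∃ T4 : ℝ,
    (∀ N : ℕ, ∑ i ∈ range N, |FF m n X U Q C R (2 * (i : ℝ) + 4)| / (2 * (i : ℝ) + 4) ^ 2 ≤ T4) ∧
    T4 + 1 / 10 ^ 4 * (4 * dd X U / w ^ 2) ≤ (1 - 1 / 10 ^ 5) * FF m n X U Q C R 2 / 4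

namespace Raw

variable {m n : ℕ} {w X U Q C : ℝ} {R : List ℝ}

theorem hM (h : Raw m n w X U Q C R) : MM R = w - m * X ^ 2 - U ^ 2 - n * Q ^ 2 := by
  have := h.hw
  unfold MM
  linarith

theorem MM_le (h : Raw m n w X U Q C R) {b : Bx} (hb : InB b X U Q) {wq : ℚ} (hw : (wq : ℝ) = w) :
    MM R ≤ ((wq - m * b.X0 ^ 2 - b.U0 ^ 2 - n * b.Q0 ^ 2 : ℚ) : ℝ) := by
  have x0 : (0:ℝ) ≤ (b.X0 : ℝ) := by exact_mod_cast hb.x0
  have u0 : (0:ℝ) ≤ (b.U0 : ℝ) := by exact_mod_cast hb.u0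
  have q0 : (0:ℝ) ≤ (b.Q0 : ℝ) := by exact_mod_cast hb.q0
  have h1 : (m : ℝ) * (b.X0 : ℝ) ^ 2 ≤ m * X ^ 2 :=
    mul_le_mul_of_nonneg_left (pow_le_pow_left₀ x0 hb.hx0 2) (Nat.cast_nonneg _)
  have h2 : (b.U0 : ℝ) ^ 2 ≤ U ^ 2 := pow_le_pow_left₀ u0 hb.hu0 2
  have h3 : (n : ℝ) * (b.Q0 : ℝ) ^ 2 ≤ n * Q ^ 2 :=
    mul_le_mul_of_nonneg_left (pow_le_pow_left₀ q0 hb.hq0 2) (Nat.cast_nonneg _)
  rw [h.hM]
  push_cast
  linarith

theorem le_MM (h : Raw m n w X U Q C R) {b : Bx} (hb : InB b X U Q) {wq : ℚ} (hw : (wq : ℝ) = w) :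
    ((max 0 (wq - m * b.X1 ^ 2 - b.U1 ^ 2 - n * b.Q1 ^ 2) : ℚ) : ℝ) ≤ MM R := by
  have x0 : (0:ℝ) ≤ X := h.hU.trans h.hUX.le
  have h1 : (m : ℝ) * X ^ 2 ≤ m * (b.X1 : ℝ) ^ 2 :=
    mul_le_mul_of_nonneg_left (pow_le_pow_left₀ x0 hb.hx1 2) (Nat.cast_nonneg _)
  have h2 : U ^ 2 ≤ (b.U1 : ℝ) ^ 2 := pow_le_pow_left₀ h.hU hb.hu1 2
  have h3 : (n : ℝ) * Q ^ 2 ≤ n * (b.Q1 : ℝ) ^ 2 :=
    mul_le_mul_of_nonneg_left (pow_le_pow_left₀ h.hQ hb.hq1 2) (Nat.cast_nonneg _)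
  push_cast
  apply max_le (MM_nonneg R)
  rw [h.hM]
  linarith

theorem rest_le (h : Raw m n w X U Q C R) {b : Bx} (hb : InB b X U Q) {wq : ℚ} (hw : (wq : ℝ) = w)
    {rb : ℚ} (hrb : ∀ x ∈ R, x ≤ (rb : ℝ)) {j : ℕ}
    (hj : okJ rb (wq - m * b.X0 ^ 2 - b.U0 ^ 2 - n * b.Q0 ^ 2) j = true) :
    ∀ x ∈ R, x ≤ ((gr2 j : ℚ) : ℝ) := by
  unfold okJ at hj
  simp only [Bool.and_eq_true, Bool.or_eq_true, decide_eq_true_eq] at hj
  intro x hx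
  rcases hj.2 with h1 | h1
  · exact (hrb x hx).trans (by exact_mod_cast h1)
  · have h2 := (sq_le_MM hx).trans (h.MM_le hb hw)
    have h3 : ((wq - m * b.X0 ^ 2 - b.U0 ^ 2 - n * b.Q0 ^ 2 : ℚ) : ℝ) ≤ (((gr2 j) ^ 2 : ℚ) : ℝ) := by
      exact_mod_cast h1
    have h4 : x ^ 2 ≤ ((gr2 j : ℚ) : ℝ) ^ 2 := by
      have := h2.trans h3
      push_cast at this ⊢
      exact this
    have h5 : (0:ℝ) ≤ ((gr2 j : ℚ) : ℝ) := by exact_mod_cast (gr2_pos j).le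
    exact le_of_sq_le_sq h4 h5
where
  le_of_sq_le_sq {a b : ℝ} (h : a ^ 2 ≤ b ^ 2) (hb : 0 ≤ b) : a ≤ b := by
    exact abs_le_of_sq_le_sq' h hb |>.2

end Raw

theorem reg_of {m n : ℕ} {w X U Q C : ℝ} {R : List ℝ} (h : Raw m n w X U Q C R) {b : Bx}
    (hb : InB b X U Q) (h1 : b.X1 ^ 2 ≤ 125 / 100) (h2 : 9 * (b.X1 ^ 2 + b.U1 ^ 2) < 2 * PL)
    (h3 : 9 * b.Q1 ^ 2 ≤ PH) :
    Reg b X U Q C (sqL ((b.X0 ^ 2 + b.U0 ^ 2) / 2)) (sqU ((b.X1 ^ 2 + b.U1 ^ 2) / 2)) := by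
  have x0 : (0:ℝ) ≤ (b.X0 : ℝ) := by exact_mod_cast hb.x0
  have u0 : (0:ℝ) ≤ (b.U0 : ℝ) := by exact_mod_cast hb.u0
  have xn : (0:ℝ) ≤ X := h.hU.trans h.hUX.le
  have hCC := h.hCC
  refine ⟨hb, h1, h2, h3, h.hUX, h.hC, h.hCC, sqL_nonneg _, ?_, ?_, ?_⟩
  · apply sqL_sound h.hC.le
    push_cast
    have a1 := pow_le_pow_left₀ x0 hb.hx0 2
    have a2 := pow_le_pow_left₀ u0 hb.hu0 2
    linarith
  · apply sqU_sound
    push_cast
    have a1 := pow_le_pow_left₀ xn hb.hx1 2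
    have a2 := pow_le_pow_left₀ h.hU hb.hu1 2
    linarith
  · have hPL : PL = 98696 / 10000 := rfl
    rw [hPL] at h2
    have := sqU_le (x := (b.X1 ^ 2 + b.U1 ^ 2) / 2) (y := 10473 / 10000) (by norm_num) (by
      linarith)
    linarith

theorem sum_split10 {f : ℕ → ℝ} (hf : ∀ i, 0 ≤ f i) {T : ℝ}
    (hT : ∀ N, ∑ i ∈ range N, f (i + 10) ≤ T) (N : ℕ) :
    ∑ i ∈ range N, f i ≤ f 0 + f 1 + f 2 + f 3 + f 4 + f 5 + f 6 + f 7 + f 8 + f 9 + T := by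
  have h1 : ∑ i ∈ range N, f i ≤ ∑ i ∈ range (10 + N), f i := by
    apply sum_le_sum_of_subset_of_nonneg
    · intro i hi
      simp only [Finset.mem_range] at hi ⊢
      omega
    · intro i _ _; exact hf i
  rw [sum_range_add] at h1
  have h2 : ∑ i ∈ range N, f (10 + i) = ∑ i ∈ range N, f (i + 10) := by
    apply sum_congr rfl
    intro i _; rw [add_comm]
  rw [h2] at h1
  have h3 : ∑ i ∈ range 10, f i = f 0 + f 1 + f 2 + f 3 + f 4 + f 5 + f 6 + f 7 + f 8 + f 9 := by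
    simp [sum_range_succ]
  rw [h3] at h1
  linarith [hT N]

theorem sum_split2 {f : ℕ → ℝ} (hf : ∀ i, 0 ≤ f i) {T : ℝ}
    (hT : ∀ N, ∑ i ∈ range N, f (i + 2) ≤ T) (N : ℕ) :
    ∑ i ∈ range N, f i ≤ f 0 + f 1 + T := by
  have h1 : ∑ i ∈ range N, f i ≤ ∑ i ∈ range (2 + N), f i := by
    apply sum_le_sum_of_subset_of_nonneg
    · intro i hi
      simp only [Finset.mem_range] at hi ⊢
      omega
    · intro i _ _; exact hf i
  rw [sum_range_add] at h1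
  have h2 : ∑ i ∈ range N, f (2 + i) = ∑ i ∈ range N, f (i + 2) := by
    apply sum_congr rfl
    intro i _; rw [add_comm]
  rw [h2] at h1
  have h3 : ∑ i ∈ range 2, f i = f 0 + f 1 := by
    simp [sum_range_succ]
  rw [h3] at h1
  linarith [hT N]

theorem oddI_of {m n : ℕ} {w X U Q C : ℝ} {R : List ℝ} (h : Cfg2 m n w X U Q C R) {b : Bx}
    {c0 c1 : ℚ} (hb : Reg b X U Q C c0 c1) {wq rho Mlo : ℚ} (hw : (wq : ℝ) = w)
    (hw1 : 13 / 10 ≤ w) (hw2 : w ≤ 24 / 10)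
    (hrho : ∀ x ∈ R, x ^ 2 ≤ (rho : ℝ)) (hrho0 : 0 ≤ rho) (hrho1 : rho ≤ 56 / 100)
    (h2 : 9 * b.X1 ^ 2 ≤ PL ∨ m = 1) (h4 : 9 * b.Q1 ^ 2 ≤ PL) {kb j : ℕ} (hj : j < 181)
    (hR : ∀ x ∈ R, x ≤ ((gr2 j : ℚ) : ℝ)) (h0 : 0 ≤ Mlo) (hM : (Mlo : ℝ) ≤ MM R)
    (hst : stOK m n j b Mlo = true) (hodd : 0 ≤ oddQ kb m n j wq c0 c1 b rho Mlo) :
    OddI m n w X U Q C R := by
  have hF1 : 0 ≤ FF m n X U Q C R 1 := by
    rw [FF_eq, one_mul, one_mul]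
    exact mul_nonneg h.R1_pos.le (BB1_nonneg h.hU h.hUX h.hC h.hCC h.hX)
  have ht := third2 h hb hw hrho hrho0 hrho1 h2 h4
  have hf := first2 h hb
  have hD := h.dd_pos
  have hR1 := h.R1_pos
  have hRD : 0 < R1 m n X Q R * dd X U := mul_pos hR1 hD
  have t5 := sQ_sound (kb := kb) (k := 5) h hb (by simp) hj hR h0 hM
  have t7 := sQ_sound (kb := kb) (k := 7) h hb (by simp) hj hR h0 hM
  have t9 := sQ_sound (kb := kb) (k := 9) h hb (by simp) hj hR h0 hM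
  have t11 := sQ_sound (kb := kb) (k := 11) h hb (by simp) hj hR h0 hM
  have t13 := sQ_sound (kb := kb) (k := 13) h hb (by simp) hj hR h0 hM
  have t15 := sQ_sound (kb := kb) (k := 15) h hb (by simp) hj hR h0 hM
  have t17 := sQ_sound (kb := kb) (k := 17) h hb (by simp) hj hR h0 hM
  have t19 := sQ_sound (kb := kb) (k := 19) h hb (by simp) hj hR h0 hM
  have t21 := sQ_sound (kb := kb) (k := 21) h hb (by simp) hj hR h0 hM
  have t23 := sQ_sound (kb := kb) (k := 23) h hb (by simp) hj hR h0 hM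
  have t25 := sQ_sound (kb := kb) (k := 25) h hb (by simp) hj hR h0 hM
  have tt := stQ_sound h hb hj hR h0 hM hst
  set RD := R1 m n X Q R * dd X U with hRDdef
  -- the fifth harmonic
  have t5' : max (FF m n X U Q C R 5) 0 / 5 ≤
      ((if drop5 m n rho b then 0 else sQ kb 5 m n j c0 c1 b Mlo : ℚ) : ℝ) * RD := by
    by_cases hd : drop5 m n rho b = true
    · rw [if_pos hd]
      have := drop5_sound h hb hrho hd
      rw [max_eq_right this]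
      simp
    · rw [if_neg hd]
      refine le_trans ?_ t5
      have e : ((5 : ℕ) : ℝ) = 5 := by norm_num
      rw [e]
      apply div_le_div_of_nonneg_right _ (by norm_num)
      exact max_le (le_abs_self _) (abs_nonneg _)
  -- the tiny term
  have tiny : 2 / 10 ^ 9 * (4 * dd X U / w ^ 2) ≤ 1 / 10 ^ 8 * RD := by
    have e1 := h.R1_ge
    have e2 : (1 - w / 5) ≤ exp (-(w / 5)) := by
      have := add_one_le_exp (-(w / 5)); linarith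
    have e3 : 52 / 100 ≤ R1 m n X Q R := by linarith
    have e4 : (13 / 10 : ℝ) ^ 2 ≤ w ^ 2 := pow_le_pow_left₀ (by norm_num) hw1 2
    have e5 : 4 * dd X U / w ^ 2 ≤ 4 * dd X U / (13 / 10) ^ 2 := by gcongr
    have e6 : 52 / 100 * dd X U ≤ RD := mul_le_mul_of_nonneg_right e3 hD.le
    calc 2 / 10 ^ 9 * (4 * dd X U / w ^ 2) ≤ 2 / 10 ^ 9 * (4 * dd X U / (13 / 10) ^ 2) := by gcongr
      _ ≤ 1 / 10 ^ 8 * (52 / 100 * dd X U) := by
          have : 2 / 10 ^ 9 * (4 * dd X U / (13 / 10) ^ 2) = (800 / 169) / 10 ^ 9 * dd X U := by ring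
          rw [this]
          nlinarith
      _ ≤ _ := by gcongr
  -- the test
  have hodd' : (0:ℝ) ≤ ((oddQ kb m n j wq c0 c1 b rho Mlo : ℚ) : ℝ) := by exact_mod_cast hodd
  unfold oddQ at hodd'
  set B1 := b1Q ((b.X0 ^ 2 + b.U0 ^ 2) / 2) ((b.X1 ^ 2 + b.U1 ^ 2) / 2) with hB1
  set G := gQ m n wq (lamQ rho) b with hG
  set S5 : ℚ := (if drop5 m n rho b then 0 else sQ kb 5 m n j c0 c1 b Mlo) with hS5
  set S7 := sQ kb 7 m n j c0 c1 b Mlo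
  set S9 := sQ kb 9 m n j c0 c1 b Mlo
  set S11 := sQ kb 11 m n j c0 c1 b Mlo
  set S13 := sQ kb 13 m n j c0 c1 b Mlo
  set S15 := sQ kb 15 m n j c0 c1 b Mlo
  set S17 := sQ kb 17 m n j c0 c1 b Mlo
  set S19 := sQ kb 19 m n j c0 c1 b Mlo
  set S21 := sQ kb 21 m n j c0 c1 b Mlo
  set S23 := sQ kb 23 m n j c0 c1 b Mlo
  set S25 := sQ kb 25 m n j c0 c1 b Mlo
  set ST := stQ m n j b Mlo
  rw [Rat.cast_sub, Rat.cast_sub, Rat.cast_sub, Rat.cast_sub, Rat.cast_sub, Rat.cast_sub,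
    Rat.cast_sub, Rat.cast_sub, Rat.cast_sub, Rat.cast_sub, Rat.cast_sub, Rat.cast_sub,
    Rat.cast_sub, Rat.cast_mul] at hodd'
  have eG : (((1 - 1 / 10 ^ 5) * G - 1 : ℚ) : ℝ) = (1 - 1 / 10 ^ 5) * (G : ℝ) - 1 := by
    push_cast; ring
  have eT : ((1 / 10 ^ 8 : ℚ) : ℝ) = 1 / 10 ^ 8 := by push_cast; ring
  rw [eG, eT] at hodd'
  have nn : ∀ {a b c : ℝ}, 0 ≤ a → a ≤ b * c → 0 < c → 0 ≤ b := by
    intro a b c h1 h2 h3
    by_contra hcon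
    push Not at hcon
    nlinarith
  have absn : ∀ k : ℕ, 0 ≤ |FF m n X U Q C R k| / k := fun k => by positivity
  have n5 : (0:ℝ) ≤ ((S5 : ℚ) : ℝ) := nn (by positivity) t5' hRD
  have n7 := nn (absn 7) t7 hRD
  have n9 := nn (absn 9) t9 hRD
  have n11 := nn (absn 11) t11 hRD
  have n13 := nn (absn 13) t13 hRD
  have n15 := nn (absn 15) t15 hRD
  have n17 := nn (absn 17) t17 hRD
  have n19 := nn (absn 19) t19 hRD
  have n21 := nn (absn 21) t21 hRD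
  have n23 := nn (absn 23) t23 hRD
  have n25 := nn (absn 25) t25 hRD
  have nT : (0:ℝ) ≤ ((ST : ℚ) : ℝ) := by
    have := tt 0
    simp only [range_zero, sum_empty] at this
    exact nn le_rfl this hRD
  have hB1n : (0:ℝ) ≤ ((B1 : ℚ) : ℝ) := by
    have : 0 ≤ B1 := by
      rw [hB1]; unfold b1Q; positivity
    exact_mod_cast this
  have hprodn : 0 ≤ ((B1 : ℚ) : ℝ) * ((1 - 1 / 10 ^ 5) * (G : ℝ) - 1) := by linarith
  have hGn : 0 ≤ (1 - 1 / 10 ^ 5) * (G : ℝ) - 1 := by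
    by_contra hcon
    push Not at hcon
    have hB0 : ((B1 : ℚ) : ℝ) = 0 := by
      by_contra hne
      have : 0 < ((B1 : ℚ) : ℝ) := lt_of_le_of_ne hB1n (Ne.symm hne)
      nlinarith
    rw [hB0] at hodd'
    linarith
  have hG0 : 0 ≤ (G : ℝ) := by linarith
  have hF3 : 0 ≤ FF m n X U Q C R 3 := by
    have := mul_nonneg hG0 hF1
    linarith
  refine ⟨hF1, hF3, (S7 + S9 + S11 + S13 + S15 + S17 + S19 + S21 + S23 + S25 + ST) * RD, ?_, ?_⟩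
  · intro N
    have hs := sum_split10 (f := fun i : ℕ => |FF m n X U Q C R (2 * (i : ℝ) + 7)| / (2 * (i : ℝ) + 7))
      (fun i => by positivity) (T := ((ST : ℚ) : ℝ) * RD) (by
        intro N
        have := tt N
        refine le_trans (le_of_eq ?_) this
        apply sum_congr rfl
        intro i _
        have e : 2 * (((i + 10 : ℕ)) : ℝ) + 7 = 2 * (i : ℝ) + 27 := by push_cast; ring
        simp only [e]) N
    refine hs.trans ?_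
    push_cast at t7 t9 t11 t13 t15 t17 t19 t21 t23 t25 ⊢
    norm_num at t7 t9 t11 t13 t15 t17 t19 t21 t23 t25 ⊢
    linarith
  · have k1 : FF m n X U Q C R 1 * ((1 - 1 / 10 ^ 5) * (G : ℝ)) ≤
        (1 - 1 / 10 ^ 5) * FF m n X U Q C R 3 / 3 := by
      have := mul_le_mul_of_nonneg_left ht (by norm_num : (0:ℝ) ≤ 1 - 1 / 10 ^ 5)
      linarith
    have k2 : ((B1 : ℚ) : ℝ) * RD * ((1 - 1 / 10 ^ 5) * (G : ℝ) - 1) ≤
        FF m n X U Q C R 1 * ((1 - 1 / 10 ^ 5) * (G : ℝ) - 1) :=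
      mul_le_mul_of_nonneg_right hf hGn
    have k3 := mul_le_mul_of_nonneg_right hodd' hRD.le
    rw [zero_mul] at k3
    nlinarith

theorem evenI_of {m n : ℕ} {w X U Q C : ℝ} {R : List ℝ} (h : Cfg2 m n w X U Q C R) {b : Bx}
    {c0 c1 : ℚ} (hb : Reg b X U Q C c0 c1) {wq Mhi Mlo : ℚ} (hw : (wq : ℝ) = w) (hw0 : 0 < w)
    {kb j : ℕ} (hj : j < 181)
    (hR : ∀ x ∈ R, x ≤ ((gr2 j : ℚ) : ℝ)) (h0 : 0 ≤ Mlo) (hM : (Mlo : ℝ) ≤ MM R)
    (hM' : MM R ≤ (Mhi : ℝ))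
    (hst : seOK m n j b Mlo = true) (hev : 0 ≤ evenQ kb m n j wq c0 c1 b Mhi Mlo) :
    EvenI m n w X U Q C R := by
  have hD := h.dd_pos
  have g2 := g2Q_sound h hb hM'
  have g2n := g2Q_nonneg h hb hM'
  have s4 := s4Q_sound (kb := kb) h hb h0 hM
  have s6 := s6Q_sound (kb := kb) h hb hj hR h0 hM
  have se := seQ_sound h hb hj hR h0 hM hst
  have hev' : (0:ℝ) ≤ ((evenQ kb m n j wq c0 c1 b Mhi Mlo : ℚ) : ℝ) := by exact_mod_cast hev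
  unfold evenQ at hev'
  push_cast at hev'
  rw [hw] at hev'
  have g2n' : (0:ℝ) ≤ ((g2Q m n b Mhi : ℚ) : ℝ) := by exact_mod_cast g2n
  have hF2 : 0 ≤ FF m n X U Q C R 2 := by
    have := mul_nonneg g2n' hD.le
    linarith
  refine ⟨hF2, (((s4Q kb m n c0 c1 b Mlo : ℚ) : ℝ) + ((s6Q kb m n j c0 c1 b Mlo : ℚ) : ℝ) +
    ((seQ m n j b Mlo : ℚ) : ℝ)) * dd X U, ?_, ?_⟩
  · intro N
    have hs := sum_split2 (f := fun i : ℕ => |FF m n X U Q C R (2 * (i : ℝ) + 4)| /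
        (2 * (i : ℝ) + 4) ^ 2)
      (fun i => by positivity) (T := ((seQ m n j b Mlo : ℚ) : ℝ) * dd X U) (by
        intro N
        have := se N
        refine le_trans (le_of_eq ?_) this
        apply sum_congr rfl
        intro i _
        have e : 2 * (((i + 2 : ℕ)) : ℝ) + 4 = 2 * (i : ℝ) + 8 := by push_cast; ring
        simp only [e]) N
    refine hs.trans ?_
    push_cast
    have e4 : (2:ℝ) * 0 + 4 = 4 := by norm_num
    have e6 : (2:ℝ) * 1 + 4 = 6 := by norm_num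
    rw [e4, e6]
    have e16 : (4:ℝ) ^ 2 = 16 := by norm_num
    have e36 : (6:ℝ) ^ 2 = 36 := by norm_num
    rw [e16, e36]
    linarith
  · have k1 := mul_le_mul_of_nonneg_right hev' hD.le
    rw [zero_mul] at k1
    have k2 := mul_le_mul_of_nonneg_left g2 (by norm_num : (0:ℝ) ≤ 1 - 1 / 10 ^ 5)
    have e : 1 / 10 ^ 4 * (4 * dd X U / w ^ 2) = 4 / 10 ^ 4 / w ^ 2 * dd X U := by ring
    rw [e]
    nlinarith

theorem gr2_bound {R : List ℝ} {j : ℕ} (hj : j < 181) (h : ∀ x ∈ R, x ≤ ((gr2 j : ℚ) : ℝ)) :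
    ∀ x ∈ R, x ≤ 3 / 4 := by
  intro x hx
  refine (h x hx).trans ?_
  have : ((gr2 j : ℚ) : ℝ) ≤ ((3 / 4 : ℚ) : ℝ) := by exact_mod_cast gr2_le hj
  push_cast at this
  exact this

theorem chkO_sound {m n : ℕ} {w X U Q C : ℝ} {R : List ℝ} (h : Raw m n w X U Q C R) {b : Bx}
    (hb : InB b X U Q) {wq rb : ℚ} (hw : (wq : ℝ) = w) (hw1 : 13 / 10 ≤ w) (hw2 : w ≤ 24 / 10)
    (hrb : ∀ x ∈ R, x ≤ (rb : ℝ)) (hc : chkO m n wq rb b = true) : OddI m n w X U Q C R := by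
  unfold chkO at hc
  simp only [Bool.and_eq_true, Bool.or_eq_true, decide_eq_true_eq] at hc
  obtain ⟨⟨⟨⟨⟨⟨⟨k1, k2⟩, k3⟩, k4⟩, k5⟩, k6⟩, k7⟩, k8⟩ := hc
  have hL := PL_lt
  have hPLPH : PL ≤ PH := by decide +kernel
  have hreg := reg_of h hb k1 k3 (k4.trans hPLPH)
  have hR := h.rest_le hb hw hrb k6
  have hj : idx rb (wq - m * b.X0 ^ 2 - b.U0 ^ 2 - n * b.Q0 ^ 2) < 181 := by
    unfold okJ at k6
    simp only [Bool.and_eq_true, Bool.or_eq_true, decide_eq_true_eq] at k6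
    exact k6.1
  have hMhi := h.MM_le hb hw
  have hMlo := h.le_MM hb hw
  have xn : (0:ℝ) ≤ X := h.hU.trans h.hUX.le
  have hcfg : Cfg2 m n w X U Q C R := by
    refine ⟨h.hm, h.hU, h.hUX, h.hQ, h.hC, h.hCC, ?_, ?_, ?_, ?_, h.hw⟩
    · have a1 := pow_le_pow_left₀ xn hb.hx1 2
      have a2 : ((b.X1 ^ 2 : ℚ) : ℝ) ≤ ((125 / 100 : ℚ) : ℝ) := by exact_mod_cast k1
      push_cast at a2
      linarith
    · have a1 := pow_le_pow_left₀ xn hb.hx1 2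
      have a2 := pow_le_pow_left₀ h.hU hb.hu1 2
      have a3 : ((9 * (b.X1 ^ 2 + b.U1 ^ 2) : ℚ) : ℝ) < ((2 * PL : ℚ) : ℝ) := by exact_mod_cast k3
      push_cast at a3
      have := h.hCC
      linarith
    · have a1 := pow_le_pow_left₀ h.hQ hb.hq1 2
      have a3 : ((9 * b.Q1 ^ 2 : ℚ) : ℝ) ≤ ((PL : ℚ) : ℝ) := by exact_mod_cast k4
      push_cast at a3
      linarith
    · intro x hx
      exact ⟨h.hR x hx, gr2_bound hj hR x hx⟩
  have hrho : ∀ x ∈ R, x ^ 2 ≤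
      ((min (rb ^ 2) (wq - m * b.X0 ^ 2 - b.U0 ^ 2 - n * b.Q0 ^ 2) : ℚ) : ℝ) := by
    intro x hx
    rw [Rat.cast_min]
    apply le_min
    · push_cast
      exact pow_le_pow_left₀ (h.hR x hx) (hrb x hx) 2
    · exact (sq_le_MM hx).trans hMhi
  have hrho0 : 0 ≤ min (rb ^ 2) (wq - m * b.X0 ^ 2 - b.U0 ^ 2 - n * b.Q0 ^ 2) := by
    apply le_min (sq_nonneg _)
    have := (MM_nonneg R).trans hMhi
    exact_mod_cast this
  have h0 : (0:ℚ) ≤ max 0 (wq - m * b.X1 ^ 2 - b.U1 ^ 2 - n * b.Q1 ^ 2) := le_max_left _ _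
  rcases k8 with (k8 | k8) | k8
  · exact oddI_of hcfg hreg hw hw1 hw2 hrho hrho0 k5 k2 k4 hj hR h0 hMlo k7 k8
  · exact oddI_of hcfg hreg hw hw1 hw2 hrho hrho0 k5 k2 k4 hj hR h0 hMlo k7 k8
  · exact oddI_of hcfg hreg hw hw1 hw2 hrho hrho0 k5 k2 k4 hj hR h0 hMlo k7 k8

theorem chkE_sound {m n : ℕ} {w X U Q C : ℝ} {R : List ℝ} (h : Raw m n w X U Q C R) {b : Bx}
    (hb : InB b X U Q) {wq rb : ℚ} (hw : (wq : ℝ) = w) (hw0 : 0 < w)
    (hrb : ∀ x ∈ R, x ≤ (rb : ℝ)) (hc : chkE m n wq rb b = true) : EvenI m n w X U Q C R := by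
  unfold chkE at hc
  simp only [Bool.and_eq_true, Bool.or_eq_true, decide_eq_true_eq] at hc
  obtain ⟨⟨⟨⟨⟨k1, k3⟩, k4⟩, k6⟩, k7⟩, k8⟩ := hc
  have hL := PL_lt
  have hQ0 : 0 ≤ b.Q1 := by
    have : (0:ℝ) ≤ (b.Q1 : ℝ) := h.hQ.trans hb.hq1
    exact_mod_cast this
  have hreg := reg_of h hb k1 k3 (by
    have hPH : PH = 98697 / 10000 := rfl
    rw [hPH]; nlinarith)
  have hR := h.rest_le hb hw hrb k6
  have hj : idx rb (wq - m * b.X0 ^ 2 - b.U0 ^ 2 - n * b.Q0 ^ 2) < 181 := by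
    unfold okJ at k6
    simp only [Bool.and_eq_true, Bool.or_eq_true, decide_eq_true_eq] at k6
    exact k6.1
  have hMhi := h.MM_le hb hw
  have hMlo := h.le_MM hb hw
  have xn : (0:ℝ) ≤ X := h.hU.trans h.hUX.le
  have hcfg : Cfg2 m n w X U Q C R := by
    refine ⟨h.hm, h.hU, h.hUX, h.hQ, h.hC, h.hCC, ?_, ?_, ?_, ?_, h.hw⟩
    · have a1 := pow_le_pow_left₀ xn hb.hx1 2
      have a2 : ((b.X1 ^ 2 : ℚ) : ℝ) ≤ ((125 / 100 : ℚ) : ℝ) := by exact_mod_cast k1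
      push_cast at a2
      linarith
    · have a1 := pow_le_pow_left₀ xn hb.hx1 2
      have a2 := pow_le_pow_left₀ h.hU hb.hu1 2
      have a3 : ((9 * (b.X1 ^ 2 + b.U1 ^ 2) : ℚ) : ℝ) < ((2 * PL : ℚ) : ℝ) := by exact_mod_cast k3
      push_cast at a3
      have := h.hCC
      linarith
    · have a1 : Q ≤ 1 := by
        refine hb.hq1.trans ?_
        exact_mod_cast k4
      have := pi_gt_three
      nlinarith [h.hQ]
    · intro x hx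
      exact ⟨h.hR x hx, gr2_bound hj hR x hx⟩
  have h0 : (0:ℚ) ≤ max 0 (wq - m * b.X1 ^ 2 - b.U1 ^ 2 - n * b.Q1 ^ 2) := le_max_left _ _
  rcases k8 with k8 | k8
  · exact evenI_of hcfg hreg hw hw0 hj hR h0 hMlo hMhi k7 k8
  · exact evenI_of hcfg hreg hw hw0 hj hR h0 hMlo hMhi k7 k8

/-- both inequalities -/
def Both (m n : ℕ) (w : ℝ) (mu : ℚ) (X U Q C : ℝ) (R : List ℝ) : Prop :=
  OddI m n w X U Q C R ∧ EvenI m n (mu ^ 2 * w) (mu * X) (mu * U) (mu * Q) (mu * C)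
    (R.map fun x => mu * x)

theorem map_sq_sum (mu : ℝ) (R : List ℝ) :
    ((R.map fun x => mu * x).map fun x => x ^ 2).sum = mu ^ 2 * (R.map fun x => x ^ 2).sum := by
  induction R with
  | nil => simp
  | cons a R ih =>
    simp only [List.map_cons, List.sum_cons]
    rw [ih]
    ring

theorem Raw.scale {m n : ℕ} {w X U Q C : ℝ} {R : List ℝ} (h : Raw m n w X U Q C R) {mu : ℚ}
    (hmu : 0 < mu) : Raw m n (mu ^ 2 * w) (mu * X) (mu * U) (mu * Q) (mu * C)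
      (R.map fun x => mu * x) := by
  have hm : (0:ℝ) < (mu : ℝ) := by exact_mod_cast hmu
  refine ⟨h.hm, mul_nonneg hm.le h.hU, mul_lt_mul_of_pos_left h.hUX hm, mul_nonneg hm.le h.hQ,
    mul_pos hm h.hC, ?_, ?_, ?_⟩
  · have := h.hCC
    nlinarith [sq_nonneg (mu : ℝ)]
  · intro x hx
    obtain ⟨y, hy, rfl⟩ := List.mem_map.mp hx
    exact mul_nonneg hm.le (h.hR y hy)
  · rw [map_sq_sum, ← h.hw]
    ring

theorem InB.scale {b : Bx} {X U Q : ℝ} (h : InB b X U Q) {mu : ℚ} (hmu : 0 < mu) :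
    InB (b.scale mu) (mu * X) (mu * U) (mu * Q) := by
  have hm : (0:ℝ) < (mu : ℝ) := by exact_mod_cast hmu
  unfold Bx.scale
  refine ⟨mul_nonneg hmu.le h.x0, mul_nonneg hmu.le h.u0, mul_nonneg hmu.le h.q0, ?_, ?_, ?_, ?_,
    ?_, ?_⟩ <;> push_cast
  · exact mul_le_mul_of_nonneg_left h.hx0 hm.le
  · exact mul_le_mul_of_nonneg_left h.hx1 hm.le
  · exact mul_le_mul_of_nonneg_left h.hu0 hm.le
  · exact mul_le_mul_of_nonneg_left h.hu1 hm.le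
  · exact mul_le_mul_of_nonneg_left h.hq0 hm.le
  · exact mul_le_mul_of_nonneg_left h.hq1 hm.le

theorem chk_sound {m n : ℕ} {w X U Q C : ℝ} {R : List ℝ} (h : Raw m n w X U Q C R) {b : Bx}
    (hb : InB b X U Q) {wq mu rb : ℚ} (hw : (wq : ℝ) = w) (hw1 : 13 / 10 ≤ w) (hw2 : w ≤ 24 / 10)
    (hmu : 0 < mu) (hrb : ∀ x ∈ R, x ≤ (rb : ℝ)) (hne : R = [] → 0 ≤ rb)
    (hc : chk m n wq mu rb b = true) : Both m n w mu X U Q C R := by
  have hm : (0:ℝ) < (mu : ℝ) := by exact_mod_cast hmu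
  unfold chk at hc
  simp only [Bool.and_eq_true, Bool.or_eq_true, decide_eq_true_eq] at hc
  rcases hc with ((hc | hc) | hc) | hc
  · exfalso
    have : (b.X1 : ℝ) ≤ (b.U0 : ℝ) := by exact_mod_cast hc
    linarith [hb.hx1, hb.hu0, h.hUX]
  · exfalso
    have h1 := (MM_nonneg R).trans (h.MM_le hb hw)
    have h2 : ((wq - m * b.X0 ^ 2 - b.U0 ^ 2 - n * b.Q0 ^ 2 : ℚ) : ℝ) < ((0 : ℚ) : ℝ) := by
      exact_mod_cast hc
    push_cast at h1 h2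
    linarith
  · exfalso
    rcases R with _ | ⟨x, R⟩
    · exact absurd (hne rfl) (not_le.mpr hc)
    · have h1 := hrb x (by simp)
      have h2 := h.hR x (by simp)
      have h3 : (rb : ℝ) < ((0:ℚ) : ℝ) := by exact_mod_cast hc
      push_cast at h3
      linarith
  · obtain ⟨he, ho⟩ := hc
    refine ⟨chkO_sound h hb hw hw1 hw2 hrb ho, ?_⟩
    have hrb' : ∀ x ∈ (R.map fun x => (mu : ℝ) * x), x ≤ ((mu * rb : ℚ) : ℝ) := by
      intro x hx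
      obtain ⟨y, hy, rfl⟩ := List.mem_map.mp hx
      push_cast
      exact mul_le_mul_of_nonneg_left (hrb y hy) hm.le
    have hws : (((mu ^ 2 * wq : ℚ)) : ℝ) = mu ^ 2 * w := by push_cast; rw [hw]
    have hpos : 0 < (mu : ℝ) ^ 2 * w := by positivity
    by_cases h1 : mu = 1
    · rw [if_pos h1] at he
      subst h1
      have hid : (R.map fun x => ((1 : ℚ) : ℝ) * x) = R := by simp
      rw [hid]
      have := chkE_sound h hb hw (by linarith) hrb he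
      simpa using this
    · rw [if_neg h1] at he
      exact chkE_sound (h.scale hmu) (hb.scale hmu) hws hpos hrb' he

theorem cov_sound {m n : ℕ} {w X U Q C : ℝ} {R : List ℝ} (h : Raw m n w X U Q C R)
    {wq mu : ℚ} (hw : (wq : ℝ) = w) (hw1 : 13 / 10 ≤ w) (hw2 : w ≤ 24 / 10)
    (hmu : 0 < mu) {emp : Bx → Bool} {rbf : Bx → ℚ}
    (hemp : ∀ b, InB b X U Q → emp b = true → False)
    (hrbf : ∀ b, InB b X U Q → (∀ x ∈ R, x ≤ ((rbf b : ℚ) : ℝ)) ∧ (R = [] → 0 ≤ rbf b)) :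
    ∀ (T : Tr) (b : Bx), InB b X U Q → cov m n wq mu emp rbf T b = true →
      Both m n w mu X U Q C R := by
  intro T
  induction T with
  | l =>
    intro b hb hc
    unfold cov at hc
    rw [Bool.or_eq_true] at hc
    rcases hc with hc | hc
    · exact (hemp b hb hc).elim
    · exact chk_sound h hb hw hw1 hw2 hmu (hrbf b hb).1 (hrbf b hb).2 hc
  | x s t ihs iht =>
    intro b hb hc
    unfold cov at hc
    rw [Bool.and_eq_true] at hc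
    have e : (((b.X0 + b.X1) / 2 : ℚ) : ℝ) = ((b.X0 : ℝ) + b.X1) / 2 := by push_cast; ring
    rcases le_total X (((b.X0 + b.X1) / 2 : ℚ) : ℝ) with h1 | h1
    · exact ihs b.xl ⟨hb.x0, hb.u0, hb.q0, hb.hx0, h1, hb.hu0, hb.hu1, hb.hq0, hb.hq1⟩ hc.1
    · refine iht b.xr ⟨?_, hb.u0, hb.q0, h1, hb.hx1, hb.hu0, hb.hu1, hb.hq0, hb.hq1⟩ hc.2
      have h2 : b.X0 ≤ b.X1 := by exact_mod_cast hb.hx0.trans hb.hx1
      show 0 ≤ (b.X0 + b.X1) / 2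
      linarith [hb.x0]
  | u s t ihs iht =>
    intro b hb hc
    unfold cov at hc
    rw [Bool.and_eq_true] at hc
    rcases le_total U (((b.U0 + b.U1) / 2 : ℚ) : ℝ) with h1 | h1
    · exact ihs b.ul ⟨hb.x0, hb.u0, hb.q0, hb.hx0, hb.hx1, hb.hu0, h1, hb.hq0, hb.hq1⟩ hc.1
    · refine iht b.ur ⟨hb.x0, ?_, hb.q0, hb.hx0, hb.hx1, h1, hb.hu1, hb.hq0, hb.hq1⟩ hc.2
      have h2 : b.U0 ≤ b.U1 := by exact_mod_cast hb.hu0.trans hb.hu1
      show 0 ≤ (b.U0 + b.U1) / 2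
      linarith [hb.u0]
  | q s t ihs iht =>
    intro b hb hc
    unfold cov at hc
    rw [Bool.and_eq_true] at hc
    rcases le_total Q (((b.Q0 + b.Q1) / 2 : ℚ) : ℝ) with h1 | h1
    · exact ihs b.ql ⟨hb.x0, hb.u0, hb.q0, hb.hx0, hb.hx1, hb.hu0, hb.hu1, hb.hq0, h1⟩ hc.1
    · refine iht b.qr ⟨hb.x0, hb.u0, ?_, hb.hx0, hb.hx1, hb.hu0, hb.hu1, h1, hb.hq1⟩ hc.2
      have h2 : b.Q0 ≤ b.Q1 := by exact_mod_cast hb.hq0.trans hb.hq1
      show 0 ≤ (b.Q0 + b.Q1) / 2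
      linarith [hb.q0]

end Pool.Agent.Helper95.SP.Crude
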