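import Pool.Agent.Helper95.SP.Crude.Box2

/-!
The box computations for the different kinds of pair facts.
-/

set_option autoImplicit false

namespace Pool.Agent.Helper95.SP.Crude

/-- a nonincreasing bound: `top` up to `t`, then a line -/
def lineQ (t top a b p0 : ℚ) (y : ℚ) : ℚ := if y ≤ t then top else a - b * (y - p0)
def noQ : ℚ → ℚ := fun _ => 9

def t02 : ℚ := 15416 / 10000
def t04 : ℚ := 1512 / 1000
def t06 : ℚ := 14833 / 10000
def t08 : ℚ := 14558 / 10000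
def t10 : ℚ := 14293 / 10000
def t20 : ℚ := 13101 / 10000
def t35 : ℚ := 11645 / 10000
def mu35 : ℚ := 15120 / 11645

/-- the box of the angles -/
def mk (th a b c d e f : ℚ) : Bx := ⟨th * a, th * b, th * c, th * d, th * e, th * f⟩

/-- tests for the facts M -/
def empM (th : ℚ) (S : ℚ → ℚ) (b : Bx) : Bool := decide (S (b.X0 / th) * th < b.X0 + b.U0)
def covM (m : ℕ) (th mu : ℚ) (S : ℚ → ℚ) (T : Tr) (a b d : ℚ) : Bool :=
  cov m 0 (th ^ 2) mu (empM th S) (fun b => b.U1) T (mk th a b 0 d 0 0)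

/-- test for the fact D -/
def covD (th mu : ℚ) (T : Tr) (b : ℚ) : Bool :=
  cov 1 0 (th ^ 2) mu (fun _ => false) (fun b => b.X1) T (mk th 0 b 0 b 0 0)

/-- tests for the facts A -/
def rbA (th : ℚ) (S : ℚ → ℚ) (b : Bx) : ℚ := min b.U1 (S (b.X0 / th) * th - b.U0)
def covA (th mu : ℚ) (K : ℚ) (S : ℚ → ℚ) (T : Tr) (a b c d : ℚ) : Bool :=
  cov 1 0 (th ^ 2) mu (fun b => decide (K * th < b.X0 + b.U0)) (rbA th S) T (mk th a b c d 0 0)

/-- tests for the facts B -/
def empB (th : ℚ) (Slo Shi : ℚ → ℚ) (b : Bx) : Bool :=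
  decide (Shi (b.X0 / th) * th < b.Q0 + b.U0) || decide (b.Q1 + b.U1 < Slo (b.X1 / th) * th) ||
    decide (b.Q1 < b.U0) || decide (b.X1 < b.Q0)
def covB (th mu : ℚ) (Slo Shi : ℚ → ℚ) (T : Tr) (a b c d e f : ℚ) : Bool :=
  cov 1 1 (th ^ 2) mu (empB th Slo Shi) (fun b => b.U1) T (mk th a b c d e f)

/-- splitting the computation -/
theorem cov_x {m n : ℕ} {w mu : ℚ} {emp : Bx → Bool} {rbf : Bx → ℚ} {s t : Tr} {b : Bx}
    (h1 : cov m n w mu emp rbf s b.xl = true) (h2 : cov m n w mu emp rbf t b.xr = true) :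
    cov m n w mu emp rbf (.x s t) b = true := by
  unfold cov
  rw [h1, h2]
  rfl

theorem cov_u {m n : ℕ} {w mu : ℚ} {emp : Bx → Bool} {rbf : Bx → ℚ} {s t : Tr} {b : Bx}
    (h1 : cov m n w mu emp rbf s b.ul = true) (h2 : cov m n w mu emp rbf t b.ur = true) :
    cov m n w mu emp rbf (.u s t) b = true := by
  unfold cov
  rw [h1, h2]
  rfl

theorem cov_q {m n : ℕ} {w mu : ℚ} {emp : Bx → Bool} {rbf : Bx → ℚ} {s t : Tr} {b : Bx}
    (h1 : cov m n w mu emp rbf s b.ql = true) (h2 : cov m n w mu emp rbf t b.qr = true) :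
    cov m n w mu emp rbf (.q s t) b = true := by
  unfold cov
  rw [h1, h2]
  rfl

end Pool.Agent.Helper95.SP.Crude
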