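import Pool.Agent.Helper95.SP.Crude.Chk
import Pool.Agent.Helper95.SP.Crude.CovDefs
import Pool.Agent.Helper95.SP.Crude.Pair2
import Pool.Agent.Helper89.SP.WaveDefs

/-!
From the box test to the exclusion of pairs.
-/

set_option autoImplicit false

namespace Pool.Agent.Helper95.SP.Crude

open Real Finset Slab Pool.Agent.Helper89.SP

theorem PP_map (θ k : ℝ) (l : List ℝ) : PP (l.map fun x => θ * x) k = PP l (k * θ) := by
  unfold PP
  rw [List.map_map]
  congr 1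
  apply List.map_congr_left
  intro x _
  simp only [Function.comp]
  congr 1
  ring

theorem LL_map (θ : ℝ) (m n : ℕ) (x q : ℝ) (l : List ℝ) :
    LL m n (θ * x) (θ * q) (l.map fun x => θ * x) = (LL m n x q l).map fun x => θ * x := by
  unfold LL
  rw [List.map_append, List.map_append, List.map_replicate, List.map_replicate]

theorem FF_scale (θ : ℝ) (m n : ℕ) (x u q c k : ℝ) (l : List ℝ) :
    FF m n (θ * x) (θ * u) (θ * q) (θ * c) (l.map fun x => θ * x) k =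
      Ker.PB (LL m n x q l) x u c (k * θ) := by
  unfold FF Ker.PB
  rw [LL_map, PP_map]
  congr 1
  unfold BB
  rw [mul_assoc, mul_assoc, mul_assoc]

theorem sq_LL (m n : ℕ) (hm : 1 ≤ m) (x q : ℝ) (l : List ℝ) :
    ((LL m n x q l).map fun x => x ^ 2).sum + x ^ 2 =
      m * x ^ 2 + n * q ^ 2 + (l.map fun x => x ^ 2).sum := by
  unfold LL
  rw [List.map_append, List.map_append, List.map_replicate, List.map_replicate, List.sum_append,
    List.sum_append, List.sum_replicate, List.sum_replicate, nsmul_eq_mul, nsmul_eq_mul,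
    Nat.cast_sub hm]
  push_cast
  ring

/-- the numerical conditions on the node -/
def okN (th mu nu : ℚ) : Bool :=
  decide (0 < th) && decide (0 < mu) && decide (13 / 10 ≤ th ^ 2) && decide (th ^ 2 ≤ 24 / 10) &&
    decide (1015 / 1000 * (2 * (mu * th)) ≤ 3141592 / 1000000) &&
    (decide (mu = 1) || decide (1 < mu) &&
      decide (mu * th / 250 ≤ 3141592 / 1000000 * (mu - 1))) &&
    decide (3141593 / 1000000 + 2 * th / 1000 ≤ 2 * th * nu)

theorem ex_of_both {m n : ℕ} {th mu nu : ℚ} {x u q ν : ℝ} {l : List ℝ} (hm : 1 ≤ m)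
    (hu : 0 ≤ u) (hux : u < x) (hsq : sq l + m * x ^ 2 + u ^ 2 + n * q ^ 2 = 1)
    (hN : okN th mu nu = true) (hν : ((nu : ℚ) : ℝ) = ν)
    (hB : ∀ c : ℝ, 0 < c → 2 * c ^ 2 = x ^ 2 + u ^ 2 →
      Both m n ((th : ℝ) ^ 2) mu (th * x) (th * u) (th * q) (th * c) (l.map fun x => (th : ℝ) * x)) :
    PairEx (LL m n x q l) x u ν := by
  unfold okN at hN
  simp only [Bool.and_eq_true, Bool.or_eq_true, decide_eq_true_eq] at hN
  obtain ⟨⟨⟨⟨⟨⟨n1, n2⟩, n3⟩, n4⟩, n5⟩, n6⟩, n7⟩ := hN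
  have th0 : (0:ℝ) < (th : ℝ) := by exact_mod_cast n1
  have mu0 : (0:ℝ) < (mu : ℝ) := by exact_mod_cast n2
  have hπ1 := pi_gt_d6
  have hπ2 := pi_lt_d6
  have hπ0 := pi_pos
  intro s hs c hc0 hc
  have hcpos : 0 < c := by
    rcases hc0.eq_or_lt with h | h
    · rw [← h] at hc
      have : 0 < x := hu.trans_lt hux
      nlinarith [sq_nonneg u, pow_pos this 2]
    · exact h
  obtain ⟨⟨o1, o3, T7, oT, oI⟩, e2, T4, eT, eI⟩ := hB c hcpos hc
  set θ : ℝ := (th : ℝ) with hθ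
  have hmap : (l.map fun x => θ * x).map (fun x => (mu : ℝ) * x) =
      l.map fun x => ((mu : ℝ) * θ) * x := by
    rw [List.map_map]
    apply List.map_congr_left
    intro y _
    simp only [Function.comp]
    ring
  have hscale : ∀ k : ℝ, FF m n (mu * (θ * x)) (mu * (θ * u)) (mu * (θ * q)) (mu * (θ * c))
      ((l.map fun x => θ * x).map fun x => (mu : ℝ) * x) k =
      Ker.PB (LL m n x q l) x u c (k * (mu * θ)) := by
    intro k
    rw [hmap, ← mul_assoc, ← mul_assoc, ← mul_assoc, ← mul_assoc]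
    exact FF_scale _ _ _ _ _ _ _ _ _
  simp_rw [FF_scale] at o1 o3 oT oI
  simp_rw [hscale] at e2 eT eI
  have t0 : π / (2 * (π / (2 * θ))) = θ := by field_simp
  have te0 : π / (2 * (π / (2 * (mu * θ)))) = mu * θ := by field_simp
  have dd1 : 4 * dd (θ * x) (θ * u) / (θ ^ 2) ^ 2 = (x ^ 2 - u ^ 2) ^ 2 := by
    unfold dd; field_simp; ring
  have dd2 : 4 * dd (mu * (θ * x)) (mu * (θ * u)) / (mu ^ 2 * θ ^ 2) ^ 2 = (x ^ 2 - u ^ 2) ^ 2 := by
    unfold dd; field_simp; ring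
  rw [dd1] at oI
  rw [dd2] at eI
  have hsum : x ^ 2 + u ^ 2 + ((LL m n x q l).map fun x => x ^ 2).sum = 1 := by
    have := sq_LL m n hm x q l
    unfold Pool.Agent.Helper89.SP.sq at hsq
    linarith
  have n5' : 1015 / 1000 * (2 * ((mu : ℝ) * θ)) ≤ 3141592 / 1000000 := by
    have : ((1015 / 1000 * (2 * (mu * th)) : ℚ) : ℝ) ≤ ((3141592 / 1000000 : ℚ) : ℝ) := by
      exact_mod_cast n5
    push_cast at this
    exact this
  have n7' : 3141593 / 1000000 + 2 * θ / 1000 ≤ 2 * θ * ν := by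
    have : ((3141593 / 1000000 + 2 * th / 1000 : ℚ) : ℝ) ≤ ((2 * th * nu : ℚ) : ℝ) := by
      exact_mod_cast n7
    push_cast at this
    rw [hν] at this
    exact this
  have k1 : (1.015 : ℝ) ≤ π / (2 * (mu * θ)) := by
    rw [le_div_iff₀ (by positivity)]
    linarith
  have k2 : π / (2 * (mu * θ)) = π / (2 * θ) ∨ π / (2 * (mu * θ)) + 1 / 500 ≤ π / (2 * θ) := by
    rcases n6 with n6 | ⟨n6, n8⟩
    · left; rw [n6]; norm_num
    · right
      have n6' : (1:ℝ) < (mu : ℝ) := by exact_mod_cast n6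
      have n8' : (mu : ℝ) * θ / 250 ≤ 3141592 / 1000000 * ((mu : ℝ) - 1) := by
        have : ((mu * th / 250 : ℚ) : ℝ) ≤ ((3141592 / 1000000 * (mu - 1) : ℚ) : ℝ) := by
          exact_mod_cast n8
        push_cast at this
        exact this
      have e : π / (2 * θ) - π / (2 * (mu * θ)) = π * (mu - 1) / (2 * (mu * θ)) := by
        field_simp
      have : 1 / 500 ≤ π * (mu - 1) / (2 * (mu * θ)) := by
        rw [le_div_iff₀ (by positivity)]
        have : 3141592 / 1000000 * ((mu : ℝ) - 1) ≤ π * (mu - 1) :=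
          mul_le_mul_of_nonneg_right (by linarith) (by linarith)
        linarith
      linarith
  have k3 : π / (2 * θ) + 1 / 1000 ≤ s := by
    refine le_trans ?_ hs
    rw [← sub_nonneg]
    have e : ν - (π / (2 * θ) + 1 / 1000) = (2 * θ * ν - (π + 2 * θ / 1000)) / (2 * θ) := by
      field_simp
    rw [e]
    apply div_nonneg _ (by positivity)
    linarith
  have key := pair_exclusion2 hu hux hc0 hc (LL m n x q l) hsum k1 k2 (T7 := T7) (T4 := T4)
    (s := s)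
  rw [t0, te0] at key
  have o1' : 0 ≤ Ker.PB (LL m n x q l) x u c θ := by rwa [one_mul] at o1
  rw [one_mul] at oI
  exact key o1' o3 oT oI e2 eT eI k3

theorem ex_of_cov {m n : ℕ} {th mu nu : ℚ} {x u q ν : ℝ} {l : List ℝ} (hm : 1 ≤ m)
    (hu : 0 ≤ u) (hux : u < x) (hq : 0 ≤ q) (hl : ∀ e ∈ l, 0 ≤ e)
    (hsq : sq l + m * x ^ 2 + u ^ 2 + n * q ^ 2 = 1)
    (hN : okN th mu nu = true) (hν : ((nu : ℚ) : ℝ) = ν)
    {emp : Bx → Bool} {rbf : Bx → ℚ}
    (hemp : ∀ b, InB b (th * x) (th * u) (th * q) → emp b = true → False)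
    (hrbf : ∀ b, InB b (th * x) (th * u) (th * q) →
      (∀ e ∈ l, (th : ℝ) * e ≤ ((rbf b : ℚ) : ℝ)) ∧ (l = [] → 0 ≤ rbf b))
    {T : Tr} {b : Bx} (hb : InB b (th * x) (th * u) (th * q))
    (hc : cov m n (th ^ 2) mu emp rbf T b = true) : PairEx (LL m n x q l) x u ν := by
  have hN' := hN
  unfold okN at hN
  simp only [Bool.and_eq_true, Bool.or_eq_true, decide_eq_true_eq] at hN
  obtain ⟨⟨⟨⟨⟨⟨n1, n2⟩, n3⟩, n4⟩, n5⟩, n6⟩, n7⟩ := hN
  have th0 : (0:ℝ) < (th : ℝ) := by exact_mod_cast n1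
  have w1 : (13 / 10 : ℝ) ≤ (th : ℝ) ^ 2 := by
    have : ((13 / 10 : ℚ) : ℝ) ≤ ((th ^ 2 : ℚ) : ℝ) := by exact_mod_cast n3
    push_cast at this
    exact this
  have w2 : (th : ℝ) ^ 2 ≤ (24 / 10 : ℝ) := by
    have : ((th ^ 2 : ℚ) : ℝ) ≤ ((24 / 10 : ℚ) : ℝ) := by exact_mod_cast n4
    push_cast at this
    exact this
  apply ex_of_both hm hu hux hsq hN' hν
  intro c hc0 hcc
  have hraw : Raw m n ((th : ℝ) ^ 2) (th * x) (th * u) (th * q) (th * c)
      (l.map fun x => (th : ℝ) * x) := by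
    refine ⟨hm, mul_nonneg th0.le hu, mul_lt_mul_of_pos_left hux th0, mul_nonneg th0.le hq,
      mul_pos th0 hc0, ?_, ?_, ?_⟩
    · nlinarith [sq_nonneg (th : ℝ)]
    · intro y hy
      obtain ⟨e, he, rfl⟩ := List.mem_map.mp hy
      exact mul_nonneg th0.le (hl e he)
    · rw [map_sq_sum]
      unfold Pool.Agent.Helper89.SP.sq at hsq
      linear_combination (th : ℝ) ^ 2 * hsq
  refine cov_sound hraw (wq := th ^ 2) (by push_cast; rfl) w1 w2 n2 hemp ?_ T b hb hc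
  intro b' hb'
  obtain ⟨r1, r2⟩ := hrbf b' hb'
  refine ⟨?_, ?_⟩
  · intro y hy
    obtain ⟨e, he, rfl⟩ := List.mem_map.mp hy
    exact r1 e he
  · intro hnil
    exact r2 (List.map_eq_nil_iff.mp hnil)

theorem inB_mk {th a b c d e f : ℚ} {x u q : ℝ} (hth : 0 ≤ th) (ha : 0 ≤ a) (hc : 0 ≤ c)
    (he : 0 ≤ e) (h1 : (a : ℝ) ≤ x) (h2 : x ≤ (b : ℝ)) (h3 : (c : ℝ) ≤ u) (h4 : u ≤ (d : ℝ))
    (h5 : (e : ℝ) ≤ q) (h6 : q ≤ (f : ℝ)) : InB (mk th a b c d e f) (th * x) (th * u) (th * q) := by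
  have hth' : (0:ℝ) ≤ (th : ℝ) := by exact_mod_cast hth
  unfold mk
  refine ⟨mul_nonneg hth ha, mul_nonneg hth hc, mul_nonneg hth he, ?_, ?_, ?_, ?_, ?_, ?_⟩ <;>
    push_cast <;> exact mul_le_mul_of_nonneg_left (by assumption) hth'

theorem ex_M {m : ℕ} {th mu nu : ℚ} {S : ℚ → ℚ} {T : Tr} {a b d : ℚ} {x u ν : ℝ} {l : List ℝ}
    (h : DM m l x u) (hm : 1 ≤ m) (hN : okN th mu nu = true) (hν : ((nu : ℚ) : ℝ) = ν)
    (ha : 0 ≤ a) (h1 : (a : ℝ) ≤ x) (h2 : x ≤ (b : ℝ)) (h4 : u ≤ (d : ℝ))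
    (hS : ∀ y : ℚ, (y : ℝ) ≤ x → x + u ≤ ((S y : ℚ) : ℝ))
    (hc : covM m th mu S T a b d = true) : PairEx (List.replicate (m - 1) x ++ l) x u ν := by
  have hN' := hN
  unfold okN at hN'
  simp only [Bool.and_eq_true, Bool.or_eq_true, decide_eq_true_eq] at hN'
  have n1 : 0 < th := hN'.1.1.1.1.1.1
  have th0 : (0:ℝ) < (th : ℝ) := by exact_mod_cast n1
  have e : List.replicate (m - 1) x ++ l = LL m 0 x 0 l := by unfold LL; simp
  rw [e]
  refine ex_of_cov hm h.hu h.hux le_rfl (fun e he => (h.hl e he).1) ?_ hN hν ?_ ?_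
    (inB_mk n1.le ha le_rfl le_rfl h1 h2 (by simpa using h.hu) h4 (by simp) (by simp)) hc
  · have := h.hsq
    push_cast
    linarith
  · intro b' hb' he'
    unfold empM at he'
    rw [decide_eq_true_eq] at he'
    have h5 : (((b'.X0 / th : ℚ)) : ℝ) ≤ x := by
      push_cast
      rw [div_le_iff₀ th0]
      linarith [hb'.hx0]
    have h6 := hS _ h5
    have h7 : ((S (b'.X0 / th) * th : ℚ) : ℝ) < ((b'.X0 + b'.U0 : ℚ) : ℝ) := by exact_mod_cast he'
    push_cast at h6 h7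
    have h8 : (x + u) * th ≤ (S (b'.X0 / th) : ℝ) * th := mul_le_mul_of_nonneg_right h6 th0.le
    linarith [hb'.hx0, hb'.hu0]
  · intro b' hb'
    refine ⟨fun e he => ?_, fun _ => ?_⟩
    · exact (mul_le_mul_of_nonneg_left (h.hl e he).2 th0.le).trans hb'.hu1
    · have : (0:ℝ) ≤ (b'.U1 : ℝ) := (mul_nonneg th0.le h.hu).trans hb'.hu1
      exact_mod_cast this

theorem ex_D {th mu nu : ℚ} {T : Tr} {b : ℚ} {x u ν : ℝ} {l : List ℝ}
    (hu : 0 ≤ u) (hux : u < x) (hl : ∀ e ∈ l, 0 ≤ e ∧ e ≤ x) (hsq : sq l + x ^ 2 + u ^ 2 = 1)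
    (hN : okN th mu nu = true) (hν : ((nu : ℚ) : ℝ) = ν) (h2 : x ≤ (b : ℝ))
    (hc : covD th mu T b = true) : PairEx l x u ν := by
  have hN' := hN
  unfold okN at hN'
  simp only [Bool.and_eq_true, Bool.or_eq_true, decide_eq_true_eq] at hN'
  have n1 : 0 < th := hN'.1.1.1.1.1.1
  have th0 : (0:ℝ) < (th : ℝ) := by exact_mod_cast n1
  have e : l = LL 1 0 x 0 l := by unfold LL; simp
  rw [e]
  refine ex_of_cov le_rfl hu hux le_rfl (fun e he => (hl e he).1) ?_ hN hν ?_ ?_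
    (inB_mk n1.le le_rfl le_rfl le_rfl (by simpa using hu.trans hux.le) h2 (by simpa using hu)
      (hux.le.trans h2) (by simp) (by simp)) hc
  · push_cast
    linarith
  · intro b' _ he'
    exact absurd he' (by simp)
  · intro b' hb'
    refine ⟨fun e he => ?_, fun _ => ?_⟩
    · exact (mul_le_mul_of_nonneg_left (hl e he).2 th0.le).trans hb'.hx1
    · have : (0:ℝ) ≤ (b'.X1 : ℝ) := (mul_nonneg th0.le (hu.trans hux.le)).trans hb'.hx1
      exact_mod_cast this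

theorem ex_A {th mu nu K : ℚ} {S : ℚ → ℚ} {T : Tr} {a b c d : ℚ} {p q S' ν : ℝ} {l : List ℝ}
    (h : DA l p q S') (hN : okN th mu nu = true) (hν : ((nu : ℚ) : ℝ) = ν)
    (ha : 0 ≤ a) (hc0 : 0 ≤ c) (h1 : (a : ℝ) ≤ p) (h2 : p ≤ (b : ℝ)) (h3 : (c : ℝ) ≤ q)
    (h4 : q ≤ (d : ℝ)) (hK : p + q ≤ (K : ℝ)) (hne : l ≠ [])
    (hS : ∀ y : ℚ, (y : ℝ) ≤ p → (∀ e ∈ l, q + e ≤ ((S y : ℚ) : ℝ)))
    (hc : covA th mu K S T a b c d = true) : PairEx l p q ν := by
  have hN' := hN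
  unfold okN at hN'
  simp only [Bool.and_eq_true, Bool.or_eq_true, decide_eq_true_eq] at hN'
  have n1 : 0 < th := hN'.1.1.1.1.1.1
  have th0 : (0:ℝ) < (th : ℝ) := by exact_mod_cast n1
  have e : l = LL 1 0 p 0 l := by unfold LL; simp
  rw [e]
  refine ex_of_cov le_rfl h.hq h.hqp le_rfl (fun e he => (h.hl e he).1) ?_ hN hν ?_ ?_
    (inB_mk n1.le ha hc0 le_rfl h1 h2 h3 h4 (by simp) (by simp)) hc
  · have := h.hsq
    push_cast
    linarith
  · intro b' hb' he'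
    rw [decide_eq_true_eq] at he'
    have h7 : ((K * th : ℚ) : ℝ) < ((b'.X0 + b'.U0 : ℚ) : ℝ) := by exact_mod_cast he'
    push_cast at h7
    have h8 : (p + q) * th ≤ (K : ℝ) * th := mul_le_mul_of_nonneg_right hK th0.le
    linarith [hb'.hx0, hb'.hu0]
  · intro b' hb'
    refine ⟨fun e he => ?_, fun h0 => absurd h0 hne⟩
    unfold rbA
    rw [Rat.cast_min]
    apply le_min
    · exact (mul_le_mul_of_nonneg_left (h.hl e he).2.1 th0.le).trans hb'.hu1
    · have h5 : (((b'.X0 / th : ℚ)) : ℝ) ≤ p := by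
        push_cast
        rw [div_le_iff₀ th0]
        linarith [hb'.hx0]
      have h6 := hS _ h5 e he
      have h8 : (q + e) * th ≤ (S (b'.X0 / th) : ℝ) * th := mul_le_mul_of_nonneg_right h6 th0.le
      push_cast
      linarith [hb'.hu0]

theorem ex_B {th mu nu : ℚ} {Slo Shi : ℚ → ℚ} {T : Tr} {a b c d e f : ℚ} {p q r ν : ℝ}
    {l : List ℝ} (h : DB l p q r) (hN : okN th mu nu = true) (hν : ((nu : ℚ) : ℝ) = ν)
    (ha : 0 ≤ a) (hc0 : 0 ≤ c) (he0 : 0 ≤ e) (h1 : (a : ℝ) ≤ p) (h2 : p ≤ (b : ℝ))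
    (h3 : (c : ℝ) ≤ r) (h4 : r ≤ (d : ℝ)) (h5 : (e : ℝ) ≤ q) (h6 : q ≤ (f : ℝ))
    (hShi : ∀ y : ℚ, (y : ℝ) ≤ p → q + r ≤ ((Shi y : ℚ) : ℝ))
    (hSlo : ∀ y : ℚ, p ≤ (y : ℝ) → ((Slo y : ℚ) : ℝ) ≤ q + r)
    (hc : covB th mu Slo Shi T a b c d e f = true) : PairEx (q :: l) p r ν := by
  have hN' := hN
  unfold okN at hN'
  simp only [Bool.and_eq_true, Bool.or_eq_true, decide_eq_true_eq] at hN'
  have n1 : 0 < th := hN'.1.1.1.1.1.1
  have th0 : (0:ℝ) < (th : ℝ) := by exact_mod_cast n1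
  have hq : 0 ≤ q := h.hr.trans h.hrq
  have el : q :: l = LL 1 1 p q l := by unfold LL; simp
  rw [el]
  refine ex_of_cov le_rfl h.hr h.hrp hq (fun e he => (h.hl e he).1) ?_ hN hν ?_ ?_
    (inB_mk n1.le ha hc0 he0 h1 h2 h3 h4 h5 h6) hc
  · have := h.hsq
    push_cast
    linarith
  · intro b' hb' he'
    unfold empB at he'
    simp only [Bool.or_eq_true, decide_eq_true_eq] at he'
    rcases he' with ((he' | he') | he') | he'
    · have k5 : (((b'.X0 / th : ℚ)) : ℝ) ≤ p := by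
        push_cast
        rw [div_le_iff₀ th0]
        linarith [hb'.hx0]
      have k6 := hShi _ k5
      have k7 : ((Shi (b'.X0 / th) * th : ℚ) : ℝ) < ((b'.Q0 + b'.U0 : ℚ) : ℝ) := by
        exact_mod_cast he'
      push_cast at k6 k7
      have k8 : (q + r) * th ≤ (Shi (b'.X0 / th) : ℝ) * th := mul_le_mul_of_nonneg_right k6 th0.le
      linarith [hb'.hq0, hb'.hu0]
    · have k5 : p ≤ (((b'.X1 / th : ℚ)) : ℝ) := by
        push_cast
        rw [le_div_iff₀ th0]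
        linarith [hb'.hx1]
      have k6 := hSlo _ k5
      have k7 : ((b'.Q1 + b'.U1 : ℚ) : ℝ) < ((Slo (b'.X1 / th) * th : ℚ) : ℝ) := by
        exact_mod_cast he'
      push_cast at k6 k7
      have k8 : (Slo (b'.X1 / th) : ℝ) * th ≤ (q + r) * th := mul_le_mul_of_nonneg_right k6 th0.le
      linarith [hb'.hq1, hb'.hu1]
    · have k7 : (b'.Q1 : ℝ) < (b'.U0 : ℝ) := by exact_mod_cast he'
      have := mul_le_mul_of_nonneg_left h.hrq th0.le
      linarith [hb'.hq1, hb'.hu0]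
    · have k7 : (b'.X1 : ℝ) < (b'.Q0 : ℝ) := by exact_mod_cast he'
      have := mul_le_mul_of_nonneg_left h.hqp th0.le
      linarith [hb'.hx1, hb'.hq0]
  · intro b' hb'
    refine ⟨fun e he => ?_, fun _ => ?_⟩
    · exact (mul_le_mul_of_nonneg_left (h.hl e he).2 th0.le).trans hb'.hu1
    · have : (0:ℝ) ≤ (b'.U1 : ℝ) := (mul_nonneg th0.le h.hr).trans hb'.hu1
      exact_mod_cast this

/-- lines as bounds -/
theorem lineQ_ge {t top a b p0 : ℚ} (hb : 0 ≤ b) {x v : ℝ} (hv : v ≤ (top : ℝ))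
    (h : x ≤ (t : ℝ) ∨ v ≤ (a : ℝ) - b * (x - p0)) :
    ∀ y : ℚ, (y : ℝ) ≤ x → v ≤ ((lineQ t top a b p0 y : ℚ) : ℝ) := by
  intro y hy
  have hb' : (0:ℝ) ≤ (b : ℝ) := by exact_mod_cast hb
  unfold lineQ
  split_ifs with hyt
  · exact hv
  · push_cast
    have h1 : (t : ℝ) < (y : ℝ) := by
      push Not at hyt
      exact_mod_cast hyt
    rcases h with h | h
    · linarith
    · have := mul_le_mul_of_nonneg_left hy hb'
      linarith

theorem noQ_ge {x v : ℝ} (hv : v ≤ 9) : ∀ y : ℚ, (y : ℝ) ≤ x → v ≤ ((noQ y : ℚ) : ℝ) := by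
  intro y _
  unfold noQ
  push_cast
  exact hv

end Pool.Agent.Helper95.SP.Crude
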