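import Pool.Agent.Helper95.SP.Prod

/-! SP-wave, module Psi3 (MP_66ebcc): the ratio `sinc (3 x) / sinc x`. -/

set_option autoImplicit false

namespace Pool.Agent.Helper95.SP.Crude

open Real Finset Filter Topology

namespace Psi3

/-! ### Monotonicity helpers -/

theorem le_of_deriv_nonneg {f f' : ℝ → ℝ} (hf : ∀ y, HasDerivAt f (f' y) y) {a b : ℝ} (hab : a ≤ b)
    (h' : ∀ y, a ≤ y → y ≤ b → 0 ≤ f' y) : f a ≤ f b := by
  have h1 : MonotoneOn f (Set.Icc a b) := by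
    refine monotoneOn_of_deriv_nonneg (convex_Icc a b)
      (fun y _ => (hf y).continuousAt.continuousWithinAt)
      (fun y _ => (hf y).differentiableAt.differentiableWithinAt) ?_
    intro y hy
    rw [interior_Icc] at hy
    rw [(hf y).deriv]
    exact h' y hy.1.le hy.2.le
  exact h1 (Set.left_mem_Icc.2 hab) (Set.right_mem_Icc.2 hab) hab

/-! ### Taylor polynomials of `sin` and `cos` -/

noncomputable def tc (n : ℕ) (y : ℝ) : ℝ :=
  ∑ j ∈ range n, (-1) ^ j * y ^ (2 * j) / ((2 * j).factorial : ℝ)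

noncomputable def ts (n : ℕ) (y : ℝ) : ℝ :=
  ∑ j ∈ range n, (-1) ^ j * y ^ (2 * j + 1) / ((2 * j + 1).factorial : ℝ)

theorem hasDerivAt_ts (n : ℕ) (y : ℝ) : HasDerivAt (ts n) (tc n y) y := by
  unfold tc
  have h : HasDerivAt (fun y : ℝ => ∑ j ∈ range n,
      (-1) ^ j * y ^ (2 * j + 1) / ((2 * j + 1).factorial : ℝ)) (∑ j ∈ range n,
      (-1) ^ j * (((2 * j + 1 : ℕ) : ℝ) * y ^ (2 * j + 1 - 1)) / ((2 * j + 1).factorial : ℝ)) y := by
    refine HasDerivAt.fun_sum fun j _ => ?_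
    exact ((hasDerivAt_pow (2 * j + 1) y).const_mul _).div_const _
  refine h.congr_deriv (sum_congr rfl fun j _ => ?_)
  rw [Nat.add_sub_cancel, Nat.factorial_succ]
  have h1 : ((2 * j).factorial : ℝ) ≠ 0 := by exact_mod_cast (Nat.factorial_pos _).ne'
  have h2 : ((2 * j + 1 : ℕ) : ℝ) ≠ 0 := Nat.cast_ne_zero.2 (Nat.succ_ne_zero (2 * j))
  rw [Nat.cast_mul]
  field_simp

theorem hasDerivAt_tc (n : ℕ) (y : ℝ) : HasDerivAt (tc (n + 1)) (-ts n y) y := by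
  unfold ts
  have h : HasDerivAt (fun y : ℝ => ∑ j ∈ range (n + 1),
      (-1) ^ j * y ^ (2 * j) / ((2 * j).factorial : ℝ)) (∑ j ∈ range (n + 1),
      (-1) ^ j * (((2 * j : ℕ) : ℝ) * y ^ (2 * j - 1)) / ((2 * j).factorial : ℝ)) y := by
    refine HasDerivAt.fun_sum fun j _ => ?_
    exact ((hasDerivAt_pow (2 * j) y).const_mul _).div_const _
  refine h.congr_deriv ?_
  rw [sum_range_succ']
  simp only [Nat.cast_zero, zero_mul, mul_zero, zero_div, add_zero]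
  rw [← sum_neg_distrib]
  refine sum_congr rfl fun j _ => ?_
  have e : 2 * (j + 1) = (2 * j + 1) + 1 := by ring
  rw [e, Nat.add_sub_cancel, Nat.factorial_succ (2 * j + 1)]
  have h1 : ((2 * j + 1).factorial : ℝ) ≠ 0 := by exact_mod_cast (Nat.factorial_pos _).ne'
  have h2 : ((2 * j + 1 + 1 : ℕ) : ℝ) ≠ 0 := Nat.cast_ne_zero.2 (Nat.succ_ne_zero (2 * j + 1))
  rw [Nat.cast_mul, pow_succ]
  field_simp

theorem tc_zero (n : ℕ) : tc (n + 1) 0 = 1 := by
  unfold tc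
  rw [sum_range_succ']
  have : ∑ j ∈ range n, (-1 : ℝ) ^ (j + 1) * 0 ^ (2 * (j + 1)) / ((2 * (j + 1)).factorial : ℝ) = 0 := by
    refine sum_eq_zero fun j _ => ?_
    rw [zero_pow (by positivity)]
    simp
  rw [this]
  simp

theorem ts_zero (n : ℕ) : ts n 0 = 0 := by
  unfold ts
  refine sum_eq_zero fun j _ => ?_
  rw [zero_pow (by positivity)]
  simp

theorem alt (n : ℕ) :
    (∀ y : ℝ, 0 ≤ y → 0 ≤ (-1 : ℝ) ^ (n + 1) * (cos y - tc (n + 1) y)) ∧
      ∀ y : ℝ, 0 ≤ y → 0 ≤ (-1 : ℝ) ^ (n + 1) * (sin y - ts (n + 1) y) := by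
  have key : ∀ n : ℕ, (∀ y : ℝ, 0 ≤ y → 0 ≤ (-1 : ℝ) ^ (n + 1) * (cos y - tc (n + 1) y)) →
      ∀ y : ℝ, 0 ≤ y → 0 ≤ (-1 : ℝ) ^ (n + 1) * (sin y - ts (n + 1) y) := by
    intro n h y hy
    have h1 := le_of_deriv_nonneg (f := fun y => (-1 : ℝ) ^ (n + 1) * (sin y - ts (n + 1) y))
      (f' := fun y => (-1 : ℝ) ^ (n + 1) * (cos y - tc (n + 1) y))
      (fun y => ((hasDerivAt_sin y).sub (hasDerivAt_ts (n + 1) y)).const_mul _) hy
      (fun z hz _ => h z hz)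
    simpa [ts_zero] using h1
  induction n with
  | zero =>
    have h0 : ∀ y : ℝ, 0 ≤ y → 0 ≤ (-1 : ℝ) ^ (0 + 1) * (cos y - tc (0 + 1) y) := by
      intro y _
      have : tc (0 + 1) y = 1 := by simp [tc]
      rw [this]
      have := cos_le_one y
      norm_num
      exact this
    exact ⟨h0, key 0 h0⟩
  | succ n ih =>
    have h0 : ∀ y : ℝ, 0 ≤ y → 0 ≤ (-1 : ℝ) ^ (n + 1 + 1) * (cos y - tc (n + 1 + 1) y) := by
      intro y hy
      have h1 := le_of_deriv_nonneg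
        (f := fun y => (-1 : ℝ) ^ (n + 1 + 1) * (cos y - tc (n + 1 + 1) y))
        (f' := fun y => (-1 : ℝ) ^ (n + 1 + 1) * (-sin y - -ts (n + 1) y))
        (fun y => ((hasDerivAt_cos y).sub (hasDerivAt_tc (n + 1) y)).const_mul _) hy
        (fun z hz _ => by
          have := ih.2 z hz
          rw [pow_succ]
          linarith)
      simpa [tc_zero] using h1
    exact ⟨h0, key (n + 1) h0⟩

/-- the polynomial upper bound for `sin x ^ 2` -/
theorem sin_sq_le {x : ℝ} (hx : 0 ≤ x) :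
    sin x ^ 2 ≤ x ^ 2 - x ^ 4 / 3 + 2 * x ^ 6 / 45 - x ^ 8 / 315 + 2 * x ^ 10 / 14175 := by
  have h := (alt 5).1 (2 * x) (by positivity)
  have h2 : cos (2 * x) = 1 - 2 * sin x ^ 2 := by
    rw [cos_two_mul, cos_sq']
    ring
  have h3 : tc (5 + 1) (2 * x) = 1 - 2 * (x ^ 2 - x ^ 4 / 3 + 2 * x ^ 6 / 45 - x ^ 8 / 315 +
      2 * x ^ 10 / 14175) := by
    unfold tc
    simp only [sum_range_succ, sum_range_zero, Nat.factorial]
    push_cast
    ring
  rw [h2, h3] at h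
  norm_num at h
  linarith

/-! ### The one variable inequality -/

/-- `1 - (4/3) sin² x` is at least this polynomial in `v = x²` -/
noncomputable def P (v : ℝ) : ℝ :=
  1 - 4 / 3 * (v - v ^ 2 / 3 + 2 * v ^ 3 / 45 - v ^ 4 / 315 + 2 * v ^ 5 / 14175)

noncomputable def g (v : ℝ) : ℝ := 4 / 3 * v + 4 / 9 * v ^ 2 + 2569 / 10000 * v ^ 3 + 3 / 10 * v ^ 4

noncomputable def T (v : ℝ) : ℝ :=
  (16 / 945 + 6 / 5 - 4 / 3 * (7707 / 10000) + 32 / 81 - 32 / 405) +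
  (-8 / 8505 - 8 / 5 + 4 / 9 * (7707 / 10000) - 64 / 1215 + 16 / 2835) * v +
  (8 / 15 - 8 / 135 * (7707 / 10000) + 32 / 8505 - 32 / 127575) * v ^ 2 +
  (-48 / 675 + 4 / 945 * (7707 / 10000) - 64 / 382725) * v ^ 3 +
  (24 / 4725 - 8 / 42525 * (7707 / 10000)) * v ^ 4 - 48 / 212625 * v ^ 5

noncomputable def R (v : ℝ) : ℝ :=
  (-8 / 45 + 7707 / 10000 - 32 / 27 + 16 / 27) + v * T v

theorem hasDerivAt_P (v : ℝ) : HasDerivAt P
    (-(4 / 3 * (1 - 2 * v / 3 + 6 * v ^ 2 / 45 - 4 * v ^ 3 / 315 + 10 * v ^ 4 / 14175))) v := by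
  have h1 := ((((hasDerivAt_id v).sub ((hasDerivAt_pow 2 v).div_const 3)).add
    (((hasDerivAt_pow 3 v).const_mul 2).div_const 45)).sub ((hasDerivAt_pow 4 v).div_const 315)).add
    (((hasDerivAt_pow 5 v).const_mul 2).div_const 14175)
  have h2 := (h1.const_mul (4 / 3)).const_sub 1
  refine h2.congr_deriv ?_
  norm_num
  ring

theorem hasDerivAt_g (v : ℝ) : HasDerivAt g
    (4 / 3 + 8 / 9 * v + 7707 / 10000 * v ^ 2 + 12 / 10 * v ^ 3) v := by
  have h1 := ((((hasDerivAt_id v).const_mul (4 / 3)).add ((hasDerivAt_pow 2 v).const_mul (4 / 9))).add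
    ((hasDerivAt_pow 3 v).const_mul (2569 / 10000))).add ((hasDerivAt_pow 4 v).const_mul (3 / 10))
  refine h1.congr_deriv ?_
  norm_num
  ring

theorem hasDerivAt_F (v : ℝ) : HasDerivAt (fun v => P v * exp (g v)) (v ^ 2 * R v * exp (g v)) v := by
  have h := (hasDerivAt_P v).mul (hasDerivAt_g v).exp
  refine h.congr_deriv ?_
  unfold R T P
  ring

theorem T_anti {u w : ℝ} (hu : 0 ≤ u) (huw : u ≤ w) (hw : w ≤ 56 / 100) : T w ≤ T u := by
  have h := le_of_deriv_nonneg (f := fun v => -T v) (f' := fun v =>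
    -((-8 / 8505 - 8 / 5 + 4 / 9 * (7707 / 10000) - 64 / 1215 + 16 / 2835) +
    (8 / 15 - 8 / 135 * (7707 / 10000) + 32 / 8505 - 32 / 127575) * (2 * v) +
    (-48 / 675 + 4 / 945 * (7707 / 10000) - 64 / 382725) * (3 * v ^ 2) +
    (24 / 4725 - 8 / 42525 * (7707 / 10000)) * (4 * v ^ 3) - 48 / 212625 * (5 * v ^ 4)))
    (fun v => by
      have h1 := (((((hasDerivAt_const v (16 / 945 + 6 / 5 - 4 / 3 * (7707 / 10000) + 32 / 81 -
        32 / 405 : ℝ)).add ((hasDerivAt_id v).const_mul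
        (-8 / 8505 - 8 / 5 + 4 / 9 * (7707 / 10000) - 64 / 1215 + 16 / 2835))).add
        ((hasDerivAt_pow 2 v).const_mul (8 / 15 - 8 / 135 * (7707 / 10000) + 32 / 8505 - 32 / 127575))).add
        ((hasDerivAt_pow 3 v).const_mul (-48 / 675 + 4 / 945 * (7707 / 10000) - 64 / 382725))).add
        ((hasDerivAt_pow 4 v).const_mul (24 / 4725 - 8 / 42525 * (7707 / 10000)))).sub
        ((hasDerivAt_pow 5 v).const_mul (48 / 212625))
      refine h1.neg.congr_deriv ?_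
      norm_num) huw ?_
  · simpa using h
  · intro y hy1 hy2
    have hy0 : 0 ≤ y := hu.trans hy1
    have hy3 : y ≤ 56 / 100 := hy2.trans hw
    have e1 : 0 ≤ y ^ 2 := sq_nonneg y
    have e2 : y ^ 3 ≤ 1 := by
      calc y ^ 3 ≤ (56 / 100 : ℝ) ^ 3 := by gcongr
        _ ≤ 1 := by norm_num
    have e3 : 0 ≤ y ^ 4 := by positivity
    linarith

theorem key {v : ℝ} (h0 : 0 ≤ v) (h1 : v ≤ 56 / 100) : 1 ≤ P v * exp (g v) := by
  have hR0 : 0 < (-8 / 45 + 7707 / 10000 - 32 / 27 + 16 / 27 : ℝ) := by norm_num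
  by_cases hR : 0 ≤ R v
  · have h2 := le_of_deriv_nonneg hasDerivAt_F h0 (fun u hu huv => by
      have hRu : 0 ≤ R u := by
        by_cases hT : 0 ≤ T v
        · have := T_anti hu huv h1
          have h3 : 0 ≤ u * T u := mul_nonneg hu (hT.trans this)
          unfold R
          linarith
        · push Not at hT
          have h3 := T_anti hu huv h1
          have h4 : u * T v ≤ u * T u := mul_le_mul_of_nonneg_left h3 hu
          have h5 : v * T v ≤ u * T v := mul_le_mul_of_nonpos_right huv hT.le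
          unfold R at hR ⊢
          linarith
      exact mul_nonneg (mul_nonneg (sq_nonneg u) hRu) (exp_pos _).le)
    have h3 : P 0 * exp (g 0) = 1 := by
      unfold P g
      norm_num
    linarith
  · push Not at hR
    have hT : T v < 0 := by
      by_contra h
      push Not at h
      have : 0 ≤ v * T v := mul_nonneg h0 h
      unfold R at hR
      linarith
    have h2 := le_of_deriv_nonneg (f := fun v => -(P v * exp (g v)))
      (fun u => (hasDerivAt_F u).neg) h1 (fun u hu huv => by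
      have hu0 : 0 ≤ u := h0.trans hu
      have hRu : R u ≤ 0 := by
        have h3 := T_anti h0 hu huv
        have h4 : u * T u ≤ u * T v := mul_le_mul_of_nonneg_left h3 hu0
        have h5 : u * T v ≤ v * T v := mul_le_mul_of_nonpos_right hu hT.le
        unfold R at hR ⊢
        linarith
      have h6 : 0 ≤ u ^ 2 * (-R u) * exp (g u) :=
        mul_nonneg (mul_nonneg (sq_nonneg u) (by linarith)) (exp_pos _).le
      linarith)
    have h3 : 1 ≤ P (56 / 100) * exp (g (56 / 100)) := by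
      have h4 : 1 / P (56 / 100) ≤ exp (g (56 / 100)) := by
        refine le_trans ?_ (Real.sum_le_exp_of_nonneg (x := g (56 / 100)) (by unfold g; norm_num) 10)
        unfold P g
        simp only [sum_range_succ, sum_range_zero, Nat.factorial]
        norm_num
      have h5 : 0 < P (56 / 100) := by
        unfold P
        norm_num
      rw [div_le_iff₀ h5] at h4
      linarith
    linarith

end Psi3

/-- log-concavity of `sinc 3x / sinc x` in `x ^ 2` -/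
theorem psi3_chord {a b x t : ℝ} (ha : 0 ≤ a) (hb : 0 ≤ b) (hx : 0 ≤ x) (ha' : 9 * a ^ 2 ≤ π ^ 2)
    (hb' : 9 * b ^ 2 ≤ π ^ 2) (ht0 : 0 ≤ t) (ht1 : t ≤ 1)
    (h : x ^ 2 = (1 - t) * a ^ 2 + t * b ^ 2) :
    (sinc (3 * a) / sinc a) ^ (1 - t) * (sinc (3 * b) / sinc b) ^ t ≤ sinc (3 * x) / sinc x := by
  have hx' : 9 * x ^ 2 ≤ π ^ 2 := by
    rw [h]
    nlinarith
  have hπ := pi_pos
  -- positivity of `sinc y` for `9 y ^ 2 ≤ π ^ 2`
  have hpos : ∀ y : ℝ, 0 ≤ y → 9 * y ^ 2 ≤ π ^ 2 → sinc y ≠ 0 := by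
    intro y hy hy'
    by_cases h0 : y = 0
    · rw [h0, sinc_zero]
      exact one_ne_zero
    · rw [sinc_of_ne_zero h0]
      have hy0 : 0 < y := lt_of_le_of_ne hy (Ne.symm h0)
      have hlt : y < π := by nlinarith
      exact (div_pos (sin_pos_of_pos_of_lt_pi hy0 hlt) hy0).ne'
  have hlim : ∀ y : ℝ, 0 ≤ y → 9 * y ^ 2 ≤ π ^ 2 →
      Tendsto (fun n => pr (-(3 * y) ^ 2) n / pr (-y ^ 2) n) atTop (𝓝 (sinc (3 * y) / sinc y)) :=
    fun y hy hy' => (tendsto_sinc (3 * y)).div (tendsto_sinc y) (hpos y hy hy')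
  -- the factors
  have hfac : ∀ (y : ℝ) (n : ℕ), pr (-(3 * y) ^ 2) n / pr (-y ^ 2) n = ∏ j ∈ range n,
      ((π ^ 2 * ((j : ℝ) + 1) ^ 2 - 9 * y ^ 2) / (π ^ 2 * ((j : ℝ) + 1) ^ 2 - y ^ 2)) := by
    intro y n
    unfold pr
    rw [← prod_div_distrib]
    refine prod_congr rfl fun j _ => ?_
    have hA : (0 : ℝ) < π ^ 2 * ((j : ℝ) + 1) ^ 2 := by positivity
    have e1 : 1 + -(3 * y) ^ 2 / (π ^ 2 * ((j : ℝ) + 1) ^ 2) =
        (π ^ 2 * ((j : ℝ) + 1) ^ 2 - 9 * y ^ 2) / (π ^ 2 * ((j : ℝ) + 1) ^ 2) := by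
      field_simp
      ring
    have e2 : 1 + -y ^ 2 / (π ^ 2 * ((j : ℝ) + 1) ^ 2) =
        (π ^ 2 * ((j : ℝ) + 1) ^ 2 - y ^ 2) / (π ^ 2 * ((j : ℝ) + 1) ^ 2) := by
      field_simp
      ring
    rw [e1, e2, div_div_div_cancel_right₀ hA.ne']
  have hA1 : ∀ j : ℕ, π ^ 2 ≤ π ^ 2 * ((j : ℝ) + 1) ^ 2 := by
    intro j
    have h1 : (1 : ℝ) ≤ ((j : ℝ) + 1) ^ 2 := by
      have : (1 : ℝ) ≤ (j : ℝ) + 1 := by linarith [Nat.cast_nonneg (α := ℝ) j]
      nlinarith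
    nlinarith [sq_nonneg π]
  have hnn : ∀ (y : ℝ), 9 * y ^ 2 ≤ π ^ 2 → ∀ j : ℕ,
      0 ≤ (π ^ 2 * ((j : ℝ) + 1) ^ 2 - 9 * y ^ 2) / (π ^ 2 * ((j : ℝ) + 1) ^ 2 - y ^ 2) := by
    intro y hy j
    have := hA1 j
    refine div_nonneg (by linarith) ?_
    nlinarith [sq_nonneg y]
  have hstep : ∀ n : ℕ, (pr (-(3 * a) ^ 2) n / pr (-a ^ 2) n) ^ (1 - t) *
      (pr (-(3 * b) ^ 2) n / pr (-b ^ 2) n) ^ t ≤ pr (-(3 * x) ^ 2) n / pr (-x ^ 2) n := by
    intro n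
    rw [hfac a, hfac b, hfac x, ← Real.finsetProd_rpow _ _ (fun j _ => hnn a ha' j),
      ← Real.finsetProd_rpow _ _ (fun j _ => hnn b hb' j), ← prod_mul_distrib]
    refine prod_le_prod (fun j _ => mul_nonneg (rpow_nonneg (hnn a ha' j) _)
      (rpow_nonneg (hnn b hb' j) _)) fun j _ => ?_
    refine (geom_mean_le_arith_mean2_weighted (by linarith) ht0 (hnn a ha' j) (hnn b hb' j)
      (by ring)).trans ?_
    have hA := hA1 j
    set A : ℝ := π ^ 2 * ((j : ℝ) + 1) ^ 2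
    have hπ2 : 0 < π ^ 2 := by positivity
    have pa : 0 < A - a ^ 2 := by nlinarith [sq_nonneg a]
    have pb : 0 < A - b ^ 2 := by nlinarith [sq_nonneg b]
    have px : 0 < A - x ^ 2 := by nlinarith [sq_nonneg x]
    have hA0 : 0 < A := by linarith
    have ea : (A - 9 * a ^ 2) / (A - a ^ 2) = 9 - 8 * A / (A - a ^ 2) := by
      field_simp
      ring
    have eb : (A - 9 * b ^ 2) / (A - b ^ 2) = 9 - 8 * A / (A - b ^ 2) := by
      field_simp
      ring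
    have ex : (A - 9 * x ^ 2) / (A - x ^ 2) = 9 - 8 * A / (A - x ^ 2) := by
      field_simp
      ring
    rw [ea, eb, ex]
    have hconv : 1 / (A - x ^ 2) ≤ (1 - t) * (1 / (A - a ^ 2)) + t * (1 / (A - b ^ 2)) := by
      have e1 : A - x ^ 2 = (1 - t) * (A - a ^ 2) + t * (A - b ^ 2) := by
        rw [h]
        ring
      have e2 : (1 - t) * (1 / (A - a ^ 2)) + t * (1 / (A - b ^ 2)) =
          ((1 - t) * (A - b ^ 2) + t * (A - a ^ 2)) / ((A - a ^ 2) * (A - b ^ 2)) := by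
        field_simp
      rw [e2, div_le_div_iff₀ px (by positivity), e1]
      have h3 : 0 ≤ t * (1 - t) * (a ^ 2 - b ^ 2) ^ 2 :=
        mul_nonneg (mul_nonneg ht0 (by linarith)) (sq_nonneg _)
      nlinarith [h3]
    have h4 : 8 * A * (1 / (A - x ^ 2)) ≤
        8 * A * ((1 - t) * (1 / (A - a ^ 2)) + t * (1 / (A - b ^ 2))) :=
      mul_le_mul_of_nonneg_left hconv (by linarith)
    have e3 : 8 * A / (A - x ^ 2) = 8 * A * (1 / (A - x ^ 2)) := by ring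
    have e4 : 8 * A / (A - a ^ 2) = 8 * A * (1 / (A - a ^ 2)) := by ring
    have e5 : 8 * A / (A - b ^ 2) = 8 * A * (1 / (A - b ^ 2)) := by ring
    rw [e3, e4, e5]
    nlinarith [h4]
  have l1 : Tendsto (fun n => (pr (-(3 * a) ^ 2) n / pr (-a ^ 2) n) ^ (1 - t)) atTop
      (𝓝 ((sinc (3 * a) / sinc a) ^ (1 - t))) :=
    (hlim a ha ha').rpow_const (Or.inr (by linarith))
  have l2 : Tendsto (fun n => (pr (-(3 * b) ^ 2) n / pr (-b ^ 2) n) ^ t) atTop
      (𝓝 ((sinc (3 * b) / sinc b) ^ t)) :=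
    (hlim b hb hb').rpow_const (Or.inr ht0)
  exact le_of_tendsto_of_tendsto (l1.mul l2) (hlim x hx hx') (Eventually.of_forall hstep)

theorem psi3_rest {x rho : ℝ} (hx : 0 ≤ x) (hxr : x ^ 2 ≤ rho) (hr : rho ≤ 56 / 100) :
    exp (-((4 / 3 + 4 / 9 * rho + 2569 / 10000 * rho ^ 2 + 3 / 10 * rho ^ 3) * x ^ 2)) * sinc x ≤
      sinc (3 * x) := by
  by_cases h0 : x = 0
  · subst h0
    simp
  have hx0 : 0 < x := lt_of_le_of_ne hx (Ne.symm h0)
  have hv : x ^ 2 ≤ 56 / 100 := hxr.trans hr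
  have hv0 : 0 ≤ x ^ 2 := sq_nonneg x
  have hx1 : x < π := by
    have := pi_gt_three
    nlinarith
  have hs : 0 < sin x := sin_pos_of_pos_of_lt_pi hx0 hx1
  have hsx : 0 < sinc x := by
    rw [sinc_of_ne_zero h0]
    exact div_pos hs hx0
  have e3 : sinc (3 * x) = sinc x * (1 - 4 / 3 * sin x ^ 2) := by
    rw [sinc_of_ne_zero (by positivity), sinc_of_ne_zero h0, sin_three_mul]
    field_simp
  have hexp : exp (-((4 / 3 + 4 / 9 * rho + 2569 / 10000 * rho ^ 2 + 3 / 10 * rho ^ 3) * x ^ 2)) ≤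
      exp (-Psi3.g (x ^ 2)) := by
    refine exp_le_exp.2 (neg_le_neg ?_)
    have h1 : x ^ 2 * x ^ 2 ≤ rho * x ^ 2 := mul_le_mul_of_nonneg_right hxr hv0
    have h2 : (x ^ 2) ^ 2 * x ^ 2 ≤ rho ^ 2 * x ^ 2 :=
      mul_le_mul_of_nonneg_right (pow_le_pow_left₀ hv0 hxr 2) hv0
    have h3 : (x ^ 2) ^ 3 * x ^ 2 ≤ rho ^ 3 * x ^ 2 :=
      mul_le_mul_of_nonneg_right (pow_le_pow_left₀ hv0 hxr 3) hv0
    unfold Psi3.g
    nlinarith [h1, h2, h3]
  have hP : Psi3.P (x ^ 2) ≤ 1 - 4 / 3 * sin x ^ 2 := by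
    have := Psi3.sin_sq_le hx
    unfold Psi3.P
    have e : x ^ 2 - (x ^ 2) ^ 2 / 3 + 2 * (x ^ 2) ^ 3 / 45 - (x ^ 2) ^ 4 / 315 +
        2 * (x ^ 2) ^ 5 / 14175 =
        x ^ 2 - x ^ 4 / 3 + 2 * x ^ 6 / 45 - x ^ 8 / 315 + 2 * x ^ 10 / 14175 := by ring
    rw [e]
    linarith
  have hkey := Psi3.key hv0 hv
  have h4 : exp (-Psi3.g (x ^ 2)) ≤ Psi3.P (x ^ 2) := by
    rw [exp_neg, inv_le_iff_one_le_mul₀ (exp_pos _)]
    linarith
  rw [e3, mul_comm (sinc x)]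
  exact mul_le_mul_of_nonneg_right (hexp.trans (h4.trans hP)) hsx.le

end Pool.Agent.Helper95.SP.Crude
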