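import Pool.Agent.Helper95.SP.Crude.CovDefs

/-! Box computations, part 1. -/

set_option autoImplicit false

namespace Pool.Agent.Helper95.SP.Crude

def tr_D_1 : Tr :=
    (.x .l (.x .l (.x .l (.u (.x .l .l) (.x .l (.u .l .l))))))

theorem run_D_1 :
    cov 1 0 (t04 ^ 2) 1 (fun _ => false) (fun b => b.X1) tr_D_1 (mk t04 0 (38 / 100) 0 (38 /
    100) 0 0).ul = true := by
  decide +kernel

def tr_D_2 : Tr :=
    (.x .l (.u (.x .l (.x .l (.u .l .l))) (.x .l (.u (.x .l .l) .l))))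

theorem run_D_2 :
    cov 1 0 (t04 ^ 2) 1 (fun _ => false) (fun b => b.X1) tr_D_2 (mk t04 0 (38 / 100) 0 (38 /
    100) 0 0).ur = true := by
  decide +kernel

def tr_D : Tr :=
    (.u tr_D_1 tr_D_2)

theorem run_D :
    covD t04 1 tr_D (38 / 100) = true :=
  cov_u run_D_1 run_D_2

def tr_M104_1_1 : Tr :=
    (.u .l (.u .l (.u .l .l)))

theorem run_M104_1_1 :
    cov 1 0 (t04 ^ 2) 1 (empM t04 noQ) (fun b => b.U1) tr_M104_1_1 (mk t04 (38 / 100) (41 /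
    100) 0 (41 / 100) 0 0) = true := by
  decide +kernel

def tr_M104_1 : Tr :=
    tr_M104_1_1

theorem run_M104_1 :
    covM 1 t04 1 noQ tr_M104_1 (38 / 100) (41 / 100) (41 / 100) = true :=
  run_M104_1_1

def tr_M104_2_1 : Tr :=
    (.u .l (.u .l .l))

theorem run_M104_2_1 :
    cov 2 0 (t04 ^ 2) 1 (empM t04 noQ) (fun b => b.U1) tr_M104_2_1 (mk t04 (38 / 100) (41 /
    100) 0 (41 / 100) 0 0) = true := by
  decide +kernel

def tr_M104_2 : Tr :=
    tr_M104_2_1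

theorem run_M104_2 :
    covM 2 t04 1 noQ tr_M104_2 (38 / 100) (41 / 100) (41 / 100) = true :=
  run_M104_2_1

def tr_M104_3_1 : Tr :=
    (.u .l (.u .l .l))

theorem run_M104_3_1 :
    cov 3 0 (t04 ^ 2) 1 (empM t04 noQ) (fun b => b.U1) tr_M104_3_1 (mk t04 (38 / 100) (41 /
    100) 0 (41 / 100) 0 0) = true := by
  decide +kernel

def tr_M104_3 : Tr :=
    tr_M104_3_1

theorem run_M104_3 :
    covM 3 t04 1 noQ tr_M104_3 (38 / 100) (41 / 100) (41 / 100) = true :=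
  run_M104_3_1

def tr_M104_4_1 : Tr :=
    (.u .l (.u .l .l))

theorem run_M104_4_1 :
    cov 4 0 (t04 ^ 2) 1 (empM t04 noQ) (fun b => b.U1) tr_M104_4_1 (mk t04 (38 / 100) (41 /
    100) 0 (41 / 100) 0 0) = true := by
  decide +kernel

def tr_M104_4 : Tr :=
    tr_M104_4_1

theorem run_M104_4 :
    covM 4 t04 1 noQ tr_M104_4 (38 / 100) (41 / 100) (41 / 100) = true :=
  run_M104_4_1

def tr_M104_5_1 : Tr :=
    (.u .l (.u .l .l))

theorem run_M104_5_1 :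
    cov 5 0 (t04 ^ 2) 1 (empM t04 noQ) (fun b => b.U1) tr_M104_5_1 (mk t04 (38 / 100) (41 /
    100) 0 (41 / 100) 0 0) = true := by
  decide +kernel

def tr_M104_5 : Tr :=
    tr_M104_5_1

theorem run_M104_5 :
    covM 5 t04 1 noQ tr_M104_5 (38 / 100) (41 / 100) (41 / 100) = true :=
  run_M104_5_1

def tr_M104_6_1 : Tr :=
    (.u (.x .l (.x (.u .l .l) (.u .l .l))) .l)

theorem run_M104_6_1 :
    cov 6 0 (t04 ^ 2) 1 (empM t04 noQ) (fun b => b.U1) tr_M104_6_1 (mk t04 (38 / 100) (41 /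
    100) 0 (41 / 100) 0 0) = true := by
  decide +kernel

def tr_M104_6 : Tr :=
    tr_M104_6_1

theorem run_M104_6 :
    covM 6 t04 1 noQ tr_M104_6 (38 / 100) (41 / 100) (41 / 100) = true :=
  run_M104_6_1

def tr_M102_1_1 : Tr :=
    .l

theorem run_M102_1_1 :
    cov 1 0 (t02 ^ 2) 1 (empM t02 noQ) (fun b => b.U1) tr_M102_1_1 (mk t02 (41 / 100) (478 /
    1000) 0 (478 / 1000) 0 0).ul = true := by
  decide +kernel

def tr_M102_1_2 : Tr :=
    (.u .l .l)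

theorem run_M102_1_2 :
    cov 1 0 (t02 ^ 2) 1 (empM t02 noQ) (fun b => b.U1) tr_M102_1_2 (mk t02 (41 / 100) (478 /
    1000) 0 (478 / 1000) 0 0).ur.ul = true := by
  decide +kernel

def tr_M102_1_3 : Tr :=
    (.x .l .l)

theorem run_M102_1_3 :
    cov 1 0 (t02 ^ 2) 1 (empM t02 noQ) (fun b => b.U1) tr_M102_1_3 (mk t02 (41 / 100) (478 /
    1000) 0 (478 / 1000) 0 0).ur.ur.ul = true := by
  decide +kernel

def tr_M102_1_4 : Tr :=
    (.u (.x (.u .l .l) (.u .l .l)) .l)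

theorem run_M102_1_4 :
    cov 1 0 (t02 ^ 2) 1 (empM t02 noQ) (fun b => b.U1) tr_M102_1_4 (mk t02 (41 / 100) (478 /
    1000) 0 (478 / 1000) 0 0).ur.ur.ur.xl = true := by
  decide +kernel

def tr_M102_1_5 : Tr :=
    (.u (.x (.u .l .l) .l) (.x (.u .l .l) (.u .l (.x (.u .l .l) (.u .l .l)))))

theorem run_M102_1_5 :
    cov 1 0 (t02 ^ 2) 1 (empM t02 noQ) (fun b => b.U1) tr_M102_1_5 (mk t02 (41 / 100) (478 /
    1000) 0 (478 / 1000) 0 0).ur.ur.ur.xr = true := by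
  decide +kernel

def tr_M102_1 : Tr :=
    (.u tr_M102_1_1 (.u tr_M102_1_2 (.u tr_M102_1_3 (.x tr_M102_1_4 tr_M102_1_5))))

theorem run_M102_1 :
    covM 1 t02 1 noQ tr_M102_1 (41 / 100) (478 / 1000) (478 / 1000) = true :=
  cov_u run_M102_1_1 (cov_u run_M102_1_2 (cov_u run_M102_1_3 (cov_x run_M102_1_4
    run_M102_1_5)))

def tr_M102_2_1 : Tr :=
    .l

theorem run_M102_2_1 :
    cov 2 0 (t02 ^ 2) 1 (empM t02 noQ) (fun b => b.U1) tr_M102_2_1 (mk t02 (41 / 100) (478 /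
    1000) 0 (478 / 1000) 0 0).ul = true := by
  decide +kernel

def tr_M102_2_2 : Tr :=
    .l

theorem run_M102_2_2 :
    cov 2 0 (t02 ^ 2) 1 (empM t02 noQ) (fun b => b.U1) tr_M102_2_2 (mk t02 (41 / 100) (478 /
    1000) 0 (478 / 1000) 0 0).ur.ul = true := by
  decide +kernel

def tr_M102_2_3 : Tr :=
    (.u .l (.x (.u .l .l) (.u .l .l)))

theorem run_M102_2_3 :
    cov 2 0 (t02 ^ 2) 1 (empM t02 noQ) (fun b => b.U1) tr_M102_2_3 (mk t02 (41 / 100) (478 /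
    1000) 0 (478 / 1000) 0 0).ur.ur.xl = true := by
  decide +kernel

def tr_M102_2_4 : Tr :=
    (.u (.x .l (.u .l .l)) (.x (.u .l (.x (.u .l .l) (.u .l .l))) (.u (.x .l .l) (.x (.u .l .l)
    (.u .l .l)))))

theorem run_M102_2_4 :
    cov 2 0 (t02 ^ 2) 1 (empM t02 noQ) (fun b => b.U1) tr_M102_2_4 (mk t02 (41 / 100) (478 /
    1000) 0 (478 / 1000) 0 0).ur.ur.xr = true := by
  decide +kernel

def tr_M102_2 : Tr :=
    (.u tr_M102_2_1 (.u tr_M102_2_2 (.x tr_M102_2_3 tr_M102_2_4)))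

theorem run_M102_2 :
    covM 2 t02 1 noQ tr_M102_2 (41 / 100) (478 / 1000) (478 / 1000) = true :=
  cov_u run_M102_2_1 (cov_u run_M102_2_2 (cov_x run_M102_2_3 run_M102_2_4))

end Pool.Agent.Helper95.SP.Crude
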