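import Pool.Agent.Helper95.SP.Crude.CovDefs

/-! Box computations, part 3. -/

set_option autoImplicit false

namespace Pool.Agent.Helper95.SP.Crude

def tr_M5_104_1 : Tr :=
    (.u (.x (.u .l .l) (.u .l (.x (.u .l .l) (.u .l .l)))) (.u (.x .l (.u (.x .l .l) .l)) .l))

theorem run_M5_104_1 :
    cov 5 0 (t04 ^ 2) 1 (empM t04 noQ) (fun b => b.U1) tr_M5_104_1 (mk t04 (41 / 100) (43 /
    100) 0 (43 / 100) 0 0) = true := by
  decide +kernel

def tr_M5_104 : Tr :=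
    tr_M5_104_1

theorem run_M5_104 :
    covM 5 t04 1 noQ tr_M5_104 (41 / 100) (43 / 100) (43 / 100) = true :=
  run_M5_104_1

def tr_M5_106_1 : Tr :=
    (.u (.x (.u .l (.u .l .l)) (.u (.x .l .l) (.u (.x .l .l) .l))) .l)

theorem run_M5_106_1 :
    cov 5 0 (t06 ^ 2) 1 (empM t06 noQ) (fun b => b.U1) tr_M5_106_1 (mk t06 (43 / 100) (4473 /
    10000) 0 (4473 / 10000) 0 0) = true := by
  decide +kernel

def tr_M5_106 : Tr :=
    tr_M5_106_1

theorem run_M5_106 :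
    covM 5 t06 1 noQ tr_M5_106 (43 / 100) (4473 / 10000) (4473 / 10000) = true :=
  run_M5_106_1

def tr_M3_104_1 : Tr :=
    (.u (.u .l (.u .l .l)) (.u (.u .l (.u .l .l)) (.u (.u .l .l) (.u .l .l))))

theorem run_M3_104_1 :
    cov 3 0 (t04 ^ 2) 1 (empM t04 noQ) (fun b => b.U1) tr_M3_104_1 (mk t04 (478 / 1000) (4875
    / 10000) 0 (4875 / 10000) 0 0) = true := by
  decide +kernel

def tr_M3_104 : Tr :=
    tr_M3_104_1

theorem run_M3_104 :
    covM 3 t04 1 noQ tr_M3_104 (478 / 1000) (4875 / 10000) (4875 / 10000) = true :=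
  run_M3_104_1

def tr_M3_106_1 : Tr :=
    (.u (.u .l (.u .l .l)) (.u (.u .l (.u .l .l)) (.u (.u .l .l) (.u .l (.u .l (.x .l .l))))))

theorem run_M3_106_1 :
    cov 3 0 (t06 ^ 2) 1 (empM t06 noQ) (fun b => b.U1) tr_M3_106_1 (mk t06 (4875 / 10000)
    (4975 / 10000) 0 (4975 / 10000) 0 0) = true := by
  decide +kernel

def tr_M3_106 : Tr :=
    tr_M3_106_1

theorem run_M3_106 :
    covM 3 t06 1 noQ tr_M3_106 (4875 / 10000) (4975 / 10000) (4975 / 10000) = true :=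
  run_M3_106_1

def tr_M3_108_1 : Tr :=
    (.u .l (.u .l .l))

theorem run_M3_108_1 :
    cov 3 0 (t08 ^ 2) 1 (empM t08 noQ) (fun b => b.U1) tr_M3_108_1 (mk t08 (4975 / 10000)
    (5065 / 10000) 0 (5065 / 10000) 0 0).ul = true := by
  decide +kernel

def tr_M3_108_2 : Tr :=
    (.u (.u .l .l) (.u .l .l))

theorem run_M3_108_2 :
    cov 3 0 (t08 ^ 2) 1 (empM t08 noQ) (fun b => b.U1) tr_M3_108_2 (mk t08 (4975 / 10000)
    (5065 / 10000) 0 (5065 / 10000) 0 0).ur.ul = true := by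
  decide +kernel

def tr_M3_108_3 : Tr :=
    (.u .l .l)

theorem run_M3_108_3 :
    cov 3 0 (t08 ^ 2) 1 (empM t08 noQ) (fun b => b.U1) tr_M3_108_3 (mk t08 (4975 / 10000)
    (5065 / 10000) 0 (5065 / 10000) 0 0).ur.ur.ul = true := by
  decide +kernel

def tr_M3_108_4 : Tr :=
    (.u (.u .l (.x .l (.u .l .l))) (.u (.x .l (.u (.x .l (.u (.x .l .l) (.x .l .l))) (.x .l
    .l))) (.x .l .l)))

theorem run_M3_108_4 :
    cov 3 0 (t08 ^ 2) 1 (empM t08 noQ) (fun b => b.U1) tr_M3_108_4 (mk t08 (4975 / 10000)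
    (5065 / 10000) 0 (5065 / 10000) 0 0).ur.ur.ur = true := by
  decide +kernel

def tr_M3_108 : Tr :=
    (.u tr_M3_108_1 (.u tr_M3_108_2 (.u tr_M3_108_3 tr_M3_108_4)))

theorem run_M3_108 :
    covM 3 t08 1 noQ tr_M3_108 (4975 / 10000) (5065 / 10000) (5065 / 10000) = true :=
  cov_u run_M3_108_1 (cov_u run_M3_108_2 (cov_u run_M3_108_3 run_M3_108_4))

def tr_M3_110_1 : Tr :=
    (.u .l (.u .l .l))

theorem run_M3_110_1 :
    cov 3 0 (t10 ^ 2) 1 (empM t10 noQ) (fun b => b.U1) tr_M3_110_1 (mk t10 (5065 / 10000)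
    (5125 / 10000) 0 (5125 / 10000) 0 0).ul = true := by
  decide +kernel

def tr_M3_110_2 : Tr :=
    (.u (.u (.u .l .l) (.u .l .l)) (.u (.u .l (.u .l .l)) (.u (.u (.x .l (.u .l (.x .l .l))) (.x
    .l .l)) .l)))

theorem run_M3_110_2 :
    cov 3 0 (t10 ^ 2) 1 (empM t10 noQ) (fun b => b.U1) tr_M3_110_2 (mk t10 (5065 / 10000)
    (5125 / 10000) 0 (5125 / 10000) 0 0).ur = true := by
  decide +kernel

def tr_M3_110 : Tr :=
    (.u tr_M3_110_1 tr_M3_110_2)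

theorem run_M3_110 :
    covM 3 t10 1 noQ tr_M3_110 (5065 / 10000) (5125 / 10000) (5125 / 10000) = true :=
  cov_u run_M3_110_1 run_M3_110_2

end Pool.Agent.Helper95.SP.Crude
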