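import Pool.Agent.Helper95.SP.Crude.CovDefs

/-! Box computations, part 4. -/

set_option autoImplicit false

namespace Pool.Agent.Helper95.SP.Crude

def tr_M3_120_1 : Tr :=
    (.u .l (.u .l (.x .l .l)))

theorem run_M3_120_1 :
    cov 3 0 (t20 ^ 2) 1 (empM t20 noQ) (fun b => b.U1) tr_M3_120_1 (mk t20 (5125 / 10000) (55
    / 100) 0 (55 / 100) 0 0).ul.xl = true := by
  decide +kernel

def tr_M3_120_2 : Tr :=
    (.x .l .l)

theorem run_M3_120_2 :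
    cov 3 0 (t20 ^ 2) 1 (empM t20 noQ) (fun b => b.U1) tr_M3_120_2 (mk t20 (5125 / 10000) (55
    / 100) 0 (55 / 100) 0 0).ul.xr.ul = true := by
  decide +kernel

def tr_M3_120_3 : Tr :=
    (.u (.x .l (.x .l (.u .l .l))) (.x (.u .l .l) (.u (.x .l (.u .l .l)) (.x .l (.u .l (.x .l
    .l))))))

theorem run_M3_120_3 :
    cov 3 0 (t20 ^ 2) 1 (empM t20 noQ) (fun b => b.U1) tr_M3_120_3 (mk t20 (5125 / 10000) (55
    / 100) 0 (55 / 100) 0 0).ul.xr.ur = true := by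
  decide +kernel

def tr_M3_120_4 : Tr :=
    (.u (.x .l (.u .l .l)) (.x (.u .l .l) (.u .l (.x .l .l))))

theorem run_M3_120_4 :
    cov 3 0 (t20 ^ 2) 1 (empM t20 noQ) (fun b => b.U1) tr_M3_120_4 (mk t20 (5125 / 10000) (55
    / 100) 0 (55 / 100) 0 0).ur.ul.xl = true := by
  decide +kernel

def tr_M3_120_5 : Tr :=
    (.u (.x .l .l) (.x .l (.u .l (.x .l .l))))

theorem run_M3_120_5 :
    cov 3 0 (t20 ^ 2) 1 (empM t20 noQ) (fun b => b.U1) tr_M3_120_5 (mk t20 (5125 / 10000) (55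
    / 100) 0 (55 / 100) 0 0).ur.ul.xr.ul.xl = true := by
  decide +kernel

def tr_M3_120_6 : Tr :=
    (.u .l (.x .l .l))

theorem run_M3_120_6 :
    cov 3 0 (t20 ^ 2) 1 (empM t20 noQ) (fun b => b.U1) tr_M3_120_6 (mk t20 (5125 / 10000) (55
    / 100) 0 (55 / 100) 0 0).ur.ul.xr.ul.xr.ul.xl = true := by
  decide +kernel

def tr_M3_120_7 : Tr :=
    (.u (.x .l (.u .l .l)) (.x (.u .l .l) (.u (.x .l (.u .l .l)) (.x (.u .l .l) (.u .l .l)))))

theorem run_M3_120_7 :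
    cov 3 0 (t20 ^ 2) 1 (empM t20 noQ) (fun b => b.U1) tr_M3_120_7 (mk t20 (5125 / 10000) (55
    / 100) 0 (55 / 100) 0 0).ur.ul.xr.ul.xr.ul.xr = true := by
  decide +kernel

def tr_M3_120_8 : Tr :=
    (.u (.x .l (.u .l .l)) (.x (.u .l .l) (.u (.x (.u .l .l) (.u (.x .l .l) .l)) .l)))

theorem run_M3_120_8 :
    cov 3 0 (t20 ^ 2) 1 (empM t20 noQ) (fun b => b.U1) tr_M3_120_8 (mk t20 (5125 / 10000) (55
    / 100) 0 (55 / 100) 0 0).ur.ul.xr.ul.xr.ur.xl = true := by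
  decide +kernel

def tr_M3_120_9 : Tr :=
    (.u (.x (.u (.x .l .l) .l) (.u (.x .l .l) .l)) (.x (.u .l .l) .l))

theorem run_M3_120_9 :
    cov 3 0 (t20 ^ 2) 1 (empM t20 noQ) (fun b => b.U1) tr_M3_120_9 (mk t20 (5125 / 10000) (55
    / 100) 0 (55 / 100) 0 0).ur.ul.xr.ul.xr.ur.xr = true := by
  decide +kernel

def tr_M3_120_10 : Tr :=
    (.x (.u (.x (.u .l .l) (.u (.x .l .l) .l)) (.x .l .l)) (.u (.x (.u (.x .l .l) .l) .l) .l))

theorem run_M3_120_10 :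
    cov 3 0 (t20 ^ 2) 1 (empM t20 noQ) (fun b => b.U1) tr_M3_120_10 (mk t20 (5125 / 10000) (55
    / 100) 0 (55 / 100) 0 0).ur.ul.xr.ur = true := by
  decide +kernel

def tr_M3_120_11 : Tr :=
    (.u (.x (.u (.x .l .l) .l) .l) .l)

theorem run_M3_120_11 :
    cov 3 0 (t20 ^ 2) 1 (empM t20 noQ) (fun b => b.U1) tr_M3_120_11 (mk t20 (5125 / 10000) (55
    / 100) 0 (55 / 100) 0 0).ur.ur = true := by
  decide +kernel

def tr_M3_120 : Tr :=
    (.u (.x tr_M3_120_1 (.u tr_M3_120_2 tr_M3_120_3)) (.u (.x tr_M3_120_4 (.u (.x tr_M3_120_5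
    (.u (.x tr_M3_120_6 tr_M3_120_7) (.x tr_M3_120_8 tr_M3_120_9))) tr_M3_120_10))
    tr_M3_120_11))

theorem run_M3_120 :
    covM 3 t20 1 noQ tr_M3_120 (5125 / 10000) (55 / 100) (55 / 100) = true :=
  cov_u (cov_x run_M3_120_1 (cov_u run_M3_120_2 run_M3_120_3)) (cov_u (cov_x run_M3_120_4
    (cov_u (cov_x run_M3_120_5 (cov_u (cov_x run_M3_120_6 run_M3_120_7) (cov_x run_M3_120_8
    run_M3_120_9))) run_M3_120_10)) run_M3_120_11)

end Pool.Agent.Helper95.SP.Crude
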