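import Pool.Agent.Helper95.SP.Crude.CovDefs

/-! Box computations, part 5. -/

set_option autoImplicit false

namespace Pool.Agent.Helper95.SP.Crude

def tr_M2_102_1 : Tr :=
    .l

theorem run_M2_102_1 :
    cov 2 0 (t02 ^ 2) 1 (empM t02 (lineQ 0 9 (952 / 1000) (4 / 10) (478 / 1000))) (fun b =>
    b.U1) tr_M2_102_1 (mk t02 (478 / 1000) (52 / 100) 0 (478 / 1000) 0 0).ul = true := by
  decide +kernel

def tr_M2_102_2 : Tr :=
    .l

theorem run_M2_102_2 :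
    cov 2 0 (t02 ^ 2) 1 (empM t02 (lineQ 0 9 (952 / 1000) (4 / 10) (478 / 1000))) (fun b =>
    b.U1) tr_M2_102_2 (mk t02 (478 / 1000) (52 / 100) 0 (478 / 1000) 0 0).ur.ul = true := by
  decide +kernel

def tr_M2_102_3 : Tr :=
    (.x (.u .l (.x .l .l)) (.u .l (.x (.u .l .l) (.u .l (.x .l .l)))))

theorem run_M2_102_3 :
    cov 2 0 (t02 ^ 2) 1 (empM t02 (lineQ 0 9 (952 / 1000) (4 / 10) (478 / 1000))) (fun b =>
    b.U1) tr_M2_102_3 (mk t02 (478 / 1000) (52 / 100) 0 (478 / 1000) 0 0).ur.ur.ul = true := by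
  decide +kernel

def tr_M2_102_4 : Tr :=
    (.u (.x (.u .l .l) (.u .l .l)) (.x (.u .l (.x .l (.u .l .l))) (.u (.x .l .l) .l)))

theorem run_M2_102_4 :
    cov 2 0 (t02 ^ 2) 1 (empM t02 (lineQ 0 9 (952 / 1000) (4 / 10) (478 / 1000))) (fun b =>
    b.U1) tr_M2_102_4 (mk t02 (478 / 1000) (52 / 100) 0 (478 / 1000) 0 0).ur.ur.ur.xl = true := by
  decide +kernel

def tr_M2_102_5 : Tr :=
    (.u (.x (.u .l (.x .l .l)) (.u (.x .l (.u .l .l)) .l)) .l)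

theorem run_M2_102_5 :
    cov 2 0 (t02 ^ 2) 1 (empM t02 (lineQ 0 9 (952 / 1000) (4 / 10) (478 / 1000))) (fun b =>
    b.U1) tr_M2_102_5 (mk t02 (478 / 1000) (52 / 100) 0 (478 / 1000) 0 0).ur.ur.ur.xr = true := by
  decide +kernel

def tr_M2_102 : Tr :=
    (.u tr_M2_102_1 (.u tr_M2_102_2 (.u tr_M2_102_3 (.x tr_M2_102_4 tr_M2_102_5))))

theorem run_M2_102 :
    covM 2 t02 1 (lineQ 0 9 (952 / 1000) (4 / 10) (478 / 1000)) tr_M2_102 (478 / 1000) (52 /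
    100) (478 / 1000) = true :=
  cov_u run_M2_102_1 (cov_u run_M2_102_2 (cov_u run_M2_102_3 (cov_x run_M2_102_4
    run_M2_102_5)))

def tr_M2_110b_1 : Tr :=
    (.u .l (.u .l (.x .l (.u .l .l))))

theorem run_M2_110b_1 :
    cov 2 0 (t10 ^ 2) 1 (empM t10 (lineQ 0 9 (95 / 100) 0 0)) (fun b => b.U1) tr_M2_110b_1 (mk
    t10 (56 / 100) (6 / 10) 0 (39 / 100) 0 0) = true := by
  decide +kernel

def tr_M2_110b : Tr :=
    tr_M2_110b_1

theorem run_M2_110b :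
    covM 2 t10 1 (lineQ 0 9 (95 / 100) 0 0) tr_M2_110b (56 / 100) (6 / 10) (39 / 100) = true :=
  run_M2_110b_1

def tr_M2_104_1 : Tr :=
    .l

theorem run_M2_104_1 :
    cov 2 0 (t04 ^ 2) 1 (empM t04 (lineQ (49 / 100) 9 (975 / 1000) (2 / 10) (4875 / 10000)))
    (fun b => b.U1) tr_M2_104_1 (mk t04 (478 / 1000) (53 / 100) 0 (5 / 10) 0 0).ul = true := by
  decide +kernel

def tr_M2_104_2 : Tr :=
    (.x .l .l)

theorem run_M2_104_2 :
    cov 2 0 (t04 ^ 2) 1 (empM t04 (lineQ (49 / 100) 9 (975 / 1000) (2 / 10) (4875 / 10000)))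
    (fun b => b.U1) tr_M2_104_2 (mk t04 (478 / 1000) (53 / 100) 0 (5 / 10) 0 0).ur.ul = true := by
  decide +kernel

def tr_M2_104_3 : Tr :=
    (.x (.u .l (.x .l .l)) (.x (.u .l (.u .l .l)) (.u .l (.u .l (.x .l (.u .l .l))))))

theorem run_M2_104_3 :
    cov 2 0 (t04 ^ 2) 1 (empM t04 (lineQ (49 / 100) 9 (975 / 1000) (2 / 10) (4875 / 10000)))
    (fun b => b.U1) tr_M2_104_3 (mk t04 (478 / 1000) (53 / 100) 0 (5 / 10) 0 0).ur.ur.ul = true := by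
  decide +kernel

def tr_M2_104_4 : Tr :=
    (.x .l (.u .l .l))

theorem run_M2_104_4 :
    cov 2 0 (t04 ^ 2) 1 (empM t04 (lineQ (49 / 100) 9 (975 / 1000) (2 / 10) (4875 / 10000)))
    (fun b => b.U1) tr_M2_104_4 (mk t04 (478 / 1000) (53 / 100) 0 (5 / 10) 0 0).ur.ur.ur.xl.ul = true := by
  decide +kernel

def tr_M2_104_5 : Tr :=
    (.x (.u (.x .l .l) (.x (.u .l .l) (.u (.x .l (.u .l .l)) .l))) (.u (.x (.u .l .l) (.u .l
    .l)) .l))

theorem run_M2_104_5 :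
    cov 2 0 (t04 ^ 2) 1 (empM t04 (lineQ (49 / 100) 9 (975 / 1000) (2 / 10) (4875 / 10000)))
    (fun b => b.U1) tr_M2_104_5 (mk t04 (478 / 1000) (53 / 100) 0 (5 / 10) 0 0).ur.ur.ur.xl.ur = true := by
  decide +kernel

def tr_M2_104_6 : Tr :=
    (.u (.x (.u (.x .l .l) (.x (.u .l .l) (.u .l .l))) (.u (.x (.u .l (.x .l .l)) (.u (.x .l .l)
    .l)) .l)) .l)

theorem run_M2_104_6 :
    cov 2 0 (t04 ^ 2) 1 (empM t04 (lineQ (49 / 100) 9 (975 / 1000) (2 / 10) (4875 / 10000)))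
    (fun b => b.U1) tr_M2_104_6 (mk t04 (478 / 1000) (53 / 100) 0 (5 / 10) 0 0).ur.ur.ur.xr = true := by
  decide +kernel

def tr_M2_104 : Tr :=
    (.u tr_M2_104_1 (.u tr_M2_104_2 (.u tr_M2_104_3 (.x (.u tr_M2_104_4 tr_M2_104_5)
    tr_M2_104_6))))

theorem run_M2_104 :
    covM 2 t04 1 (lineQ (49 / 100) 9 (975 / 1000) (2 / 10) (4875 / 10000)) tr_M2_104 (478 /
    1000) (53 / 100) (5 / 10) = true :=
  cov_u run_M2_104_1 (cov_u run_M2_104_2 (cov_u run_M2_104_3 (cov_x (cov_u run_M2_104_4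
    run_M2_104_5) run_M2_104_6)))

end Pool.Agent.Helper95.SP.Crude
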