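import Pool.Agent.Helper95.SP.Crude.CovDefs

/-! Box computations, part 6. -/

set_option autoImplicit false

namespace Pool.Agent.Helper95.SP.Crude

def tr_M2_106_1 : Tr :=
    .l

theorem run_M2_106_1 :
    cov 2 0 (t06 ^ 2) 1 (empM t06 (lineQ (4975 / 10000) 9 (993 / 1000) (6 / 10) (4975 /
    10000))) (fun b => b.U1) tr_M2_106_1 (mk t06 (49 / 100) (54 / 100) 0 (505 / 1000) 0 0).ul = true := by
  decide +kernel

def tr_M2_106_2 : Tr :=
    (.x .l .l)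

theorem run_M2_106_2 :
    cov 2 0 (t06 ^ 2) 1 (empM t06 (lineQ (4975 / 10000) 9 (993 / 1000) (6 / 10) (4975 /
    10000))) (fun b => b.U1) tr_M2_106_2 (mk t06 (49 / 100) (54 / 100) 0 (505 / 1000) 0
    0).ur.ul = true := by
  decide +kernel

def tr_M2_106_3 : Tr :=
    (.x (.u .l .l) (.u .l (.x (.u .l .l) (.u (.x .l .l) (.x .l (.u .l (.x .l .l)))))))

theorem run_M2_106_3 :
    cov 2 0 (t06 ^ 2) 1 (empM t06 (lineQ (4975 / 10000) 9 (993 / 1000) (6 / 10) (4975 /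
    10000))) (fun b => b.U1) tr_M2_106_3 (mk t06 (49 / 100) (54 / 100) 0 (505 / 1000) 0
    0).ur.ur.ul = true := by
  decide +kernel

def tr_M2_106_4 : Tr :=
    (.x .l (.u .l (.x .l (.u .l .l))))

theorem run_M2_106_4 :
    cov 2 0 (t06 ^ 2) 1 (empM t06 (lineQ (4975 / 10000) 9 (993 / 1000) (6 / 10) (4975 /
    10000))) (fun b => b.U1) tr_M2_106_4 (mk t06 (49 / 100) (54 / 100) 0 (505 / 1000) 0
    0).ur.ur.ur.xl.ul = true := by
  decide +kernel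

def tr_M2_106_5 : Tr :=
    (.x .l (.u .l (.x .l .l)))

theorem run_M2_106_5 :
    cov 2 0 (t06 ^ 2) 1 (empM t06 (lineQ (4975 / 10000) 9 (993 / 1000) (6 / 10) (4975 /
    10000))) (fun b => b.U1) tr_M2_106_5 (mk t06 (49 / 100) (54 / 100) 0 (505 / 1000) 0
    0).ur.ur.ur.xl.ur.xl.ul = true := by
  decide +kernel

def tr_M2_106_6 : Tr :=
    (.u (.x .l (.u .l .l)) .l)

theorem run_M2_106_6 :
    cov 2 0 (t06 ^ 2) 1 (empM t06 (lineQ (4975 / 10000) 9 (993 / 1000) (6 / 10) (4975 /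
    10000))) (fun b => b.U1) tr_M2_106_6 (mk t06 (49 / 100) (54 / 100) 0 (505 / 1000) 0
    0).ur.ur.ur.xl.ur.xl.ur.xl = true := by
  decide +kernel

def tr_M2_106_7 : Tr :=
    (.u (.x (.u .l (.x .l (.u .l .l))) (.u (.x .l (.u .l .l)) .l)) (.x (.u (.x (.u (.x .l .l)
    .l) .l) .l) .l))

theorem run_M2_106_7 :
    cov 2 0 (t06 ^ 2) 1 (empM t06 (lineQ (4975 / 10000) 9 (993 / 1000) (6 / 10) (4975 /
    10000))) (fun b => b.U1) tr_M2_106_7 (mk t06 (49 / 100) (54 / 100) 0 (505 / 1000) 0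
    0).ur.ur.ur.xl.ur.xl.ur.xr = true := by
  decide +kernel

def tr_M2_106_8 : Tr :=
    (.u (.x (.u .l (.x (.u .l (.x .l .l)) (.u .l .l))) (.u (.x (.u .l .l) .l) .l)) .l)

theorem run_M2_106_8 :
    cov 2 0 (t06 ^ 2) 1 (empM t06 (lineQ (4975 / 10000) 9 (993 / 1000) (6 / 10) (4975 /
    10000))) (fun b => b.U1) tr_M2_106_8 (mk t06 (49 / 100) (54 / 100) 0 (505 / 1000) 0
    0).ur.ur.ur.xl.ur.xr = true := by
  decide +kernel

def tr_M2_106_9 : Tr :=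
    (.u (.x (.u (.x .l (.u .l .l)) (.x (.u .l (.x (.u .l .l) .l)) .l)) (.u (.x (.u (.x .l .l)
    .l) .l) .l)) .l)

theorem run_M2_106_9 :
    cov 2 0 (t06 ^ 2) 1 (empM t06 (lineQ (4975 / 10000) 9 (993 / 1000) (6 / 10) (4975 /
    10000))) (fun b => b.U1) tr_M2_106_9 (mk t06 (49 / 100) (54 / 100) 0 (505 / 1000) 0
    0).ur.ur.ur.xr = true := by
  decide +kernel

def tr_M2_106 : Tr :=
    (.u tr_M2_106_1 (.u tr_M2_106_2 (.u tr_M2_106_3 (.x (.u tr_M2_106_4 (.x (.u tr_M2_106_5 (.x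
    tr_M2_106_6 tr_M2_106_7)) tr_M2_106_8)) tr_M2_106_9))))

theorem run_M2_106 :
    covM 2 t06 1 (lineQ (4975 / 10000) 9 (993 / 1000) (6 / 10) (4975 / 10000)) tr_M2_106 (49 /
    100) (54 / 100) (505 / 1000) = true :=
  cov_u run_M2_106_1 (cov_u run_M2_106_2 (cov_u run_M2_106_3 (cov_x (cov_u run_M2_106_4 (cov_x
    (cov_u run_M2_106_5 (cov_x run_M2_106_6 run_M2_106_7)) run_M2_106_8)) run_M2_106_9)))

end Pool.Agent.Helper95.SP.Crude
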