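import Pool.Agent.Helper95.SP.Crude.CovDefs

/-! Box computations, part 7. -/

set_option autoImplicit false

namespace Pool.Agent.Helper95.SP.Crude

def tr_M2_108_1 : Tr :=
    .l

theorem run_M2_108_1 :
    cov 2 0 (t08 ^ 2) 1 (empM t08 (lineQ (5065 / 10000) 9 (1008 / 1000) (15 / 10) (5065 /
    10000))) (fun b => b.U1) tr_M2_108_1 (mk t08 (4975 / 10000) (55 / 100) 0 (52 / 100) 0
    0).ul = true := by
  decide +kernel

def tr_M2_108_2 : Tr :=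
    (.x .l .l)

theorem run_M2_108_2 :
    cov 2 0 (t08 ^ 2) 1 (empM t08 (lineQ (5065 / 10000) 9 (1008 / 1000) (15 / 10) (5065 /
    10000))) (fun b => b.U1) tr_M2_108_2 (mk t08 (4975 / 10000) (55 / 100) 0 (52 / 100) 0
    0).ur.ul = true := by
  decide +kernel

def tr_M2_108_3 : Tr :=
    (.x (.u .l (.x .l (.u .l .l))) (.u .l (.x (.u .l (.x .l (.u .l .l))) (.u (.x (.u .l .l) .l)
    .l))))

theorem run_M2_108_3 :
    cov 2 0 (t08 ^ 2) 1 (empM t08 (lineQ (5065 / 10000) 9 (1008 / 1000) (15 / 10) (5065 /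
    10000))) (fun b => b.U1) tr_M2_108_3 (mk t08 (4975 / 10000) (55 / 100) 0 (52 / 100) 0
    0).ur.ur.ul = true := by
  decide +kernel

def tr_M2_108_4 : Tr :=
    (.u .l (.x .l (.u .l .l)))

theorem run_M2_108_4 :
    cov 2 0 (t08 ^ 2) 1 (empM t08 (lineQ (5065 / 10000) 9 (1008 / 1000) (15 / 10) (5065 /
    10000))) (fun b => b.U1) tr_M2_108_4 (mk t08 (4975 / 10000) (55 / 100) 0 (52 / 100) 0
    0).ur.ur.ur.xl.ul.xl = true := by
  decide +kernel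

def tr_M2_108_5 : Tr :=
    (.u (.x .l (.u .l (.x .l .l))) (.x (.u (.x .l .l) (.x .l (.u .l .l))) (.u (.x (.u .l .l) .l)
    .l)))

theorem run_M2_108_5 :
    cov 2 0 (t08 ^ 2) 1 (empM t08 (lineQ (5065 / 10000) 9 (1008 / 1000) (15 / 10) (5065 /
    10000))) (fun b => b.U1) tr_M2_108_5 (mk t08 (4975 / 10000) (55 / 100) 0 (52 / 100) 0
    0).ur.ur.ur.xl.ul.xr = true := by
  decide +kernel

def tr_M2_108_6 : Tr :=
    (.u (.x (.u .l (.x .l .l)) (.u (.x .l (.u .l .l)) (.x .l .l))) (.x (.u (.x .l .l) .l) (.u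
    (.x .l .l) .l)))

theorem run_M2_108_6 :
    cov 2 0 (t08 ^ 2) 1 (empM t08 (lineQ (5065 / 10000) 9 (1008 / 1000) (15 / 10) (5065 /
    10000))) (fun b => b.U1) tr_M2_108_6 (mk t08 (4975 / 10000) (55 / 100) 0 (52 / 100) 0
    0).ur.ur.ur.xl.ur.xl = true := by
  decide +kernel

def tr_M2_108_7 : Tr :=
    (.u (.x (.u (.x (.u .l .l) .l) .l) .l) .l)

theorem run_M2_108_7 :
    cov 2 0 (t08 ^ 2) 1 (empM t08 (lineQ (5065 / 10000) 9 (1008 / 1000) (15 / 10) (5065 /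
    10000))) (fun b => b.U1) tr_M2_108_7 (mk t08 (4975 / 10000) (55 / 100) 0 (52 / 100) 0
    0).ur.ur.ur.xl.ur.xr = true := by
  decide +kernel

def tr_M2_108_8 : Tr :=
    (.u (.x (.u (.x (.u (.x .l .l) .l) .l) .l) .l) .l)

theorem run_M2_108_8 :
    cov 2 0 (t08 ^ 2) 1 (empM t08 (lineQ (5065 / 10000) 9 (1008 / 1000) (15 / 10) (5065 /
    10000))) (fun b => b.U1) tr_M2_108_8 (mk t08 (4975 / 10000) (55 / 100) 0 (52 / 100) 0
    0).ur.ur.ur.xr = true := by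
  decide +kernel

def tr_M2_108 : Tr :=
    (.u tr_M2_108_1 (.u tr_M2_108_2 (.u tr_M2_108_3 (.x (.u (.x tr_M2_108_4 tr_M2_108_5) (.x
    tr_M2_108_6 tr_M2_108_7)) tr_M2_108_8))))

theorem run_M2_108 :
    covM 2 t08 1 (lineQ (5065 / 10000) 9 (1008 / 1000) (15 / 10) (5065 / 10000)) tr_M2_108
    (4975 / 10000) (55 / 100) (52 / 100) = true :=
  cov_u run_M2_108_1 (cov_u run_M2_108_2 (cov_u run_M2_108_3 (cov_x (cov_u (cov_x run_M2_108_4
    run_M2_108_5) (cov_x run_M2_108_6 run_M2_108_7)) run_M2_108_8)))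

def tr_M2_120b_1 : Tr :=
    (.u .l (.u .l (.x .l (.u .l .l))))

theorem run_M2_120b_1 :
    cov 2 0 (t20 ^ 2) 1 (empM t20 (lineQ 0 9 (95 / 100) 0 0)) (fun b => b.U1) tr_M2_120b_1 (mk
    t20 (58 / 100) (66 / 100) 0 (37 / 100) 0 0).xl = true := by
  decide +kernel

def tr_M2_120b_2 : Tr :=
    (.x .l (.x .l .l))

theorem run_M2_120b_2 :
    cov 2 0 (t20 ^ 2) 1 (empM t20 (lineQ 0 9 (95 / 100) 0 0)) (fun b => b.U1) tr_M2_120b_2 (mk
    t20 (58 / 100) (66 / 100) 0 (37 / 100) 0 0).xr.ul = true := by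
  decide +kernel

def tr_M2_120b_3 : Tr :=
    (.x (.x .l .l) (.x (.u .l .l) (.u .l .l)))

theorem run_M2_120b_3 :
    cov 2 0 (t20 ^ 2) 1 (empM t20 (lineQ 0 9 (95 / 100) 0 0)) (fun b => b.U1) tr_M2_120b_3 (mk
    t20 (58 / 100) (66 / 100) 0 (37 / 100) 0 0).xr.ur.ul = true := by
  decide +kernel

def tr_M2_120b_4 : Tr :=
    (.x (.u (.x .l .l) (.x .l .l)) (.u (.x (.u .l .l) (.u .l .l)) .l))

theorem run_M2_120b_4 :
    cov 2 0 (t20 ^ 2) 1 (empM t20 (lineQ 0 9 (95 / 100) 0 0)) (fun b => b.U1) tr_M2_120b_4 (mk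
    t20 (58 / 100) (66 / 100) 0 (37 / 100) 0 0).xr.ur.ur = true := by
  decide +kernel

def tr_M2_120b : Tr :=
    (.x tr_M2_120b_1 (.u tr_M2_120b_2 (.u tr_M2_120b_3 tr_M2_120b_4)))

theorem run_M2_120b :
    covM 2 t20 1 (lineQ 0 9 (95 / 100) 0 0) tr_M2_120b (58 / 100) (66 / 100) (37 / 100) = true :=
  cov_x run_M2_120b_1 (cov_u run_M2_120b_2 (cov_u run_M2_120b_3 run_M2_120b_4))

end Pool.Agent.Helper95.SP.Crude
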