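import Pool.Agent.Helper95.SP.Crude.CovDefs

/-! Box computations, part 8. -/

set_option autoImplicit false

namespace Pool.Agent.Helper95.SP.Crude

def tr_M2_110_1 : Tr :=
    .l

theorem run_M2_110_1 :
    cov 2 0 (t10 ^ 2) 1 (empM t10 (lineQ (5125 / 10000) 9 (1016 / 1000) (14 / 10) (5125 /
    10000))) (fun b => b.U1) tr_M2_110_1 (mk t10 (5065 / 10000) (56 / 100) 0 (52 / 100) 0
    0).ul = true := by
  decide +kernel

def tr_M2_110_2 : Tr :=
    (.x .l .l)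

theorem run_M2_110_2 :
    cov 2 0 (t10 ^ 2) 1 (empM t10 (lineQ (5125 / 10000) 9 (1016 / 1000) (14 / 10) (5125 /
    10000))) (fun b => b.U1) tr_M2_110_2 (mk t10 (5065 / 10000) (56 / 100) 0 (52 / 100) 0
    0).ur.ul = true := by
  decide +kernel

def tr_M2_110_3 : Tr :=
    (.x (.u .l (.x .l (.u .l (.x .l .l)))) (.x (.u .l (.u .l (.x (.u .l (.x .l .l)) .l))) (.u .l
    .l)))

theorem run_M2_110_3 :
    cov 2 0 (t10 ^ 2) 1 (empM t10 (lineQ (5125 / 10000) 9 (1016 / 1000) (14 / 10) (5125 /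
    10000))) (fun b => b.U1) tr_M2_110_3 (mk t10 (5065 / 10000) (56 / 100) 0 (52 / 100) 0
    0).ur.ur.ul = true := by
  decide +kernel

def tr_M2_110_4 : Tr :=
    (.x (.u .l (.x .l (.u .l .l))) (.u (.x (.u .l .l) (.u .l (.x .l .l))) (.x (.u (.x .l .l) (.x
    .l .l)) .l)))

theorem run_M2_110_4 :
    cov 2 0 (t10 ^ 2) 1 (empM t10 (lineQ (5125 / 10000) 9 (1016 / 1000) (14 / 10) (5125 /
    10000))) (fun b => b.U1) tr_M2_110_4 (mk t10 (5065 / 10000) (56 / 100) 0 (52 / 100) 0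
    0).ur.ur.ur.xl.ul = true := by
  decide +kernel

def tr_M2_110_5 : Tr :=
    (.x (.u (.x (.u .l .l) (.u .l .l)) (.x .l .l)) .l)

theorem run_M2_110_5 :
    cov 2 0 (t10 ^ 2) 1 (empM t10 (lineQ (5125 / 10000) 9 (1016 / 1000) (14 / 10) (5125 /
    10000))) (fun b => b.U1) tr_M2_110_5 (mk t10 (5065 / 10000) (56 / 100) 0 (52 / 100) 0
    0).ur.ur.ur.xl.ur = true := by
  decide +kernel

def tr_M2_110_6 : Tr :=
    .l

theorem run_M2_110_6 :
    cov 2 0 (t10 ^ 2) 1 (empM t10 (lineQ (5125 / 10000) 9 (1016 / 1000) (14 / 10) (5125 /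
    10000))) (fun b => b.U1) tr_M2_110_6 (mk t10 (5065 / 10000) (56 / 100) 0 (52 / 100) 0
    0).ur.ur.ur.xr = true := by
  decide +kernel

def tr_M2_110 : Tr :=
    (.u tr_M2_110_1 (.u tr_M2_110_2 (.u tr_M2_110_3 (.x (.u tr_M2_110_4 tr_M2_110_5)
    tr_M2_110_6))))

theorem run_M2_110 :
    covM 2 t10 1 (lineQ (5125 / 10000) 9 (1016 / 1000) (14 / 10) (5125 / 10000)) tr_M2_110
    (5065 / 10000) (56 / 100) (52 / 100) = true :=
  cov_u run_M2_110_1 (cov_u run_M2_110_2 (cov_u run_M2_110_3 (cov_x (cov_u run_M2_110_4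
    run_M2_110_5) run_M2_110_6)))

def tr_M2_120_1 : Tr :=
    (.x (.x .l .l) (.x .l .l))

theorem run_M2_120_1 :
    cov 2 0 (t20 ^ 2) 1 (empM t20 (lineQ (5275 / 10000) 9 (102 / 100) 1 (5275 / 10000))) (fun
    b => b.U1) tr_M2_120_1 (mk t20 (5125 / 10000) (62 / 100) 0 (5275 / 10000) 0 0).ul = true := by
  decide +kernel

def tr_M2_120_2 : Tr :=
    (.x (.u .l .l) (.u .l .l))

theorem run_M2_120_2 :
    cov 2 0 (t20 ^ 2) 1 (empM t20 (lineQ (5275 / 10000) 9 (102 / 100) 1 (5275 / 10000))) (fun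
    b => b.U1) tr_M2_120_2 (mk t20 (5125 / 10000) (62 / 100) 0 (5275 / 10000) 0 0).ur.xl.ul = true := by
  decide +kernel

def tr_M2_120_3 : Tr :=
    (.u (.x .l (.x .l .l)) (.x (.u (.x (.u .l .l) (.u .l .l)) (.x .l .l)) (.u (.x (.u .l .l) .l)
    .l)))

theorem run_M2_120_3 :
    cov 2 0 (t20 ^ 2) 1 (empM t20 (lineQ (5275 / 10000) 9 (102 / 100) 1 (5275 / 10000))) (fun
    b => b.U1) tr_M2_120_3 (mk t20 (5125 / 10000) (62 / 100) 0 (5275 / 10000) 0 0).ur.xl.ur = true := by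
  decide +kernel

def tr_M2_120_4 : Tr :=
    (.u (.x (.u .l .l) (.u .l (.x .l .l))) (.x (.u (.x .l .l) .l) .l))

theorem run_M2_120_4 :
    cov 2 0 (t20 ^ 2) 1 (empM t20 (lineQ (5275 / 10000) 9 (102 / 100) 1 (5275 / 10000))) (fun
    b => b.U1) tr_M2_120_4 (mk t20 (5125 / 10000) (62 / 100) 0 (5275 / 10000) 0 0).ur.xr = true := by
  decide +kernel

def tr_M2_120 : Tr :=
    (.u tr_M2_120_1 (.x (.u tr_M2_120_2 tr_M2_120_3) tr_M2_120_4))

theorem run_M2_120 :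
    covM 2 t20 1 (lineQ (5275 / 10000) 9 (102 / 100) 1 (5275 / 10000)) tr_M2_120 (5125 /
    10000) (62 / 100) (5275 / 10000) = true :=
  cov_u run_M2_120_1 (cov_x (cov_u run_M2_120_2 run_M2_120_3) run_M2_120_4)

def tr_M2_135_1 : Tr :=
    (.x .l .l)

theorem run_M2_135_1 :
    cov 2 0 (t35 ^ 2) mu35 (empM t35 (lineQ (535 / 1000) 9 (1066 / 1000) (26 / 10) (535 /
    1000))) (fun b => b.U1) tr_M2_135_1 (mk t35 (5275 / 10000) (58 / 100) 0 (56 / 100) 0 0).ul = true := by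
  decide +kernel

def tr_M2_135_2 : Tr :=
    (.x (.u .l .l) (.u .l .l))

theorem run_M2_135_2 :
    cov 2 0 (t35 ^ 2) mu35 (empM t35 (lineQ (535 / 1000) 9 (1066 / 1000) (26 / 10) (535 /
    1000))) (fun b => b.U1) tr_M2_135_2 (mk t35 (5275 / 10000) (58 / 100) 0 (56 / 100) 0
    0).ur.ul = true := by
  decide +kernel

def tr_M2_135_3 : Tr :=
    (.u (.x (.u .l (.x .l .l)) (.u (.x .l .l) (.x .l .l))) (.x (.u (.x .l .l) (.x .l .l)) .l))

theorem run_M2_135_3 :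
    cov 2 0 (t35 ^ 2) mu35 (empM t35 (lineQ (535 / 1000) 9 (1066 / 1000) (26 / 10) (535 /
    1000))) (fun b => b.U1) tr_M2_135_3 (mk t35 (5275 / 10000) (58 / 100) 0 (56 / 100) 0
    0).ur.ur = true := by
  decide +kernel

def tr_M2_135 : Tr :=
    (.u tr_M2_135_1 (.u tr_M2_135_2 tr_M2_135_3))

theorem run_M2_135 :
    covM 2 t35 mu35 (lineQ (535 / 1000) 9 (1066 / 1000) (26 / 10) (535 / 1000)) tr_M2_135
    (5275 / 10000) (58 / 100) (56 / 100) = true :=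
  cov_u run_M2_135_1 (cov_u run_M2_135_2 run_M2_135_3)

end Pool.Agent.Helper95.SP.Crude
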