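import Mathlib.Data.Rat.Floor
import Mathlib.Data.Rat.Cast.Order

/-!
Rational evaluators and the box test for the crude pair facts (MP_66ebcc).
-/

set_option autoImplicit false

namespace Pool.Agent.Helper95.SP.Crude

/-- lower and upper bounds for `π ^ 2` -/
def PL : ℚ := 98696 / 10000
def PH : ℚ := 98697 / 10000

/-- rounding down and up to multiples of `1 / 10 ^ 4` -/
def dn (x : ℚ) : ℚ := (⌊x * 10000⌋ : ℚ) / 10000
def up (x : ℚ) : ℚ := (⌈x * 10000⌉ : ℚ) / 10000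
/-- rounding up to multiples of `1 / 10 ^ 8` -/
def upp (x : ℚ) : ℚ := (⌈x * 100000000⌉ : ℚ) / 100000000
/-- rounding down to multiples of `1 / 10 ^ 8` -/
def dnn (x : ℚ) : ℚ := (⌊x * 100000000⌋ : ℚ) / 100000000

/-- Horner form of the alternating series of `sin y / y`, `z = y ^ 2` -/
def sinAux (z : ℚ) : ℕ → ℕ → ℚ
  | 0, _ => 1
  | n + 1, i => 1 - z / ((2 * i) * (2 * i + 1)) * sinAux z n (i + 1)

/-- the Taylor polynomial of `sin` with 18 terms (degree 35) -/
def sinQ (y : ℚ) : ℚ := y * sinAux (y ^ 2) 17 1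

/-- upper bound for `|sin y|`, `0 ≤ y ≤ 10` -/
def asinUp (y : ℚ) : ℚ := upp (|sinQ y| + 1 / 10 ^ 6)
/-- lower bound for `sin y`, `0 ≤ y ≤ 10` -/
def sinLo (y : ℚ) : ℚ := dnn (sinQ y - 1 / 10 ^ 6)

/-- Horner form of `∑ i < 8, y ^ i / i!` -/
def expAux (y : ℚ) : ℚ :=
  1 + y * (1 + y / 2 * (1 + y / 3 * (1 + y / 4 * (1 + y / 5 * (1 + y / 6 * (1 + y / 7))))))

/-- upper bound for `exp (-E)`, `0 ≤ E` -/
def eUp (E : ℚ) : ℚ := upp (1 / expAux (E / 16) ^ 16)
/-- lower bound for `exp (-E)`, `0 ≤ E` -/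
def eLo (E : ℚ) : ℚ :=
  if E ≤ 16 then dnn (1 / (expAux (E / 16) + (E / 16) ^ 8 * 9 / 322560) ^ 16) else 0

/-- 100 times the constants `c_k` on the grid `r_j = 30/100 + j/100` -/
def cTab : ℕ → List ℕ
  | 5 => [400, 400, 400, 400, 400, 400, 400, 400, 400, 400, 400, 400, 400, 400, 400, 400, 400, 400, 400, 400, 400, 400, 400, 400, 400, 400, 400, 400, 400, 400, 400, 400, 400, 400, 400, 400, 400, 400, 400, 400, 400, 400, 387, 360, 337, 317]
  | 7 => [800, 800, 800, 800, 800, 800, 800, 800, 800, 800, 800, 800, 800, 800, 800, 800, 800, 800, 800, 800, 800, 800, 733, 669, 616, 570, 530, 496, 467, 441, 419, 399, 382, 368, 355, 344, 334, 327, 320, 314, 310, 307, 304, 303, 303, 303]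
  | 9 => [1333, 1333, 1333, 1333, 1333, 1333, 1333, 1333, 1333, 1333, 1291, 1145, 1029, 933, 855, 790, 735, 689, 651, 619, 593, 571, 553, 539, 527, 519, 514, 512, 512, 512, 512, 512, 512, 512, 512, 512, 512, 512, 512, 512, 512, 512, 512, 512, 511, 464]
  | 11 => [2000, 2000, 2000, 1859, 1618, 1432, 1285, 1168, 1075, 999, 938, 890, 851, 822, 800, 784, 775, 772, 772, 772, 772, 772, 772, 772, 772, 772, 772, 772, 772, 772, 772, 731, 656, 597, 550, 512, 480, 454, 433, 415, 401, 390, 382, 376, 372, 371]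
  | _ => []

/-- 100 times the constants `F_k` -/
def fTab : ℕ → List ℕ
  | 5 => [9900, 9900, 9900, 9900, 9900, 9900, 9900, 9900, 9900, 9900, 9900, 9900, 9900, 9900, 9900, 9900, 9900, 9900, 9900, 9900, 9900, 9900, 9900, 9900, 9900, 9900, 9900, 9900, 9900, 9900, 9900, 9900, 9900, 585, 393, 332, 296, 270, 250, 234, 221, 210, 200, 192, 184, 178]
  | 7 => [9900, 9900, 9900, 9900, 9900, 9900, 9900, 9900, 9900, 9900, 9900, 9900, 9900, 9900, 9900, 588, 367, 306, 269, 244, 225, 210, 198, 188, 179, 172, 166, 161, 157, 153, 150, 148, 147, 146, 145, 145, 145, 145, 145, 145, 145, 145, 145, 145, 145, 145]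
  | 9 => [9900, 9900, 9900, 9900, 9900, 590, 347, 285, 249, 224, 206, 192, 181, 172, 165, 159, 155, 152, 150, 148, 148, 148, 148, 148, 148, 148, 148, 148, 148, 148, 148, 148, 148, 148, 148, 148, 148, 148, 148, 148, 148, 148, 148, 148, 148, 148]
  | 11 => [302, 253, 223, 202, 186, 175, 166, 159, 155, 151, 150, 149, 149, 149, 149, 149, 149, 149, 149, 149, 149, 149, 149, 149, 149, 149, 149, 149, 149, 149, 149, 149, 149, 149, 149, 149, 149, 149, 149, 149, 149, 149, 149, 149, 149, 149]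
  | _ => []

def cc (k j : ℕ) : ℚ := ((cTab k).getD j 0 : ℕ) / 100
def ff (k j : ℕ) : ℚ := ((fTab k).getD j 0 : ℕ) / 100
def gr (j : ℕ) : ℚ := 3 / 10 + j / 100

end Pool.Agent.Helper95.SP.Crude
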