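import Pool.Agent.Helper95.SP.Prod
import Mathlib

/-!
A lower bound for `sinc (3 C) / sinc C`.
-/

set_option autoImplicit false

namespace Pool.Agent.Helper95.SP.Crude

open Real Finset Filter Topology

theorem Tau.one_var {y : ℝ} (h0 : 0 ≤ y) (h1 : y ≤ 1 / 36) :
    (1 - y) * exp (-(8 * y + 97 / 2 * y ^ 2)) ≤ 1 - 9 * y := by
  set t : ℝ := 8 * y + 97 / 2 * y ^ 2 with ht
  have ht0 : 0 ≤ t := by positivity
  have h2 := Real.sum_le_exp_of_nonneg ht0 5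
  have h3 : 1 - y ≤ (1 - 9 * y) * exp t := by
    have h4 : 0 ≤ 1 - 9 * y := by linarith
    refine le_trans ?_ (mul_le_mul_of_nonneg_left h2 h4)
    simp only [Finset.sum_range_succ, Finset.sum_range_zero, Nat.factorial]
    have hk : ∀ k : ℕ, y ^ (k + 2) ≤ y ^ 2 * (1 / 36) ^ k := by
      intro k
      rw [pow_add, mul_comm]
      exact mul_le_mul_of_nonneg_left (pow_le_pow_left₀ h0 h1 k) (by positivity)
    have k1 := hk 1
    have k2 := hk 2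
    have k3 := hk 3
    have k4 := hk 4
    have k5 := hk 5
    have k6 := hk 6
    have k7 := hk 7
    norm_num at k1 k2 k3 k4 k5 k6 k7
    have e : 1 - y = 1 - y := rfl
    rw [ht]
    push_cast
    have hy2 : 0 ≤ y ^ 2 := by positivity
    nlinarith [k1, k2, k3, k4, k5, k6, k7, hy2]
  have h5 : exp (-t) = (exp t)⁻¹ := Real.exp_neg t
  rw [h5, ← div_eq_mul_inv, div_le_iff₀ (exp_pos t)]
  exact h3

theorem Tau.sum_sq (k : ℕ) : ∑ j ∈ range k, 1 / (π ^ 2 * (((j + 1 : ℕ) : ℝ) + 1) ^ 2) ≤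
    1 / 6 - 1 / π ^ 2 := by
  have h := sum_sq_le (k + 1)
  rw [Finset.sum_range_succ'] at h
  have e : 1 / (π ^ 2 * (((0 : ℕ) : ℝ) + 1) ^ 2) = 1 / π ^ 2 := by norm_num
  rw [e] at h
  linarith

theorem Tau.sum_four (k : ℕ) : ∑ j ∈ range k, 1 / (π ^ 2 * (((j + 1 : ℕ) : ℝ) + 1) ^ 2) ^ 2 ≤
    1 / 90 - 1 / π ^ 4 := by
  have h := sum_four_le (k + 1)
  rw [Finset.sum_range_succ'] at h
  have e : 1 / (π ^ 2 * (((0 : ℕ) : ℝ) + 1) ^ 2) ^ 2 = 1 / π ^ 4 := by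
    norm_num
    rw [← pow_mul]
  rw [e] at h
  linarith

theorem Tau.pi_sq_bd : (98696 / 10000 : ℝ) ≤ π ^ 2 ∧ π ^ 2 ≤ 986961 / 100000 := by
  have h1 := pi_gt_d6
  have h2 := pi_lt_d6
  constructor <;> nlinarith

theorem Tau.sum_bd {s : ℝ} (hs : 0 ≤ s) (k : ℕ) :
    ∑ j ∈ range k, (8 * (s / (π ^ 2 * (((j + 1 : ℕ) : ℝ) + 1) ^ 2)) +
      97 / 2 * (s / (π ^ 2 * (((j + 1 : ℕ) : ℝ) + 1) ^ 2)) ^ 2) ≤
      52277 / 100000 * s + 411 / 10000 * s ^ 2 := by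
  have h1 := Tau.sum_sq k
  have h2 := Tau.sum_four k
  have e : ∑ j ∈ range k, (8 * (s / (π ^ 2 * (((j + 1 : ℕ) : ℝ) + 1) ^ 2)) +
      97 / 2 * (s / (π ^ 2 * (((j + 1 : ℕ) : ℝ) + 1) ^ 2)) ^ 2) =
      8 * s * ∑ j ∈ range k, 1 / (π ^ 2 * (((j + 1 : ℕ) : ℝ) + 1) ^ 2) +
      97 / 2 * s ^ 2 * ∑ j ∈ range k, 1 / (π ^ 2 * (((j + 1 : ℕ) : ℝ) + 1) ^ 2) ^ 2 := by
    rw [Finset.mul_sum, Finset.mul_sum, ← Finset.sum_add_distrib]
    refine Finset.sum_congr rfl fun j _ => ?_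
    rw [div_pow]
    ring
  rw [e]
  obtain ⟨p1, p2⟩ := Tau.pi_sq_bd
  have hp : 0 < π ^ 2 := by positivity
  have b1 : 1 / π ^ 2 ≥ 1 / (986961 / 100000) := one_div_le_one_div_of_le hp p2
  have b2 : 1 / π ^ 4 ≥ 1 / (986961 / 100000) ^ 2 := by
    have : π ^ 4 = (π ^ 2) ^ 2 := by ring
    rw [this]
    exact one_div_le_one_div_of_le (by positivity) (pow_le_pow_left₀ hp.le p2 2)
  have c1 : 8 * s * ∑ j ∈ range k, 1 / (π ^ 2 * (((j + 1 : ℕ) : ℝ) + 1) ^ 2) ≤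
      8 * s * (1 / 6 - 1 / (986961 / 100000)) :=
    mul_le_mul_of_nonneg_left (by linarith) (by positivity)
  have c2 : 97 / 2 * s ^ 2 * ∑ j ∈ range k, 1 / (π ^ 2 * (((j + 1 : ℕ) : ℝ) + 1) ^ 2) ^ 2 ≤
      97 / 2 * s ^ 2 * (1 / 90 - 1 / (986961 / 100000) ^ 2) :=
    mul_le_mul_of_nonneg_left (by linarith) (by positivity)
  have hs2 : 0 ≤ s ^ 2 := by positivity
  have a1 : (8 : ℝ) * (1 / 6 - 1 / (986961 / 100000)) ≤ 52277 / 100000 := by norm_num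
  have a2 : (97 / 2 : ℝ) * (1 / 90 - 1 / (986961 / 100000) ^ 2) ≤ 411 / 10000 := by norm_num
  have d1 := mul_le_mul_of_nonneg_right a1 hs
  have d2 := mul_le_mul_of_nonneg_right a2 hs2
  refine (add_le_add c1 c2).trans ?_
  calc _ = 8 * (1 / 6 - 1 / (986961 / 100000)) * s +
        97 / 2 * (1 / 90 - 1 / (986961 / 100000) ^ 2) * s ^ 2 := by ring
    _ ≤ _ := add_le_add d1 d2

theorem tau_le {C : ℝ} (h0 : 0 ≤ C) (h : 9 * C ^ 2 < π ^ 2) :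
    sinc C * ((π ^ 2 - 9 * C ^ 2) / (π ^ 2 - C ^ 2)) *
      exp (-(52277 / 100000 * C ^ 2 + 411 / 10000 * C ^ 4)) ≤ sinc (3 * C) := by
  have t1 := tendsto_sinc C
  have t2 := tendsto_sinc (3 * C)
  have t1' := (t1.comp (tendsto_add_atTop_nat 1)).mul_const
    (((π ^ 2 - 9 * C ^ 2) / (π ^ 2 - C ^ 2)) *
      exp (-(52277 / 100000 * C ^ 2 + 411 / 10000 * C ^ 4)))
  have t2' := t2.comp (tendsto_add_atTop_nat 1)
  rw [← mul_assoc] at t1'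
  refine le_of_tendsto_of_tendsto' t1' t2' fun k => ?_
  simp only [Function.comp_apply]
  set s := C ^ 2 with hs
  have hs0 : 0 ≤ s := by positivity
  have hC4 : C ^ 4 = s ^ 2 := by rw [hs]; ring
  rw [hC4, show -(3 * C) ^ 2 = -(9 * s) by rw [hs]; ring]
  have hpi : 0 < π ^ 2 := by positivity
  unfold pr
  rw [Finset.prod_range_succ', Finset.prod_range_succ']
  have e0 : (1 + -s / (π ^ 2 * (((0 : ℕ) : ℝ) + 1) ^ 2)) * ((π ^ 2 - 9 * s) / (π ^ 2 - s)) =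
      1 + -(9 * s) / (π ^ 2 * (((0 : ℕ) : ℝ) + 1) ^ 2) := by
    have : π ^ 2 - s ≠ 0 := by
      have : s < π ^ 2 := by linarith
      linarith
    norm_num
    field_simp
    ring
  have hf : 0 < 1 + -(9 * s) / (π ^ 2 * (((0 : ℕ) : ℝ) + 1) ^ 2) := by
    have h9 : 9 * s / π ^ 2 < 1 := (div_lt_one hpi).mpr h
    norm_num
    rw [neg_div]
    linarith
  have hprod : (∏ j ∈ range k, (1 + -s / (π ^ 2 * (((j + 1 : ℕ) : ℝ) + 1) ^ 2))) *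
      exp (-(52277 / 100000 * s + 411 / 10000 * s ^ 2)) ≤
      ∏ j ∈ range k, (1 + -(9 * s) / (π ^ 2 * (((j + 1 : ℕ) : ℝ) + 1) ^ 2)) := by
    have hy : ∀ j : ℕ, 0 ≤ s / (π ^ 2 * (((j + 1 : ℕ) : ℝ) + 1) ^ 2) ∧
        s / (π ^ 2 * (((j + 1 : ℕ) : ℝ) + 1) ^ 2) ≤ 1 / 36 := by
      intro j
      refine ⟨by positivity, ?_⟩
      rw [div_le_div_iff₀ (by positivity) (by norm_num)]
      have h1 : (4 : ℝ) ≤ (((j + 1 : ℕ) : ℝ) + 1) ^ 2 := by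
        have : (2 : ℝ) ≤ ((j + 1 : ℕ) : ℝ) + 1 := by
          push_cast
          linarith [Nat.cast_nonneg (α := ℝ) j]
        nlinarith
      nlinarith
    have h1 : ∏ j ∈ range k, ((1 + -s / (π ^ 2 * (((j + 1 : ℕ) : ℝ) + 1) ^ 2)) *
        exp (-(8 * (s / (π ^ 2 * (((j + 1 : ℕ) : ℝ) + 1) ^ 2)) +
          97 / 2 * (s / (π ^ 2 * (((j + 1 : ℕ) : ℝ) + 1) ^ 2)) ^ 2))) ≤
        ∏ j ∈ range k, (1 + -(9 * s) / (π ^ 2 * (((j + 1 : ℕ) : ℝ) + 1) ^ 2)) := by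
      refine Finset.prod_le_prod (fun j _ => ?_) fun j _ => ?_
      · obtain ⟨y0, y1⟩ := hy j
        rw [neg_div]
        have : 0 ≤ 1 + -(s / (π ^ 2 * (((j + 1 : ℕ) : ℝ) + 1) ^ 2)) := by linarith
        positivity
      · obtain ⟨y0, y1⟩ := hy j
        have := Tau.one_var y0 y1
        rw [neg_div, neg_div, mul_div_assoc, ← sub_eq_add_neg, ← sub_eq_add_neg]
        exact this
    rw [Finset.prod_mul_distrib, ← Real.exp_sum] at h1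
    refine le_trans (mul_le_mul_of_nonneg_left (exp_le_exp.mpr ?_) ?_) h1
    · rw [Finset.sum_neg_distrib, neg_le_neg_iff]
      exact Tau.sum_bd hs0 k
    · refine Finset.prod_nonneg fun j _ => ?_
      obtain ⟨y0, y1⟩ := hy j
      rw [neg_div]
      linarith
  calc _ = ((∏ j ∈ range k, (1 + -s / (π ^ 2 * (((j + 1 : ℕ) : ℝ) + 1) ^ 2))) *
      exp (-(52277 / 100000 * s + 411 / 10000 * s ^ 2))) *
      ((1 + -s / (π ^ 2 * (((0 : ℕ) : ℝ) + 1) ^ 2)) * ((π ^ 2 - 9 * s) / (π ^ 2 - s))) := by ring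
    _ ≤ _ := by
      rw [e0]
      exact mul_le_mul_of_nonneg_right hprod hf.le

end Pool.Agent.Helper95.SP.Crude
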