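import Pool.Agent.Helper95.SP.Crude.Cfg2
import Pool.Agent.Helper95.SP.Crude.Tau
import Pool.Agent.Helper95.SP.Crude.Psi3
import Pool.Agent.Helper95.SP.Crude.BB3
import Pool.Agent.Helper95.SP.Crude.BBx
import Pool.Agent.Helper95.SP.Crude.Univ
import Pool.Agent.Helper95.SP.Crude.SinR
import Pool.Agent.Helper95.SP.Crude.ExpF
import Pool.Agent.Helper95.SP.Crude.ExpQ

/-!
Lower bound for the third harmonic over the first, and for the first harmonic.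
-/

set_option autoImplicit false

namespace Pool.Agent.Helper95.SP.Crude

open Real Finset

noncomputable def brX (v u s : ℝ) : ℝ :=
  if 9 * v ≤ π ^ 2 then 1 + (π ^ 2 - 9 * v) * (π ^ 2 - 9 * u) / (4 * π ^ 2 - 9 * s) ^ 2
  else 1 - 4 / 3 * ((9 * v - π ^ 2) * (π ^ 2 - 9 * u)) / (4 * π ^ 2 - 9 * s) ^ 2

noncomputable def deR (s : ℝ) : ℝ :=
  1 + 85 / 100000 * (1 + 55 / 1000 * s) * (π ^ 2 - s) ^ 2

theorem brX_nonneg {X U C : ℝ} (hU : 0 ≤ U) (hUX : U < X) (hCC : 2 * C ^ 2 = X ^ 2 + U ^ 2)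
    (hX : X ^ 2 ≤ 5 / 4) (h9 : 9 * C ^ 2 < π ^ 2) : 0 ≤ brX (X ^ 2) (U ^ 2) (C ^ 2) := by
  have hu : 0 ≤ π ^ 2 - 9 * U ^ 2 := by nlinarith
  unfold brX
  split_ifs with h
  · have : 0 ≤ (π ^ 2 - 9 * X ^ 2) * (π ^ 2 - 9 * U ^ 2) / (4 * π ^ 2 - 9 * C ^ 2) ^ 2 := by
      have : 0 ≤ π ^ 2 - 9 * X ^ 2 := by linarith
      positivity
    linarith
  · push Not at h
    have hπ := pi_gt_d2
    have hp : 9.8 < π ^ 2 := by nlinarith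
    have h1 : 9 * X ^ 2 - π ^ 2 ≤ 1.5 := by linarith
    have h2 : π ^ 2 - 9 * U ^ 2 ≤ π ^ 2 := by nlinarith [sq_nonneg U]
    have h3 : 3 * π ^ 2 ≤ 4 * π ^ 2 - 9 * C ^ 2 := by linarith
    have h4 : (3 * π ^ 2) ^ 2 ≤ (4 * π ^ 2 - 9 * C ^ 2) ^ 2 :=
      pow_le_pow_left₀ (by positivity) h3 2
    have h5 : (9 * X ^ 2 - π ^ 2) * (π ^ 2 - 9 * U ^ 2) ≤ 1.5 * π ^ 2 :=
      mul_le_mul h1 h2 hu (by norm_num)
    have h6 : 0 < (4 * π ^ 2 - 9 * C ^ 2) ^ 2 := lt_of_lt_of_le (by positivity) h4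
    rw [sub_nonneg, div_le_one h6]
    nlinarith

/-- the ratio of the third and the first bracket -/
theorem BB_ratio2 {X U C : ℝ} (hU : 0 ≤ U) (hUX : U < X) (hC : 0 < C)
    (hCC : 2 * C ^ 2 = X ^ 2 + U ^ 2) (hX : X ^ 2 ≤ 5 / 4) (h9 : 9 * C ^ 2 < π ^ 2) :
    BB X U C 1 * (81 * exp (-(104554 / 100000 * C ^ 2 + 822 / 10000 * C ^ 4)) *
      brX (X ^ 2) (U ^ 2) (C ^ 2) / deR (C ^ 2)) ≤ BB X U C 3 := by
  have h1 := BB1_le' hU hUX hC.le hCC hX h9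
  have ht := tau_le hC.le h9
  have hπ : 0 < π ^ 2 - 9 * C ^ 2 := by linarith
  have hπ1 : 0 < π ^ 2 - C ^ 2 := by nlinarith [sq_nonneg C]
  have hbr := brX_nonneg hU hUX hCC hX h9
  have h3 : sinc (3 * C) ^ 2 * (81 * ((X ^ 2 - U ^ 2) / 2) ^ 2 / (π ^ 2 - 9 * C ^ 2) ^ 2) *
      brX (X ^ 2) (U ^ 2) (C ^ 2) ≤ BB X U C 3 := by
    unfold brX
    split_ifs with h
    · exact le_BB3 hU hUX hC.le hCC h
    · push Not at h
      exact le_BB3' hU hUX hC.le hCC hX h9 h.le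
  have hde : 0 < deR (C ^ 2) := by unfold deR; positivity
  set d := (X ^ 2 - U ^ 2) / 2 with hd
  set E := exp (-(52277 / 100000 * C ^ 2 + 411 / 10000 * C ^ 4)) with hE
  have hE2 : exp (-(104554 / 100000 * C ^ 2 + 822 / 10000 * C ^ 4)) = E ^ 2 := by
    rw [hE, ← exp_nat_mul]; congr 1; push_cast; ring
  rw [hE2]
  have hs : 0 ≤ sinc C := by
    have hC2 : C ≤ 12 / 10 := by
      have := pi_lt_d2
      have := pi_pos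
      nlinarith
    exact (sinc_pos' hC.le hC2).le
  have hEp : 0 < E := exp_pos _
  have ht2 : (sinc C * ((π ^ 2 - 9 * C ^ 2) / (π ^ 2 - C ^ 2)) * E) ^ 2 ≤ sinc (3 * C) ^ 2 :=
    pow_le_pow_left₀ (by positivity) ht 2
  calc BB X U C 1 * (81 * E ^ 2 * brX (X ^ 2) (U ^ 2) (C ^ 2) / deR (C ^ 2))
      ≤ (sinc C ^ 2 * (d ^ 2 / (π ^ 2 - C ^ 2) ^ 2) * deR (C ^ 2)) *
        (81 * E ^ 2 * brX (X ^ 2) (U ^ 2) (C ^ 2) / deR (C ^ 2)) :=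
        mul_le_mul_of_nonneg_right h1 (by positivity)
    _ = (sinc C * ((π ^ 2 - 9 * C ^ 2) / (π ^ 2 - C ^ 2)) * E) ^ 2 *
        (81 * d ^ 2 / (π ^ 2 - 9 * C ^ 2) ^ 2) * brX (X ^ 2) (U ^ 2) (C ^ 2) := by
        have n1 := hπ.ne'
        have n2 := hπ1.ne'
        have n3 := hde.ne'
        generalize π ^ 2 - 9 * C ^ 2 = p9 at *
        generalize π ^ 2 - C ^ 2 = p1 at *
        generalize deR (C ^ 2) = de at *
        generalize brX (X ^ 2) (U ^ 2) (C ^ 2) = br at *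
        field_simp
    _ ≤ sinc (3 * C) ^ 2 * (81 * d ^ 2 / (π ^ 2 - 9 * C ^ 2) ^ 2) *
        brX (X ^ 2) (U ^ 2) (C ^ 2) := by gcongr
    _ ≤ BB X U C 3 := h3

/-- the exponent at a corner -/
noncomputable def EE (m : ℕ) (w lam v u : ℝ) : ℝ :=
  lam * (w - m * v - u) + 104554 / 100000 * ((v + u) / 2) + 822 / 10000 * ((v + u) / 2) ^ 2

theorem EE_anti {m : ℕ} {w lam v u u0 : ℝ} (hlam : 4 / 3 ≤ lam) (hu : u0 ≤ u) (hu1 : u ≤ 36 / 25)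
    (hv : v ≤ 36 / 25) : EE m w lam v u ≤ EE m w lam v u0 := by
  have h : EE m w lam v u0 - EE m w lam v u =
      (u - u0) * (lam - 104554 / 200000 - 822 / 40000 * (2 * v + u + u0)) := by unfold EE; ring
  have h2 : 0 ≤ (u - u0) * (lam - 104554 / 200000 - 822 / 40000 * (2 * v + u + u0)) := by
    apply mul_nonneg (by linarith)
    linarith
  linarith

theorem EE_conv {m : ℕ} {w lam v0 v1 u t : ℝ} (ht0 : 0 ≤ t) (ht1 : t ≤ 1) :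
    EE m w lam ((1 - t) * v0 + t * v1) u ≤
      (1 - t) * EE m w lam v0 u + t * EE m w lam v1 u := by
  have h : (1 - t) * EE m w lam v0 u + t * EE m w lam v1 u -
      EE m w lam ((1 - t) * v0 + t * v1) u =
      822 / 10000 * (t * (1 - t) * (v1 - v0) ^ 2 / 4) := by unfold EE; ring
  have h2 : 0 ≤ t * (1 - t) * (v1 - v0) ^ 2 :=
    mul_nonneg (mul_nonneg ht0 (by linarith)) (sq_nonneg _)
  linarith

/-- interpolation parameter for squares -/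
theorem exists_param {X X0 X1 : ℝ} (h0 : 0 ≤ X0) (hX0 : X0 ≤ X) (hX1 : X ≤ X1) :
    ∃ t : ℝ, 0 ≤ t ∧ t ≤ 1 ∧ X ^ 2 = (1 - t) * X0 ^ 2 + t * X1 ^ 2 := by
  have hXp : 0 ≤ X := h0.trans hX0
  have hX1p : 0 ≤ X1 := hXp.trans hX1
  by_cases hz : X1 ^ 2 = X0 ^ 2
  · refine ⟨0, le_rfl, zero_le_one, ?_⟩
    have e : X1 = X0 := by nlinarith [sq_nonneg (X1 - X0), sq_nonneg (X1 + X0)]
    have e' : X = X0 := le_antisymm (hX1.trans e.le) hX0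
    rw [e']; ring
  · have hlt : 0 < X1 ^ 2 - X0 ^ 2 := by
      have : X0 ^ 2 ≤ X1 ^ 2 := by nlinarith
      rcases this.lt_or_eq with h | h
      · linarith
      · exact absurd h.symm hz
    refine ⟨(X ^ 2 - X0 ^ 2) / (X1 ^ 2 - X0 ^ 2), div_nonneg (by nlinarith) hlt.le, ?_, ?_⟩
    · rw [div_le_one hlt]; nlinarith
    · field_simp; ring

/-- weighted geometric mean bound -/
theorem min_le_rpow {a b t : ℝ} (ha : 0 ≤ a) (hb : 0 ≤ b) (ht0 : 0 ≤ t) (ht1 : t ≤ 1)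
    {x : ℝ} (h : a ^ (1 - t) * b ^ t ≤ x) {e0 e1 : ℝ} (he0 : e0 ≤ a) (he1 : e1 ≤ b) :
    min e0 e1 ≤ x := by
  refine le_trans ?_ h
  rcases le_or_gt (min e0 e1) 0 with hneg | hp
  · exact hneg.trans (mul_nonneg (rpow_nonneg ha _) (rpow_nonneg hb _))
  · have f0 : min e0 e1 ≤ a := (min_le_left _ _).trans he0
    have f1 : min e0 e1 ≤ b := (min_le_right _ _).trans he1
    calc min e0 e1 = (min e0 e1) ^ (1 - t) * (min e0 e1) ^ t := by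
          rw [← rpow_add hp]; simp
      _ ≤ a ^ (1 - t) * b ^ t :=
          mul_le_mul (rpow_le_rpow hp.le f0 (by linarith)) (rpow_le_rpow hp.le f1 ht0)
            (rpow_nonneg hp.le _) (rpow_nonneg ha _)

theorem psi3_nonneg {y : ℝ} (hy : 0 ≤ y) (h9 : 9 * y ^ 2 ≤ π ^ 2) : 0 ≤ sinc (3 * y) / sinc y := by
  have hπ := pi_lt_d2
  have hπ0 := pi_pos
  have a1 : 0 < sinc y := sinc_pos' hy (by nlinarith)
  have a2 : 0 ≤ sinc (3 * y) := by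
    rcases eq_or_ne y 0 with rfl | hne
    · simp
    · rw [sinc_of_ne_zero (by positivity)]
      apply div_nonneg _ (by positivity)
      apply sin_nonneg_of_nonneg_of_le_pi (by positivity)
      nlinarith
  exact div_nonneg a2 a1.le

theorem corner2 {m : ℕ} {w lam X U X0 X1 U0 e0 e1 : ℝ} (hlam : 4 / 3 ≤ lam)
    (h0 : 0 ≤ X0) (hX0 : X0 ≤ X) (hX1 : X ≤ X1) (hX1' : X1 ≤ 12 / 10) (hU0 : 0 ≤ U0) (hU : U0 ≤ U)
    (hUX : U ≤ 6 / 5) (h9 : 9 * X1 ^ 2 ≤ π ^ 2 ∨ m = 1)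
    (he0 : e0 ≤ exp (-EE m w lam (X0 ^ 2) (U0 ^ 2)) * (sinc (3 * X0) / sinc X0) ^ (m - 1))
    (he1 : e1 ≤ exp (-EE m w lam (X1 ^ 2) (U0 ^ 2)) * (sinc (3 * X1) / sinc X1) ^ (m - 1)) :
    min e0 e1 ≤ exp (-EE m w lam (X ^ 2) (U ^ 2)) * (sinc (3 * X) / sinc X) ^ (m - 1) := by
  have hXp : 0 ≤ X := h0.trans hX0
  have hX1p : 0 ≤ X1 := hXp.trans hX1
  have hX' : X ≤ 12 / 10 := hX1.trans hX1'
  obtain ⟨t, ht0, ht1, hX2⟩ := exists_param h0 hX0 hX1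
  -- exponents
  have hE : EE m w lam (X ^ 2) (U ^ 2) ≤
      (1 - t) * EE m w lam (X0 ^ 2) (U0 ^ 2) + t * EE m w lam (X1 ^ 2) (U0 ^ 2) := by
    have a1 : EE m w lam (X ^ 2) (U ^ 2) ≤ EE m w lam (X ^ 2) (U0 ^ 2) :=
      EE_anti hlam (by nlinarith) (by nlinarith) (by nlinarith)
    have a2 : EE m w lam (X ^ 2) (U0 ^ 2) ≤
        (1 - t) * EE m w lam (X0 ^ 2) (U0 ^ 2) + t * EE m w lam (X1 ^ 2) (U0 ^ 2) := by
      rw [hX2]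
      exact EE_conv ht0 ht1
    exact a1.trans a2
  have c1 : (exp (-EE m w lam (X0 ^ 2) (U0 ^ 2))) ^ (1 - t) *
      (exp (-EE m w lam (X1 ^ 2) (U0 ^ 2))) ^ t ≤ exp (-EE m w lam (X ^ 2) (U ^ 2)) := by
    rw [← exp_mul, ← exp_mul, ← exp_add]
    apply exp_le_exp.mpr
    linarith [hE]
  rcases h9 with h9 | hm1
  · have h90 : 9 * X0 ^ 2 ≤ π ^ 2 := by nlinarith
    have h9X : 9 * X ^ 2 ≤ π ^ 2 := by nlinarith
    have hch := psi3_chord h0 hX1p hXp h90 h9 ht0 ht1 hX2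
    have hp0 := psi3_nonneg h0 h90
    have hp1 := psi3_nonneg hX1p h9
    refine min_le_rpow (by positivity) (by positivity) ht0 ht1 ?_ he0 he1
    rw [mul_rpow (exp_pos _).le (pow_nonneg hp0 _), mul_rpow (exp_pos _).le (pow_nonneg hp1 _)]
    have c2 : ((sinc (3 * X0) / sinc X0) ^ (m - 1)) ^ (1 - t) *
        ((sinc (3 * X1) / sinc X1) ^ (m - 1)) ^ t ≤ (sinc (3 * X) / sinc X) ^ (m - 1) := by
      have d : ∀ y s : ℝ, 0 ≤ y → (y ^ (m - 1)) ^ s = (y ^ s) ^ (m - 1) := by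
        intro y s hy
        rw [← rpow_natCast, ← rpow_mul hy, mul_comm, rpow_mul hy, rpow_natCast]
      rw [d _ _ hp0, d _ _ hp1, ← mul_pow]
      exact pow_le_pow_left₀ (mul_nonneg (rpow_nonneg hp0 _) (rpow_nonneg hp1 _)) hch _
    calc _ = ((exp (-EE m w lam (X0 ^ 2) (U0 ^ 2))) ^ (1 - t) *
        (exp (-EE m w lam (X1 ^ 2) (U0 ^ 2))) ^ t) *
        (((sinc (3 * X0) / sinc X0) ^ (m - 1)) ^ (1 - t) *
        ((sinc (3 * X1) / sinc X1) ^ (m - 1)) ^ t) := by ring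
      _ ≤ _ := mul_le_mul c1 c2 (mul_nonneg (rpow_nonneg (pow_nonneg hp0 _) _)
          (rpow_nonneg (pow_nonneg hp1 _) _)) (exp_pos _).le
  · subst hm1
    simp only [Nat.sub_self, pow_zero, mul_one] at he0 he1 ⊢
    exact min_le_rpow (exp_pos _).le (exp_pos _).le ht0 ht1 c1 he0 he1

/-- the factor of an extra coordinate -/
theorem cornerQ {lam Q Q0 Q1 e0 e1 : ℝ} (h0 : 0 ≤ Q0) (hQ0 : Q0 ≤ Q) (hQ1 : Q ≤ Q1)
    (h9 : 9 * Q1 ^ 2 ≤ π ^ 2) (he0 : e0 ≤ sinc (3 * Q0) / sinc Q0)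
    (he1 : e1 ≤ sinc (3 * Q1) / sinc Q1 * exp (lam * (Q1 ^ 2 - Q0 ^ 2))) :
    min e0 e1 ≤ sinc (3 * Q) / sinc Q * exp (lam * (Q ^ 2 - Q0 ^ 2)) := by
  have hQp : 0 ≤ Q := h0.trans hQ0
  have hQ1p : 0 ≤ Q1 := hQp.trans hQ1
  obtain ⟨t, ht0, ht1, hQ2⟩ := exists_param h0 hQ0 hQ1
  have h90 : 9 * Q0 ^ 2 ≤ π ^ 2 := by nlinarith
  have hch := psi3_chord h0 hQ1p hQp h90 h9 ht0 ht1 hQ2
  have hp0 := psi3_nonneg h0 h90
  have hp1 := psi3_nonneg hQ1p h9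
  refine min_le_rpow hp0 (mul_nonneg hp1 (exp_pos _).le) ht0 ht1 ?_ he0 he1
  rw [mul_rpow hp1 (exp_pos _).le, ← exp_mul, ← mul_assoc]
  have e : lam * (Q ^ 2 - Q0 ^ 2) = lam * (Q1 ^ 2 - Q0 ^ 2) * t := by rw [hQ2]; ring
  rw [e]
  exact mul_le_mul_of_nonneg_right hch (exp_pos _).le

/-- `sinc (3 y) / sinc y = 1 - 4/3 sin² y` -/
theorem psi3_eq {y : ℝ} (hy : 0 < y) (hy1 : y ≤ 12 / 10) :
    sinc (3 * y) / sinc y = 1 - 4 / 3 * sin y ^ 2 := by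
  have h := sinc_pos' hy.le hy1
  have hs : 0 < sin y := by
    rw [sinc_of_ne_zero hy.ne'] at h
    by_contra hcon
    push Not at hcon
    have := div_nonpos_of_nonpos_of_nonneg hcon hy.le
    linarith
  rw [sinc_of_ne_zero (by positivity), sinc_of_ne_zero hy.ne', sin_three_mul]
  field_simp

theorem p3_nonneg (X : ℚ) : 0 ≤ p3 X := le_max_left _ _

theorem p3_le {X : ℚ} (h0 : 0 ≤ X) (h1 : X ≤ 12 / 10) (h9 : 9 * (X : ℝ) ^ 2 ≤ π ^ 2) :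
    ((p3 X : ℚ) : ℝ) ≤ sinc (3 * (X : ℝ)) / sinc (X : ℝ) := by
  have h0' : (0:ℝ) ≤ (X : ℝ) := by exact_mod_cast h0
  have h1' : (X : ℝ) ≤ 12 / 10 := by
    have : ((X : ℚ) : ℝ) ≤ ((12 / 10 : ℚ) : ℝ) := by exact_mod_cast h1
    simpa using this
  have hn := psi3_nonneg h0' h9
  unfold p3
  push_cast
  apply max_le hn
  rcases h0'.eq_or_lt with h | h
  · rw [← h]
    simp
    positivity
  · rw [psi3_eq h h1']
    have ha := aSin_sound h0 (by linarith)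
    have := pow_le_pow_left₀ (abs_nonneg _) ha 2
    rw [sq_abs] at this
    linarith

theorem eCor_nonneg (m : ℕ) (w lam X u0 : ℚ) : 0 ≤ eCor m w lam X u0 := by
  unfold eCor
  apply mul_nonneg (eLoF_nonneg _)
  split_ifs
  · norm_num
  · exact pow_nonneg (p3_nonneg _) _

theorem eCor_le {m : ℕ} {w lam X u0 : ℚ} (hm : 1 ≤ m) (h0 : 0 ≤ X) (h1 : X ≤ 12 / 10)
    (h9 : 9 * (X : ℝ) ^ 2 ≤ π ^ 2 ∨ m = 1) :
    ((eCor m w lam X u0 : ℚ) : ℝ) ≤ exp (-EE m w lam ((X : ℝ) ^ 2) u0) *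
      (sinc (3 * (X : ℝ)) / sinc (X : ℝ)) ^ (m - 1) := by
  unfold eCor
  set E : ℚ := lam * (w - m * X ^ 2 - u0) + 104554 / 100000 * ((X ^ 2 + u0) / 2) +
    822 / 10000 * ((X ^ 2 + u0) / 2) ^ 2 with hE
  have hEE : EE m w lam ((X : ℝ) ^ 2) u0 = ((E : ℚ) : ℝ) := by
    rw [hE]; unfold EE; push_cast; ring
  have hup : 0 ≤ up (max 0 E) := (le_max_left 0 E).trans (le_up _)
  have a1 : ((eLoF (up (max 0 E)) : ℚ) : ℝ) ≤ exp (-EE m w lam ((X : ℝ) ^ 2) u0) := by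
    refine (eLoF_sound hup).trans ?_
    apply exp_le_exp.mpr
    rw [hEE]
    apply neg_le_neg
    have : E ≤ up (max 0 E) := (le_max_right _ _).trans (le_up _)
    exact_mod_cast this
  rw [Rat.cast_mul]
  apply mul_le_mul a1 _ _ (exp_pos _).le
  · split_ifs with h
    · subst h; simp
    · rw [Rat.cast_pow]
      rcases h9 with h9 | h9
      · exact pow_le_pow_left₀ (by exact_mod_cast p3_nonneg X) (p3_le h0 h1 h9) _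
      · exact absurd h9 h
  · have : 0 ≤ (if m = 1 then (1:ℚ) else p3 X ^ (m - 1)) := by
      split_ifs
      · norm_num
      · exact pow_nonneg (p3_nonneg _) _
    exact_mod_cast this

theorem qCor_nonneg (n : ℕ) {lam Q0 Q1 : ℚ} (hl : 0 ≤ lam) (h0 : 0 ≤ Q0) (h1 : Q0 ≤ Q1) :
    0 ≤ qCor n lam Q0 Q1 := by
  unfold qCor
  split_ifs
  · norm_num
  · apply pow_nonneg
    apply le_min (p3_nonneg _)
    apply mul_nonneg (p3_nonneg _)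
    have : 0 ≤ Q1 ^ 2 - Q0 ^ 2 := by nlinarith
    positivity

theorem qCor_le {n : ℕ} {lam Q0 Q1 : ℚ} {Q : ℝ} (hl : 0 ≤ lam) (h0 : 0 ≤ Q0)
    (hQ0 : (Q0 : ℝ) ≤ Q) (hQ1 : Q ≤ (Q1 : ℝ)) (h9 : 9 * Q1 ^ 2 ≤ PL) :
    ((qCor n lam Q0 Q1 : ℚ) : ℝ) ≤
      (sinc (3 * Q) / sinc Q * exp (lam * (Q ^ 2 - (Q0 : ℝ) ^ 2))) ^ n := by
  have h01 : Q0 ≤ Q1 := by exact_mod_cast hQ0.trans hQ1
  have hπ := PL_lt
  have h9' : 9 * (Q1 : ℝ) ^ 2 ≤ π ^ 2 := by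
    have : ((9 * Q1 ^ 2 : ℚ) : ℝ) ≤ ((PL : ℚ) : ℝ) := by exact_mod_cast h9
    push_cast at this
    linarith
  have hQ1' : Q1 ≤ 12 / 10 := by
    have hPL : PL = 98696 / 10000 := rfl
    rw [hPL] at h9
    nlinarith
  have h0' : (0:ℝ) ≤ (Q0 : ℝ) := by exact_mod_cast h0
  have h90 : 9 * (Q0 : ℝ) ^ 2 ≤ π ^ 2 := by nlinarith [hQ0.trans hQ1]
  unfold qCor
  split_ifs with h
  · subst h; simp
  · rw [Rat.cast_pow, Rat.cast_min]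
    have e0 := p3_le h0 (h01.trans hQ1') h90
    have e1 : ((p3 Q1 * (1 + lam * (Q1 ^ 2 - Q0 ^ 2)) : ℚ) : ℝ) ≤
        sinc (3 * (Q1 : ℝ)) / sinc (Q1 : ℝ) * exp (lam * ((Q1 : ℝ) ^ 2 - (Q0 : ℝ) ^ 2)) := by
      have a1 := p3_le (h0.trans h01) hQ1' h9'
      have a2 := add_one_le_exp (lam * ((Q1 : ℝ) ^ 2 - (Q0 : ℝ) ^ 2))
      have hl' : (0:ℝ) ≤ (lam : ℝ) := by exact_mod_cast hl
      have a3 : 0 ≤ (lam : ℝ) * ((Q1 : ℝ) ^ 2 - (Q0 : ℝ) ^ 2) :=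
        mul_nonneg hl' (by nlinarith [hQ0.trans hQ1])
      push_cast
      have a0 : (0:ℝ) ≤ ((p3 Q1 : ℚ) : ℝ) := by exact_mod_cast p3_nonneg Q1
      exact mul_le_mul a1 (by linarith) (by linarith) (a0.trans a1)
    have hc := cornerQ h0' hQ0 hQ1 h9' e0 e1
    apply pow_le_pow_left₀ _ hc
    apply le_min
    · exact_mod_cast p3_nonneg Q0
    · have : 0 ≤ p3 Q1 * (1 + lam * (Q1 ^ 2 - Q0 ^ 2)) := by
        apply mul_nonneg (p3_nonneg _)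
        have : 0 ≤ Q1 ^ 2 - Q0 ^ 2 := by nlinarith
        positivity
      exact_mod_cast this

theorem brQ_le {b : Bx} {X U Q C : ℝ} {c0 c1 : ℚ} (hb : Reg b X U Q C c0 c1)
    (h9 : 9 * C ^ 2 < π ^ 2) :
    ((brQ (b.X1 ^ 2) (b.U0 ^ 2) (b.U1 ^ 2) ((b.X0 ^ 2 + b.U0 ^ 2) / 2)
      ((b.X1 ^ 2 + b.U1 ^ 2) / 2) : ℚ) : ℝ) ≤ brX (X ^ 2) (U ^ 2) (C ^ 2) := by
  have hL := PL_lt
  have hH := lt_PH
  have x0 : (0:ℝ) ≤ (b.X0 : ℝ) := by exact_mod_cast hb.x0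
  have u0 : (0:ℝ) ≤ (b.U0 : ℝ) := by exact_mod_cast hb.u0
  have hx0 := hb.hx0
  have hx1 := hb.hx1
  have hu0 := hb.hu0
  have hu1 := hb.hu1
  have hxu : 9 * ((b.X1 : ℝ) ^ 2 + (b.U1 : ℝ) ^ 2) < 2 * ((PL : ℚ) : ℝ) := by
    exact_mod_cast hb.xu
  have hUX := hb.hUX
  have hCC := hb.hCC
  have X2 : X ^ 2 ≤ (b.X1 : ℝ) ^ 2 := pow_le_pow_left₀ (x0.trans hx0) hx1 2
  have X2' : (b.X0 : ℝ) ^ 2 ≤ X ^ 2 := pow_le_pow_left₀ x0 hx0 2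
  have U2 : U ^ 2 ≤ (b.U1 : ℝ) ^ 2 := pow_le_pow_left₀ (u0.trans hu0) hu1 2
  have U2' : (b.U0 : ℝ) ^ 2 ≤ U ^ 2 := pow_le_pow_left₀ u0 hu0 2
  have UX2 : U ^ 2 ≤ X ^ 2 := pow_le_pow_left₀ (u0.trans hu0) hUX.le 2
  have hX1sq : (b.X1 : ℝ) ^ 2 ≤ 125 / 100 := by
    have : ((b.X1 ^ 2 : ℚ) : ℝ) ≤ ((125 / 100 : ℚ) : ℝ) := by exact_mod_cast hb.x1
    push_cast at this
    exact this
  have hπ3 : 9 < π ^ 2 := by nlinarith [pi_gt_three]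
  unfold brQ brX
  by_cases hq : 9 * b.X1 ^ 2 ≤ PL
  · have hq' : 9 * (b.X1 : ℝ) ^ 2 ≤ ((PL : ℚ) : ℝ) := by exact_mod_cast hq
    rw [if_pos hq, if_pos (by linarith)]
    push_cast
    have hd : 0 < 4 * π ^ 2 - 9 * C ^ 2 := by linarith
    have hd2 : 4 * π ^ 2 - 9 * C ^ 2 ≤ 4 * ((PH : ℚ) : ℝ) -
        9 * (((b.X0 : ℝ) ^ 2 + (b.U0 : ℝ) ^ 2) / 2) := by linarith
    have hd3 : (4 * π ^ 2 - 9 * C ^ 2) ^ 2 ≤ (4 * ((PH : ℚ) : ℝ) -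
        9 * (((b.X0 : ℝ) ^ 2 + (b.U0 : ℝ) ^ 2) / 2)) ^ 2 := pow_le_pow_left₀ hd.le hd2 2
    have hd4 : 0 < (4 * π ^ 2 - 9 * C ^ 2) ^ 2 := by positivity
    have hn : 0 ≤ (π ^ 2 - 9 * X ^ 2) * (π ^ 2 - 9 * U ^ 2) :=
      mul_nonneg (by linarith) (by linarith)
    rw [add_le_add_iff_left]
    rcases le_or_gt ((((PL : ℚ) : ℝ) - 9 * (b.X1 : ℝ) ^ 2) *
      (((PL : ℚ) : ℝ) - 9 * (b.U1 : ℝ) ^ 2)) 0 with hneg | hpos
    · exact (div_nonpos_of_nonpos_of_nonneg hneg (sq_nonneg _)).trans (div_nonneg hn hd4.le)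
    · have a1 : 0 ≤ ((PL : ℚ) : ℝ) - 9 * (b.X1 : ℝ) ^ 2 := by linarith
      have a2 : 0 ≤ ((PL : ℚ) : ℝ) - 9 * (b.U1 : ℝ) ^ 2 := by
        by_contra hcon
        push Not at hcon
        nlinarith
      have hm : (((PL : ℚ) : ℝ) - 9 * (b.X1 : ℝ) ^ 2) * (((PL : ℚ) : ℝ) - 9 * (b.U1 : ℝ) ^ 2) ≤
          (π ^ 2 - 9 * X ^ 2) * (π ^ 2 - 9 * U ^ 2) :=
        mul_le_mul (by linarith) (by linarith) a2 (by linarith)
      exact div_le_div₀ hn hm hd4 hd3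
  · have hq' : ((PL : ℚ) : ℝ) < 9 * (b.X1 : ℝ) ^ 2 := by
      push Not at hq
      exact_mod_cast hq
    rw [if_neg hq]
    push_cast
    have hd : 0 < 4 * ((PL : ℚ) : ℝ) - 9 * (((b.X1 : ℝ) ^ 2 + (b.U1 : ℝ) ^ 2) / 2) := by
      have : ((PL : ℚ) : ℝ) = 9.8696 := by unfold PL; norm_num
      linarith
    have hd2 : 4 * ((PL : ℚ) : ℝ) - 9 * (((b.X1 : ℝ) ^ 2 + (b.U1 : ℝ) ^ 2) / 2) ≤
        4 * π ^ 2 - 9 * C ^ 2 := by linarith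
    have hd3 := pow_le_pow_left₀ hd.le hd2 2
    have hd4 := pow_pos hd 2
    have n1 : 0 ≤ ((PH : ℚ) : ℝ) - 9 * (b.U0 : ℝ) ^ 2 := by linarith
    have n2 : 0 ≤ 9 * (b.X1 : ℝ) ^ 2 - ((PL : ℚ) : ℝ) := by linarith
    apply max_le
    · have := brX_nonneg (u0.trans hu0) hUX hCC (X2.trans (hX1sq.trans (by norm_num))) h9
      unfold brX at this
      exact this
    · split_ifs with h
      · have e1 : 0 ≤ 4 / 3 * ((9 * (b.X1 : ℝ) ^ 2 - ((PL : ℚ) : ℝ)) *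
            (((PH : ℚ) : ℝ) - 9 * (b.U0 : ℝ) ^ 2)) /
            (4 * ((PL : ℚ) : ℝ) - 9 * (((b.X1 : ℝ) ^ 2 + (b.U1 : ℝ) ^ 2) / 2)) ^ 2 := by positivity
        have e2 : 0 ≤ (π ^ 2 - 9 * X ^ 2) * (π ^ 2 - 9 * U ^ 2) / (4 * π ^ 2 - 9 * C ^ 2) ^ 2 := by
          apply div_nonneg _ (sq_nonneg _)
          exact mul_nonneg (by linarith) (by linarith)
        linarith
      · push Not at h
        apply sub_le_sub_left
        apply div_le_div₀ (by positivity) _ hd4 hd3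
        apply mul_le_mul_of_nonneg_left _ (by norm_num)
        exact mul_le_mul (by linarith) (by linarith) (by linarith) n2

theorem le_deQ {b : Bx} {X U Q C : ℝ} {c0 c1 : ℚ} (hb : Reg b X U Q C c0 c1)
    (h9 : 9 * C ^ 2 < π ^ 2) :
    deR (C ^ 2) ≤ ((deQ ((b.X0 ^ 2 + b.U0 ^ 2) / 2) : ℚ) : ℝ) := by
  have hH := lt_PH
  have hHv : ((PH : ℚ) : ℝ) = 9.8697 := by unfold PH; norm_num
  have x0 : (0:ℝ) ≤ (b.X0 : ℝ) := by exact_mod_cast hb.x0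
  have u0 : (0:ℝ) ≤ (b.U0 : ℝ) := by exact_mod_cast hb.u0
  have hx0 := hb.hx0
  have hu0 := hb.hu0
  have hCC := hb.hCC
  have X2' : (b.X0 : ℝ) ^ 2 ≤ X ^ 2 := pow_le_pow_left₀ x0 hx0 2
  have U2' : (b.U0 : ℝ) ^ 2 ≤ U ^ 2 := pow_le_pow_left₀ u0 hu0 2
  unfold deR deQ
  push_cast
  set s := C ^ 2 with hs
  set s0 := ((b.X0 : ℝ) ^ 2 + (b.U0 : ℝ) ^ 2) / 2 with hs0
  have h0 : 0 ≤ s0 := by positivity
  have h1 : s0 ≤ s := by linarith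
  have hs1 : s < 1.1 := by linarith
  have key : (1 + 55 / 1000 * s) * (π ^ 2 - s) ^ 2 ≤
      (1 + 55 / 1000 * s0) * (((PH : ℚ) : ℝ) - s0) ^ 2 := by
    have a1 : (1 + 55 / 1000 * s) * (π ^ 2 - s) ^ 2 ≤
        (1 + 55 / 1000 * s) * (((PH : ℚ) : ℝ) - s) ^ 2 := by
      apply mul_le_mul_of_nonneg_left _ (by linarith)
      apply pow_le_pow_left₀ (by linarith) (by linarith)
    refine a1.trans ?_
    rw [hHv]
    nlinarith [mul_nonneg (sub_nonneg.mpr h1) h0, mul_nonneg (sub_nonneg.mpr h1) (h0.trans h1),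
      mul_nonneg (mul_nonneg (sub_nonneg.mpr h1) h0) (h0.trans h1),
      mul_nonneg (sub_nonneg.mpr h1) (sub_nonneg.mpr hs1.le), sq_nonneg (s - s0),
      mul_nonneg (mul_nonneg (sub_nonneg.mpr h1) (h0.trans h1)) (h0.trans h1),
      mul_nonneg (mul_nonneg (sub_nonneg.mpr h1) h0) h0]
  nlinarith

theorem lamQ_ge {rho : ℚ} (h : 0 ≤ rho) : 4 / 3 ≤ lamQ rho := by
  unfold lamQ
  have := pow_nonneg h 2
  have := pow_nonneg h 3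
  linarith

theorem BB1_nonneg {X U C : ℝ} (hU : 0 ≤ U) (hUX : U < X) (hC : 0 < C)
    (hCC : 2 * C ^ 2 = X ^ 2 + U ^ 2) (hX : X ^ 2 ≤ 5 / 4) : 0 ≤ BB X U C 1 := by
  unfold BB
  rw [one_mul, one_mul, one_mul]
  apply sub_nonneg_of_le hU hUX.le hC.le hCC
  nlinarith [pi_gt_three]

theorem third2 {m n : ℕ} {w X U Q C : ℝ} {R : List ℝ} (h : Cfg2 m n w X U Q C R) {b : Bx}
    {c0 c1 : ℚ} (hb : Reg b X U Q C c0 c1) {wq rho : ℚ} (hw : (wq : ℝ) = w)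
    (hrho : ∀ x ∈ R, x ^ 2 ≤ (rho : ℝ)) (hrho0 : 0 ≤ rho) (hrho1 : rho ≤ 56 / 100)
    (h2 : 9 * b.X1 ^ 2 ≤ PL ∨ m = 1) (h4 : 9 * b.Q1 ^ 2 ≤ PL) :
    ((gQ m n wq (lamQ rho) b : ℚ) : ℝ) * FF m n X U Q C R 1 ≤ FF m n X U Q C R 3 / 3 := by
  have hL := PL_lt
  have x0 : (0:ℝ) ≤ (b.X0 : ℝ) := by exact_mod_cast hb.x0
  have u0 : (0:ℝ) ≤ (b.U0 : ℝ) := by exact_mod_cast hb.u0
  have hUX : U ≤ 6 / 5 := by linarith [h.X_le, h.hUX]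
  have hlamq := lamQ_ge hrho0
  set lam : ℚ := lamQ rho with hlamdef
  have hlam : (4 / 3 : ℝ) ≤ ((lam : ℚ) : ℝ) := by
    have : ((4 / 3 : ℚ) : ℝ) ≤ ((lam : ℚ) : ℝ) := by exact_mod_cast hlamq
    push_cast at this
    exact this
  have hlam0 : (0:ℚ) ≤ lam := by linarith
  have hX1' : b.X1 ≤ 12 / 10 := by nlinarith [hb.x1]
  have hX1R : (b.X1 : ℝ) ≤ 12 / 10 := by
    have : ((b.X1 : ℚ) : ℝ) ≤ ((12 / 10 : ℚ) : ℝ) := by exact_mod_cast hX1'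
    push_cast at this
    exact this
  have hX01 : (b.X0 : ℝ) ≤ (b.X1 : ℝ) := hb.hx0.trans hb.hx1
  have hX01q : b.X0 ≤ b.X1 := by exact_mod_cast hX01
  have h2' : 9 * (b.X1 : ℝ) ^ 2 ≤ π ^ 2 ∨ m = 1 := by
    rcases h2 with h2 | h2
    · left
      have : ((9 * b.X1 ^ 2 : ℚ) : ℝ) ≤ ((PL : ℚ) : ℝ) := by exact_mod_cast h2
      push_cast at this
      linarith
    · exact Or.inr h2
  have h20 : 9 * (b.X0 : ℝ) ^ 2 ≤ π ^ 2 ∨ m = 1 := by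
    rcases h2' with h2' | h2'
    · left; nlinarith
    · exact Or.inr h2'
  have he0 := eCor_le (m := m) (w := wq - n * b.Q0 ^ 2) (lam := lam) (X := b.X0) (u0 := b.U0 ^ 2)
    h.hm hb.x0 (hX01q.trans hX1') h20
  have he1 := eCor_le (m := m) (w := wq - n * b.Q0 ^ 2) (lam := lam) (X := b.X1) (u0 := b.U0 ^ 2)
    h.hm (hb.x0.trans hX01q) hX1' h2'
  have eu : ((b.U0 ^ 2 : ℚ) : ℝ) = (b.U0 : ℝ) ^ 2 := by push_cast; rfl
  rw [eu] at he0 he1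
  have hc := corner2 hlam x0 hb.hx0 hb.hx1 hX1R u0 hb.hu0 hUX h2' he0 he1
  have hq := qCor_le (n := n) hlam0 hb.q0 hb.hq0 hb.hq1 h4
  have hq0 := qCor_nonneg n hlam0 hb.q0 (by exact_mod_cast hb.hq0.trans hb.hq1 : b.Q0 ≤ b.Q1)
  have hbr := brQ_le hb h.h9
  have hde := le_deQ hb h.h9
  have hR := BB_ratio2 h.hU h.hUX h.hC h.hCC h.hX h.h9
  have hbrn := brX_nonneg h.hU h.hUX h.hCC h.hX h.h9
  have hB := BB1_nonneg h.hU h.hUX h.hC h.hCC h.hX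
  have hPP : exp (-((lam : ℝ) * MM R)) * PP R 1 ≤ PP R 3 := by
    apply exp_mul_PP_le h.sinc_R
    intro x hx
    have hr1 : (rho : ℝ) ≤ 56 / 100 := by
      have : ((rho : ℚ) : ℝ) ≤ ((56 / 100 : ℚ) : ℝ) := by exact_mod_cast hrho1
      push_cast at this
      exact this
    have := psi3_rest (h.hR x hx).1 (hrho x hx) hr1
    rw [hlamdef]
    unfold lamQ
    push_cast
    exact this
  have hdepos : 0 < deR (C ^ 2) := by unfold deR; positivity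
  unfold gQ
  set br : ℚ := brQ (b.X1 ^ 2) (b.U0 ^ 2) (b.U1 ^ 2) ((b.X0 ^ 2 + b.U0 ^ 2) / 2)
      ((b.X1 ^ 2 + b.U1 ^ 2) / 2) with hbrdef
  set de : ℚ := deQ ((b.X0 ^ 2 + b.U0 ^ 2) / 2) with hdedef
  set e0 : ℚ := eCor m (wq - n * b.Q0 ^ 2) lam b.X0 (b.U0 ^ 2) with he0def
  set e1 : ℚ := eCor m (wq - n * b.Q0 ^ 2) lam b.X1 (b.U0 ^ 2) with he1def
  set qc : ℚ := qCor n lam b.Q0 b.Q1 with hqcdef
  push_cast
  rw [FF_eq, FF_eq, one_mul, one_mul]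
  have hs := h.sinc_X
  have hsq := h.sinc_Q
  have hPPp := h.PP_pos
  have hXpos := h.X0
  set ps := sinc (3 * X) / sinc X with hps
  have hps' : sinc (3 * X) = ps * sinc X := by rw [hps]; field_simp
  set pq := sinc (3 * Q) / sinc Q with hpq
  have hpq' : sinc (3 * Q) = pq * sinc Q := by rw [hpq]; field_simp
  set E := EE m (((wq - n * b.Q0 ^ 2 : ℚ) : ℝ)) (lam : ℝ) (X ^ 2) (U ^ 2) with hEdef
  set T := exp (-(104554 / 100000 * C ^ 2 + 822 / 10000 * C ^ 4)) with hT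
  have hTp : 0 < T := exp_pos _
  have hee : exp (-E) * exp ((lam : ℝ) * (Q ^ 2 - (b.Q0 : ℝ) ^ 2)) ^ n =
      exp (-((lam : ℝ) * MM R)) * T := by
    rw [← exp_nat_mul, ← exp_add, hT, ← exp_add]
    congr 1
    have e1 : (X ^ 2 + U ^ 2) / 2 = C ^ 2 := by linarith [h.hCC]
    rw [hEdef]
    unfold EE
    rw [h.hM, e1, ← hw]
    push_cast
    ring
  have he0n : (0:ℝ) ≤ ((e0 : ℚ) : ℝ) := by exact_mod_cast eCor_nonneg _ _ _ _ _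
  have he1n : (0:ℝ) ≤ ((e1 : ℚ) : ℝ) := by exact_mod_cast eCor_nonneg _ _ _ _ _
  have hminn : (0:ℝ) ≤ min ((e0 : ℚ) : ℝ) ((e1 : ℚ) : ℝ) := le_min he0n he1n
  have hqcn : (0:ℝ) ≤ ((qc : ℚ) : ℝ) := by exact_mod_cast hq0
  -- the product of the corner factors
  have hprod : min ((e0 : ℚ) : ℝ) ((e1 : ℚ) : ℝ) * ((qc : ℚ) : ℝ) ≤
      exp (-((lam : ℝ) * MM R)) * T * (ps ^ (m - 1) * pq ^ n) := by
    calc _ ≤ (exp (-E) * ps ^ (m - 1)) *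
          (pq * exp ((lam : ℝ) * (Q ^ 2 - (b.Q0 : ℝ) ^ 2))) ^ n :=
          mul_le_mul hc hq hqcn (hminn.trans hc)
      _ = exp (-E) * exp ((lam : ℝ) * (Q ^ 2 - (b.Q0 : ℝ) ^ 2)) ^ n * (ps ^ (m - 1) * pq ^ n) := by
          rw [mul_pow]; ring
      _ = _ := by rw [hee]
  have hdq : (0:ℝ) < ((de : ℚ) : ℝ) := hdepos.trans_le hde
  have hF1 : 0 ≤ sinc X ^ (m - 1) * sinc Q ^ n * PP R 1 * BB X U C 1 := by positivity
  have step1 : 27 * (min ((e0 : ℚ) : ℝ) ((e1 : ℚ) : ℝ) * ((qc : ℚ) : ℝ)) * ((br : ℚ) : ℝ) /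
      ((de : ℚ) : ℝ) ≤ 27 * (exp (-((lam : ℝ) * MM R)) * T * (ps ^ (m - 1) * pq ^ n)) *
      brX (X ^ 2) (U ^ 2) (C ^ 2) / deR (C ^ 2) := by
    have hp0 : 0 ≤ min ((e0 : ℚ) : ℝ) ((e1 : ℚ) : ℝ) * ((qc : ℚ) : ℝ) := mul_nonneg hminn hqcn
    apply div_le_div₀ _ _ hdepos hde
    · exact mul_nonneg (mul_nonneg (by norm_num) (hp0.trans hprod)) hbrn
    · calc _ ≤ 27 * (min ((e0 : ℚ) : ℝ) ((e1 : ℚ) : ℝ) * ((qc : ℚ) : ℝ)) *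
            brX (X ^ 2) (U ^ 2) (C ^ 2) :=
            mul_le_mul_of_nonneg_left hbr (mul_nonneg (by norm_num) hp0)
        _ ≤ _ := mul_le_mul_of_nonneg_right (mul_le_mul_of_nonneg_left hprod (by norm_num)) hbrn
  refine (mul_le_mul_of_nonneg_right step1 hF1).trans ?_
  have hpsn : 0 ≤ ps ^ (m - 1) * pq ^ n := by
    have h1 : 0 ≤ ps ^ (m - 1) := by
      rcases h2' with h2' | h2'
      · apply pow_nonneg
        apply psi3_nonneg hXpos.le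
        have : X ^ 2 ≤ (b.X1 : ℝ) ^ 2 := pow_le_pow_left₀ hXpos.le hb.hx1 2
        linarith
      · rw [h2']; simp
    exact mul_nonneg h1 (pow_nonneg (psi3_nonneg h.hQ h.hQ9) _)
  calc 27 * (exp (-((lam : ℝ) * MM R)) * T * (ps ^ (m - 1) * pq ^ n)) *
      brX (X ^ 2) (U ^ 2) (C ^ 2) / deR (C ^ 2) *
      (sinc X ^ (m - 1) * sinc Q ^ n * PP R 1 * BB X U C 1)
      = (ps ^ (m - 1) * pq ^ n) * (sinc X ^ (m - 1) * sinc Q ^ n) *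
        (exp (-((lam : ℝ) * MM R)) * PP R 1) *
        (BB X U C 1 * (81 * T * brX (X ^ 2) (U ^ 2) (C ^ 2) / deR (C ^ 2))) / 3 := by ring
    _ ≤ (ps ^ (m - 1) * pq ^ n) * (sinc X ^ (m - 1) * sinc Q ^ n) * PP R 3 * BB X U C 3 / 3 := by
        have hBR0 : 0 ≤ BB X U C 1 * (81 * T * brX (X ^ 2) (U ^ 2) (C ^ 2) / deR (C ^ 2)) := by
          positivity
        have hP3 : 0 ≤ PP R 3 := le_trans (by positivity) hPP
        gcongr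
    _ = sinc (3 * X) ^ (m - 1) * sinc (3 * Q) ^ n * PP R 3 * BB X U C 3 / 3 := by
        rw [hps', hpq', mul_pow, mul_pow]; ring

theorem first2 {m n : ℕ} {w X U Q C : ℝ} {R : List ℝ} (h : Cfg2 m n w X U Q C R) {b : Bx}
    {c0 c1 : ℚ} (hb : Reg b X U Q C c0 c1) :
    ((b1Q ((b.X0 ^ 2 + b.U0 ^ 2) / 2) ((b.X1 ^ 2 + b.U1 ^ 2) / 2) : ℚ) : ℝ) *
      (R1 m n X Q R * dd X U) ≤ FF m n X U Q C R 1 := by
  have hL := PL_lt
  have hH := lt_PH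
  have hHv : ((PH : ℚ) : ℝ) = 9.8697 := by unfold PH; norm_num
  have hLv : ((PL : ℚ) : ℝ) = 9.8696 := by unfold PL; norm_num
  have x0 : (0:ℝ) ≤ (b.X0 : ℝ) := by exact_mod_cast hb.x0
  have u0 : (0:ℝ) ≤ (b.U0 : ℝ) := by exact_mod_cast hb.u0
  have hCC := h.hCC
  have X2 : X ^ 2 ≤ (b.X1 : ℝ) ^ 2 := pow_le_pow_left₀ h.X0.le hb.hx1 2
  have X2' : (b.X0 : ℝ) ^ 2 ≤ X ^ 2 := pow_le_pow_left₀ x0 hb.hx0 2
  have U2 : U ^ 2 ≤ (b.U1 : ℝ) ^ 2 := pow_le_pow_left₀ h.hU hb.hu1 2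
  have U2' : (b.U0 : ℝ) ^ 2 ≤ U ^ 2 := pow_le_pow_left₀ u0 hb.hu0 2
  have hxu : 9 * ((b.X1 : ℝ) ^ 2 + (b.U1 : ℝ) ^ 2) < 2 * ((PL : ℚ) : ℝ) := by
    exact_mod_cast hb.xu
  have hB := le_BB1' h.hU h.hUX h.hC.le hCC h.hX h.h9
  rw [FF_eq, one_mul, one_mul]
  unfold b1Q
  push_cast
  set s := C ^ 2 with hs
  have e4 : C ^ 4 = s ^ 2 := by rw [hs]; ring
  have e6 : C ^ 6 = s ^ 3 := by rw [hs]; ring
  rw [e4, e6] at hB
  set s0 := ((b.X0 : ℝ) ^ 2 + (b.U0 : ℝ) ^ 2) / 2 with hs0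
  set s1 := ((b.X1 : ℝ) ^ 2 + (b.U1 : ℝ) ^ 2) / 2 with hs1
  have h00 : 0 ≤ s0 := by positivity
  have h0s : s0 ≤ s := by linarith
  have hss1 : s ≤ s1 := by linarith
  have hs1u : s1 < 1.1 := by linarith
  have hsn : 0 ≤ s := by positivity
  have p1 : 0 ≤ 1 - s1 / 6 + s1 ^ 2 / 120 - s1 ^ 3 / 5040 := by
    have : s1 ^ 3 ≤ 2 := by
      calc s1 ^ 3 ≤ 1.1 ^ 3 := pow_le_pow_left₀ (by linarith) hs1u.le 3
        _ ≤ 2 := by norm_num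
    nlinarith [sq_nonneg s1]
  have p2 : 1 - s1 / 6 + s1 ^ 2 / 120 - s1 ^ 3 / 5040 ≤ 1 - s / 6 + s ^ 2 / 120 - s ^ 3 / 5040 := by
    nlinarith [mul_nonneg (sub_nonneg.mpr hss1) (sub_nonneg.mpr hs1u.le),
      mul_nonneg (sub_nonneg.mpr hss1) hsn, mul_nonneg (mul_nonneg (sub_nonneg.mpr hss1) hsn) hsn,
      mul_nonneg (sub_nonneg.mpr hss1) (sq_nonneg s1), mul_nonneg (sub_nonneg.mpr hss1) (sq_nonneg s),
      mul_nonneg (mul_nonneg (sub_nonneg.mpr hss1) hsn) (hsn.trans hss1)]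
  have p3' := pow_le_pow_left₀ p1 p2 2
  have q1 : 0 < π ^ 2 - s := by linarith [h.h9]
  have q2 : π ^ 2 - s ≤ ((PH : ℚ) : ℝ) - s0 := by linarith
  have q3 := pow_le_pow_left₀ q1.le q2 2
  have q4 : 1 / (((PH : ℚ) : ℝ) - s0) ^ 2 ≤ 1 / (π ^ 2 - s) ^ 2 :=
    one_div_le_one_div_of_le (pow_pos q1 2) q3
  have hR1 := h.R1_pos
  have hddn : 0 ≤ dd X U := h.dd_pos.le
  have key : dd X U * ((1 - s1 / 6 + s1 ^ 2 / 120 - s1 ^ 3 / 5040) ^ 2 *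
      (1 / (((PH : ℚ) : ℝ) - s0) ^ 2 + 844 / 10 ^ 6) * (997 / 1000)) ≤ BB X U C 1 := by
    refine le_trans ?_ hB
    have : dd X U = ((X ^ 2 - U ^ 2) / 2) ^ 2 := rfl
    rw [← this]
    have a2 : 0 ≤ 1 / (((PH : ℚ) : ℝ) - s0) ^ 2 := by positivity
    gcongr
  calc _ = R1 m n X Q R * (dd X U * ((1 - s1 / 6 + s1 ^ 2 / 120 - s1 ^ 3 / 5040) ^ 2 *
      (1 / (((PH : ℚ) : ℝ) - s0) ^ 2 + 844 / 10 ^ 6) * (997 / 1000))) := by ring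
    _ ≤ R1 m n X Q R * BB X U C 1 := mul_le_mul_of_nonneg_left key hR1.le
    _ = _ := by unfold R1; ring

end Pool.Agent.Helper95.SP.Crude
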